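import Pool.Agent.T9h52.BT.Ex3

/-!
# Brun–Titchmarsh outside the multiples of a single modulus, conclusion
-/

set_option autoImplicit false

namespace Pool.Agent.T9h52.BT.Ex

open Finset Filter
open Pool.Agent.T9h52.BT.Inv

/-- a primitive real character of large prime modulus -/
lemma exists_prim (n : ℕ) : ∃ (q : ℕ) (χ : DirichletCharacter ℤ q), n < q ∧ χ.IsPrimitive := by
  obtain ⟨p, hp1, hp⟩ := Nat.exists_infinite_primes (n + 3)
  haveI : Fact p.Prime := ⟨hp⟩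
  haveI : NeZero p := ⟨hp.ne_zero⟩
  refine ⟨p, quadraticChar (ZMod p), by omega, ?_⟩
  have h1 : (quadraticChar (ZMod p) : DirichletCharacter ℤ p) ≠ 1 := by
    refine quadraticChar_ne_one ?_
    rw [ZMod.ringChar_zmod_n]
    omega
  rw [DirichletCharacter.isPrimitive_def]
  have h2 := DirichletCharacter.conductor_dvd_level (quadraticChar (ZMod p))
  rcases (Nat.dvd_prime hp).1 h2 with h3 | h3
  · exact absurd (DirichletCharacter.eq_one_iff_conductor_eq_one.2 h3) h1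
  · exact h3

theorem one_modulus (ε : ℝ) (hε : 0 < ε) : ∃ δ : ℝ, 0 < δ ∧ ∀ B : ℕ, ∃ X₀ : ℝ, ∀ X : ℝ, X₀ ≤ X →
    ∃ (q : ℕ) (ψ : DirichletCharacter ℤ q), (Real.log X) ^ B < q ∧ ψ.IsPrimitive ∧
      ∀ (k : ℕ) (l : ℤ) (x y : ℝ), 1 ≤ k → y ≤ x → x ≤ X →
      Int.gcd l (k : ℤ) = 1 → X ^ ε ≤ y / k → ¬ (q ∣ k ∧ ψ (l : ZMod q) = -1) →
        cnt k l x y < (2 - δ) * y / ((Nat.totient k : ℝ) * Real.log (y / k)) := by
  obtain ⟨ϑN, hϑN0, hϑN1, X₁, hX₁1, hnf⟩ := Pool.Agent.T9h52.BT.NF.no_fake (ε / 3) (by positivity)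
  set ϑ : ℝ := min (ϑN / 2) ((ε / 3 - ϑN) / 2) with hϑ
  have hϑ0 : 0 < ϑ := lt_min (by positivity) (by linarith)
  have hϑ1 : 2 * ϑ ≤ ϑN := by
    have := min_le_left (ϑN / 2) ((ε / 3 - ϑN) / 2)
    rw [← hϑ] at this
    linarith
  have hϑ2 : 2 * ϑ ≤ ε / 3 - ϑN := by
    have := min_le_right (ϑN / 2) ((ε / 3 - ϑN) / 2)
    rw [← hϑ] at this
    linarith
  obtain ⟨δ, hδ0, x₀, hx₀1, hinv⟩ := inverse ε ϑ hε hϑ0
  refine ⟨δ, hδ0, ?_⟩
  intro B
  obtain ⟨X₂, hX₂1, hbig⟩ := big_cond B hϑ0 (by linarith : ϑ ≤ ϑN) hϑN1 hϑ2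
  refine ⟨max (max X₁ X₂) (x₀ ^ (1 / ε)), ?_⟩
  intro X hX
  have hXX₁ : X₁ ≤ X := ((le_max_left _ _).trans (le_max_left _ _)).trans hX
  have hXX₂ : X₂ ≤ X := ((le_max_right _ _).trans (le_max_left _ _)).trans hX
  have hX1 : 1 < X := by linarith
  have hX0 : 0 < X := by linarith
  have hXε : x₀ ≤ X ^ ε := by
    have h1 : x₀ ^ (1 / ε) ≤ X := (le_max_right _ _).trans hX
    have h2 := Real.rpow_le_rpow (by positivity) h1 hε.le
    rw [← Real.rpow_mul (by linarith), one_div, inv_mul_cancel₀ hε.ne', Real.rpow_one] at h2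
    exact h2
  have hlog : 0 ≤ Real.log X := Real.log_nonneg hX1.le
  -- near extremal progressions give exceptional characters
  have key : ∀ (k : ℕ) (l : ℤ) (x y : ℝ), 1 ≤ k → y ≤ x → x ≤ X → Int.gcd l (k : ℤ) = 1 →
      X ^ ε ≤ y / k →
      (2 - δ) * y / ((Nat.totient k : ℝ) * Real.log (y / k)) ≤ cnt k l x y →
      ∃ χ : DirichletCharacter ℤ k, χ (l : ZMod k) = -1 ∧ Bad ϑ ϑN (ε / 3) X k χ := by
    intro k l x y hk hyx hxX hgcd hXy hnear
    have hk0 : (0:ℝ) < k := by exact_mod_cast hk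
    have hk1 : (1:ℝ) ≤ k := by exact_mod_cast hk
    have hy0 : 0 < y / k := lt_of_lt_of_le (by positivity) hXy
    have hyk : y / k ≤ y := by
      have hypos : 0 < y := (div_pos_iff_of_pos_right hk0).1 hy0
      exact div_le_self hypos.le hk1
    have hXx : X ^ ε ≤ x := hXy.trans (hyk.trans hyx)
    have hx0 : x₀ ≤ x := hXε.trans hXx
    have hx1 : 1 < x := by linarith
    have hxpos : 0 < x := by linarith
    obtain ⟨h1, χ, hχ, hχl, hs⟩ := hinv k l x y hk hyx hgcd hx0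
      ((Real.rpow_le_rpow hxpos.le hxX hε.le).trans hXy) hnear
    refine ⟨χ, hχl, hk, h1.trans (Real.rpow_le_rpow hxpos.le hxX hϑ0.le), hχ, ?_⟩
    have h2 : ϑ * Real.log x ≤ ϑ * Real.log X :=
      mul_le_mul_of_nonneg_left (Real.log_le_log hxpos hxX) hϑ0.le
    refine le_trans (le_trans ?_ hs) h2
    refine sum_le_sum_of_subset_of_nonneg ?_ fun p _ _ =>
      mul_nonneg (one_add_nonneg _ _) (Pool.Agent.H180R3.E469.logdiv_nonneg p)
    intro p hp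
    rw [mem_filter, mem_Icc] at hp ⊢
    obtain ⟨⟨a, b⟩, c, d⟩ := hp
    refine ⟨⟨a, b.trans (Nat.floor_le_floor ?_)⟩, c, lt_of_le_of_lt ?_ d⟩
    · have h3 := Real.rpow_le_rpow (by positivity) hXx (show (0:ℝ) ≤ 1 / 3 by norm_num)
      rw [← Real.rpow_mul hX0.le] at h3
      have e1 : ε * (1 / 3) = ε / 3 := by ring
      rwa [e1] at h3
    · exact (Real.rpow_le_rpow hxpos.le hxX hϑ0.le).trans
        (Real.rpow_le_rpow_of_exponent_le hX1.le (by linarith))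
  by_cases hex : ∃ (k : ℕ) (χ : DirichletCharacter ℤ k), Bad ϑ ϑN (ε / 3) X k χ
  · obtain ⟨k₁, χ₁, hbad⟩ := hex
    refine ⟨χ₁.conductor, χ₁.primitiveCharacter, hbig X hXX₂ k₁ χ₁ hbad,
      χ₁.primitiveCharacter_isPrimitive, ?_⟩
    intro k l x y hk hyx hxX hgcd hXy hdiv
    by_contra hcon
    rw [not_lt] at hcon
    obtain ⟨χ, hχl, hχ⟩ := key k l x y hk hyx hxX hgcd hXy hcon
    obtain ⟨hd, h1⟩ := two hX1.le hϑ1 hlog (hnf X hXX₁) hbad hχ
    refine hdiv ⟨hd, ?_⟩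
    rw [← DirichletCharacter.changeLevel_eq_cast_of_dvd' χ₁.primitiveCharacter hd
      (Int.isCoprime_iff_gcd_eq_one.2 hgcd), h1]
    exact hχl
  · obtain ⟨q, ψ, hq, hψ⟩ := exists_prim ⌊(Real.log X) ^ B⌋₊
    refine ⟨q, ψ, ?_, hψ, ?_⟩
    · exact (Nat.lt_floor_add_one _).trans_le (by exact_mod_cast hq)
    · intro k l x y hk hyx hxX hgcd hXy _
      by_contra hcon
      rw [not_lt] at hcon
      obtain ⟨χ, _, hχ⟩ := key k l x y hk hyx hxX hgcd hXy hcon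
      exact hex ⟨k, χ, hχ⟩

end Pool.Agent.T9h52.BT.Ex
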