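import Pool.Agent.T9h52.BT.Zr6

/-!
# The inverse theorem with a real zero
-/

set_option autoImplicit false

namespace Pool.Agent.T9h52.BT.Zr

open Finset Filter
open Pool.Agent.T9h52.BT.Inv (cnt inverse)
open Pool.Agent.T9h52.BT.Ex (toC toC_apply toC_ne_one)

/-- A near-extremal progression forces a real zero close to one. -/
theorem inverse_zero (ε ν : ℝ) (hε : 0 < ε) (hν : 0 < ν) : ∃ δ : ℝ, 0 < δ ∧ ∃ x₀ : ℝ, 1 < x₀ ∧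
    ∀ (k : ℕ) [NeZero k] (l : ℤ) (x y : ℝ), y ≤ x → Int.gcd l (k : ℤ) = 1 → x₀ ≤ x →
      x ^ ε ≤ y / k →
      (2 - δ) * y / ((Nat.totient k : ℝ) * Real.log (y / k)) ≤ cnt k l x y →
      (k : ℝ) ≤ x ^ ν ∧ ∃ χ : DirichletCharacter ℂ k, χ ^ 2 = 1 ∧ χ ≠ 1 ∧ χ (l : ZMod k) = -1 ∧
        ∃ β : ℝ, 1 - ν / Real.log x ≤ β ∧ β < 1 ∧ χ.LFunction (β : ℂ) = 0 := by
  obtain ⟨ν', hν'⟩ : ∃ ν', ν' = min ν 1 := ⟨_, rfl⟩
  have hν'0 : 0 < ν' := by rw [hν']; exact lt_min hν one_pos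
  have hν'1 : ν' ≤ 1 := by rw [hν']; exact min_le_right _ _
  have hν'2 : ν' ≤ ν := by rw [hν']; exact min_le_left _ _
  obtain ⟨δ, hδ, x₁, hx₁1, h1⟩ := inverse ε (ν' / 4000) hε (by positivity)
  obtain ⟨x₂, hx₂1, h2⟩ := zero_of_rare ν' hν'0 hν'1
  refine ⟨δ, hδ, max x₁ x₂, lt_of_lt_of_le hx₁1 (le_max_left _ _), ?_⟩
  intro k _ l x y hyx hgcd hx hxy hnear
  have hxx₁ : x₁ ≤ x := (le_max_left _ _).trans hx
  have hxx₂ : x₂ ≤ x := (le_max_right _ _).trans hx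
  have hx1 : 1 < x := by linarith
  have hL0 : 0 < Real.log x := Real.log_pos hx1
  obtain ⟨hk, χ, hχ, hχl, hs⟩ := h1 k l x y (Nat.one_le_iff_ne_zero.2 (NeZero.ne k)) hyx hgcd hxx₁
    hxy hnear
  obtain ⟨β, hβ1, hβ2, hβ3⟩ := h2 x hxx₂ k χ hχ hk hs
  refine ⟨hk.trans (Real.rpow_le_rpow_of_exponent_le hx1.le (by linarith)), toC χ, toC_sq χ,
    toC_ne_one hχ, ?_, β, ?_, hβ2, hβ3⟩
  · rw [toC_apply, hχl]; norm_num
  · have : ν' / Real.log x ≤ ν / Real.log x := div_le_div_of_nonneg_right hν'2 hL0.le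
    linarith

end Pool.Agent.T9h52.BT.Zr
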