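import Pool.Agent.T9h52.BT.Cmp

/-!
# Selberg's sum over rough numbers and prime numbers
-/

set_option autoImplicit false

namespace Pool.Agent.T9h52.BT

open Finset
open ArithmeticFunction (vonMangoldt vonMangoldt_nonneg vonMangoldt_le_log)
open Pool.Agent.H295R3.D (Rough lam SS rough_of_dvd rough_mul lam_eq lam_one lam_le IsBad vM_eq
  card_bad rough_prime theta_le_two)

/-- primes of a progression in an interval -/
noncomputable def PrF (X Y k a : ℕ) : Finset ℕ :=
  (Ioc X (X + Y)).filter (fun p => p.Prime ∧ p ≡ a [MOD k])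

noncomputable def Th (X Y k a : ℕ) : ℝ := ∑ p ∈ PrF X Y k a, Real.log p

/-- pairs of primes at least `w` with product in a progression in an interval -/
noncomputable def PrP (w X Y k a : ℕ) : Finset (ℕ × ℕ) :=
  (range (X + Y + 1) ×ˢ range (X + Y + 1)).filter
    (fun x : ℕ × ℕ => (x.1.Prime ∧ x.2.Prime) ∧ (w ≤ x.1 ∧ w ≤ x.2) ∧
      (X < x.1 * x.2 ∧ x.1 * x.2 ≤ X + Y) ∧ x.1 * x.2 ≡ a [MOD k])

noncomputable def PSk (w X Y k a : ℕ) : ℝ :=
  ∑ x ∈ PrP w X Y k a, Real.log x.1 * Real.log x.2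

lemma mem_PrF {X Y k a p : ℕ} :
    p ∈ PrF X Y k a ↔ (X < p ∧ p ≤ X + Y) ∧ p.Prime ∧ p ≡ a [MOD k] := by
  unfold PrF
  rw [mem_filter, mem_Ioc]

lemma mem_PrP {w X Y k a : ℕ} {x : ℕ × ℕ} :
    x ∈ PrP w X Y k a ↔ (x.1.Prime ∧ x.2.Prime) ∧ (w ≤ x.1 ∧ w ≤ x.2) ∧
      (X < x.1 * x.2 ∧ x.1 * x.2 ≤ X + Y) ∧ x.1 * x.2 ≡ a [MOD k] := by
  unfold PrP
  rw [mem_filter, mem_product, mem_range, mem_range]
  constructor
  · rintro ⟨_, h⟩
    exact h
  · rintro ⟨⟨h1, h2⟩, h3, h4, h5⟩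
    have hx1 : x.1 ≤ x.1 * x.2 := Nat.le_mul_of_pos_right _ h2.pos
    have hx2 : x.2 ≤ x.1 * x.2 := Nat.le_mul_of_pos_left _ h1.pos
    exact ⟨⟨by omega, by omega⟩, ⟨h1, h2⟩, h3, h4, h5⟩

lemma Th_nonneg (X Y k a : ℕ) : 0 ≤ Th X Y k a :=
  sum_nonneg fun _ _ => Real.log_natCast_nonneg _

lemma PSk_nonneg (w X Y k a : ℕ) : 0 ≤ PSk w X Y k a :=
  sum_nonneg fun _ _ => mul_nonneg (Real.log_natCast_nonneg _) (Real.log_natCast_nonneg _)

lemma PSk_eq (w X Y k a : ℕ) : PSk w X Y k a =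
    ∑ n ∈ (Ioc X (X + Y)).filter (fun n => n ≡ a [MOD k]),
      ∑ x ∈ n.divisorsAntidiagonal.filter (fun x => (x.1.Prime ∧ x.2.Prime) ∧ w ≤ x.1 ∧ w ≤ x.2),
        Real.log x.1 * Real.log x.2 := by
  unfold PSk
  rw [← Finset.sum_fiberwise_of_maps_to (s := PrP w X Y k a)
    (t := (Ioc X (X + Y)).filter (fun n => n ≡ a [MOD k])) (g := fun x => x.1 * x.2)]
  · refine sum_congr rfl fun n hn => ?_
    rw [mem_filter, mem_Ioc] at hn
    refine sum_congr ?_ fun _ _ => rfl
    ext x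
    rw [mem_filter, mem_filter, mem_PrP, Nat.mem_divisorsAntidiagonal]
    constructor
    · rintro ⟨⟨h1, h2, h3, h4⟩, h5⟩
      exact ⟨⟨h5, by omega⟩, h1, h2⟩
    · rintro ⟨⟨h1, h2⟩, h3, h4⟩
      rw [h1]
      exact ⟨⟨h3, h4, hn.1, hn.2⟩, rfl⟩
  · intro x hx
    rw [mem_PrP] at hx
    rw [mem_filter, mem_Ioc]
    exact ⟨hx.2.2.1, hx.2.2.2⟩

lemma lam_nonneg {L : ℝ} {n : ℕ} (hn : 1 ≤ n) (hL : Real.log n ≤ L) : 0 ≤ lam L n := by
  rcases Nat.eq_or_lt_of_le hn with h | h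
  · rw [← h, lam_one]; positivity
  · rw [lam_eq L n (by omega)]
    have h0 : 0 ≤ Real.log n := Real.log_natCast_nonneg n
    refine add_nonneg (mul_nonneg vonMangoldt_nonneg (by linarith)) ?_
    exact sum_nonneg fun x _ => mul_nonneg vonMangoldt_nonneg vonMangoldt_nonneg

/-- Selberg's sum bounds primes and products of two primes. -/
lemma SSk_ge {L : ℝ} {z X Y k a : ℕ} (hX : 1 ≤ X) (hzX : z ≤ X)
    (hL : Real.log ((X + Y : ℕ) : ℝ) ≤ L) :
    L * Th X Y k a + PSk z X Y k a ≤ SSk L z X Y k a := by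
  have hlog : ∀ n ∈ Ioc X (X + Y), Real.log n ≤ L := by
    intro n hn
    rw [mem_Ioc] at hn
    refine le_trans ?_ hL
    apply Real.log_le_log
    · exact_mod_cast (by omega : 0 < n)
    · exact_mod_cast hn.2
  have hL0 : 0 ≤ L := (Real.log_natCast_nonneg _).trans hL
  have e1 : L * Th X Y k a = ∑ n ∈ (Ioc X (X + Y)).filter (fun n => n ≡ a [MOD k]),
      if n.Prime then L * Real.log n else 0 := by
    unfold Th PrF
    rw [mul_sum, ← sum_filter, filter_filter]
    refine sum_congr ?_ fun _ _ => rfl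
    ext p
    simp only [mem_filter]
    tauto
  rw [e1, PSk_eq, ← sum_add_distrib]
  have e2 : SSk L z X Y k a = ∑ n ∈ (Ioc X (X + Y)).filter (fun n => n ≡ a [MOD k]),
      if Rough z n then lam L n else 0 := by
    unfold SSk RC
    rw [← sum_filter, filter_filter]
  rw [e2]
  refine sum_le_sum fun n hn => ?_
  rw [mem_filter] at hn
  have hn1 := hlog n hn.1
  have hn2 := mem_Ioc.mp hn.1
  by_cases hr : Rough z n
  · rw [if_pos hr, lam_eq L n (by omega)]
    refine add_le_add ?_ ?_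
    · split_ifs with h
      · rw [ArithmeticFunction.vonMangoldt_apply_prime h, mul_comm]
        apply mul_le_mul_of_nonneg_left (by linarith) (Real.log_natCast_nonneg _)
      · apply mul_nonneg vonMangoldt_nonneg
        linarith
    · have : ∀ x ∈ n.divisorsAntidiagonal.filter
        (fun x => (x.1.Prime ∧ x.2.Prime) ∧ z ≤ x.1 ∧ z ≤ x.2),
        Real.log x.1 * Real.log x.2 = vonMangoldt x.1 * vonMangoldt x.2 := by
        intro x hx
        rw [mem_filter] at hx
        rw [ArithmeticFunction.vonMangoldt_apply_prime hx.2.1.1,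
          ArithmeticFunction.vonMangoldt_apply_prime hx.2.1.2]
      rw [sum_congr rfl this]
      exact sum_le_sum_of_subset_of_nonneg (filter_subset _ _)
        (fun x _ _ => mul_nonneg vonMangoldt_nonneg vonMangoldt_nonneg)
  · rw [if_neg hr]
    have h1 : ¬ n.Prime := fun hp => hr (rough_prime hp (by omega))
    rw [if_neg h1, zero_add, sum_eq_zero]
    intro x hx
    rw [mem_filter, Nat.mem_divisorsAntidiagonal] at hx
    exfalso
    apply hr
    rw [← hx.1.1]
    exact rough_mul (rough_prime hx.2.1.1 hx.2.2.1) (rough_prime hx.2.1.2 hx.2.2.2)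

lemma lam_pt {L : ℝ} {z X n : ℕ} (hn2 : 2 ≤ n) (hX : Real.log X ≤ Real.log n)
    (hX0 : 0 ≤ Real.log X) (hn : Real.log n ≤ L) (hr : Rough z n) :
    lam L n ≤ ((if n.Prime then (2 * L - Real.log X) * Real.log n else 0) +
      ∑ x ∈ n.divisorsAntidiagonal.filter (fun x => (x.1.Prime ∧ x.2.Prime) ∧ 0 ≤ x.1 ∧ 0 ≤ x.2),
        Real.log x.1 * Real.log x.2) + (if IsBad z n then 3 * L ^ 2 else 0) := by
  have ha : 0 ≤ (if n.Prime then (2 * L - Real.log X) * Real.log n else 0) := by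
    split_ifs
    · apply mul_nonneg <;> linarith
    · exact le_rfl
  have hb : 0 ≤ ∑ x ∈ n.divisorsAntidiagonal.filter
      (fun x => (x.1.Prime ∧ x.2.Prime) ∧ 0 ≤ x.1 ∧ 0 ≤ x.2),
      Real.log x.1 * Real.log x.2 :=
    sum_nonneg fun x _ => mul_nonneg (Real.log_natCast_nonneg _) (Real.log_natCast_nonneg _)
  by_cases hbad : IsBad z n
  · rw [if_pos hbad]
    have := lam_le L n hn2 hn
    linarith
  · rw [if_neg hbad, add_zero, lam_eq L n (by omega)]
    refine add_le_add ?_ ?_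
    · rw [vM_eq z n n (by omega) hr hbad dvd_rfl]
      split_ifs with hp
      · rw [mul_comm]
        apply mul_le_mul_of_nonneg_right _ (by linarith)
        linarith
      · simp
    · rw [sum_filter]
      refine sum_le_sum fun x hx => ?_
      rw [Nat.mem_divisorsAntidiagonal] at hx
      rw [vM_eq z n x.1 (by omega) hr hbad (Dvd.intro _ hx.1),
        vM_eq z n x.2 (by omega) hr hbad (Dvd.intro_left _ hx.1)]
      by_cases h1 : x.1.Prime <;> by_cases h2 : x.2.Prime <;> simp [h1, h2]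

/-- Upper bound for Selberg's sum. -/
lemma SSk_le {L : ℝ} {z X Y k a : ℕ} (hz : 1 ≤ z) (hX : 1 ≤ X)
    (hL : Real.log ((X + Y : ℕ) : ℝ) ≤ L) :
    SSk L z X Y k a ≤ (2 * L - Real.log X) * Th X Y k a +
      PSk 0 X Y k a + 3 * L ^ 2 * (2 * Y / z + √((X + Y : ℕ) : ℝ)) := by
  have hX0 : 0 ≤ Real.log X := Real.log_natCast_nonneg X
  have hlog : ∀ n ∈ Ioc X (X + Y), Real.log X ≤ Real.log n ∧ Real.log n ≤ L := by
    intro n hn
    rw [mem_Ioc] at hn
    constructor
    · apply Real.log_le_log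
      · exact_mod_cast hX
      · exact_mod_cast hn.1.le
    · refine le_trans ?_ hL
      apply Real.log_le_log
      · exact_mod_cast (by omega : 0 < n)
      · exact_mod_cast hn.2
  have hL0 : 0 ≤ L := (Real.log_natCast_nonneg _).trans hL
  unfold SSk
  have key : ∀ n ∈ RC z X Y k a, lam L n ≤
      ((if n.Prime then (2 * L - Real.log X) * Real.log n else 0) +
      ∑ x ∈ n.divisorsAntidiagonal.filter (fun x => (x.1.Prime ∧ x.2.Prime) ∧ 0 ≤ x.1 ∧ 0 ≤ x.2),
        Real.log x.1 * Real.log x.2) + (if IsBad z n then 3 * L ^ 2 else 0) := by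
    intro n hn
    rw [mem_RC] at hn
    have hn1 := hlog n (mem_Ioc.mpr hn.1)
    exact lam_pt (by omega) hn1.1 hX0 hn1.2 hn.2.2
  refine (sum_le_sum key).trans ?_
  rw [sum_add_distrib, sum_add_distrib]
  have hsubA : RC z X Y k a ⊆ (Ioc X (X + Y)).filter (fun n => n ≡ a [MOD k]) := by
    intro n hn
    rw [mem_RC] at hn
    rw [mem_filter, mem_Ioc]
    exact ⟨hn.1, hn.2.1⟩
  have hcoef : 0 ≤ 2 * L - Real.log X := by
    have h1 : Real.log X ≤ L := by
      refine le_trans ?_ hL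
      apply Real.log_le_log
      · exact_mod_cast hX
      · exact_mod_cast (by omega : X ≤ X + Y)
    linarith
  have t1 : ∑ n ∈ RC z X Y k a, (if n.Prime then (2 * L - Real.log X) * Real.log n else 0) ≤
      (2 * L - Real.log X) * Th X Y k a := by
    unfold Th
    rw [← sum_filter, mul_sum]
    refine sum_le_sum_of_subset_of_nonneg ?_ ?_
    · intro p hp
      rw [mem_filter, mem_RC] at hp
      rw [mem_PrF]
      exact ⟨hp.1.1, hp.2, hp.1.2.1⟩
    · intro p hp _
      exact mul_nonneg hcoef (Real.log_natCast_nonneg _)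
  have t2 : ∑ n ∈ RC z X Y k a,
      ∑ x ∈ n.divisorsAntidiagonal.filter (fun x => (x.1.Prime ∧ x.2.Prime) ∧ 0 ≤ x.1 ∧ 0 ≤ x.2),
        Real.log x.1 * Real.log x.2 ≤ PSk 0 X Y k a := by
    rw [PSk_eq]
    refine sum_le_sum_of_subset_of_nonneg hsubA ?_
    intro n _ _
    exact sum_nonneg fun x _ =>
      mul_nonneg (Real.log_natCast_nonneg _) (Real.log_natCast_nonneg _)
  have t3 : ∑ n ∈ RC z X Y k a, (if IsBad z n then 3 * L ^ 2 else 0) ≤
      3 * L ^ 2 * (2 * Y / z + √((X + Y : ℕ) : ℝ)) := by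
    have h := card_bad z X Y hz
    refine le_trans ?_ (mul_le_mul_of_nonneg_left h (by positivity))
    rw [← sum_filter, sum_const, nsmul_eq_mul, mul_comm]
    apply mul_le_mul_of_nonneg_left _ (by positivity)
    have : (RC z X Y k a).filter (IsBad z) ⊆ (Ioc X (X + Y)).filter (IsBad z) :=
      filter_subset_filter _ (hsubA.trans (filter_subset _ _))
    exact_mod_cast card_le_card this
  linarith

end Pool.Agent.T9h52.BT
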