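import Pool.Agent.T9h52.BT.St5

/-!
# The structure theorem, conclusion
-/

set_option autoImplicit false

namespace Pool.Agent.T9h52.BT.St

open Finset

variable {G : Type*} [Fintype G] [CommGroup G]

lemma gprime {s : ℕ → G → ℝ} {κ C : ℝ} {m I M N : ℕ} (hκ0 : 0 ≤ κ) (hκ1 : κ ≤ 1)
    (hm : 1 ≤ m) (hM : 1 ≤ M) (hMI : M ≤ I) (hIN : I ≤ N - m) (χ : G →* ℤˣ)
    (hs : ∀ i, m ≤ i → i ≤ N + M → ∀ b, |s i b| ≤ 1 + κ)
    (hE : N * (1 - 7 * κ) ≤ ∑ j ∈ Icc m (N - m), sq2 (wv M s j))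
    (hg : ∑ i ∈ Icc m I, (1 + 3 * κ - cc (s i) χ ^ 2) ≤ C) :
    ∑ K ∈ Icc m (I - M), (1 + 3 * κ - cc (wv M s K) χ ^ 2) ≤ 10 * κ * N + C := by
  have hM' : (0 : ℝ) < M := by exact_mod_cast hM
  have hN0 : (0 : ℝ) ≤ N := Nat.cast_nonneg N
  have hpt : ∀ K ∈ Icc m (I - M), (1 + 3 * κ - cc (wv M s K) χ ^ 2) ≤
      (1 + 3 * κ - sq2 (wv M s K)) +
        (∑ l ∈ range M, (1 + 3 * κ - cc (s (K + l)) χ ^ 2)) / M := by
    intro K hK
    rw [mem_Icc] at hK
    have h1 := wv_var hM s K χ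
    have h2 : (∑ l ∈ range M, (sq2 (s (K + l)) - cc (s (K + l)) χ ^ 2)) / M ≤
        (∑ l ∈ range M, (1 + 3 * κ - cc (s (K + l)) χ ^ 2)) / M := by
      refine div_le_div_of_nonneg_right (sum_le_sum fun l hl => ?_) hM'.le
      rw [mem_range] at hl
      have := sq2_le hκ0 hκ1 (hs (K + l) (by omega) (by omega))
      linarith
    linarith
  have hsum := sum_le_sum hpt
  rw [sum_add_distrib, ← sum_div] at hsum
  have h3 : ∑ K ∈ Icc m (I - M), (1 + 3 * κ - sq2 (wv M s K)) ≤ 10 * κ * N := by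
    have b1 : ∑ i ∈ Icc m (I - M), (1 + 3 * κ - sq2 (wv M s i)) ≤
        ∑ i ∈ Icc m (N - m), (1 + 3 * κ - sq2 (wv M s i)) := by
      refine sum_le_sum_of_subset_of_nonneg ?_ fun K hK _ => ?_
      · exact Icc_subset_Icc_right (by omega)
      · rw [mem_Icc] at hK
        have : ∀ b, |wv M s K b| ≤ 1 + κ := fun b =>
          wv_abs hM fun l hl => hs (K + l) (by omega) (by omega) b
        linarith [sq2_le hκ0 hκ1 this]
    have b2 : ∑ i ∈ Icc m (N - m), (1 + 3 * κ - sq2 (wv M s i)) =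
        ((Icc m (N - m)).card : ℝ) * (1 + 3 * κ) - ∑ j ∈ Icc m (N - m), sq2 (wv M s j) := by
      rw [← nsmul_eq_mul, ← sum_const, ← sum_sub_distrib]
    have b3 : ((Icc m (N - m)).card : ℝ) * (1 + 3 * κ) ≤ N * (1 + 3 * κ) :=
      mul_le_mul_of_nonneg_right (icc_card_le hm) (by positivity)
    linarith
  have h4 : (∑ K ∈ Icc m (I - M), ∑ l ∈ range M, (1 + 3 * κ - cc (s (K + l)) χ ^ 2)) / M ≤
      C := by
    rw [div_le_iff₀ hM', sum_comm]
    calc ∑ l ∈ range M, ∑ K ∈ Icc m (I - M), (1 + 3 * κ - cc (s (K + l)) χ ^ 2)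
        ≤ ∑ l ∈ range M, ∑ i ∈ Icc m I, (1 + 3 * κ - cc (s i) χ ^ 2) := by
          refine sum_le_sum fun l hl => ?_
          rw [mem_range] at hl
          have e1 : ∑ K ∈ Icc m (I - M), (1 + 3 * κ - cc (s (K + l)) χ ^ 2) =
              ∑ i ∈ (Icc m (I - M)).image (fun K => K + l), (1 + 3 * κ - cc (s i) χ ^ 2) := by
            rw [sum_image]
            intro a _ b _ h
            simpa using h
          rw [e1]
          refine sum_le_sum_of_subset_of_nonneg ?_ fun i hi _ => ?_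
          · intro i hi
            rw [mem_image] at hi
            obtain ⟨K, hK, rfl⟩ := hi
            rw [mem_Icc] at hK ⊢
            omega
          · rw [mem_Icc] at hi
            have := sq_bd hκ0 hκ1 (cc_abs (hs i hi.1 (by omega)) χ)
            linarith
      _ = (M : ℝ) * ∑ i ∈ Icc m I, (1 + 3 * κ - cc (s i) χ ^ 2) := by
          rw [sum_const, card_range, nsmul_eq_mul]
      _ ≤ C * (M : ℝ) := by
          rw [mul_comm]
          exact mul_le_mul_of_nonneg_right hg hM'.le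
  linarith

lemma sum_six {α : Type*} (A : Finset α) (f1 f2 f3 f4 f5 f6 : α → ℝ) (c : ℝ) :
    ∑ x ∈ A, (2 * f1 x + 3 * (2 * f2 x + 2 * f3 x + f4 x + f5 x) + c + 6 * f6 x) =
      2 * (∑ x ∈ A, f1 x) + 3 * (2 * (∑ x ∈ A, f2 x) + 2 * (∑ x ∈ A, f3 x) + (∑ x ∈ A, f4 x) +
        ∑ x ∈ A, f5 x) + (A.card : ℝ) * c + 6 * ∑ x ∈ A, f6 x := by
  simp only [sum_add_distrib, ← mul_sum, sum_const, nsmul_eq_mul]

set_option maxHeartbeats 4000000 in
/-- Step 4: the twisted means are close to one. -/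
lemma step4 {s : ℕ → G → ℝ} {κ D τ : ℝ} {m T M N L : ℕ} (hτ0 : 0 < τ) (hτ : τ ≤ 1 / 16)
    (hD0 : 0 < D) (hD : D ≤ 1 / 10000) (hκ : κ = τ * D ^ 2 / 27)
    (hm : 1 ≤ m) (hmT : m ≤ T) (hTN : 16 * T ≤ N) (hτT : τ * N ≤ T) (hM : 1 ≤ M)
    (hMT : M ≤ T) (hκM : 1 ≤ κ * M) (hmL : m ≤ L) (hL : 4 * L ≤ N)
    (hs : ∀ i, m ≤ i → i ≤ N + M → ∀ b, |s i b| ≤ 1 + κ)
    (hP : ∑ p ∈ PP m T N, RR s (wv M s) p.1 p.2 ≤ 17 * κ * N ^ 2)
    (hE : N * (1 - 7 * κ) ≤ ∑ j ∈ Icc m (N - m), sq2 (wv M s j))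
    (χ : G →* ℤˣ)
    (hg : ∑ i ∈ Icc m (N - m - 2 * T), (1 + 3 * κ - cc (s i) χ ^ 2) ≤ 106 * D * N) :
    ∑ i ∈ Ico (2 * m) (2 * L), (1 - cc (s i) χ) ≤ 1000 * D * N := by
  have hκ0 : 0 ≤ κ := by rw [hκ]; positivity
  have hκD : 432 * κ ≤ D ^ 2 := by rw [hκ]; nlinarith [sq_nonneg D]
  have hDD : D ^ 2 ≤ D / 10000 := by nlinarith
  have hκ1 : κ ≤ 1 / 100 := by nlinarith
  have hN0 : (0 : ℝ) ≤ N := Nat.cast_nonneg N
  have hT0 : (0 : ℝ) < T := by exact_mod_cast (by omega : 0 < T)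
  have hNpos : (0 : ℝ) < N := by exact_mod_cast (by omega : 0 < N)
  have hM' : (0 : ℝ) < M := by exact_mod_cast hM
  have hv : ∀ i ∈ Icc m (N - m), ∀ b, |wv M s i b| ≤ 1 + κ := by
    intro i hi b
    rw [mem_Icc] at hi
    exact wv_abs hM fun l hl => hs (i + l) (by omega) (by omega) b
  have hg' := gprime (N := N) (m := m) (I := N - m - 2 * T) hκ0 (by linarith) hm hM (by omega)
    (by omega) χ hs hE hg
  set v := wv M s with hvdef
  -- pointwise bound
  have hpt : ∀ i ∈ Ico m L, ∀ j ∈ Ico T (2 * T),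
      (1 - cc (s (2 * i)) χ) + (1 - cc (s (2 * i + 1)) χ) ≤
        2 * (1 + 3 * κ - cc (s i) χ ^ 2) +
        3 * (2 * Real.sqrt (RR s v i j) + 2 * Real.sqrt (RR s v i (i + j)) +
          Real.sqrt (RR s v (2 * i) j) + Real.sqrt (RR s v (2 * i + 1) j)) + 9 * κ +
        6 * (1 + 3 * κ - cc (v (2 * i + j)) χ ^ 2) := by
    intro i hi j hj
    rw [mem_Ico] at hi hj
    have hsi : |cc (s i) χ| ≤ 1 + κ := cc_abs (hs i (by omega) (by omega)) χ
    have hs2 : |cc (s (2 * i)) χ| ≤ 1 + κ := cc_abs (hs (2 * i) (by omega) (by omega)) χ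
    have hs3 : |cc (s (2 * i + 1)) χ| ≤ 1 + κ :=
      cc_abs (hs (2 * i + 1) (by omega) (by omega)) χ
    have hvr : |cc (v (2 * i + j)) χ| ≤ 1 + κ :=
      cc_abs (hv (2 * i + j) (by rw [mem_Icc]; omega)) χ
    have hvr2 := sq_bd hκ0 (by linarith) hvr
    have r1 := cc_RR s v χ i j
    have r2 := cc_RR s v χ i (i + j)
    have r3 := cc_RR s v χ (2 * i) j
    have r4 := cc_RR s v χ (2 * i + 1) j
    rw [show i + (i + j) = 2 * i + j by ring] at r2
    have lip : |cc (v (2 * i + j + 1)) χ - cc (v (2 * i + j)) χ| ≤ 2 * (1 + κ) / M :=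
      wv_lip hM χ fun l hl a => hs (2 * i + j + l) (by omega) (by omega) a
    have hlip2 : 2 * (1 + κ) / M ≤ 25 / 10 * κ := by
      rw [div_le_iff₀ hM']
      nlinarith
    rw [show 2 * i + 1 + j = 2 * i + j + 1 by ring] at r4
    have r5 : |cc (s (2 * i + 1)) χ * cc (v (2 * i + j)) χ - cc (v j) χ| ≤
        Real.sqrt (RR s v (2 * i + 1) j) + 3 * κ := by
      have e1 : cc (s (2 * i + 1)) χ * cc (v (2 * i + j)) χ - cc (v j) χ =
          (cc (s (2 * i + 1)) χ * cc (v (2 * i + j + 1)) χ - cc (v j) χ) -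
          cc (s (2 * i + 1)) χ * (cc (v (2 * i + j + 1)) χ - cc (v (2 * i + j)) χ) := by ring
      have h5 : |cc (s (2 * i + 1)) χ * (cc (v (2 * i + j + 1)) χ - cc (v (2 * i + j)) χ)| ≤
          (1 + κ) * (25 / 10 * κ) := by
        rw [abs_mul]
        exact mul_le_mul hs3 (lip.trans hlip2) (abs_nonneg _) (by linarith)
      have h6 : (1 + κ) * (25 / 10 * κ) ≤ 3 * κ := by nlinarith
      have b1 := abs_le.mp r4
      have b2 := abs_le.mp h5
      rw [e1, abs_le]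
      constructor <;> linarith
    have f1 := (sign_forced hκ0 hκ1 hs2 hsi r1 r2 r3).resolve_right (not_lt.mpr hvr2)
    have f2 := (sign_forced hκ0 hκ1 hs3 hsi r1 r2 r5).resolve_right (not_lt.mpr hvr2)
    linarith
  -- summation
  set A : Finset (ℕ × ℕ) := Ico m L ×ˢ Ico T (2 * T) with hA
  have hmemA : ∀ {x : ℕ × ℕ}, x ∈ A → (m ≤ x.1 ∧ x.1 < L) ∧ (T ≤ x.2 ∧ x.2 < 2 * T) := by
    intro x hx
    rw [hA, mem_product, mem_Ico, mem_Ico] at hx
    exact hx
  have hcardA : ((A.card : ℕ) : ℝ) ≤ N * T := by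
    rw [hA, card_product, Nat.card_Ico, Nat.card_Ico]
    have h1 : L - m ≤ N := by omega
    have h2 : 2 * T - T = T := by omega
    rw [h2]
    exact_mod_cast Nat.mul_le_mul_right T h1
  have hroot : Real.sqrt ((N : ℝ) * T * (17 * κ * N ^ 2)) ≤ N * T * D := by
    have h1 : (N : ℝ) * T * (17 * κ * N ^ 2) ≤ (N * T * D) ^ 2 := by
      rw [hκ]
      have h2 : (N : ℝ) ^ 2 * D ^ 2 * T * (τ * N) ≤ (N : ℝ) ^ 2 * D ^ 2 * T * T :=
        mul_le_mul_of_nonneg_left hτT (by positivity)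
      have h3 : 0 ≤ (N : ℝ) ^ 2 * D ^ 2 * T * T := by positivity
      have e1 : (N : ℝ) * T * (17 * (τ * D ^ 2 / 27) * N ^ 2) =
          17 / 27 * ((N : ℝ) ^ 2 * D ^ 2 * T * (τ * N)) := by ring
      have e2 : ((N : ℝ) * T * D) ^ 2 = (N : ℝ) ^ 2 * D ^ 2 * T * T := by ring
      rw [e1, e2]
      linarith
    calc Real.sqrt ((N : ℝ) * T * (17 * κ * N ^ 2)) ≤ Real.sqrt ((N * T * D) ^ 2) :=
          Real.sqrt_le_sqrt h1
      _ = N * T * D := Real.sqrt_sq (by positivity)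
  have hRbound : ∀ g : ℕ × ℕ → ℕ × ℕ, Set.InjOn g A → (∀ x ∈ A, g x ∈ PP m T N) →
      ∑ x ∈ A, Real.sqrt (RR s v (g x).1 (g x).2) ≤ N * T * D := by
    intro g hinj hmem
    have h1 := sum_inj_le hinj hmem (F := fun p => RR s v p.1 p.2) fun p => RR_nonneg _ _ _ _
    have h2 := sum_sqrt_le A (fun x => RR s v (g x).1 (g x).2) (fun x => RR_nonneg _ _ _ _)
      hcardA (h1.trans hP)
    exact h2.trans hroot
  have R1 : ∑ x ∈ A, Real.sqrt (RR s v x.1 x.2) ≤ N * T * D := by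
    refine hRbound (fun x => x) (fun x _ y _ h => h) ?_
    intro x hx
    have := hmemA hx
    rw [mem_PP]
    refine ⟨?_, ?_, ?_, ?_⟩ <;> omega
  have R2 : ∑ x ∈ A, Real.sqrt (RR s v x.1 (x.1 + x.2)) ≤ N * T * D := by
    refine hRbound (fun x => (x.1, x.1 + x.2)) ?_ ?_
    · intro x _ y _ h
      simp only [Prod.mk.injEq] at h
      exact Prod.ext h.1 (by omega)
    · intro x hx
      have := hmemA hx
      rw [mem_PP]
      simp only
      refine ⟨?_, ?_, ?_, ?_⟩ <;> omega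
  have R3 : ∑ x ∈ A, Real.sqrt (RR s v (2 * x.1) x.2) ≤ N * T * D := by
    refine hRbound (fun x => (2 * x.1, x.2)) ?_ ?_
    · intro x _ y _ h
      simp only [Prod.mk.injEq] at h
      exact Prod.ext (by omega) h.2
    · intro x hx
      have := hmemA hx
      rw [mem_PP]
      simp only
      refine ⟨?_, ?_, ?_, ?_⟩ <;> omega
  have R4 : ∑ x ∈ A, Real.sqrt (RR s v (2 * x.1 + 1) x.2) ≤ N * T * D := by
    refine hRbound (fun x => (2 * x.1 + 1, x.2)) ?_ ?_
    · intro x _ y _ h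
      simp only [Prod.mk.injEq] at h
      exact Prod.ext (by omega) h.2
    · intro x hx
      have := hmemA hx
      rw [mem_PP]
      simp only
      refine ⟨?_, ?_, ?_, ?_⟩ <;> omega
  have R5 : ∑ x ∈ A, (1 + 3 * κ - cc (v (2 * x.1 + x.2)) χ ^ 2) ≤
      T * (10 * κ * N + 106 * D * N) := by
    rw [hA, sum_product_right]
    have h1 : ∀ j ∈ Ico T (2 * T), ∑ i ∈ Ico m L, (1 + 3 * κ - cc (v (2 * i + j)) χ ^ 2) ≤
        10 * κ * N + 106 * D * N := by
      intro j hj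
      rw [mem_Ico] at hj
      refine le_trans ?_ hg'
      have e1 : ∑ i ∈ Ico m L, (1 + 3 * κ - cc (v (2 * i + j)) χ ^ 2) =
          ∑ K ∈ (Ico m L).image (fun i => 2 * i + j), (1 + 3 * κ - cc (v K) χ ^ 2) := by
        rw [sum_image]
        intro a _ b _ h
        simp only at h
        omega
      rw [e1]
      refine sum_le_sum_of_subset_of_nonneg ?_ fun i hi _ => ?_
      · intro i hi
        rw [mem_image] at hi
        obtain ⟨K, hK, rfl⟩ := hi
        rw [mem_Ico] at hK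
        rw [mem_Icc]
        omega
      · rw [mem_Icc] at hi
        have := sq_bd hκ0 (by linarith) (cc_abs (hv i (by rw [mem_Icc]; omega)) χ)
        linarith
    calc ∑ j ∈ Ico T (2 * T), ∑ i ∈ Ico m L, (1 + 3 * κ - cc (v (2 * i + j)) χ ^ 2)
        ≤ ∑ j ∈ Ico T (2 * T), (10 * κ * N + 106 * D * N) := sum_le_sum h1
      _ = T * (10 * κ * N + 106 * D * N) := by
          rw [sum_const, Nat.card_Ico, nsmul_eq_mul]
          have : 2 * T - T = T := by omega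
          rw [this]
  have R0 : ∑ x ∈ A, (1 + 3 * κ - cc (s x.1) χ ^ 2) ≤ T * (106 * D * N) := by
    rw [hA, sum_product]
    have h1 : ∀ i ∈ Ico m L, ∑ j ∈ Ico T (2 * T), (1 + 3 * κ - cc (s i) χ ^ 2) =
        T * (1 + 3 * κ - cc (s i) χ ^ 2) := by
      intro i _
      rw [sum_const, Nat.card_Ico, nsmul_eq_mul]
      have : 2 * T - T = T := by omega
      rw [this]
    rw [sum_congr rfl h1, ← mul_sum]
    refine mul_le_mul_of_nonneg_left (le_trans ?_ hg) hT0.le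
    refine sum_le_sum_of_subset_of_nonneg ?_ fun i hi _ => ?_
    · intro i hi
      rw [mem_Ico] at hi
      rw [mem_Icc]
      omega
    · rw [mem_Icc] at hi
      have := sq_bd hκ0 (by linarith) (cc_abs (hs i hi.1 (by omega)) χ)
      linarith
  have hsumA : ∑ x ∈ A, ((1 - cc (s (2 * x.1)) χ) + (1 - cc (s (2 * x.1 + 1)) χ)) ≤
      ∑ x ∈ A, (2 * (1 + 3 * κ - cc (s x.1) χ ^ 2) +
        3 * (2 * Real.sqrt (RR s v x.1 x.2) + 2 * Real.sqrt (RR s v x.1 (x.1 + x.2)) +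
          Real.sqrt (RR s v (2 * x.1) x.2) + Real.sqrt (RR s v (2 * x.1 + 1) x.2)) + 9 * κ +
        6 * (1 + 3 * κ - cc (v (2 * x.1 + x.2)) χ ^ 2)) := by
    refine sum_le_sum fun x hx => ?_
    rw [hA, mem_product] at hx
    exact hpt x.1 hx.1 x.2 hx.2
  have eL : ∑ x ∈ A, ((1 - cc (s (2 * x.1)) χ) + (1 - cc (s (2 * x.1 + 1)) χ)) =
      T * ∑ i ∈ Ico (2 * m) (2 * L), (1 - cc (s i) χ) := by
    rw [sum_two_mul _ m L hmL, hA, sum_product, mul_sum]
    refine sum_congr rfl fun i _ => ?_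
    simp only
    rw [sum_const, Nat.card_Ico, nsmul_eq_mul]
    have : 2 * T - T = T := by omega
    rw [this]
  have eR : ∑ x ∈ A, (2 * (1 + 3 * κ - cc (s x.1) χ ^ 2) +
        3 * (2 * Real.sqrt (RR s v x.1 x.2) + 2 * Real.sqrt (RR s v x.1 (x.1 + x.2)) +
          Real.sqrt (RR s v (2 * x.1) x.2) + Real.sqrt (RR s v (2 * x.1 + 1) x.2)) + 9 * κ +
        6 * (1 + 3 * κ - cc (v (2 * x.1 + x.2)) χ ^ 2)) =
      2 * (∑ x ∈ A, (1 + 3 * κ - cc (s x.1) χ ^ 2)) +
        3 * (2 * (∑ x ∈ A, Real.sqrt (RR s v x.1 x.2)) +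
          2 * (∑ x ∈ A, Real.sqrt (RR s v x.1 (x.1 + x.2))) +
          (∑ x ∈ A, Real.sqrt (RR s v (2 * x.1) x.2)) +
          ∑ x ∈ A, Real.sqrt (RR s v (2 * x.1 + 1) x.2)) + (A.card : ℝ) * (9 * κ) +
        6 * ∑ x ∈ A, (1 + 3 * κ - cc (v (2 * x.1 + x.2)) χ ^ 2) := by
    exact sum_six A _ _ _ _ _ _ _
  rw [eL, eR] at hsumA
  have hc9 : (A.card : ℝ) * (9 * κ) ≤ N * T * (9 * κ) :=
    mul_le_mul_of_nonneg_right hcardA (by positivity)
  have hfin : T * ∑ i ∈ Ico (2 * m) (2 * L), (1 - cc (s i) χ) ≤ T * (1000 * D * N) := by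
    have hκD2 : κ ≤ D / 10000 := by linarith
    have h1 : (N : ℝ) * T * κ ≤ N * T * (D / 10000) :=
      mul_le_mul_of_nonneg_left hκD2 (by positivity)
    have h2 : 0 ≤ (N : ℝ) * T * D := by positivity
    have h3 : T * ∑ i ∈ Ico (2 * m) (2 * L), (1 - cc (s i) χ) ≤
        2 * (T * (106 * D * N)) + 3 * (6 * (N * T * D)) + N * T * (9 * κ) +
        6 * (T * (10 * κ * N + 106 * D * N)) := by linarith
    have e3 : 2 * ((T : ℝ) * (106 * D * N)) + 3 * (6 * (N * T * D)) + N * T * (9 * κ) +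
        6 * (T * (10 * κ * N + 106 * D * N)) = 866 * (N * T * D) + 69 * (N * T * κ) := by ring
    rw [e3] at h3
    have e4 : (T : ℝ) * (1000 * D * N) = 1000 * (N * T * D) := by ring
    rw [e4]
    linarith
  exact le_of_mul_le_mul_left hfin hT0

/-- the correlation of two functions close to multiples of a character -/
lemma corr_char {s v : G → ℝ} {κ : ℝ} (hκ0 : 0 ≤ κ) (hκ : κ ≤ 1 / 100)
    (hs : ∀ b, |s b| ≤ 1 + κ) (hv : ∀ b, |v b| ≤ 1 + κ) (χ : G →* ℤˣ) (a : G) :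
    sg χ a * (cc s χ * cc v χ) - 11 / 10 * Real.sqrt (1 + 3 * κ - cc s χ ^ 2) ≤
      av fun b => s b * v (a * b⁻¹) := by
  have h1 : (av fun b => s b * v (a * b⁻¹)) = sg χ a * (cc s χ * cc v χ) +
      av fun b => (s b - cc s χ * sg χ b) * v (a * b⁻¹) := by
    have e1 : cc v χ = av fun b => v (a * b⁻¹) * sg χ (a * b⁻¹) :=
      (av_div_left a (fun b => v b * sg χ b)).symm
    have e2 : sg χ a * (cc s χ * cc v χ) = av fun b => cc s χ * sg χ b * v (a * b⁻¹) := by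
      rw [e1]
      have e3 : ∀ b, cc s χ * sg χ b * v (a * b⁻¹) =
          (sg χ a * cc s χ) * (v (a * b⁻¹) * sg χ (a * b⁻¹)) := by
        intro b
        have e4 : sg χ a = sg χ b * sg χ (a * b⁻¹) := by
          rw [← sg_mul]
          congr 1
          rw [mul_comm b, inv_mul_cancel_right]
        have e5 := sg_mul_self χ (a * b⁻¹)
        rw [e4]
        linear_combination (-(cc s χ * sg χ b * v (a * b⁻¹))) * e5
      rw [av_congr e3, av_const_mul]
      ring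
    rw [e2, ← av_add]
    refine av_congr fun b => ?_
    ring
  have h2 : |(av fun b => (s b - cc s χ * sg χ b) * v (a * b⁻¹))| ≤
      11 / 10 * Real.sqrt (1 + 3 * κ - cc s χ ^ 2) := by
    have h3 : |(av fun b => (s b - cc s χ * sg χ b) * v (a * b⁻¹))| ≤
        av fun b => 11 / 10 * |s b - cc s χ * sg χ b| := by
      refine (abs_av_le _).trans (av_mono fun b => ?_)
      rw [abs_mul, mul_comm]
      exact mul_le_mul_of_nonneg_right ((hv _).trans (by linarith)) (abs_nonneg _)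
    rw [av_const_mul] at h3
    have h4 : (av fun b => |s b - cc s χ * sg χ b|) ≤ Real.sqrt (1 + 3 * κ - cc s χ ^ 2) := by
      refine av_abs_le_sqrt (F := fun b => s b - cc s χ * sg χ b) ?_
      rw [var_eq]
      linarith [sq2_le hκ0 (by linarith) hs]
    linarith
  have h3 := (abs_le.1 h2).1
  linarith

set_option maxHeartbeats 4000000 in
/-- Step 6: the class of the extremal density is a non-residue. -/
lemma step6 {s : ℕ → G → ℝ} {κ D τ : ℝ} {m T M N L : ℕ} (hτ0 : 0 < τ) (hτ : τ ≤ 1 / 16)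
    (hD0 : 0 < D) (hD : D ≤ 1 / 1000000) (hκ : κ = τ * D ^ 2 / 27)
    (hm : 1 ≤ m) (hmT : m ≤ T) (hTN : 16 * T ≤ N) (hM : 1 ≤ M) (hMT : M ≤ T)
    (hm100 : 100 * m ≤ N) (hM100 : 100 * M ≤ N) (hN100 : 100 ≤ N) (hL : 4 * L ≤ N)
    (hL2 : N ≤ 4 * L + 4)
    (hs : ∀ i, m ≤ i → i ≤ N + M → ∀ b, |s i b| ≤ 1 + κ)
    (hP : ∑ p ∈ PP m T N, RR s (wv M s) p.1 p.2 ≤ 17 * κ * N ^ 2)
    (χ : G →* ℤˣ)
    (hg : ∑ i ∈ Icc m (N - m - 2 * T), (1 + 3 * κ - cc (s i) χ ^ 2) ≤ 106 * D * N)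
    (hd : ∑ i ∈ Ico (2 * m) (2 * L), (1 - cc (s i) χ) ≤ 1000 * D * N) (a0 : G)
    (h2 : |(∑ i ∈ Icc m (N - m), av fun b => s i b * wv M s (N - i) (a0 * b⁻¹)) -
      N * wv M s N a0| ≤ κ * N)
    (h3 : wv M s N a0 ≤ -1 + κ) : sg χ a0 = -1 := by
  have hκ0 : 0 ≤ κ := by rw [hκ]; positivity
  have hκD : 432 * κ ≤ D ^ 2 := by rw [hκ]; nlinarith only [sq_nonneg D, hτ, hτ0]
  have hDD : D ^ 2 ≤ D / 1000000 := by nlinarith only [hD0, hD]
  have hκ1 : κ ≤ 1 / 100 := by linarith only [hκD, hDD, hD]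
  have hκD2 : κ ≤ D / 1000 := by linarith only [hκD, hDD, hD0]
  have hNpos : (0 : ℝ) < N := by exact_mod_cast (by omega : 0 < N)
  have hM' : (0 : ℝ) < M := by exact_mod_cast hM
  rcases sg_cases χ a0 with hone | hneg
  swap
  · exact hneg
  exfalso
  set v := wv M s with hvdef
  have hv : ∀ i, m ≤ i → i ≤ N → ∀ b, |v i b| ≤ 1 + κ := by
    intro i hi hi2 b
    exact wv_abs hM fun l hl => hs (i + l) (by omega) (by omega) b
  -- (A)
  have hA1 : ∀ i ∈ Ico (2 * m) (2 * L), |1 - cc (s i) χ| ≤ (1 - cc (s i) χ) + 2 * κ := by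
    intro i hi
    rw [mem_Ico] at hi
    have h1 := (abs_le.1 (cc_abs (hs i (by omega) (by omega)) χ)).2
    rw [abs_le]
    constructor <;> linarith only [h1, hκ0]
  have hA : ∑ i ∈ Ico (2 * m) (2 * L), |1 - cc (s i) χ| ≤ 1001 * D * N := by
    have h1 := sum_le_sum hA1
    rw [sum_add_distrib, sum_const, Nat.card_Ico, nsmul_eq_mul] at h1
    have h4 : ((2 * L - 2 * m : ℕ) : ℝ) ≤ N := by exact_mod_cast (by omega : 2 * L - 2 * m ≤ N)
    have h5 : ((2 * L - 2 * m : ℕ) : ℝ) * (2 * κ) ≤ N * (2 * κ) :=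
      mul_le_mul_of_nonneg_right h4 (by positivity)
    have h6 : N * (2 * κ) ≤ N * D := mul_le_mul_of_nonneg_left (by linarith only [hκD2, hD0]) hNpos.le
    linarith only [h1, h5, h6, hd]
  -- (B)
  have hw : ∀ j, |1 - cc (v j) χ| ≤ (∑ l ∈ range M, |1 - cc (s (j + l)) χ|) / M := by
    intro j
    rw [hvdef, cc_wv]
    have h1 : 1 - (∑ l ∈ range M, cc (s (j + l)) χ) / M =
        (∑ l ∈ range M, (1 - cc (s (j + l)) χ)) / M := by
      rw [sum_sub_distrib, sum_const, card_range, nsmul_eq_mul]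
      field_simp
    rw [h1, abs_div, abs_of_pos hM']
    exact div_le_div_of_nonneg_right (abs_sum_le_sum_abs _ _) hM'.le
  have hB : ∑ j ∈ Ico L (2 * L - M), |1 - cc (v j) χ| ≤ 1001 * D * N := by
    refine (sum_le_sum fun j _ => hw j).trans ?_
    rw [← sum_div, div_le_iff₀ hM', sum_comm]
    calc ∑ l ∈ range M, ∑ j ∈ Ico L (2 * L - M), |1 - cc (s (j + l)) χ|
        ≤ ∑ l ∈ range M, ∑ i ∈ Ico (2 * m) (2 * L), |1 - cc (s i) χ| := by
          refine sum_le_sum fun l hl => ?_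
          rw [mem_range] at hl
          have e1 : ∑ j ∈ Ico L (2 * L - M), |1 - cc (s (j + l)) χ| =
              ∑ i ∈ (Ico L (2 * L - M)).image (fun j => j + l), |1 - cc (s i) χ| := by
            rw [sum_image]
            intro a _ b _ h
            simpa using h
          rw [e1]
          refine sum_le_sum_of_subset_of_nonneg ?_ fun _ _ _ => abs_nonneg _
          intro i hi
          rw [mem_image] at hi
          obtain ⟨j, hj, rfl⟩ := hi
          rw [mem_Ico] at hj ⊢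
          omega
      _ = (M:ℝ) * ∑ i ∈ Ico (2 * m) (2 * L), |1 - cc (s i) χ| := by
          rw [sum_const, card_range, nsmul_eq_mul]
      _ ≤ 1001 * D * N * M := by
          rw [mul_comm]
          exact mul_le_mul_of_nonneg_right hA hM'.le
  -- (C)
  set U : ℕ := 2 * L - M - m with hU
  set Q : Finset (ℕ × ℕ) := Ico L U ×ˢ Ico L U with hQ
  have hmemQ : ∀ {x : ℕ × ℕ}, x ∈ Q → (L ≤ x.1 ∧ x.1 < U) ∧ (L ≤ x.2 ∧ x.2 < U) := by
    intro x hx
    rw [hQ, mem_product, mem_Ico, mem_Ico] at hx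
    exact hx
  have hcardU : ((U - L : ℕ) : ℝ) ≤ N := by exact_mod_cast (by omega : U - L ≤ N)
  have hcardQ : ((Q.card : ℕ) : ℝ) ≤ N * N := by
    rw [hQ, card_product, Nat.card_Ico]
    push_cast
    exact mul_le_mul hcardU hcardU (Nat.cast_nonneg _) hNpos.le
  have hroot : ∑ x ∈ Q, Real.sqrt (RR s v x.1 x.2) ≤ N * N * D := by
    have h1 := sum_inj_le (A := Q) (P := PP m T N) (g := fun x => x) (fun x _ y _ h => h) (by
      intro x hx
      have := hmemQ hx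
      rw [mem_PP]
      refine ⟨?_, ?_, ?_, ?_⟩ <;> omega) (F := fun p => RR s v p.1 p.2)
      fun p => RR_nonneg _ _ _ _
    have h4 := sum_sqrt_le Q (fun x => RR s v x.1 x.2) (fun x => RR_nonneg _ _ _ _)
      hcardQ (h1.trans hP)
    refine h4.trans ?_
    have h5 : (N : ℝ) * N * (17 * κ * N ^ 2) ≤ (N * N * D) ^ 2 := by
      have h6 : 17 * κ ≤ D ^ 2 := by linarith only [hκD, hκ0]
      have h7 := mul_le_mul_of_nonneg_left h6 (show (0:ℝ) ≤ N * N * N ^ 2 by positivity)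
      nlinarith only [h7]
    calc Real.sqrt ((N : ℝ) * N * (17 * κ * N ^ 2)) ≤ Real.sqrt ((N * N * D) ^ 2) :=
          Real.sqrt_le_sqrt h5
      _ = N * N * D := Real.sqrt_sq (by positivity)
  have hpt : ∀ x ∈ Q, 1 + 2 * κ - cc (v (x.1 + x.2)) χ ≤
      |1 - cc (v x.2) χ| + Real.sqrt (RR s v x.1 x.2) + 11 / 10 * |1 - cc (s x.1) χ| +
        2 * κ := by
    intro x hx
    have hx' := hmemQ hx
    have r1 := (abs_le.1 (cc_RR s v χ x.1 x.2)).1
    have hvK : |cc (v (x.1 + x.2)) χ| ≤ 11 / 10 :=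
      (cc_abs (hv (x.1 + x.2) (by omega) (by omega)) χ).trans (by linarith only [hκ1])
    have h4 : |cc (v (x.1 + x.2)) χ * (1 - cc (s x.1) χ)| ≤ 11 / 10 * |1 - cc (s x.1) χ| := by
      rw [abs_mul]
      exact mul_le_mul_of_nonneg_right hvK (abs_nonneg _)
    have h5 := (abs_le.1 h4).1
    have h6 := le_abs_self (1 - cc (v x.2) χ)
    linarith only [r1, h5, h6]
  have hsumQ : ∑ x ∈ Q, (1 + 2 * κ - cc (v (x.1 + x.2)) χ) ≤ 2200 * D * N * N := by
    refine (sum_le_sum hpt).trans ?_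
    rw [sum_add_distrib, sum_add_distrib, sum_add_distrib, ← mul_sum, sum_const, nsmul_eq_mul]
    have q1 : ∑ x ∈ Q, |1 - cc (v x.2) χ| ≤ N * (1001 * D * N) := by
      rw [hQ, sum_product]
      simp only
      rw [sum_const, Nat.card_Ico, nsmul_eq_mul]
      have h4 : ∑ j ∈ Ico L U, |1 - cc (v j) χ| ≤ 1001 * D * N := by
        refine le_trans (sum_le_sum_of_subset_of_nonneg ?_ fun _ _ _ => abs_nonneg _) hB
        exact Ico_subset_Ico_right (by omega)
      exact mul_le_mul hcardU h4 (sum_nonneg fun _ _ => abs_nonneg _) hNpos.le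
    have q2 : ∑ x ∈ Q, |1 - cc (s x.1) χ| ≤ N * (1001 * D * N) := by
      rw [hQ, sum_product_right]
      simp only
      rw [sum_const, Nat.card_Ico, nsmul_eq_mul]
      have h4 : ∑ j ∈ Ico L U, |1 - cc (s j) χ| ≤ 1001 * D * N := by
        refine le_trans (sum_le_sum_of_subset_of_nonneg ?_ fun _ _ _ => abs_nonneg _) hA
        intro i hi
        rw [mem_Ico] at hi ⊢
        omega
      exact mul_le_mul hcardU h4 (sum_nonneg fun _ _ => abs_nonneg _) hNpos.le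
    have q3 : ((Q.card : ℕ) : ℝ) * (2 * κ) ≤ N * N * (2 * κ) :=
      mul_le_mul_of_nonneg_right hcardQ (by positivity)
    have q4 : (N:ℝ) * N * (2 * κ) ≤ N * N * D :=
      mul_le_mul_of_nonneg_left (by linarith only [hκD2, hD0]) (by positivity)
    have q5 : 0 ≤ (N:ℝ) * N * D := by positivity
    nlinarith only [q1, q2, q3, q4, q5, hroot]
  -- (D)
  set G1 : Finset ℕ := Icc (2 * L + L / 2) (2 * L + 3 * L / 4) with hG1
  have hf0 : ∀ K, m ≤ K → K ≤ N → 0 ≤ 1 + 2 * κ - cc (v K) χ := by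
    intro K hK hK2
    have := (abs_le.1 (cc_abs (hv K hK hK2) χ)).2
    linarith only [this, hκ0]
  have hD1 : ∑ K ∈ G1, ((L:ℝ) / 2) * (1 + 2 * κ - cc (v K) χ) ≤ 2200 * D * N * N := by
    refine le_trans ?_ hsumQ
    have h4 : ∑ K ∈ G1, ((L:ℝ) / 2) * (1 + 2 * κ - cc (v K) χ) ≤
        ∑ K ∈ G1, ∑ i ∈ Icc L (K - L), (1 + 2 * κ - cc (v K) χ) := by
      refine sum_le_sum fun K hK => ?_
      rw [hG1, mem_Icc] at hK
      rw [sum_const, Nat.card_Icc, nsmul_eq_mul]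
      refine mul_le_mul_of_nonneg_right ?_ (hf0 K (by omega) (by omega))
      have : L ≤ 2 * (K - L + 1 - L) := by omega
      have h5 : (L:ℝ) ≤ 2 * ((K - L + 1 - L : ℕ) : ℝ) := by exact_mod_cast this
      linarith only [h5]
    refine h4.trans ?_
    rw [sum_sigma']
    have h5 : ∑ x ∈ G1.sigma (fun K => Icc L (K - L)), (1 + 2 * κ - cc (v x.1) χ) =
        ∑ x ∈ G1.sigma (fun K => Icc L (K - L)),
          (fun p : ℕ × ℕ => (1 + 2 * κ - cc (v (p.1 + p.2)) χ)) (x.2, x.1 - x.2) := by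
      refine sum_congr rfl fun x hx => ?_
      simp only [mem_sigma, hG1, mem_Icc] at hx
      simp only
      have : x.2 + (x.1 - x.2) = x.1 := by omega
      rw [this]
    rw [h5, ← sum_image (s := G1.sigma (fun K => Icc L (K - L)))
      (g := fun x => (x.2, x.1 - x.2))
      (f := fun p : ℕ × ℕ => (1 + 2 * κ - cc (v (p.1 + p.2)) χ))]
    · refine sum_le_sum_of_subset_of_nonneg ?_ fun x hx _ => ?_
      · intro p hp
        rw [mem_image] at hp
        obtain ⟨x, hx, rfl⟩ := hp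
        simp only [mem_sigma, hG1, mem_Icc] at hx
        rw [hQ, mem_product, mem_Ico, mem_Ico]
        simp only
        refine ⟨⟨?_, ?_⟩, ?_, ?_⟩ <;> omega
      · have := hmemQ hx
        exact hf0 _ (by omega) (by omega)
    · rintro ⟨K, i⟩ hx ⟨K', i'⟩ hx' h6
      simp only [mem_coe, mem_sigma, hG1, mem_Icc] at hx hx'
      simp only [Prod.mk.injEq] at h6
      have h7 : i = i' := h6.1
      have h8 : K = K' := by omega
      rw [h7, h8]
  have hLN : (N:ℝ) ≤ 5 * L := by exact_mod_cast (by omega : N ≤ 5 * L)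
  have hLpos : (0:ℝ) < L := by linarith only [hLN, hNpos]
  have hD2 : ∑ K ∈ G1, (1 + 2 * κ - cc (v K) χ) ≤ 22000 * D * N := by
    rw [← mul_sum] at hD1
    have h4 : (L:ℝ) / 2 * ∑ K ∈ G1, (1 + 2 * κ - cc (v K) χ) ≤ (L:ℝ) / 2 * (22000 * D * N) := by
      refine hD1.trans ?_
      have h5 := mul_le_mul_of_nonneg_left hLN (show 0 ≤ 2200 * D * N by positivity)
      linarith only [h5]
    exact le_of_mul_le_mul_left h4 (by positivity)
  -- (E)
  set G2 : Finset ℕ := Icc (N - (2 * L + 3 * L / 4)) (N - (2 * L + L / 2)) with hG2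
  have hG2mem : ∀ i ∈ G2, (L ≤ i ∧ i < 2 * L) ∧ (2 * L + L / 2 ≤ N - i ∧ N - i ≤ 2 * L + 3 * L / 4) := by
    intro i hi
    rw [hG2, mem_Icc] at hi
    refine ⟨⟨?_, ?_⟩, ?_, ?_⟩ <;> omega
  have hG2sub : G2 ⊆ Icc m (N - m) := by
    intro i hi
    have := hG2mem i hi
    rw [mem_Icc]
    omega
  have hG2sub' : G2 ⊆ Icc m (N - m - 2 * T) := by
    intro i hi
    have := hG2mem i hi
    rw [mem_Icc]
    omega
  have hgood : ∀ i ∈ G2, 1 - |1 - cc (s i) χ| - 11 / 10 * (1 + 2 * κ - cc (v (N - i)) χ) -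
      11 / 10 * Real.sqrt (1 + 3 * κ - cc (s i) χ ^ 2) ≤
      av fun b => s i b * v (N - i) (a0 * b⁻¹) := by
    intro i hi
    have hi' := hG2mem i hi
    have h4 := corr_char hκ0 hκ1 (hs i (by omega) (by omega)) (hv (N - i) (by omega) (by omega)) χ a0
    rw [hone, one_mul] at h4
    refine le_trans ?_ h4
    have h5 := abs_le.1 (cc_abs (hv (N - i) (by omega) (by omega)) χ)
    have h6 : |cc (s i) χ| ≤ 11 / 10 :=
      (cc_abs (hs i (by omega) (by omega)) χ).trans (by linarith only [hκ1])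
    have h7 : |1 - cc (v (N - i)) χ| ≤ 1 + 2 * κ - cc (v (N - i)) χ := by
      rw [abs_le]
      constructor <;> linarith only [h5.1, h5.2, hκ0]
    have h8 : |cc (s i) χ * (1 - cc (v (N - i)) χ)| ≤
        11 / 10 * (1 + 2 * κ - cc (v (N - i)) χ) := by
      rw [abs_mul]
      exact mul_le_mul h6 h7 (abs_nonneg _) (by norm_num)
    have h9 := (abs_le.1 h8).2
    have h10 := le_abs_self (1 - cc (s i) χ)
    linarith only [h9, h10]
  have hbadt : ∀ i ∈ Icc m (N - m) \ G2, -(1 + 3 * κ) ≤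
      av fun b => s i b * v (N - i) (a0 * b⁻¹) := by
    intro i hi
    rw [mem_sdiff, mem_Icc] at hi
    refine le_av fun b => ?_
    have h4 := hs i hi.1.1 (by omega) b
    have h5 := hv (N - i) (by omega) (by omega) (a0 * b⁻¹)
    have h6 : |s i b * v (N - i) (a0 * b⁻¹)| ≤ (1 + κ) * (1 + κ) := by
      rw [abs_mul]
      exact mul_le_mul h4 h5 (abs_nonneg _) (by linarith only [hκ0])
    have h7 := (abs_le.1 h6).1
    nlinarith only [h7, hκ0, hκ1]
  have hsplit := sum_sdiff (f := fun i => av fun b => s i b * v (N - i) (a0 * b⁻¹)) hG2sub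
  have hS1 := sum_le_sum hgood
  have hS2 := sum_le_sum hbadt
  rw [sum_const, nsmul_eq_mul] at hS2
  rw [sum_sub_distrib, sum_sub_distrib, sum_sub_distrib, sum_const, nsmul_eq_mul, mul_one,
    ← mul_sum, ← mul_sum] at hS1
  have hcG2 : (N:ℝ) / 20 ≤ (G2.card : ℝ) := by
    rw [hG2, Nat.card_Icc]
    have : N ≤ 20 * (N - (2 * L + L / 2) + 1 - (N - (2 * L + 3 * L / 4))) := by omega
    have h5 : (N:ℝ) ≤ 20 * ((N - (2 * L + L / 2) + 1 - (N - (2 * L + 3 * L / 4)) : ℕ) : ℝ) := by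
      exact_mod_cast this
    linarith only [h5]
  have hcG2' : (G2.card : ℝ) ≤ N := by
    rw [hG2, Nat.card_Icc]
    exact_mod_cast (by omega : N - (2 * L + L / 2) + 1 - (N - (2 * L + 3 * L / 4)) ≤ N)
  have hcsd : ((Icc m (N - m) \ G2).card : ℝ) ≤ N - G2.card := by
    have h4 := card_sdiff_add_card_eq_card hG2sub
    have h5 : (((Icc m (N - m) \ G2).card : ℕ) : ℝ) + G2.card = (Icc m (N - m)).card := by
      exact_mod_cast h4
    have h6 := icc_card_le (N := N) hm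
    linarith only [h5, h6]
  have t1 : ∑ i ∈ G2, |1 - cc (s i) χ| ≤ 1001 * D * N := by
    refine le_trans (sum_le_sum_of_subset_of_nonneg ?_ fun _ _ _ => abs_nonneg _) hA
    intro i hi
    have := hG2mem i hi
    rw [mem_Ico]
    omega
  have t2 : ∑ i ∈ G2, (1 + 2 * κ - cc (v (N - i)) χ) ≤ 22000 * D * N := by
    refine le_trans (le_of_eq ?_) hD2
    refine sum_nbij' (fun i => N - i) (fun K => N - K) ?_ ?_ ?_ ?_ ?_
    · intro i hi
      have := hG2mem i hi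
      rw [hG1, mem_Icc]
      omega
    · intro K hK
      rw [hG1, mem_Icc] at hK
      rw [hG2, mem_Icc]
      omega
    · intro i hi
      have := hG2mem i hi
      omega
    · intro K hK
      rw [hG1, mem_Icc] at hK
      omega
    · intro i hi
      rfl
  have t3 : ∑ i ∈ G2, Real.sqrt (1 + 3 * κ - cc (s i) χ ^ 2) ≤ N / 90 := by
    have hnn : ∀ i ∈ Icc m (N - m - 2 * T), 0 ≤ 1 + 3 * κ - cc (s i) χ ^ 2 := by
      intro i hi
      rw [mem_Icc] at hi
      have := sq_bd hκ0 (by linarith only [hκ1]) (cc_abs (hs i hi.1 (by omega)) χ)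
      linarith only [this]
    have h4 : ∑ i ∈ G2, (1 + 3 * κ - cc (s i) χ ^ 2) ≤ 106 * D * N := by
      refine le_trans (sum_le_sum_of_subset_of_nonneg hG2sub' fun i hi _ => hnn i hi) hg
    have h5 : (∑ i ∈ G2, Real.sqrt (1 + 3 * κ - cc (s i) χ ^ 2)) ^ 2 ≤
        G2.card * ∑ i ∈ G2, (1 + 3 * κ - cc (s i) χ ^ 2) := by
      have h6 := sq_sum_le_card_mul_sum_sq (s := G2)
        (f := fun i => Real.sqrt (1 + 3 * κ - cc (s i) χ ^ 2))
      have h7 : ∑ i ∈ G2, Real.sqrt (1 + 3 * κ - cc (s i) χ ^ 2) ^ 2 =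
          ∑ i ∈ G2, (1 + 3 * κ - cc (s i) χ ^ 2) :=
        sum_congr rfl fun i hi => Real.sq_sqrt (hnn i (hG2sub' hi))
      rwa [h7] at h6
    have h8 : (∑ i ∈ G2, Real.sqrt (1 + 3 * κ - cc (s i) χ ^ 2)) ^ 2 ≤ (N / 90) ^ 2 := by
      refine h5.trans ?_
      have h9 : (G2.card : ℝ) * ∑ i ∈ G2, (1 + 3 * κ - cc (s i) χ ^ 2) ≤ N * (106 * D * N) :=
        mul_le_mul hcG2' h4 (sum_nonneg fun i hi => hnn i (hG2sub' hi)) hNpos.le
      have h10 : (N:ℝ) * (106 * D * N) ≤ (N / 90) ^ 2 := by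
        have h11 : 106 * D ≤ 1 / 8100 := by linarith only [hD]
        have h12 := mul_le_mul_of_nonneg_left h11 (show (0:ℝ) ≤ N * N by positivity)
        nlinarith only [h12]
      exact h9.trans h10
    exact le_of_sq_le_sq h8 (by positivity)
  have hfin := (abs_le.1 h2).2
  have h4 : (N : ℝ) * v N a0 ≤ N * (-1 + κ) := mul_le_mul_of_nonneg_left h3 hNpos.le
  have h5 : ((Icc m (N - m) \ G2).card : ℝ) * (1 + 3 * κ) ≤ (N - G2.card) * (1 + 3 * κ) :=
    mul_le_mul_of_nonneg_right hcsd (by linarith only [hκ0])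
  have h6 : (G2.card : ℝ) * κ ≥ 0 := by positivity
  have h7 : κ * N ≤ N / 1000000 := by
    have : κ ≤ 1 / 1000000 := by linarith only [hκD2, hD]
    have := mul_le_mul_of_nonneg_right this hNpos.le
    linarith only [this]
  have h8 : D * N ≤ N / 1000000 := by
    have := mul_le_mul_of_nonneg_right hD hNpos.le
    linarith only [this]
  nlinarith only [hsplit, hS1, hS2, t1, t2, t3, hfin, h4, h5, h6, h7, h8, hcG2, hNpos]

/-- **Structure theorem.** -/
theorem structure_thm (ϑ τ : ℝ) (hϑ : 0 < ϑ) (hτ0 : 0 < τ) (hτ : τ ≤ 1 / 16) :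
    ∃ κ : ℝ, 0 < κ ∧ κ ≤ 1 / 100 ∧ κ ≤ ϑ ∧ ∀ (G : Type) [Fintype G] [CommGroup G]
      (s : ℕ → G → ℝ) (m T M N L : ℕ), 1 ≤ m → m ≤ T → 16 * T ≤ N → τ * N ≤ T →
      1 ≤ κ * M → M ≤ T → 100 * m ≤ N → 100 * M ≤ N → 4 * L ≤ N → N ≤ 4 * L + 4 →
      (∀ i, m ≤ i → i ≤ N + M → ∀ b, |s i b| ≤ 1 + κ) →
      (∀ K, T ≤ K → K ≤ N → ∀ a,
        |(∑ i ∈ Icc m (K - m), av fun b => s i b * wv M s (K - i) (a * b⁻¹)) -
          K * wv M s K a| ≤ κ * N) →
      (∀ u w, m ≤ u → u ≤ w → w ≤ N → |∑ i ∈ Ico u w, av (s i)| ≤ κ * N) →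
      ∀ a0 : G, wv M s N a0 ≤ -1 + κ →
      ∃ χ : G →* ℤˣ, χ ≠ 1 ∧ sg χ a0 = -1 ∧
        ∑ i ∈ Ico (2 * m) (2 * L), (av fun b => (1 - s i b) * (1 + sg χ b)) ≤ ϑ * N := by
  set D : ℝ := min (ϑ / 1001) (1 / 1000000) with hD
  have hD0 : 0 < D := lt_min (by positivity) (by norm_num)
  have hD1' : D ≤ 1 / 1000000 := min_le_right _ _
  have hD1 : D ≤ 1 / 10000 := by linarith
  have hD2 : 1001 * D ≤ ϑ := by
    have := min_le_left (ϑ / 1001) (1 / 1000000 : ℝ)
    rw [← hD] at this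
    linarith
  set κ : ℝ := τ * D ^ 2 / 27 with hκ
  have hκpos : 0 < κ := by positivity
  have hκD : 432 * κ ≤ D ^ 2 := by rw [hκ]; nlinarith [sq_nonneg D]
  have hDD : D ^ 2 ≤ D / 10000 := by nlinarith
  have hκ1 : κ ≤ 1 / 100 := by linarith
  refine ⟨κ, hκpos, hκ1, by linarith, ?_⟩
  intro G _ _ s m T M N L hm hmT hTN hτT hκM hMT hm100 hM100 hL hL2 h1 h2 h4 a0 ha0
  have hM : 1 ≤ M := by
    rcases Nat.eq_zero_or_pos M with h | h
    · rw [h] at hκM
      norm_num at hκM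
    · exact h
  have hNpos : (0 : ℝ) < N := by exact_mod_cast (by omega : 0 < N)
  have hs1 : ∀ i ∈ Icc m (N - m), ∀ b, |s i b| ≤ 1 + κ := by
    intro i hi
    rw [mem_Icc] at hi
    exact h1 i hi.1 (by omega)
  have hv : ∀ i ∈ Icc m (N - m), ∀ b, |wv M s i b| ≤ 1 + κ := by
    intro i hi b
    rw [mem_Icc] at hi
    exact wv_abs hM fun l hl => h1 (i + l) (by omega) (by omega) b
  obtain ⟨hE1, hE2⟩ := step1 hκpos.le (by linarith) hm hs1 hv a0 (h2 N (by omega) le_rfl a0) ha0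
  have hP := step2 hκpos.le (by linarith) hm hmT hs1 hv
    (fun K hK a => h2 K (mem_Icc.mp hK).1 (by have := (mem_Icc.mp hK).2; omega) a) hE2
  obtain ⟨χ, hχ⟩ := step3b hτ0 hτ hD0 hD1 hκ hm hmT hTN hτT hM hMT h1 hP hE1 hE2
  have hmL : m ≤ L := by omega
  have hmain := step4 hτ0 hτ hD0 hD1 hκ hm hmT hTN hτT hM hMT hκM hmL hL h1 hP hE2 χ hχ
  by_cases hone : χ = 1
  · exfalso
    have e1 : ∀ i, cc (s i) χ = av (s i) := by
      intro i
      unfold cc sg
      rw [hone]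
      simp
    have h5 := h4 (2 * m) (2 * L) (by omega) (by omega) (by omega)
    rw [sum_sub_distrib, sum_congr rfl fun i _ => e1 i, sum_const, Nat.card_Ico,
      nsmul_eq_mul, mul_one] at hmain
    have h6 := (abs_le.mp h5).2
    have h7 : (N : ℝ) ≤ 4 * ((2 * L - 2 * m : ℕ) : ℝ) := by
      exact_mod_cast (by omega : N ≤ 4 * (2 * L - 2 * m))
    nlinarith
  · refine ⟨χ, hone, ?_, ?_⟩
    · exact step6 hτ0 hτ hD0 hD1' hκ hm hmT hTN hM hMT hm100 hM100 (by omega) hL hL2 h1 hP χ hχ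
        hmain a0 (h2 N (by omega) le_rfl a0) ha0
    have hchi0 : av (fun b => sg χ b) = 0 := by
      obtain ⟨a, ha⟩ : ∃ a, χ a ≠ 1 := by
        by_contra hcon
        push Not at hcon
        exact hone (MonoidHom.ext hcon)
      have ha' : sg χ a = -1 := by
        rcases Int.units_eq_one_or (χ a) with h | h
        · exact absurd h ha
        · unfold sg; rw [h]; simp
      have h5 := av_mul_left a (fun b => sg χ b)
      have h6 : (av fun b => sg χ (a * b)) = - av fun b => sg χ b := by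
        rw [← av_neg]
        refine av_congr fun b => ?_
        rw [sg_mul, ha']
        ring
      rw [h6] at h5
      linarith
    have e1 : ∀ i, (av fun b => (1 - s i b) * (1 + sg χ b)) =
        (1 - cc (s i) χ) - av (s i) := by
      intro i
      have e2 : ∀ b, (1 - s i b) * (1 + sg χ b) = 1 - s i b + sg χ b - s i b * sg χ b := by
        intro b; ring
      rw [av_congr e2, av_sub, av_add, av_sub, av_const, hchi0]
      unfold cc
      ring
    rw [sum_congr rfl fun i _ => e1 i, sum_sub_distrib]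
    have h5 := h4 (2 * m) (2 * L) (by omega) (by omega) (by omega)
    have h6 := (abs_le.mp h5).1
    have h7 : κ * N ≤ D * N := mul_le_mul_of_nonneg_right (by linarith) hNpos.le
    have h8 : 1001 * D * N ≤ ϑ * N := mul_le_mul_of_nonneg_right hD2 hNpos.le
    linarith

end Pool.Agent.T9h52.BT.St
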