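import Pool.Agent.T9h52.BT.Sel
import Pool.Agent.T9h52.BT.St6
import Pool.Agent.H180R3.E469b
import Pool.Agent.H180R3.E469c

/-!
# Prime densities on multiplicative cells and residue classes
-/

set_option autoImplicit false

namespace Pool.Agent.T9h52.BT.Cell

open Finset
open Pool.Agent.H180R3.E469 (E C E_le lt_E E_pos half_le_E E_mono log_E_le le_log_E mem_C_iff
  logdiv_nonneg sum_cells idx mem_C_idx block_upper block_lower exp_sub_one_le)
open Pool.Agent.T9h52.BT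

/-- the mass of a residue class on a cell -/
noncomputable def ms (h : ℝ) (k : ℕ) (i : ℕ) (c : ZMod k) : ℝ :=
  ∑ p ∈ (C h i).filter (fun p : ℕ => (p : ZMod k) = c), Real.log p / p

/-- the normalised density -/
noncomputable def ff (h : ℝ) (k : ℕ) (i : ℕ) (b : (ZMod k)ˣ) : ℝ :=
  (k.totient / h) * ms h k i (b : ZMod k)

lemma ms_nonneg (h : ℝ) (k i : ℕ) (c : ZMod k) : 0 ≤ ms h k i c :=
  sum_nonneg fun p _ => logdiv_nonneg p

lemma ff_nonneg {h : ℝ} (hh : 0 < h) (k i : ℕ) (b : (ZMod k)ˣ) : 0 ≤ ff h k i b :=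
  mul_nonneg (by positivity) (ms_nonneg _ _ _ _)

lemma cell_unique {h : ℝ} (hh : 0 < h) {i j p : ℕ} (hi : p ∈ C h i) (hj : p ∈ C h j) : i = j := by
  rw [mem_C_iff] at hi hj
  have h1 : Real.exp (i * h) < Real.exp ((j + 1) * h) := hi.2.1.trans_le hj.2.2
  have h2 : Real.exp (j * h) < Real.exp ((i + 1) * h) := hj.2.1.trans_le hi.2.2
  have h3 : (i : ℝ) * h < (j + 1) * h := Real.exp_lt_exp.1 h1
  have h4 : (j : ℝ) * h < (i + 1) * h := Real.exp_lt_exp.1 h2
  have h5 : (i : ℝ) < j + 1 := lt_of_mul_lt_mul_right h3 hh.le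
  have h6 : (j : ℝ) < i + 1 := lt_of_mul_lt_mul_right h4 hh.le
  have h7 : i < j + 1 := by exact_mod_cast h5
  have h8 : j < i + 1 := by exact_mod_cast h6
  omega

lemma rep {k : ℕ} [NeZero k] (b : (ZMod k)ˣ) : ∃ a : ℕ, a.Coprime k ∧ ((a : ℕ) : ZMod k) = b :=
  ⟨(b : ZMod k).val, ZMod.val_coe_unit_coprime b, ZMod.natCast_zmod_val _⟩

lemma Th_eq (h : ℝ) (hh : 0 ≤ h) (k a K M : ℕ) :
    Th (E h K) (E h (K + M) - E h K) k a =
      ∑ i ∈ Ico K (K + M), ∑ p ∈ (C h i).filter (fun p : ℕ => (p : ZMod k) = (a : ZMod k)),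
        Real.log p := by
  have h1 : ∀ i, ∑ p ∈ (C h i).filter (fun p : ℕ => (p : ZMod k) = (a : ZMod k)),
        Real.log p = ∑ p ∈ C h i, if (p : ZMod k) = (a : ZMod k) then Real.log p else 0 := by
    intro i
    rw [sum_filter]
  rw [sum_congr rfl fun i _ => h1 i,
    sum_cells hh (fun p => if (p : ZMod k) = (a : ZMod k) then Real.log p else 0)
      (Nat.le_add_right K M), ← sum_filter]
  have hE : E h K + (E h (K + M) - E h K) = E h (K + M) := by
    have := E_mono hh (Nat.le_add_right K M)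
    omega
  unfold Th PrF
  rw [hE]
  refine sum_congr ?_ fun _ _ => rfl
  ext p
  rw [mem_filter, mem_filter, mem_filter, ZMod.natCast_eq_natCast_iff]
  tauto

lemma Th_ge (h : ℝ) (hh : 0 ≤ h) (k a K M : ℕ) :
    Real.exp (K * h) * ∑ i ∈ Ico K (K + M), ms h k i (a : ZMod k) ≤
      Th (E h K) (E h (K + M) - E h K) k a := by
  rw [Th_eq h hh, mul_sum]
  refine sum_le_sum fun i hi => ?_
  unfold ms
  rw [mul_sum]
  refine sum_le_sum fun p hp => ?_
  rw [mem_filter, mem_C_iff] at hp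
  rw [mem_Ico] at hi
  have hp0 : (0:ℝ) < p := by exact_mod_cast hp.1.1.pos
  have h1 : Real.exp (K * h) ≤ p := by
    refine le_trans (Real.exp_le_exp.2 ?_) hp.1.2.1.le
    exact mul_le_mul_of_nonneg_right (by exact_mod_cast hi.1) hh
  rw [← mul_div_assoc, div_le_iff₀ hp0, mul_comm (Real.log _)]
  exact mul_le_mul_of_nonneg_right h1 (Real.log_natCast_nonneg p)

lemma Th_le (h : ℝ) (hh : 0 ≤ h) (k a K M : ℕ) :
    Th (E h K) (E h (K + M) - E h K) k a ≤
      Real.exp ((K + M : ℕ) * h) * ∑ i ∈ Ico K (K + M), ms h k i (a : ZMod k) := by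
  rw [Th_eq h hh, mul_sum]
  refine sum_le_sum fun i hi => ?_
  unfold ms
  rw [mul_sum]
  refine sum_le_sum fun p hp => ?_
  rw [mem_filter, mem_C_iff] at hp
  rw [mem_Ico] at hi
  have hp0 : (0:ℝ) < p := by exact_mod_cast hp.1.1.pos
  have h1 : (p : ℝ) ≤ Real.exp ((K + M : ℕ) * h) := by
    refine le_trans hp.1.2.2 (Real.exp_le_exp.2 ?_)
    refine mul_le_mul_of_nonneg_right ?_ hh
    exact_mod_cast (by omega : i + 1 ≤ K + M)
  rw [← mul_div_assoc, le_div_iff₀ hp0, mul_comm (Real.log _)]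
  exact mul_le_mul_of_nonneg_right h1 (Real.log_natCast_nonneg p)

/-- convolution over residue classes of the masses of two cells -/
noncomputable def WW (h : ℝ) (k : ℕ) [NeZero k] (c : (ZMod k)ˣ) (i j : ℕ) : ℝ :=
  ∑ b : (ZMod k)ˣ, ms h k i (b : ZMod k) * ms h k j ((c * b⁻¹ : (ZMod k)ˣ) : ZMod k)

lemma WW_nonneg (h : ℝ) (k : ℕ) [NeZero k] (c : (ZMod k)ˣ) (i j : ℕ) : 0 ≤ WW h k c i j :=
  sum_nonneg fun _ _ => mul_nonneg (ms_nonneg _ _ _ _) (ms_nonneg _ _ _ _)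

lemma WW_comm (h : ℝ) (k : ℕ) [NeZero k] (c : (ZMod k)ˣ) (i j : ℕ) :
    WW h k c i j = WW h k c j i := by
  unfold WW
  have h1 := Equiv.sum_comp ((Equiv.inv (ZMod k)ˣ).trans (Equiv.mulLeft c))
    (fun b => ms h k i (b : ZMod k) * ms h k j ((c * b⁻¹ : (ZMod k)ˣ) : ZMod k))
  rw [← h1]
  refine sum_congr rfl fun b _ => ?_
  simp only [Equiv.trans_apply, Equiv.inv_apply, Equiv.coe_mulLeft]
  have : c * (c * b⁻¹)⁻¹ = b := by
    rw [mul_inv, inv_inv, mul_inv_cancel_left]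
  rw [this, mul_comm]

/-- the pairs belonging to two cells and a pair of classes -/
noncomputable def PC (h : ℝ) (k : ℕ) (c : (ZMod k)ˣ) (x : (ℕ × ℕ) × (ZMod k)ˣ) :
    Finset (ℕ × ℕ) :=
  ((C h x.1.1).filter (fun p : ℕ => (p : ZMod k) = (x.2 : ZMod k))) ×ˢ
    ((C h x.1.2).filter (fun p : ℕ => (p : ZMod k) = ((c * x.2⁻¹ : (ZMod k)ˣ) : ZMod k)))

lemma WW_eq (h : ℝ) (k : ℕ) [NeZero k] (c : (ZMod k)ˣ) (i j : ℕ) :
    WW h k c i j = ∑ b : (ZMod k)ˣ, ∑ x ∈ PC h k c ((i, j), b),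
      (Real.log x.1 / x.1) * (Real.log x.2 / x.2) := by
  unfold WW PC ms
  refine sum_congr rfl fun b _ => ?_
  rw [sum_mul_sum, sum_product]

lemma PC_disj {h : ℝ} (hh : 0 < h) (k : ℕ) (c : (ZMod k)ˣ) (A : Set ((ℕ × ℕ) × (ZMod k)ˣ)) :
    A.PairwiseDisjoint (PC h k c) := by
  intro x _ y _ hxy
  rw [Function.onFun, disjoint_left]
  intro z hz hz'
  apply hxy
  unfold PC at hz hz'
  rw [mem_product, mem_filter, mem_filter] at hz hz'
  have h1 := cell_unique hh hz.1.1 hz'.1.1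
  have h2 := cell_unique hh hz.2.1 hz'.2.1
  have h3 : x.2 = y.2 := Units.ext (hz.1.2.symm.trans hz'.1.2)
  exact Prod.ext (Prod.ext h1 h2) h3

lemma PC_mod {h : ℝ} {k a : ℕ} {c : (ZMod k)ˣ} (hc : ((a : ℕ) : ZMod k) = c)
    {x : (ℕ × ℕ) × (ZMod k)ˣ} {z : ℕ × ℕ} (hz : z ∈ PC h k c x) : z.1 * z.2 ≡ a [MOD k] := by
  unfold PC at hz
  rw [mem_product, mem_filter, mem_filter] at hz
  rw [← ZMod.natCast_eq_natCast_iff, hc, Nat.cast_mul, hz.1.2, hz.2.2, ← Units.val_mul]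
  congr 1
  rw [mul_comm c, mul_inv_cancel_left]

/-- lower bound for the sum over pairs -/
lemma WW_le_PS {h : ℝ} (hh : 0 < h) {k a : ℕ} [NeZero k] {c : (ZMod k)ˣ}
    (hc : ((a : ℕ) : ZMod k) = c) (m K M : ℕ) (A : Finset (ℕ × ℕ))
    (hA : ∀ x ∈ A, m ≤ x.1 ∧ m ≤ x.2 ∧ K ≤ x.1 + x.2 ∧ x.1 + x.2 + 1 ≤ K + M) :
    ∑ x ∈ A, WW h k c x.1 x.2 ≤
      Real.exp (-(K * h)) * PSk (E h m) (E h K) (E h (K + M + 1) - E h K) k a := by
  classical
  have e1 : ∑ x ∈ A, WW h k c x.1 x.2 =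
      ∑ y ∈ A ×ˢ (univ : Finset (ZMod k)ˣ), ∑ x ∈ PC h k c y,
        (Real.log x.1 / x.1) * (Real.log x.2 / x.2) := by
    rw [sum_product]
    exact sum_congr rfl fun x _ => WW_eq h k c x.1 x.2
  rw [e1, ← sum_biUnion (PC_disj hh k c _)]
  unfold PSk
  rw [mul_sum]
  have hE : E h K + (E h (K + M + 1) - E h K) = E h (K + M + 1) := by
    have := E_mono hh.le (show K ≤ K + M + 1 by omega)
    omega
  have hmem : ∀ z ∈ (A ×ˢ (univ : Finset (ZMod k)ˣ)).biUnion (PC h k c),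
      z ∈ PrP (E h m) (E h K) (E h (K + M + 1) - E h K) k a ∧
        Real.exp (K * h) ≤ (z.1 : ℝ) * z.2 := by
    intro z hz
    rw [mem_biUnion] at hz
    obtain ⟨y, hy, hz⟩ := hz
    rw [mem_product] at hy
    have hyA := hA y.1 hy.1
    have hmod := PC_mod hc hz
    unfold PC at hz
    rw [mem_product, mem_filter, mem_filter, mem_C_iff, mem_C_iff] at hz
    obtain ⟨⟨⟨hp, hp1, hp2⟩, -⟩, ⟨⟨hq, hq1, hq2⟩, -⟩⟩ := hz
    have hp0 : (0:ℝ) < z.1 := by exact_mod_cast hp.pos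
    have hq0 : (0:ℝ) < z.2 := by exact_mod_cast hq.pos
    have hlo : Real.exp (K * h) < (z.1 : ℝ) * z.2 := by
      refine lt_of_le_of_lt ?_ (mul_lt_mul'' hp1 hq1 (Real.exp_pos _).le (Real.exp_pos _).le)
      rw [← Real.exp_add, ← add_mul]
      refine Real.exp_le_exp.2 (mul_le_mul_of_nonneg_right ?_ hh.le)
      exact_mod_cast hyA.2.2.1
    have hup : (z.1 : ℝ) * z.2 ≤ Real.exp ((K + M + 1 : ℕ) * h) := by
      refine (mul_le_mul hp2 hq2 hq0.le (Real.exp_pos _).le).trans ?_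
      rw [← Real.exp_add, ← add_mul]
      refine Real.exp_le_exp.2 (mul_le_mul_of_nonneg_right ?_ hh.le)
      exact_mod_cast (by omega : (y.1.1 + 1) + (y.1.2 + 1) ≤ K + M + 1)
    refine ⟨?_, hlo.le⟩
    rw [mem_PrP, hE]
    refine ⟨⟨hp, hq⟩, ⟨?_, ?_⟩, ⟨?_, ?_⟩, hmod⟩
    · have : (E h m : ℝ) ≤ z.1 := by
        refine (E_le h m).trans (le_trans (Real.exp_le_exp.2 ?_) hp1.le)
        exact mul_le_mul_of_nonneg_right (by exact_mod_cast hyA.1) hh.le
      exact_mod_cast this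
    · have : (E h m : ℝ) ≤ z.2 := by
        refine (E_le h m).trans (le_trans (Real.exp_le_exp.2 ?_) hq1.le)
        exact mul_le_mul_of_nonneg_right (by exact_mod_cast hyA.2.1) hh.le
      exact_mod_cast this
    · rw [E, Nat.floor_lt (Real.exp_pos _).le]
      push_cast
      exact hlo
    · rw [E, Nat.le_floor_iff (Real.exp_pos _).le]
      push_cast
      push_cast at hup
      exact hup
  calc ∑ z ∈ (A ×ˢ (univ : Finset (ZMod k)ˣ)).biUnion (PC h k c),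
        (Real.log z.1 / z.1) * (Real.log z.2 / z.2)
      ≤ ∑ z ∈ (A ×ˢ (univ : Finset (ZMod k)ˣ)).biUnion (PC h k c),
        Real.exp (-(K * h)) * (Real.log z.1 * Real.log z.2) := by
        refine sum_le_sum fun z hz => ?_
        obtain ⟨h1, h2⟩ := hmem z hz
        rw [mem_PrP] at h1
        have hp0 : (0:ℝ) < z.1 := by exact_mod_cast h1.1.1.pos
        have hq0 : (0:ℝ) < z.2 := by exact_mod_cast h1.1.2.pos
        have h3 : (Real.log z.1 / z.1) * (Real.log z.2 / z.2) =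
            (1 / ((z.1 : ℝ) * z.2)) * (Real.log z.1 * Real.log z.2) := by
          field_simp
        rw [h3]
        refine mul_le_mul_of_nonneg_right ?_ (mul_nonneg (Real.log_natCast_nonneg _)
          (Real.log_natCast_nonneg _))
        rw [Real.exp_neg, ← one_div]
        exact one_div_le_one_div_of_le (Real.exp_pos _) h2
    _ ≤ ∑ z ∈ PrP (E h m) (E h K) (E h (K + M + 1) - E h K) k a,
        Real.exp (-(K * h)) * (Real.log z.1 * Real.log z.2) := by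
        refine sum_le_sum_of_subset_of_nonneg (fun z hz => (hmem z hz).1) fun z _ _ => ?_
        exact mul_nonneg (Real.exp_pos _).le (mul_nonneg (Real.log_natCast_nonneg _)
          (Real.log_natCast_nonneg _))

/-- upper bound for the sum over pairs -/
lemma PS_le_WW {h : ℝ} (hh : 0 < h) {k a : ℕ} [NeZero k] {c : (ZMod k)ˣ}
    (hc : ((a : ℕ) : ZMod k) = c) (K M : ℕ) (hM : 1 ≤ M) (A : Finset (ℕ × ℕ))
    (hA : ∀ x : ℕ × ℕ, K ≤ x.1 + x.2 → x.1 + x.2 < K + M → x ∈ A) :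
    PSk 0 (E h (K + 1)) (E h (K + M) - E h (K + 1)) k a ≤
      Real.exp ((K + M : ℕ) * h) * ∑ x ∈ A, WW h k c x.1 x.2 := by
  classical
  have e1 : ∑ x ∈ A, WW h k c x.1 x.2 =
      ∑ y ∈ A ×ˢ (univ : Finset (ZMod k)ˣ), ∑ x ∈ PC h k c y,
        (Real.log x.1 / x.1) * (Real.log x.2 / x.2) := by
    rw [sum_product]
    exact sum_congr rfl fun x _ => WW_eq h k c x.1 x.2
  rw [e1, ← sum_biUnion (PC_disj hh k c _)]
  unfold PSk
  have hE : E h (K + 1) + (E h (K + M) - E h (K + 1)) = E h (K + M) := by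
    have := E_mono hh.le (show K + 1 ≤ K + M by omega)
    omega
  have hmem : ∀ z ∈ PrP 0 (E h (K + 1)) (E h (K + M) - E h (K + 1)) k a,
      z ∈ (A ×ˢ (univ : Finset (ZMod k)ˣ)).biUnion (PC h k c) ∧
        (z.1 : ℝ) * z.2 ≤ Real.exp ((K + M : ℕ) * h) := by
    intro z hz
    rw [mem_PrP, hE] at hz
    obtain ⟨⟨hp, hq⟩, -, ⟨h1, h2⟩, hmod⟩ := hz
    have hpC := mem_C_idx hh hp
    have hqC := mem_C_idx hh hq
    have hpC' := mem_C_iff.1 hpC
    have hqC' := mem_C_iff.1 hqC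
    have hup : (z.1 : ℝ) * z.2 ≤ Real.exp ((K + M : ℕ) * h) := by
      have : ((z.1 * z.2 : ℕ) : ℝ) ≤ E h (K + M) := by exact_mod_cast h2
      rw [Nat.cast_mul] at this
      exact this.trans (E_le _ _)
    have hlo : Real.exp ((K + 1 : ℕ) * h) < (z.1 : ℝ) * z.2 := by
      rw [E, Nat.floor_lt (Real.exp_pos _).le] at h1
      rwa [Nat.cast_mul] at h1
    have hprod1 : Real.exp ((idx h z.1 : ℕ) * h) * Real.exp ((idx h z.2 : ℕ) * h) <
        (z.1 : ℝ) * z.2 :=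
      mul_lt_mul'' hpC'.2.1 hqC'.2.1 (Real.exp_pos _).le (Real.exp_pos _).le
    have hprod2 : (z.1 : ℝ) * z.2 ≤
        Real.exp (((idx h z.1 : ℕ) + 1) * h) * Real.exp (((idx h z.2 : ℕ) + 1) * h) :=
      mul_le_mul hpC'.2.2 hqC'.2.2 (Nat.cast_nonneg _) (Real.exp_pos _).le
    rw [← Real.exp_add] at hprod1 hprod2
    have h3 := Real.exp_lt_exp.1 (hprod1.trans_le hup)
    have h4 := Real.exp_lt_exp.1 (hlo.trans_le hprod2)
    have h5 : ((idx h z.1 : ℕ) : ℝ) + (idx h z.2 : ℕ) < (K + M : ℕ) := by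
      have : (((idx h z.1 : ℕ) : ℝ) + (idx h z.2 : ℕ)) * h < (K + M : ℕ) * h := by linarith
      exact lt_of_mul_lt_mul_right this hh.le
    have h6 : ((K + 1 : ℕ) : ℝ) < ((idx h z.1 : ℕ) : ℝ) + 1 + ((idx h z.2 : ℕ) + 1) := by
      have : ((K + 1 : ℕ) : ℝ) * h < (((idx h z.1 : ℕ) : ℝ) + 1 + ((idx h z.2 : ℕ) + 1)) * h := by
        linarith
      exact lt_of_mul_lt_mul_right this hh.le
    have h5' : idx h z.1 + idx h z.2 < K + M := by exact_mod_cast h5
    have h6' : K + 1 < idx h z.1 + 1 + (idx h z.2 + 1) := by exact_mod_cast h6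
    refine ⟨?_, hup⟩
    -- the class of the first prime
    have hprod : (z.1 : ZMod k) * (z.2 : ZMod k) = c := by
      rw [← hc, ← Nat.cast_mul]
      exact (ZMod.natCast_eq_natCast_iff _ _ _).2 hmod
    have hu : IsUnit ((z.1 : ℕ) : ZMod k) := by
      have : IsUnit ((z.1 : ZMod k) * (z.2 : ZMod k)) := by rw [hprod]; exact c.isUnit
      exact isUnit_of_mul_isUnit_left this
    obtain ⟨b, hb⟩ := hu
    rw [mem_biUnion]
    refine ⟨((idx h z.1, idx h z.2), b), ?_, ?_⟩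
    · rw [mem_product]
      refine ⟨hA _ ?_ ?_, mem_univ _⟩
      · simp only; omega
      · simp only; omega
    · unfold PC
      rw [mem_product, mem_filter, mem_filter]
      refine ⟨⟨hpC, hb.symm⟩, hqC, ?_⟩
      rw [Units.val_mul, ← hprod, ← hb, mul_comm (b : ZMod k), mul_assoc, Units.mul_inv, mul_one]
  calc ∑ z ∈ PrP 0 (E h (K + 1)) (E h (K + M) - E h (K + 1)) k a,
        Real.log z.1 * Real.log z.2
      ≤ ∑ z ∈ PrP 0 (E h (K + 1)) (E h (K + M) - E h (K + 1)) k a,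
        Real.exp ((K + M : ℕ) * h) * ((Real.log z.1 / z.1) * (Real.log z.2 / z.2)) := by
        refine sum_le_sum fun z hz => ?_
        have h2 := (hmem z hz).2
        rw [mem_PrP] at hz
        have hp0 : (0:ℝ) < z.1 := by exact_mod_cast hz.1.1.pos
        have hq0 : (0:ℝ) < z.2 := by exact_mod_cast hz.1.2.pos
        have h3 : Real.exp ((K + M : ℕ) * h) * ((Real.log z.1 / z.1) * (Real.log z.2 / z.2)) =
            (Real.log z.1 * Real.log z.2) * (Real.exp ((K + M : ℕ) * h) / ((z.1 : ℝ) * z.2)) := by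
          field_simp
        rw [h3]
        refine le_mul_of_one_le_right (mul_nonneg (Real.log_natCast_nonneg _)
          (Real.log_natCast_nonneg _)) ?_
        rw [le_div_iff₀ (by positivity), one_mul]
        exact h2
    _ ≤ ∑ z ∈ (A ×ˢ (univ : Finset (ZMod k)ˣ)).biUnion (PC h k c),
        Real.exp ((K + M : ℕ) * h) * ((Real.log z.1 / z.1) * (Real.log z.2 / z.2)) := by
        refine sum_le_sum_of_subset_of_nonneg (fun z hz => (hmem z hz).1) fun z _ _ => ?_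
        exact mul_nonneg (Real.exp_pos _).le (mul_nonneg (logdiv_nonneg _) (logdiv_nonneg _))
    _ = _ := by rw [mul_sum]

end Pool.Agent.T9h52.BT.Cell
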