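import Pool.Agent.T9h52.BT.Cell1
import Pool.Agent.Helper601.Mertens

/-!
# Bounds for the densities on cells
-/

set_option autoImplicit false

namespace Pool.Agent.T9h52.BT.Cell

open Finset
open Pool.Agent.H180R3.E469 (E C E_le lt_E E_pos half_le_E E_mono log_E_le le_log_E mem_C_iff
  logdiv_nonneg sum_cells idx mem_C_idx block_upper block_lower exp_sub_one_le)
open Pool.Agent.T9h52.BT

/-- the content of the two sided Selberg formula -/
def SA (ε ρ : ℝ) (X₀ : ℕ) : Prop := ∀ X Y k a w : ℕ, X₀ ≤ X → Y ≤ X → 1 ≤ k → a.Coprime k →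
    (k : ℝ) * (X : ℝ) ^ (1 - ρ) ≤ Y → (X : ℝ) ^ (2 * ρ) ≤ w →
    Real.log X * Th X Y k a + PSk w X Y k a ≤ (2 + ε) * (Y / k.totient) * Real.log X ∧
    (2 - ε) * (Y / k.totient) * Real.log X ≤ Real.log X * Th X Y k a + PSk 0 X Y k a

/-- the parameters are admissible -/
structure Adm (ε ρ h : ℝ) (X₀ k m : ℕ) : Prop where
  sa : SA ε ρ X₀
  ε0 : 0 < ε
  ε1 : ε ≤ 1 / 100
  ρ0 : 0 < ρ
  ρ1 : ρ < 1 / 4
  h0 : 0 < h
  h1 : h ≤ ε / 1000
  X2 : 2 ≤ X₀
  k1 : 1 ≤ k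
  hX : 2 * (X₀ : ℝ) ≤ Real.exp (m * h)
  hk : 4 * (k : ℝ) / h ≤ Real.exp (ρ * (m * h))

namespace Adm

variable {ε ρ h : ℝ} {X₀ k m : ℕ}

lemma expρ (A : Adm ε ρ h X₀ k m) {K : ℕ} (hK : m ≤ K) :
    4 * (k : ℝ) / h ≤ Real.exp (ρ * (K * h)) := by
  refine A.hk.trans (Real.exp_le_exp.2 (mul_le_mul_of_nonneg_left ?_ A.ρ0.le))
  exact mul_le_mul_of_nonneg_right (by exact_mod_cast hK) A.h0.le

lemma exp4 (A : Adm ε ρ h X₀ k m) {K : ℕ} (hK : m ≤ K) :
    (4 * (k : ℝ) / h) ^ 4 ≤ Real.exp (K * h) := by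
  have h1 := A.expρ hK
  have hh := A.h0
  have h2 : 0 ≤ 4 * (k : ℝ) / h := by positivity
  calc (4 * (k : ℝ) / h) ^ 4 ≤ Real.exp (ρ * (K * h)) ^ 4 := pow_le_pow_left₀ h2 h1 4
    _ = Real.exp (4 * (ρ * (K * h))) := by rw [← Real.exp_nat_mul]; norm_num
    _ ≤ Real.exp (K * h) := by
        refine Real.exp_le_exp.2 ?_
        have h3 : 0 ≤ (K : ℝ) * h := by positivity
        have := A.ρ1
        nlinarith

lemma kcast (A : Adm ε ρ h X₀ k m) : (1 : ℝ) ≤ k := by exact_mod_cast A.k1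

lemma big (A : Adm ε ρ h X₀ k m) {K : ℕ} (hK : m ≤ K) :
    (k : ℝ) ≤ Real.exp (K * h) ∧ 1 / h ^ 4 ≤ Real.exp (K * h) := by
  have h1 := A.exp4 hK
  have hh := A.h0
  have hk := A.kcast
  have hh1 : h ≤ 1 := by have := A.h1; have := A.ε1; linarith
  have h2 : 1 / h ≤ 4 * (k : ℝ) / h := by
    rw [div_le_div_iff_of_pos_right hh]; linarith
  have h3 : 1 ≤ 1 / h := by rw [le_div_iff₀ hh]; linarith
  have h4 : (k : ℝ) ≤ 4 * (k : ℝ) / h := by
    rw [le_div_iff₀ hh]; nlinarith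
  have h5 : 1 ≤ 4 * (k : ℝ) / h := h3.trans h2
  constructor
  · calc (k : ℝ) ≤ 4 * (k : ℝ) / h := h4
      _ ≤ (4 * (k : ℝ) / h) ^ 4 := le_self_pow₀ h5 (by norm_num)
      _ ≤ _ := h1
  · calc 1 / h ^ 4 = (1 / h) ^ 4 := by rw [div_pow, one_pow]
      _ ≤ (4 * (k : ℝ) / h) ^ 4 := pow_le_pow_left₀ (by positivity) h2 4
      _ ≤ _ := h1

/-- exponentials beat the width -/
lemma exph (A : Adm ε ρ h X₀ k m) {K : ℕ} (hK : m ≤ K) : Real.exp (-(K * h)) ≤ h ^ 4 := by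
  have h1 := (A.big hK).2
  rw [Real.exp_neg, inv_eq_one_div]
  have hh := A.h0
  rw [div_le_iff₀ (Real.exp_pos _)]
  rw [div_le_iff₀ (by positivity)] at h1
  linarith

lemma cond (A : Adm ε ρ h X₀ k m) {K M : ℕ} (hK : m ≤ K) (hM : 1 ≤ M)
    (hMh : (M : ℝ) * h ≤ 1 / 100) :
    X₀ ≤ E h K ∧ E h (K + M) - E h K ≤ E h K ∧
      (k : ℝ) * (E h K : ℝ) ^ (1 - ρ) ≤ ((E h (K + M) - E h K : ℕ) : ℝ) := by
  have hh := A.h0
  have hh1 : h ≤ 1 / 1000 := by have := A.h1; have := A.ε1; linarith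
  have hM1 : (1:ℝ) ≤ M := by exact_mod_cast hM
  have hX1 : Real.exp (m * h) ≤ Real.exp (K * h) :=
    Real.exp_le_exp.2 (mul_le_mul_of_nonneg_right (by exact_mod_cast hK) hh.le)
  have hYu := block_upper hh K M (by linarith)
  have hYl := block_lower hh K M
  have hX1u : (E h K : ℝ) ≤ Real.exp (K * h) := E_le h K
  have hX1l : Real.exp (K * h) / 2 ≤ (E h K : ℝ) := half_le_E hh.le K
  have hXX := A.hX
  have hX2 : (2:ℝ) ≤ X₀ := by exact_mod_cast A.X2
  have hbig := (A.big hK).2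
  have hρK := A.expρ hK
  set e : ℝ := Real.exp (K * h) with he_def
  have he : 0 < e := Real.exp_pos _
  have heh : 4 ≤ e * h := by
    have h1 : 1 / h ^ 4 * h ≤ e * h := mul_le_mul_of_nonneg_right hbig hh.le
    have h2 : 1 / h ^ 4 * h = 1 / h ^ 3 := by field_simp
    have h3 : 4 ≤ 1 / h ^ 3 := by
      rw [le_div_iff₀ (by positivity)]
      have : h ^ 3 ≤ 1 / 1000 := by
        calc h ^ 3 ≤ (1 / 1000) ^ 3 := pow_le_pow_left₀ hh.le hh1 3
          _ ≤ 1 / 1000 := by norm_num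
      linarith
    linarith
  refine ⟨?_, ?_, ?_⟩
  · have : (X₀ : ℝ) ≤ E h K := by linarith
    exact_mod_cast this
  · have h0 : 0 ≤ (M:ℝ) * h := by positivity
    have h1 : (M:ℝ) * h * (1 + 2 * (M * h)) ≤ 1 / 50 := by nlinarith
    have h2 : e * ((M:ℝ) * h * (1 + 2 * (M * h))) ≤ e * (1 / 50) :=
      mul_le_mul_of_nonneg_left h1 he.le
    have he4 : 4000 ≤ e := by nlinarith
    have : ((E h (K + M) - E h K : ℕ) : ℝ) ≤ E h K := by linarith
    exact_mod_cast this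
  · have hk0 := A.kcast
    have h1 : (E h K : ℝ) ^ (1 - ρ) ≤ e ^ (1 - ρ) :=
      Real.rpow_le_rpow (by linarith) hX1u (by have := A.ρ1; linarith)
    have h2 : e ^ (1 - ρ) = e / Real.exp (ρ * (K * h)) := by
      rw [he_def, ← Real.exp_mul, ← Real.exp_sub]
      congr 1
      ring
    have h3 : (k : ℝ) * (e / Real.exp (ρ * (K * h))) ≤ e * h / 4 := by
      rw [div_le_iff₀ hh] at hρK
      rw [← mul_div_assoc, div_le_iff₀ (Real.exp_pos _)]
      nlinarith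
    have h4 : e * h ≤ e * (M * h) := by nlinarith
    calc (k : ℝ) * (E h K : ℝ) ^ (1 - ρ) ≤ k * (e / Real.exp (ρ * (K * h))) := by
          rw [← h2]; exact mul_le_mul_of_nonneg_left h1 (by linarith)
      _ ≤ e * h / 4 := h3
      _ ≤ _ := by linarith

lemma logE (A : Adm ε ρ h X₀ k m) {K : ℕ} (hK : m ≤ K) : 0 < Real.log (E h K) := by
  have hh := A.h0
  have h1 := (A.cond hK le_rfl (by have := A.h1; have := A.ε1; push_cast; linarith)).1
  have h2 := A.X2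
  exact Real.log_pos (by exact_mod_cast (by omega : 1 < E h K))

/-- upper bound for the prime count of a cell -/
lemma Th_up (A : Adm ε ρ h X₀ k m) {K M a : ℕ} (hK : m ≤ K) (hM : 1 ≤ M)
    (hMh : (M : ℝ) * h ≤ 1 / 100) (ha : a.Coprime k) :
    Th (E h K) (E h (K + M) - E h K) k a ≤
      (2 + ε) * (((E h (K + M) - E h K : ℕ) : ℝ) / k.totient) := by
  obtain ⟨c1, c2, c3⟩ := A.cond hK hM hMh
  obtain ⟨w, hw⟩ := exists_nat_ge ((E h K : ℝ) ^ (2 * ρ))
  have h1 := (A.sa (E h K) (E h (K + M) - E h K) k a w c1 c2 A.k1 ha c3 hw).1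
  have h2 := PSk_nonneg w (E h K) (E h (K + M) - E h K) k a
  have h3 := A.logE hK
  have h4 : Real.log (E h K) * Th (E h K) (E h (K + M) - E h K) k a ≤
      Real.log (E h K) * ((2 + ε) * (((E h (K + M) - E h K : ℕ) : ℝ) / k.totient)) := by
    linarith
  exact le_of_mul_le_mul_left h4 h3

lemma tot0 (A : Adm ε ρ h X₀ k m) : (0:ℝ) < k.totient := by
  exact_mod_cast Nat.totient_pos.2 A.k1

/-- upper bound for the density on a cell -/
lemma ff_le (A : Adm ε ρ h X₀ k m) [NeZero k] {i : ℕ} (hi : m ≤ i) (b : (ZMod k)ˣ) :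
    ff h k i b ≤ 2 + 2 * ε := by
  have hh := A.h0
  have hh1 := A.h1
  have hε0 := A.ε0
  have hε1 := A.ε1
  obtain ⟨a, ha, hab⟩ := rep b
  have h1 := A.Th_up (M := 1) hi le_rfl (by push_cast; linarith) ha
  have h2 := Th_ge h hh.le k a i 1
  have h3 : ∑ j ∈ Ico i (i + 1), ms h k j (a : ZMod k) = ms h k i b := by
    simp [hab]
  rw [h3] at h2
  have hYu := block_upper hh i 1 (by push_cast; linarith)
  simp only [Nat.cast_one, one_mul] at hYu
  have hφ := A.tot0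
  have hexp := A.exph hi
  have he : 0 < Real.exp (i * h) := Real.exp_pos _
  unfold ff
  have h4 : ms h k i b ≤ Real.exp (-(i * h)) *
      ((2 + ε) * (((E h (i + 1) - E h i : ℕ) : ℝ) / k.totient)) := by
    rw [Real.exp_neg, inv_mul_eq_div, le_div_iff₀ he, mul_comm]
    exact h2.trans h1
  have h5 : (k.totient : ℝ) / h * ms h k i b ≤ k.totient / h * (Real.exp (-(i * h)) *
      ((2 + ε) * (((E h (i + 1) - E h i : ℕ) : ℝ) / k.totient))) :=
    mul_le_mul_of_nonneg_left h4 (by positivity)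
  have h6 : (k.totient : ℝ) / h * (Real.exp (-(i * h)) *
      ((2 + ε) * (((E h (i + 1) - E h i : ℕ) : ℝ) / k.totient))) =
      (2 + ε) * (Real.exp (-(i * h)) * ((E h (i + 1) - E h i : ℕ) : ℝ)) / h := by
    field_simp
  have h7 : Real.exp (-(i * h)) * ((E h (i + 1) - E h i : ℕ) : ℝ) ≤ h * (1 + 3 * h) := by
    have a1 : Real.exp (-(i * h)) * ((E h (i + 1) - E h i : ℕ) : ℝ) ≤
        Real.exp (-(i * h)) * (Real.exp (i * h) * (h * (1 + 2 * h)) + 1) :=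
      mul_le_mul_of_nonneg_left hYu (Real.exp_pos _).le
    have a2 : Real.exp (-(i * h)) * (Real.exp (i * h) * (h * (1 + 2 * h)) + 1) =
        h * (1 + 2 * h) + Real.exp (-(i * h)) := by
      rw [mul_add, ← mul_assoc, ← Real.exp_add]
      simp
    have a3 : h ^ 4 ≤ h * h := by
      have : h ^ 2 ≤ 1 := by nlinarith
      nlinarith [sq_nonneg h]
    nlinarith
  rw [h6] at h5
  refine h5.trans ?_
  rw [div_le_iff₀ hh]
  have h8 : (2 + ε) * (Real.exp (-(i * h)) * ((E h (i + 1) - E h i : ℕ) : ℝ)) ≤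
      (2 + ε) * (h * (1 + 3 * h)) := mul_le_mul_of_nonneg_left h7 (by linarith)
  have h9 : (2 + ε) * (1 + 3 * h) ≤ 2 + 2 * ε := by nlinarith
  calc _ ≤ (2 + ε) * (h * (1 + 3 * h)) := h8
    _ = ((2 + ε) * (1 + 3 * h)) * h := by ring
    _ ≤ (2 + 2 * ε) * h := mul_le_mul_of_nonneg_right h9 hh.le

lemma ms_up (A : Adm ε ρ h X₀ k m) [NeZero k] {i : ℕ} (hi : m ≤ i) (b : (ZMod k)ˣ) :
    ms h k i b ≤ (2 + 2 * ε) * (h / k.totient) := by
  have h1 := A.ff_le hi b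
  have hh := A.h0
  have hφ := A.tot0
  unfold ff at h1
  have h2 : (k.totient : ℝ) / h * ms h k i b = ms h k i b / (h / k.totient) := by
    field_simp
  rw [h2, div_le_iff₀ (by positivity)] at h1
  exact h1

end Adm

/-- total masses -/
lemma ms_tot_le (h : ℝ) (k i : ℕ) [NeZero k] :
    ∑ b : (ZMod k)ˣ, ms h k i b ≤ ∑ p ∈ C h i, Real.log p / p := by
  classical
  unfold ms
  rw [← sum_biUnion]
  · refine sum_le_sum_of_subset_of_nonneg ?_ fun p _ _ => logdiv_nonneg p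
    intro p hp
    rw [mem_biUnion] at hp
    obtain ⟨b, _, hp⟩ := hp
    exact (mem_filter.1 hp).1
  · intro b _ b' _ hbb
    rw [Function.onFun, disjoint_left]
    intro p hp hp'
    rw [mem_filter] at hp hp'
    exact hbb (Units.ext (hp.2.symm.trans hp'.2))

lemma ms_tot_eq {h : ℝ} (k i : ℕ) [NeZero k] (hk : (k : ℝ) ≤ Real.exp (i * h)) :
    ∑ b : (ZMod k)ˣ, ms h k i b = ∑ p ∈ C h i, Real.log p / p := by
  classical
  unfold ms
  rw [← sum_biUnion]
  · refine sum_congr ?_ fun _ _ => rfl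
    ext p
    rw [mem_biUnion]
    constructor
    · rintro ⟨b, _, hp⟩
      exact (mem_filter.1 hp).1
    · intro hp
      have hp' := mem_C_iff.1 hp
      have hkp : k < p := by
        have : (k : ℝ) < p := hk.trans_lt hp'.2.1
        exact_mod_cast this
      have hco : p.Coprime k := by
        rw [Nat.Prime.coprime_iff_not_dvd hp'.1]
        intro hdvd
        have := Nat.le_of_dvd (Nat.pos_of_ne_zero (NeZero.ne k)) hdvd
        omega
      refine ⟨ZMod.unitOfCoprime p hco, mem_univ _, ?_⟩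
      rw [mem_filter]
      exact ⟨hp, (ZMod.coe_unitOfCoprime p hco).symm⟩
  · intro b _ b' _ hbb
    rw [Function.onFun, disjoint_left]
    intro p hp hp'
    rw [mem_filter] at hp hp'
    exact hbb (Units.ext (hp.2.symm.trans hp'.2))

/-- Mertens on cells, one sided for small cells -/
lemma mertens_small : ∃ C₁ : ℝ, 1 ≤ C₁ ∧ ∀ h : ℝ, 0 < h →
    (∀ u w : ℕ, u ≤ w → |∑ i ∈ Ico u w, ∑ p ∈ C h i, Real.log p / p - ((w:ℝ) - u) * h| ≤ C₁) := by
  obtain ⟨C₁, hC1, hC⟩ := Pool.Agent.H180R3.E469.mertens_cells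
  refine ⟨2 * C₁ + 1, by linarith, ?_⟩
  intro h hh u w huw
  have h1 := hC h hh u w huw
  have h2 : ∑ i ∈ Ico u w, Pool.Agent.H180R3.E469.f h i =
      (∑ i ∈ Ico u w, ∑ p ∈ C h i, Real.log p / p) / (2 * h) := by
    rw [sum_div]
    rfl
  rw [h2] at h1
  set S := ∑ i ∈ Ico u w, ∑ p ∈ C h i, Real.log p / p
  have h3 : S / (2 * h) - ((w : ℝ) - u) / 2 = (S - (w - u) * h) / (2 * h) := by
    field_simp
  rw [h3, abs_div, abs_of_pos (show (0:ℝ) < 2 * h by positivity), div_le_div_iff₀ (by positivity) hh]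
    at h1
  have h4 : |S - (w - u) * h| * h ≤ (2 * C₁) * h := by linarith
  have h5 := le_of_mul_le_mul_right h4 hh
  linarith

open Pool.Agent.T9h52.BT.St (av)

lemma av_ff {h : ℝ} (hh : 0 < h) {k : ℕ} [NeZero k] (i : ℕ) :
    av (ff h k i) = (∑ b : (ZMod k)ˣ, ms h k i b) / h := by
  unfold av ff
  rw [← mul_sum, ZMod.card_units_eq_totient]
  have : (0:ℝ) < k.totient := by
    exact_mod_cast Nat.totient_pos.2 (Nat.pos_of_ne_zero (NeZero.ne k))
  field_simp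

lemma av_ff_sum {C₁ ε ρ h : ℝ} {X₀ k m : ℕ} (A : Adm ε ρ h X₀ k m) [NeZero k]
    (hC : ∀ u w : ℕ, u ≤ w → |∑ i ∈ Ico u w, ∑ p ∈ C h i, Real.log p / p -
      ((w:ℝ) - u) * h| ≤ C₁) {u w : ℕ} (hu : m ≤ u) (huw : u ≤ w) :
    |∑ i ∈ Ico u w, av (ff h k i) - ((w : ℝ) - u)| ≤ C₁ / h := by
  have hh := A.h0
  have h1 : ∑ i ∈ Ico u w, av (ff h k i) =
      (∑ i ∈ Ico u w, ∑ p ∈ C h i, Real.log p / p) / h := by
    rw [sum_div]
    refine sum_congr rfl fun i hi => ?_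
    rw [mem_Ico] at hi
    rw [av_ff hh, ms_tot_eq k i (A.big (hu.trans hi.1)).1]
  rw [h1]
  have h2 := hC u w huw
  set S := ∑ i ∈ Ico u w, ∑ p ∈ C h i, Real.log p / p
  have h3 : S / h - ((w : ℝ) - u) = (S - (w - u) * h) / h := by
    field_simp
  rw [h3, abs_div, abs_of_pos hh]
  exact div_le_div_of_nonneg_right h2 hh.le

end Pool.Agent.T9h52.BT.Cell
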