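import Pool.Agent.T9h52.BT.Cell2

/-!
# The convolution of the densities
-/

set_option autoImplicit false

namespace Pool.Agent.T9h52.BT.Cell

open Finset
open Pool.Agent.H180R3.E469 (E C E_le lt_E E_pos half_le_E E_mono log_E_le le_log_E mem_C_iff
  logdiv_nonneg sum_cells idx mem_C_idx block_upper block_lower exp_sub_one_le)
open Pool.Agent.T9h52.BT
open Pool.Agent.T9h52.BT.St (av wv)

/-- the convolution -/
noncomputable def AK (h : ℝ) (k M m K : ℕ) [NeZero k] (c : (ZMod k)ˣ) : ℝ :=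
  ∑ i ∈ Icc m (K - m), av fun b => ff h k i b * wv M (ff h k) (K - i) (c * b⁻¹)

noncomputable def mainS (m M K : ℕ) : Finset (ℕ × ℕ) :=
  (Icc m (K - m) ×ˢ range M).image (fun x => (x.1, K - x.1 + x.2))

noncomputable def S1 (n M K : ℕ) : Finset (ℕ × ℕ) :=
  (range n ×ˢ range M).image (fun x => (x.1, K - x.1 + x.2))

noncomputable def S2 (n M K : ℕ) : Finset (ℕ × ℕ) :=
  (range n ×ˢ range M).image (fun x => (K - x.1 + x.2, x.1))

lemma wv_ff {h : ℝ} (hh : 0 < h) {k M : ℕ} (hM : 1 ≤ M) (j : ℕ) (b : (ZMod k)ˣ) :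
    wv M (ff h k) j b = (k.totient / (M * h)) * ∑ l ∈ range M, ms h k (j + l) b := by
  unfold wv ff
  rw [← mul_sum]
  have : (0:ℝ) < M := by exact_mod_cast hM
  field_simp

lemma AK_eq {h : ℝ} (hh : 0 < h) {k M m K : ℕ} [NeZero k] (hM : 1 ≤ M) (c : (ZMod k)ˣ) :
    AK h k M m K c * (M * h ^ 2 / k.totient) = ∑ x ∈ mainS m M K, WW h k c x.1 x.2 := by
  have hM0 : (0:ℝ) < M := by exact_mod_cast hM
  have hφ : (0:ℝ) < k.totient := by
    exact_mod_cast Nat.totient_pos.2 (Nat.pos_of_ne_zero (NeZero.ne k))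
  unfold mainS
  rw [sum_image]
  · rw [sum_product]
    unfold AK
    rw [sum_mul]
    refine sum_congr rfl fun i _ => ?_
    unfold av WW
    simp only
    rw [sum_comm, ZMod.card_units_eq_totient, sum_div, sum_mul]
    refine sum_congr rfl fun b _ => ?_
    rw [wv_ff hh hM, ← mul_sum]
    unfold ff
    field_simp
  · intro x hx y hy hxy
    simp only [coe_product, Set.mem_prod, coe_Icc, Set.mem_Icc, coe_range, Set.mem_Iio,
      Prod.mk.injEq] at hx hy hxy
    exact Prod.ext hxy.1 (by omega)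

lemma AK_upper {ε ρ h : ℝ} {X₀ k m M K N : ℕ} (A : Adm ε ρ h X₀ k m) [NeZero k]
    (c : (ZMod k)ˣ) (hM : 4 ≤ ε * M) (hMh : ((M:ℝ) + 1) * h ≤ ε / 10)
    (hK : 2 * m + M ≤ K) (hKN : K ≤ N) (hmN : 2 * ρ * (N * h) + 1 ≤ m * h) :
    AK h k M m K c + K * wv M (ff h k) K c ≤ 2 * K + 4 * ε * K := by
  have hh := A.h0
  have hε0 := A.ε0
  have hε1 := A.ε1
  have hφ := A.tot0
  have hM1 : 1 ≤ M := by
    rcases Nat.eq_zero_or_pos M with h0 | h0
    · rw [h0] at hM; norm_num at hM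
    · exact h0
  have hM1' : (1:ℝ) ≤ M := by exact_mod_cast hM1
  have hM0 : (0:ℝ) < M := by linarith
  obtain ⟨a, ha, hab⟩ := rep c
  have h1 := AK_eq (m := m) (K := K) hh hM1 c
  have h2 := WW_le_PS hh hab m K M (mainS m M K) (by
    intro x hx
    unfold mainS at hx
    rw [mem_image] at hx
    obtain ⟨y, hy, rfl⟩ := hx
    rw [mem_product, mem_Icc, mem_range] at hy
    simp only
    refine ⟨?_, ?_, ?_, ?_⟩ <;> omega)
  rw [← h1] at h2
  obtain ⟨c1, c2, c3⟩ := A.cond (K := K) (M := M + 1) (by omega) (by omega)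
    (by push_cast; linarith)
  have hw : (E h K : ℝ) ^ (2 * ρ) ≤ (E h m : ℝ) := by
    have hm2 := half_le_E hh.le m
    have hE1 : (0:ℝ) ≤ E h K := Nat.cast_nonneg _
    have e1 : (E h K : ℝ) ^ (2 * ρ) ≤ Real.exp (K * h) ^ (2 * ρ) :=
      Real.rpow_le_rpow hE1 (E_le h K) (by have := A.ρ0; linarith)
    rw [← Real.exp_mul] at e1
    have e2 : Real.exp (K * h * (2 * ρ)) ≤ Real.exp (m * h - 1) := by
      refine Real.exp_le_exp.2 ?_
      have t1 : (K : ℝ) * h ≤ N * h := mul_le_mul_of_nonneg_right (by exact_mod_cast hKN) hh.le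
      have t2 := A.ρ0
      have t3 := mul_le_mul_of_nonneg_left t1 (show (0:ℝ) ≤ 2 * ρ by linarith)
      linarith only [t3, hmN]
    have e3 : Real.exp (m * h - 1) ≤ Real.exp (m * h) / 2 := by
      rw [Real.exp_sub, div_le_div_iff_of_pos_left (Real.exp_pos _) (Real.exp_pos _) (by norm_num)]
      have := Real.add_one_le_exp (1:ℝ)
      linarith
    linarith
  have h3 := (A.sa (E h K) (E h (K + (M + 1)) - E h K) k a (E h m) c1 c2 A.k1 ha c3 hw).1
  rw [← add_assoc] at h3 c3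
  have h4 : Real.exp (K * h) * ∑ i ∈ Ico K (K + M), ms h k i (a : ZMod k) ≤
      Th (E h K) (E h (K + M + 1) - E h K) k a := by
    refine le_trans ?_ (Th_ge h hh.le k a K (M + 1))
    refine mul_le_mul_of_nonneg_left ?_ (Real.exp_pos _).le
    exact sum_le_sum_of_subset_of_nonneg (Ico_subset_Ico_right (by omega))
      fun _ _ _ => ms_nonneg _ _ _ _
  have hg : ∑ i ∈ Ico K (K + M), ms h k i (a : ZMod k) =
      (M * h / k.totient) * wv M (ff h k) K c := by
    rw [wv_ff hh hM1, sum_Ico_eq_sum_range, hab, Nat.add_sub_cancel_left]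
    field_simp
  rw [hg] at h4
  have hgle : wv M (ff h k) K c ≤ 2 + 2 * ε := by
    refine (le_abs_self _).trans (St.wv_abs hM1 fun l hl => ?_)
    rw [abs_of_nonneg (ff_nonneg hh _ _ _)]
    exact A.ff_le (by omega) c
  set g := wv M (ff h k) K c with hgdef
  set P := PSk (E h m) (E h K) (E h (K + M + 1) - E h K) k a with hP
  set T := Th (E h K) (E h (K + M + 1) - E h K) k a with hT
  set ℓ := Real.log (E h K) with hℓ
  have hℓ0 : 0 < ℓ := A.logE (by omega)
  have hℓ1 : ℓ ≤ K * h := log_E_le hh.le K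
  have hYu := block_upper hh K (M + 1) (by push_cast; linarith)
  rw [← add_assoc] at hYu
  set Y : ℝ := ((E h (K + M + 1) - E h K : ℕ) : ℝ) with hY
  have hexp := A.exph (K := K) (by omega)
  have hkey : Real.exp (-(K * h)) * Y ≤ (1 + ε) * (M * h) := by
    have a1 : Real.exp (-(K * h)) * Y ≤ Real.exp (-(K * h)) *
        (Real.exp (K * h) * (((M + 1 : ℕ) : ℝ) * h * (1 + 2 * (((M + 1 : ℕ) : ℝ) * h))) + 1) :=
      mul_le_mul_of_nonneg_left hYu (Real.exp_pos _).le
    have a2 : Real.exp (-(K * h)) *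
        (Real.exp (K * h) * (((M + 1 : ℕ) : ℝ) * h * (1 + 2 * (((M + 1 : ℕ) : ℝ) * h))) + 1) =
        ((M + 1 : ℕ) : ℝ) * h * (1 + 2 * (((M + 1 : ℕ) : ℝ) * h)) + Real.exp (-(K * h)) := by
      rw [mul_add, ← mul_assoc, ← Real.exp_add]
      simp
    have hh1 : h ≤ 1 := by have := A.h1; linarith
    have a3 : h ^ 4 ≤ h := by
      calc h ^ 4 ≤ h ^ 1 := pow_le_pow_of_le_one hh.le hh1 (by norm_num)
        _ = h := pow_one h
    rw [a2] at a1
    push_cast at a1
    have a4 : ((M:ℝ) + 1) * h * (1 + 2 * (((M:ℝ) + 1) * h)) ≤ ((M:ℝ) + 1) * h * (1 + ε / 5) :=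
      mul_le_mul_of_nonneg_left (by linarith) (by positivity)
    have a5 : ((M:ℝ) + 1) * h * (1 + ε / 5) + h ≤ (1 + ε) * (M * h) := by
      have t1 : ((M:ℝ) + 1) * (1 + ε / 5) + 1 ≤ (1 + ε) * M := by
        nlinarith only [hM, hε1, hε0]
      have t2 := mul_le_mul_of_nonneg_right t1 hh.le
      linarith only [t2]
    linarith only [a1, a3, a4, a5, hexp]
  -- combine
  have h5 : P ≤ (2 + ε) * (Y / k.totient) * ℓ - ℓ * (Real.exp (K * h) *
      ((M * h / k.totient) * g)) := by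
    have := mul_le_mul_of_nonneg_left h4 hℓ0.le
    linarith
  have h6 : AK h k M m K c * (M * h ^ 2 / k.totient) ≤ Real.exp (-(K * h)) *
      ((2 + ε) * (Y / k.totient) * ℓ - ℓ * (Real.exp (K * h) * ((M * h / k.totient) * g))) :=
    h2.trans (mul_le_mul_of_nonneg_left h5 (Real.exp_pos _).le)
  have h7 : Real.exp (-(K * h)) *
      ((2 + ε) * (Y / k.totient) * ℓ - ℓ * (Real.exp (K * h) * ((M * h / k.totient) * g))) =
      (ℓ / k.totient) * ((2 + ε) * (Real.exp (-(K * h)) * Y) - M * h * g) := by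
    have e1 : Real.exp (-(K * h)) * Real.exp (K * h) = 1 := by
      rw [← Real.exp_add]; simp
    linear_combination (-(ℓ * (M * h / k.totient) * g)) * e1
  rw [h7] at h6
  have h8 : (ℓ / k.totient) * ((2 + ε) * (Real.exp (-(K * h)) * Y) - M * h * g) ≤
      (ℓ / k.totient) * ((M * h) * ((2 + ε) * (1 + ε) - g)) := by
    refine mul_le_mul_of_nonneg_left ?_ (by positivity)
    have := mul_le_mul_of_nonneg_left hkey (show (0:ℝ) ≤ 2 + ε by linarith)
    linarith only [this]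
  have h9 : (0:ℝ) ≤ (2 + ε) * (1 + ε) - g := by nlinarith only [hgle, hε0]
  have h10 : (ℓ / k.totient) * ((M * h) * ((2 + ε) * (1 + ε) - g)) ≤
      ((K * h) / k.totient) * ((M * h) * ((2 + ε) * (1 + ε) - g)) := by
    refine mul_le_mul_of_nonneg_right ?_ (by positivity)
    exact div_le_div_of_nonneg_right hℓ1 hφ.le
  have h11 : AK h k M m K c * (M * h ^ 2 / k.totient) ≤
      (K * ((2 + ε) * (1 + ε) - g)) * (M * h ^ 2 / k.totient) := by
    refine (h6.trans (h8.trans h10)).trans (le_of_eq ?_)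
    field_simp
  have h12 := le_of_mul_le_mul_right h11 (by positivity)
  have hK0 : (0:ℝ) ≤ K := Nat.cast_nonneg K
  have h13 : (K:ℝ) * ((2 + ε) * (1 + ε)) ≤ K * (2 + 4 * ε) :=
    mul_le_mul_of_nonneg_left (by nlinarith only [hε0, hε1]) hK0
  linarith only [h12, h13]

/-- The contribution of small cells. -/
lemma rest_le {C₁ ε ρ h : ℝ} {X₀ k m M K : ℕ} (A : Adm ε ρ h X₀ k m) [NeZero k]
    (hC : ∀ u w : ℕ, u ≤ w → |∑ i ∈ Ico u w, ∑ p ∈ C h i, Real.log p / p -
      ((w:ℝ) - u) * h| ≤ C₁)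
    (c : (ZMod k)ˣ) (hK : 2 * m + M ≤ K) :
    ∑ t ∈ range (m + M), ∑ l ∈ range M, WW h k c t (K - t + l) ≤
      M * ((2 + 2 * ε) * (h / k.totient)) * (((m:ℝ) + M) * h + C₁) := by
  have hh := A.h0
  have hε0 := A.ε0
  have hφ := A.tot0
  have hB : 0 ≤ (2 + 2 * ε) * (h / k.totient) := by positivity
  have h1 : ∀ t ∈ range (m + M), ∑ l ∈ range M, WW h k c t (K - t + l) ≤
      M * ((2 + 2 * ε) * (h / k.totient)) * ∑ p ∈ C h t, Real.log p / p := by
    intro t ht
    rw [mem_range] at ht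
    have h2 : ∀ l ∈ range M, WW h k c t (K - t + l) ≤
        ((2 + 2 * ε) * (h / k.totient)) * ∑ p ∈ C h t, Real.log p / p := by
      intro l _
      unfold WW
      calc ∑ b : (ZMod k)ˣ, ms h k t b * ms h k (K - t + l) ((c * b⁻¹ : (ZMod k)ˣ) : ZMod k)
          ≤ ∑ b : (ZMod k)ˣ, ms h k t b * ((2 + 2 * ε) * (h / k.totient)) := by
            refine sum_le_sum fun b _ => mul_le_mul_of_nonneg_left ?_ (ms_nonneg _ _ _ _)
            exact A.ms_up (by omega) _
        _ = ((2 + 2 * ε) * (h / k.totient)) * ∑ b : (ZMod k)ˣ, ms h k t b := by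
            rw [← sum_mul, mul_comm]
        _ ≤ _ := mul_le_mul_of_nonneg_left (ms_tot_le h k t) hB
    calc ∑ l ∈ range M, WW h k c t (K - t + l)
        ≤ ∑ l ∈ range M, ((2 + 2 * ε) * (h / k.totient)) * ∑ p ∈ C h t, Real.log p / p :=
          sum_le_sum h2
      _ = _ := by rw [sum_const, card_range, nsmul_eq_mul]; ring
  refine (sum_le_sum h1).trans ?_
  rw [← mul_sum]
  refine mul_le_mul_of_nonneg_left ?_ (by positivity)
  have h3 := (abs_le.1 (hC 0 (m + M) (Nat.zero_le _))).2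
  rw [← range_eq_Ico] at h3
  push_cast at h3
  linarith

lemma sum_union_le {s t : Finset (ℕ × ℕ)} {F : ℕ × ℕ → ℝ} (hF : ∀ x, 0 ≤ F x) :
    ∑ x ∈ s ∪ t, F x ≤ ∑ x ∈ s, F x + ∑ x ∈ t, F x := by
  have h1 := sum_union_inter (s₁ := s) (s₂ := t) (f := F)
  have h2 : 0 ≤ ∑ x ∈ s ∩ t, F x := sum_nonneg fun x _ => hF x
  linarith

lemma AK_lower {C₁ ε ρ h : ℝ} {X₀ k m M K : ℕ} (A : Adm ε ρ h X₀ k m) [NeZero k]
    (hC1 : 0 ≤ C₁)
    (hC : ∀ u w : ℕ, u ≤ w → |∑ i ∈ Ico u w, ∑ p ∈ C h i, Real.log p / p -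
      ((w:ℝ) - u) * h| ≤ C₁)
    (c : (ZMod k)ˣ) (hM : 4 ≤ ε * M) (hMh : ((M:ℝ) + 1) * h ≤ ε / 10)
    (hK : 2 * m + M ≤ K) (hKh : 1 ≤ K * h) :
    2 * K - 3 * ε * K - (3 + 2 / h + 5 * ((m:ℝ) + M + C₁ / h)) ≤
      AK h k M m K c + K * wv M (ff h k) K c := by
  have hh := A.h0
  have hε0 := A.ε0
  have hε1 := A.ε1
  have hφ := A.tot0
  have hM1 : 1 ≤ M := by
    rcases Nat.eq_zero_or_pos M with h0 | h0
    · rw [h0] at hM; norm_num at hM
    · exact h0
  have hM1' : (1:ℝ) ≤ M := by exact_mod_cast hM1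
  have hM2 : 2 ≤ M := by
    have : (2:ℝ) ≤ M := by nlinarith only [hM, hε1, hM1']
    exact_mod_cast this
  have hM0 : (0:ℝ) < M := by linarith
  obtain ⟨a, ha, hab⟩ := rep c
  have h1 := AK_eq (m := m) (K := K) hh hM1 c
  have h2 := PS_le_WW hh hab K M hM1 (mainS m M K ∪ (S1 (m + M) M K ∪ S2 (m + M) M K)) (by
    intro x hx1 hx2
    rw [mem_union, mem_union]
    by_cases hs : x.1 < m + M
    · right; left
      unfold S1
      rw [mem_image]
      refine ⟨(x.1, x.1 + x.2 - K), ?_, ?_⟩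
      · rw [mem_product, mem_range, mem_range]
        constructor
        · exact hs
        · simp only; omega
      · exact Prod.ext rfl (by simp only; omega)
    · by_cases ht : x.2 < m + M
      · right; right
        unfold S2
        rw [mem_image]
        refine ⟨(x.2, x.1 + x.2 - K), ?_, ?_⟩
        · rw [mem_product, mem_range, mem_range]
          constructor
          · exact ht
          · simp only; omega
        · exact Prod.ext (by simp only; omega) rfl
      · left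
        unfold mainS
        rw [mem_image]
        refine ⟨(x.1, x.1 + x.2 - K), ?_, ?_⟩
        · rw [mem_product, mem_Icc, mem_range]
          simp only
          refine ⟨⟨?_, ?_⟩, ?_⟩ <;> omega
        · exact Prod.ext rfl (by simp only; omega))
  have hrest := rest_le A hC c hK
  have e1 : ∑ x ∈ S1 (m + M) M K, WW h k c x.1 x.2 =
      ∑ t ∈ range (m + M), ∑ l ∈ range M, WW h k c t (K - t + l) := by
    unfold S1
    rw [sum_image, sum_product]
    intro x hx y hy hxy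
    simp only [coe_product, Set.mem_prod, coe_range, Set.mem_Iio, Prod.mk.injEq] at hx hy hxy
    exact Prod.ext hxy.1 (by omega)
  have e2 : ∑ x ∈ S2 (m + M) M K, WW h k c x.1 x.2 =
      ∑ t ∈ range (m + M), ∑ l ∈ range M, WW h k c t (K - t + l) := by
    unfold S2
    rw [sum_image, sum_product]
    · refine sum_congr rfl fun t _ => sum_congr rfl fun l _ => ?_
      exact WW_comm h k c _ _
    · intro x hx y hy hxy
      simp only [coe_product, Set.mem_prod, coe_range, Set.mem_Iio, Prod.mk.injEq] at hx hy hxy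
      exact Prod.ext hxy.2 (by omega)
  have h3 : ∑ x ∈ mainS m M K ∪ (S1 (m + M) M K ∪ S2 (m + M) M K), WW h k c x.1 x.2 ≤
      AK h k M m K c * (M * h ^ 2 / k.totient) +
        2 * (M * ((2 + 2 * ε) * (h / k.totient)) * (((m:ℝ) + M) * h + C₁)) := by
    have u1 := sum_union_le (s := mainS m M K) (t := S1 (m + M) M K ∪ S2 (m + M) M K)
      (F := fun x => WW h k c x.1 x.2) (fun x => WW_nonneg _ _ _ _ _)
    have u2 := sum_union_le (s := S1 (m + M) M K) (t := S2 (m + M) M K)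
      (F := fun x => WW h k c x.1 x.2) (fun x => WW_nonneg _ _ _ _ _)
    rw [h1]
    rw [e1, e2] at u2
    linarith
  have h4 := h2.trans (mul_le_mul_of_nonneg_left h3 (Real.exp_pos _).le)
  obtain ⟨c1, c2, c3⟩ := A.cond (K := K + 1) (M := M - 1) (by omega) (by omega)
    (by
      have t1 : ((M - 1 : ℕ) : ℝ) ≤ M := by exact_mod_cast Nat.sub_le M 1
      have t2 := mul_le_mul_of_nonneg_right t1 hh.le
      linarith only [t2, hMh, hε1, hh])
  have hKM : K + 1 + (M - 1) = K + M := by omega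
  rw [hKM] at c2 c3
  obtain ⟨w, hw⟩ := exists_nat_ge ((E h (K + 1) : ℝ) ^ (2 * ρ))
  have h5 := (A.sa (E h (K + 1)) (E h (K + M) - E h (K + 1)) k a w c1 c2 A.k1 ha c3 hw).2
  have h6 : Th (E h (K + 1)) (E h (K + M) - E h (K + 1)) k a ≤
      Real.exp ((K + M : ℕ) * h) * ∑ i ∈ Ico K (K + M), ms h k i (a : ZMod k) := by
    have := Th_le h hh.le k a (K + 1) (M - 1)
    rw [hKM] at this
    refine this.trans (mul_le_mul_of_nonneg_left ?_ (Real.exp_pos _).le)
    exact sum_le_sum_of_subset_of_nonneg (Ico_subset_Ico_left (by omega))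
      fun _ _ _ => ms_nonneg _ _ _ _
  have hg : ∑ i ∈ Ico K (K + M), ms h k i (a : ZMod k) =
      (M * h / k.totient) * wv M (ff h k) K c := by
    rw [wv_ff hh hM1, sum_Ico_eq_sum_range, hab, Nat.add_sub_cancel_left]
    field_simp
  rw [hg] at h6
  have hgle : wv M (ff h k) K c ≤ 2 + 2 * ε := by
    refine (le_abs_self _).trans (St.wv_abs hM1 fun l hl => ?_)
    rw [abs_of_nonneg (ff_nonneg hh _ _ _)]
    exact A.ff_le (by omega) c
  have hg0 : 0 ≤ wv M (ff h k) K c := by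
    unfold wv
    exact div_nonneg (sum_nonneg fun _ _ => ff_nonneg hh _ _ _) hM0.le
  set g := wv M (ff h k) K c with hgdef
  set P := PSk 0 (E h (K + 1)) (E h (K + M) - E h (K + 1)) k a with hP
  set T := Th (E h (K + 1)) (E h (K + M) - E h (K + 1)) k a with hT
  set ℓ := Real.log (E h (K + 1)) with hℓ
  have hℓ0 : 0 < ℓ := A.logE (by omega)
  have hℓ1 : ℓ ≤ ((K + 1 : ℕ) : ℝ) * h := log_E_le hh.le (K + 1)
  have hℓ2 : ((K + 1 : ℕ) : ℝ) * h - Real.log 2 ≤ ℓ := le_log_E hh.le (K + 1)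
  have hlog2 : Real.log 2 ≤ 1 := by have := Real.log_two_lt_d9; linarith
  have hYl := block_lower hh (K + 1) (M - 1)
  rw [hKM] at hYl
  set Y : ℝ := ((E h (K + M) - E h (K + 1) : ℕ) : ℝ) with hY
  set e' := Real.exp ((K + M : ℕ) * h) with he'
  have he'0 : 0 < e' := Real.exp_pos _
  have hexp := A.exph (K := K + M) (by omega)
  have hMm : ((M - 1 : ℕ) : ℝ) = M - 1 := by rw [Nat.cast_sub hM1]; simp
  have hkey : (1 - ε) * (M * h) * e' ≤ Y := by
    have a0 : Real.exp ((K + 1 : ℕ) * h) = e' * Real.exp (-(((M - 1 : ℕ) : ℝ) * h)) := by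
      rw [he', ← Real.exp_add]
      congr 1
      rw [hMm]; push_cast; ring
    have a1 : 1 - (M - 1) * h ≤ Real.exp (-(((M - 1 : ℕ) : ℝ) * h)) := by
      have := Real.add_one_le_exp (-(((M - 1 : ℕ) : ℝ) * h))
      rw [hMm] at this ⊢
      linarith only [this]
    have a2 : 1 ≤ e' * h := by
      have b1 := (A.big (K := K + M) (by omega)).2
      have hh1 : h ≤ 1 := by have := A.h1; linarith
      have b2 : 1 / h ^ 4 * h ≤ e' * h := mul_le_mul_of_nonneg_right b1 hh.le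
      have b3 : 1 / h ^ 4 * h = 1 / h ^ 3 := by field_simp
      have b4 : 1 ≤ 1 / h ^ 3 := by
        rw [le_div_iff₀ (by positivity), one_mul]
        exact pow_le_one₀ hh.le hh1
      linarith
    rw [a0, hMm] at hYl
    have a3 : e' * (1 - (M - 1) * h) * ((M - 1) * h) ≤
        e' * Real.exp (-(((M:ℝ) - 1) * h)) * ((M - 1) * h) := by
      refine mul_le_mul_of_nonneg_right (mul_le_mul_of_nonneg_left ?_ he'0.le)
        (mul_nonneg (by linarith) hh.le)
      rw [hMm] at a1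
      exact a1
    have a4 : (1 - ε) * (M * h) + h ≤ (1 - (M - 1) * h) * ((M - 1) * h) := by
      have b0 : ((M:ℝ) - 1) * h ≤ ε / 10 := by linarith only [hMh, hh]
      have b1 : (1 - ε) * M + 1 ≤ (1 - ε / 10) * (M - 1) := by
        nlinarith only [hM, hε1, hε0, hM1']
      have b2 : (1 - ε / 10) * ((M - 1) * h) ≤ (1 - (M - 1) * h) * ((M - 1) * h) :=
        mul_le_mul_of_nonneg_right (by linarith only [b0]) (mul_nonneg (by linarith only [hM1']) hh.le)
      have b3 := mul_le_mul_of_nonneg_right b1 hh.le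
      linarith only [b2, b3]
    have a5 := mul_le_mul_of_nonneg_left a4 he'0.le
    linarith only [hYl, a3, a5, a2]
  -- combine
  set D : ℝ := ((m:ℝ) + M) * h + C₁ with hD
  have hD0 : 0 ≤ D := by positivity
  have h7 : (2 - ε) * (Y / k.totient) * ℓ ≤ ℓ * (e' * ((M * h / k.totient) * g)) +
      e' * (AK h k M m K c * (M * h ^ 2 / k.totient) +
        2 * (M * ((2 + 2 * ε) * (h / k.totient)) * D)) := by
    have := mul_le_mul_of_nonneg_left h6 hℓ0.le
    linarith only [this, h4, h5]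
  have h8 : (2 - ε) * ((1 - ε) * (M * h) * e' / k.totient) * ℓ ≤ (2 - ε) * (Y / k.totient) * ℓ := by
    refine mul_le_mul_of_nonneg_right (mul_le_mul_of_nonneg_left ?_ (by linarith)) hℓ0.le
    exact div_le_div_of_nonneg_right hkey hφ.le
  have h9 : ℓ * (e' * ((M * h / k.totient) * g)) ≤
      (((K + 1 : ℕ) : ℝ) * h) * (e' * ((M * h / k.totient) * g)) :=
    mul_le_mul_of_nonneg_right hℓ1 (by positivity)
  have h10 : (((K + 1 : ℕ) : ℝ) * h - 1) * ((2 - ε) * ((1 - ε) * (M * h) * e' / k.totient)) ≤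
      (2 - ε) * ((1 - ε) * (M * h) * e' / k.totient) * ℓ := by
    rw [mul_comm]
    refine mul_le_mul_of_nonneg_left (by linarith only [hℓ2, hlog2]) ?_
    have : (0:ℝ) ≤ 1 - ε := by linarith
    have : (0:ℝ) ≤ 2 - ε := by linarith
    positivity
  have h11 : (((K + 1 : ℕ) : ℝ) * h - 1) * ((2 - ε) * ((1 - ε) * (M * h) * e' / k.totient)) ≤
      (((K + 1 : ℕ) : ℝ) * h) * (e' * ((M * h / k.totient) * g)) +
      e' * (AK h k M m K c * (M * h ^ 2 / k.totient) +
        2 * (M * ((2 + 2 * ε) * (h / k.totient)) * D)) := by linarith only [h7, h8, h9, h10]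
  have h12 : (M * h ^ 2 * e' / k.totient) *
      ((((K + 1 : ℕ) : ℝ) - 1 / h) * ((2 - ε) * (1 - ε))) ≤ (M * h ^ 2 * e' / k.totient) *
      (((K + 1 : ℕ) : ℝ) * g + AK h k M m K c + 2 * (2 + 2 * ε) * (D / h)) := by
    refine le_trans (le_of_eq ?_) (h11.trans (le_of_eq ?_))
    · field_simp
    · field_simp
      ring
  have h13 := le_of_mul_le_mul_left h12 (by positivity)
  have hDh : D / h = (m:ℝ) + M + C₁ / h := by
    rw [hD]; field_simp
  rw [hDh] at h13
  have hK0 : (0:ℝ) ≤ K := Nat.cast_nonneg K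
  have hKh2 : 1 / h ≤ K := by rw [div_le_iff₀ hh]; exact hKh
  have h14 : (2 - 3 * ε) * (K - 1 / h) ≤
      (((K + 1 : ℕ) : ℝ) - 1 / h) * ((2 - ε) * (1 - ε)) := by
    push_cast
    have b1 : (2 - 3 * ε) ≤ (2 - ε) * (1 - ε) := by nlinarith only [hε0]
    have b2 : 0 ≤ (K:ℝ) - 1 / h := by linarith only [hKh2]
    have b3 : (2 - 3 * ε) * (K - 1 / h) ≤ ((2 - ε) * (1 - ε)) * (K - 1 / h) :=
      mul_le_mul_of_nonneg_right b1 b2
    have b4 : 0 ≤ (2 - ε) * (1 - ε) := by
      have : (0:ℝ) ≤ 1 - ε := by linarith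
      have : (0:ℝ) ≤ 2 - ε := by linarith
      positivity
    linarith only [b3, b4]
  have h15 : 0 ≤ (m:ℝ) + M + C₁ / h := by positivity
  have h16 : 2 * (2 + 2 * ε) * ((m:ℝ) + M + C₁ / h) ≤ 5 * ((m:ℝ) + M + C₁ / h) :=
    mul_le_mul_of_nonneg_right (by linarith) h15
  push_cast at h13 h14
  have h17 : 0 ≤ 1 / h := by positivity
  have e17 : 2 / h = 2 * (1 / h) := by ring
  rw [e17]
  have h18 : 0 ≤ ε * (1 / h) := by positivity
  generalize 1 / h = r at *
  generalize C₁ / h = r' at *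
  linarith only [h13, h14, h16, h18, hgle, hε1]

end Pool.Agent.T9h52.BT.Cell
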