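import Pool.Agent.T9h52.BT.Cell3

/-!
# The structure theorem for primes
-/

set_option autoImplicit false

namespace Pool.Agent.T9h52.BT.Cell

open Finset
open Pool.Agent.H180R3.E469 (E C E_le lt_E E_pos half_le_E E_mono log_E_le le_log_E mem_C_iff
  logdiv_nonneg sum_cells idx mem_C_idx block_upper block_lower exp_sub_one_le)
open Pool.Agent.T9h52.BT
open Pool.Agent.T9h52.BT.St (av wv sg av_congr av_sub av_add av_const av_sum av_mul_const)

/-- the signed density -/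
noncomputable def ss (h : ℝ) (k : ℕ) (i : ℕ) (b : (ZMod k)ˣ) : ℝ := 1 - ff h k i b

lemma wv_ss {h : ℝ} {k M : ℕ} (hM : 1 ≤ M) (j : ℕ) (b : (ZMod k)ˣ) :
    wv M (ss h k) j b = 1 - wv M (ff h k) j b := by
  unfold wv ss
  have : (0:ℝ) < M := by exact_mod_cast hM
  rw [sum_sub_distrib, sum_const, card_range, nsmul_eq_mul, mul_one]
  field_simp

lemma av_div_left' {k : ℕ} [NeZero k] (c : (ZMod k)ˣ) (F : (ZMod k)ˣ → ℝ) :
    av (fun b => F (c * b⁻¹)) = av F := St.av_div_left c F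

lemma H2_eq {h : ℝ} {k M m K : ℕ} [NeZero k] (hM : 1 ≤ M) (c : (ZMod k)ˣ)
    (hmK : 2 * m ≤ K) :
    (∑ i ∈ Icc m (K - m), av fun b => ss h k i b * wv M (ss h k) (K - i) (c * b⁻¹)) -
      K * wv M (ss h k) K c =
    (AK h k M m K c + K * wv M (ff h k) K c - 2 * K) +
      ((K:ℝ) - 2 * m + 1 - ∑ i ∈ Icc m (K - m), av (ff h k i)) +
      ((K:ℝ) - 2 * m + 1 - ∑ i ∈ Icc m (K - m), av (wv M (ff h k) i)) + (2 * m - 1) := by
  have h1 : ∀ i ∈ Icc m (K - m), (av fun b => ss h k i b * wv M (ss h k) (K - i) (c * b⁻¹)) =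
      1 - av (ff h k i) - av (wv M (ff h k) (K - i)) +
        av fun b => ff h k i b * wv M (ff h k) (K - i) (c * b⁻¹) := by
    intro i _
    have h2 : ∀ b, ss h k i b * wv M (ss h k) (K - i) (c * b⁻¹) =
        1 - ff h k i b - wv M (ff h k) (K - i) (c * b⁻¹) +
          ff h k i b * wv M (ff h k) (K - i) (c * b⁻¹) := by
      intro b
      rw [wv_ss hM]
      unfold ss
      ring
    rw [av_congr h2, av_add, av_sub, av_sub, av_const, av_div_left' c]
  rw [sum_congr rfl h1, sum_add_distrib, sum_sub_distrib, sum_sub_distrib, sum_const,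
    Nat.card_Icc, nsmul_eq_mul, mul_one, St.sum_reflect (fun j => av (wv M (ff h k) j)),
    wv_ss hM]
  have h3 : ((K - m + 1 - m : ℕ) : ℝ) = K - 2 * m + 1 := by
    have : K - m + 1 - m + 2 * m = K + 1 := by omega
    have h4 : ((K - m + 1 - m : ℕ) : ℝ) + 2 * m = K + 1 := by exact_mod_cast this
    linarith
  rw [h3]
  unfold AK
  ring

lemma av_wv_sum {C₁ ε ρ h : ℝ} {X₀ k m : ℕ} (A : Adm ε ρ h X₀ k m) [NeZero k]
    (hC : ∀ u w : ℕ, u ≤ w → |∑ i ∈ Ico u w, ∑ p ∈ C h i, Real.log p / p -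
      ((w:ℝ) - u) * h| ≤ C₁) {M u w : ℕ} (hM : 1 ≤ M) (hu : m ≤ u) (huw : u ≤ w) :
    |∑ i ∈ Ico u w, av (wv M (ff h k) i) - ((w : ℝ) - u)| ≤ C₁ / h := by
  have hM0 : (0:ℝ) < M := by exact_mod_cast hM
  have h1 : ∑ i ∈ Ico u w, av (wv M (ff h k) i) =
      (∑ l ∈ range M, ∑ i ∈ Ico (u + l) (w + l), av (ff h k i)) / M := by
    have h2 : ∀ i, av (wv M (ff h k) i) = (∑ l ∈ range M, av (ff h k (i + l))) / M := by
      intro i
      unfold wv
      rw [← av_sum]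
      have : (fun b => (∑ l ∈ range M, ff h k (i + l) b) / (M : ℝ)) =
          fun b => (∑ l ∈ range M, ff h k (i + l) b) * (1 / (M : ℝ)) := by
        funext b; ring
      rw [this, av_mul_const]
      ring
    rw [sum_congr rfl fun i _ => h2 i, ← sum_div, sum_comm]
    congr 1
    refine sum_congr rfl fun l _ => ?_
    rw [sum_Ico_add' (fun i => av (ff h k i)) u w l]
  rw [h1]
  have h3 : (∑ l ∈ range M, ∑ i ∈ Ico (u + l) (w + l), av (ff h k i)) / M - ((w:ℝ) - u) =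
      (∑ l ∈ range M, (∑ i ∈ Ico (u + l) (w + l), av (ff h k i) - ((w:ℝ) - u))) / M := by
    rw [sum_sub_distrib, sum_const, card_range, nsmul_eq_mul]
    field_simp
  rw [h3, abs_div, abs_of_pos hM0, div_le_iff₀ hM0]
  refine (abs_sum_le_sum_abs _ _).trans ?_
  have h4 : ∀ l ∈ range M, |∑ i ∈ Ico (u + l) (w + l), av (ff h k i) - ((w:ℝ) - u)| ≤ C₁ / h := by
    intro l _
    have := av_ff_sum A hC (u := u + l) (w := w + l) (by omega) (by omega)
    push_cast at this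
    have e : (w:ℝ) + l - (u + l) = w - u := by ring
    rwa [e] at this
  refine (sum_le_sum h4).trans ?_
  rw [sum_const, card_range, nsmul_eq_mul, mul_comm]

lemma H2_bound {C₁ ε ρ h : ℝ} {X₀ k m M K N : ℕ} (A : Adm ε ρ h X₀ k m) [NeZero k]
    (hC1 : 0 ≤ C₁)
    (hC : ∀ u w : ℕ, u ≤ w → |∑ i ∈ Ico u w, ∑ p ∈ C h i, Real.log p / p -
      ((w:ℝ) - u) * h| ≤ C₁)
    (c : (ZMod k)ˣ) (hm : 1 ≤ m) (hM : 4 ≤ ε * M) (hMh : ((M:ℝ) + 1) * h ≤ ε / 10)
    (hK : 2 * m + M ≤ K) (hKN : K ≤ N) (hKh : 1 ≤ K * h)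
    (hmN : 2 * ρ * (N * h) + 1 ≤ m * h) :
    |(∑ i ∈ Icc m (K - m), av fun b => ss h k i b * wv M (ss h k) (K - i) (c * b⁻¹)) -
      K * wv M (ss h k) K c| ≤
      4 * ε * N + 7 * m + 5 * M + 3 + (2 + 7 * C₁) / h := by
  have hh := A.h0
  have hε0 := A.ε0
  have hM1 : 1 ≤ M := by
    rcases Nat.eq_zero_or_pos M with h0 | h0
    · rw [h0] at hM; norm_num at hM
    · exact h0
  rw [H2_eq hM1 c (by omega)]
  have u1 := AK_upper A c hM hMh hK hKN hmN
  have u2 := AK_lower A hC1 hC c hM hMh hK hKh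
  have u3 := av_ff_sum A hC (u := m) (w := K - m + 1) le_rfl (by omega)
  have u4 := av_wv_sum A hC (M := M) (u := m) (w := K - m + 1) hM1 le_rfl (by omega)
  have hIcc : Ico m (K - m + 1) = Icc m (K - m) := by
    ext x; rw [mem_Ico, mem_Icc]; omega
  rw [hIcc] at u3 u4
  have hcast : ((K - m + 1 : ℕ) : ℝ) - m = K - 2 * m + 1 := by
    have : K - m + 1 + m = K + 1 := by omega
    have h4 : ((K - m + 1 : ℕ) : ℝ) + m = K + 1 := by exact_mod_cast this
    linarith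
  rw [hcast] at u3 u4
  have hKN' : (K:ℝ) ≤ N := by exact_mod_cast hKN
  have hεK : ε * K ≤ ε * N := mul_le_mul_of_nonneg_left hKN' hε0.le
  have hεK0 : 0 ≤ ε * K := by positivity
  have hm1 : (1:ℝ) ≤ m := by exact_mod_cast hm
  have hM0 : (0:ℝ) ≤ M := Nat.cast_nonneg M
  set P := AK h k M m K c + K * wv M (ff h k) K c
  set Q := ∑ i ∈ Icc m (K - m), av (ff h k i)
  set R := ∑ i ∈ Icc m (K - m), av (wv M (ff h k) i)
  have v3 := abs_le.1 u3
  have v4 := abs_le.1 u4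
  have e1 : (2 + 7 * C₁) / h = 2 / h + 7 * (C₁ / h) := by ring
  have hr : 0 ≤ C₁ / h := by positivity
  have hr2 : 0 ≤ 2 / h := by positivity
  rw [e1]
  rw [abs_le]
  constructor
  · linarith only [v3.1, v3.2, v4.1, v4.2, u1, u2, hεK, hεK0, hm1, hM0, hr, hr2]
  · linarith only [v3.1, v3.2, v4.1, v4.2, u1, u2, hεK, hεK0, hm1, hM0, hr, hr2]

theorem cells_structure (ϑ : ℝ) (hϑ : 0 < ϑ) : ∃ κ ε ρ C₃ : ℝ, ∃ X₀ M : ℕ,
    0 < κ ∧ κ ≤ 1 / 100 ∧ κ ≤ ϑ ∧ 0 < ε ∧ ε ≤ 1 / 100 ∧ ε ≤ κ ∧ 0 < ρ ∧ ρ < 1 / 4 ∧ 1 ≤ M ∧ 1 ≤ C₃ ∧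
    SA ε ρ X₀ ∧ 2 ≤ X₀ ∧ ∀ (h : ℝ) (k m N : ℕ) [NeZero k], Adm ε ρ h X₀ k m →
      κ * N ≤ 1000 * m → 100 * m ≤ κ * N → ((M:ℝ) + 1) * h ≤ ε / 10 → C₃ ≤ m * h →
      ∀ a0, 2 - κ ≤ wv M (ff h k) N a0 →
      ∃ χ : (ZMod k)ˣ →* ℤˣ, χ ≠ 1 ∧ sg χ a0 = -1 ∧
        ∑ i ∈ Ico (2 * m) (2 * (N / 4)), ∑ b : (ZMod k)ˣ, ms h k i b * (1 + sg χ b) ≤
          ϑ * (N * h) := by
  obtain ⟨κ, hκ0, hκ1, hκϑ, hst⟩ := St.structure_thm ϑ (1 / 32) hϑ (by norm_num) (by norm_num)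
  obtain ⟨C₁, hC11, hC⟩ := mertens_small
  obtain ⟨ρ, hρ0, hρ1, hρε, X₀, hX₀, hSA⟩ := selbergAP (κ / 100) (by positivity)
  obtain ⟨M, hM⟩ := exists_nat_ge (400 / κ)
  have hMκ : 400 ≤ κ * M := by rw [div_le_iff₀ hκ0] at hM; linarith
  refine ⟨κ, κ / 100, ρ, 1000 * (1 + C₁), X₀, M, hκ0, hκ1, hκϑ, by positivity, by linarith,
    by linarith, hρ0, hρ1, ?_, by linarith, hSA, hX₀, ?_⟩
  · rcases Nat.eq_zero_or_pos M with h0 | h0
    · rw [h0] at hMκ; norm_num at hMκ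
    · exact h0
  intro h k m N _ A hmN hmN2 hMh hC3 a0 ha0
  have hM1 : 1 ≤ M := by
    rcases Nat.eq_zero_or_pos M with h0 | h0
    · rw [h0] at hMκ; norm_num at hMκ
    · exact h0
  have hh := A.h0
  have hm0 : (0:ℝ) < m := by
    by_contra hcon
    have : (m:ℝ) * h ≤ 0 := mul_nonpos_of_nonpos_of_nonneg (not_lt.1 hcon) hh.le
    linarith
  have hm1 : 1 ≤ m := by exact_mod_cast hm0
  have hMm : M ≤ m := by
    have h1 : (M:ℝ) * h ≤ m * h := by linarith only [hMh, hh, hC3, hC11, hκ1]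
    exact_mod_cast le_of_mul_le_mul_right h1 hh
  have hNm : 10000 * m ≤ N := by
    have hN0 : (0:ℝ) ≤ N := Nat.cast_nonneg N
    have h1 : κ * N ≤ 1 / 100 * N := mul_le_mul_of_nonneg_right hκ1 hN0
    have : (10000 * m : ℝ) ≤ N := by linarith only [h1, hmN2]
    exact_mod_cast this
  have hNpos : (0:ℝ) < N := by exact_mod_cast (by omega : 0 < N)
  -- the error bound
  have herr : 4 * (κ / 100) * N + 7 * m + 5 * M + 3 + (2 + 7 * C₁) / h ≤ κ * N := by
    have h1 : (2 + 7 * C₁) / h ≤ m := by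
      rw [div_le_iff₀ hh]
      linarith only [hC3, hC11]
    have h2 : (M:ℝ) ≤ m := by exact_mod_cast hMm
    have h3 : (1:ℝ) ≤ m := by exact_mod_cast hm1
    linarith only [h1, h2, h3, hmN2]
  have hC1h : C₁ / h ≤ κ * N := by
    have h1 : C₁ / h ≤ m := by
      rw [div_le_iff₀ hh]
      linarith only [hC3, hC11]
    linarith only [h1, hmN2, hm0]
  have hres := hst (ZMod k)ˣ (ss h k) m (N / 16) M N (N / 4) hm1 (by omega) (by omega)
    (by
      have h1 : N ≤ 32 * (N / 16) := by omega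
      have h2 : (N:ℝ) ≤ 32 * ((N / 16 : ℕ) : ℝ) := by exact_mod_cast h1
      linarith only [h2])
    (by linarith only [hMκ]) (by omega) (by omega) (by omega) (by omega) (by omega)
    (by
      intro i hi _ b
      have h1 := A.ff_le hi b
      have h2 := ff_nonneg hh k i b
      unfold ss
      rw [abs_le]
      constructor
      · linarith only [h1, hκ0]
      · linarith only [h2, hκ0])
    (by
      intro K hK1 hK2 c
      have h1 : (m:ℝ) ≤ K := by exact_mod_cast (by omega : m ≤ K)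
      have h2 := mul_le_mul_of_nonneg_right h1 hh.le
      refine (H2_bound A (by linarith only [hC11]) (hC h hh) c hm1 (by linarith only [hMκ]) hMh
        (by omega) hK2 (by linarith only [h2, hC3, hC11]) ?_).trans herr
      have h3 : 2 * ρ * N ≤ m / 50 := by
        have h4 : 2 * ρ * N ≤ 2 * (κ / 100 / 1000) * N :=
          mul_le_mul_of_nonneg_right (by linarith only [hρε]) hNpos.le
        linarith only [h4, hmN]
      have h5 := mul_le_mul_of_nonneg_right h3 hh.le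
      linarith only [h5, hC3, hC11])
    (by
      intro u w hu huw _
      have h1 := av_ff_sum A (hC h hh) hu huw
      have h2 : ∑ i ∈ Ico u w, av (ss h k i) = ((w:ℝ) - u) - ∑ i ∈ Ico u w, av (ff h k i) := by
        unfold ss
        have h3 : ∀ i ∈ Ico u w, (av fun b => 1 - ff h k i b) = 1 - av (ff h k i) := by
          intro i _
          rw [av_sub, av_const]
        rw [sum_congr rfl h3, sum_sub_distrib, sum_const, Nat.card_Ico, nsmul_eq_mul, mul_one,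
          Nat.cast_sub huw]
      rw [h2, abs_sub_comm]
      exact h1.trans hC1h)
    a0 (by
      rw [wv_ss hM1]
      linarith only [ha0])
  obtain ⟨χ, hχ, hχa, hb⟩ := hres
  refine ⟨χ, hχ, hχa, ?_⟩
  have hφ := A.tot0
  have h4 : ∀ i ∈ Ico (2 * m) (2 * (N / 4)), (av fun b => (1 - ss h k i b) * (1 + sg χ b)) =
      (∑ b : (ZMod k)ˣ, ms h k i b * (1 + sg χ b)) / h := by
    intro i _
    unfold av ss ff
    rw [ZMod.card_units_eq_totient, sum_div, sum_div]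
    refine sum_congr rfl fun b _ => ?_
    field_simp
    ring
  rw [sum_congr rfl h4, ← sum_div, div_le_iff₀ hh] at hb
  linarith only [hb]

end Pool.Agent.T9h52.BT.Cell
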