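import Pool.Agent.T9h52.BT.FL
import Pool.Agent.H295R3.D6

/-!
# Selberg's sum over rough numbers in progressions: comparison with a model
-/

set_option autoImplicit false

namespace Pool.Agent.T9h52.BT

open Finset
open Pool.Agent.H295R3.D (Rough lam SS rough_of_dvd rough_mul)

/-- number of rough `n ≡ a (mod k)` in `(A, A+B]` divisible by `d` -/
noncomputable def NNk (z A B d k a : ℕ) : ℝ :=
  (((RC z A B k a).filter (fun n => d ∣ n)).card : ℝ)

noncomputable def SSk (L : ℝ) (z A B k a : ℕ) : ℝ := ∑ n ∈ RC z A B k a, lam L n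

lemma mem_RC {z A B k a n : ℕ} :
    n ∈ RC z A B k a ↔ (A < n ∧ n ≤ A + B) ∧ n ≡ a [MOD k] ∧ Rough z n := by
  unfold RC
  rw [mem_filter, mem_Ioc]

lemma NNk_sum (z A B d k a : ℕ) : NNk z A B d k a =
    ∑ n ∈ RC z A B k a, if d ∣ n then (1:ℝ) else 0 := by
  unfold NNk
  rw [← sum_filter, sum_const, nsmul_eq_mul, mul_one]

lemma NNk_nonneg (z A B d k a : ℕ) : 0 ≤ NNk z A B d k a := by
  unfold NNk; positivity

lemma SSk_one (L : ℝ) (z A B : ℕ) : SSk L z A B 1 1 = SS L z A B := by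
  unfold SSk SS
  refine sum_congr ?_ fun _ _ => rfl
  ext n
  rw [mem_RC, mem_filter, mem_Ioc]
  simp [Nat.modEq_one]

lemma SSk_eq (L : ℝ) (z A B k a T : ℕ) (hT : A + B ≤ T) :
    SSk L z A B k a = ∑ d ∈ (Icc 1 T).filter (Rough z),
      (ArithmeticFunction.moebius d : ℝ) * (L - Real.log d) ^ 2 * NNk z A B d k a := by
  simp only [NNk_sum]
  unfold SSk lam
  have h1 : ∀ d ∈ (Icc 1 T).filter (Rough z),
      (ArithmeticFunction.moebius d : ℝ) * (L - Real.log d) ^ 2 *
        (∑ n ∈ RC z A B k a, if d ∣ n then (1:ℝ) else 0) =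
      ∑ n ∈ RC z A B k a, if d ∣ n then
        (ArithmeticFunction.moebius d : ℝ) * (L - Real.log d) ^ 2 else 0 := by
    intro d _
    rw [mul_sum]
    refine sum_congr rfl fun n _ => ?_
    split_ifs <;> simp
  rw [sum_congr rfl h1, sum_comm]
  refine sum_congr rfl fun n hn => ?_
  rw [← sum_filter]
  refine sum_congr ?_ fun _ _ => rfl
  rw [mem_RC] at hn
  ext d
  simp only [Nat.mem_divisors, mem_filter, mem_Icc]
  constructor
  · rintro ⟨h, h0⟩
    have := Nat.le_of_dvd (Nat.pos_of_ne_zero h0) h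
    have h2 := Nat.pos_of_dvd_of_pos h (Nat.pos_of_ne_zero h0)
    exact ⟨⟨⟨h2, by omega⟩, rough_of_dvd hn.2.2 h⟩, h⟩
  · rintro ⟨_, h⟩
    exact ⟨h, by omega⟩

lemma rough_coprime {z d k : ℕ} (hk : 1 ≤ k) (hkz : k < z) (hr : Rough z d) : d.Coprime k := by
  rw [Nat.coprime_iff_gcd_eq_one]
  by_contra h
  obtain ⟨p, hp, hpd⟩ := Nat.exists_prime_and_dvd h
  have h1 : p ∣ d := hpd.trans (Nat.gcd_dvd_left _ _)
  have h2 : p ∣ k := hpd.trans (Nat.gcd_dvd_right _ _)
  exact hr p hp (lt_of_le_of_lt (Nat.le_of_dvd (by omega) h2) hkz) h1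

lemma exists_class {d k a : ℕ} (hk : 1 ≤ k) (hd : d.Coprime k) (ha : a.Coprime k) :
    ∃ a' : ℕ, a'.Coprime k ∧ ∀ m : ℕ, d * m ≡ a [MOD k] ↔ m ≡ a' [MOD k] := by
  obtain ⟨e, -, he⟩ := Nat.exists_mul_mod_eq_of_coprime a hd (by omega)
  have he' : d * e ≡ a [MOD k] := he
  have hde : (d * e).Coprime k := by
    rw [Nat.coprime_iff_gcd_eq_one, he'.gcd_eq]
    exact ha
  refine ⟨e, hde.coprime_mul_left, fun m => ?_⟩
  constructor
  · intro h
    exact Nat.ModEq.cancel_left_of_coprime hd.symm (h.trans he'.symm)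
  · intro h
    exact (h.mul_left d).trans he'

lemma NNk_eq (z A B d k a : ℕ) (hk : 1 ≤ k) (hkz : k < z) (ha : a.Coprime k) (hd : 1 ≤ d)
    (hr : Rough z d) :
    ∃ a' : ℕ, a'.Coprime k ∧
      NNk z A B d k a = ((RC z (A / d) ((A + B) / d - A / d) k a').card : ℝ) := by
  obtain ⟨a', ha', hcl⟩ := exists_class hk (rough_coprime hk hkz hr) ha
  refine ⟨a', ha', ?_⟩
  unfold NNk
  congr 1
  have hle : A / d ≤ (A + B) / d := Nat.div_le_div_right (by omega)
  refine Finset.card_nbij' (fun n => n / d) (fun m => d * m) ?_ ?_ ?_ ?_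
  · intro n hn
    rw [Finset.mem_coe, mem_filter, mem_RC] at hn
    rw [Finset.mem_coe, mem_RC]
    obtain ⟨⟨⟨h1, h2⟩, h3, h4⟩, j, rfl⟩ := hn
    dsimp only
    rw [Nat.mul_div_cancel_left _ (by omega)]
    refine ⟨⟨?_, ?_⟩, (hcl j).mp h3, rough_of_dvd h4 (Dvd.intro_left d rfl)⟩
    · rw [Nat.div_lt_iff_lt_mul (by omega)]; rw [mul_comm]; exact h1
    · rw [Nat.add_sub_cancel' hle, Nat.le_div_iff_mul_le (by omega)]; rw [mul_comm]; exact h2
  · intro m hm
    rw [Finset.mem_coe, mem_RC] at hm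
    rw [Finset.mem_coe, mem_filter, mem_RC]
    obtain ⟨⟨h1, h2⟩, h3, h4⟩ := hm
    rw [Nat.add_sub_cancel' hle] at h2
    rw [Nat.div_lt_iff_lt_mul (by omega), mul_comm] at h1
    rw [Nat.le_div_iff_mul_le (by omega), mul_comm] at h2
    exact ⟨⟨⟨h1, h2⟩, (hcl m).mpr h3, rough_mul hr h4⟩, Dvd.intro m rfl⟩
  · intro n hn
    rw [Finset.mem_coe, mem_filter] at hn
    exact Nat.mul_div_cancel' hn.2
  · intro m hm
    exact Nat.mul_div_cancel_left _ (by omega)

/-- The hypothesis of uniform distribution of rough numbers, with density `U`. -/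
def Dist (z W k : ℕ) (κ U : ℝ) : Prop := ∀ A Y a : ℕ, a.Coprime k → k * W ≤ Y →
  |((RC z A Y k a).card : ℝ) - U * Y| ≤ κ * U * Y

lemma NNk_div {z W k : ℕ} {κ U : ℝ} (hκ0 : 0 ≤ κ) (hκ : κ ≤ 1) (hU : 0 ≤ U) (hW : 1 ≤ W)
    (hk : 1 ≤ k) (hkz : k < z) (hF : Dist z W k κ U)
    (A B d a : ℕ) (ha : a.Coprime k) (hd : 1 ≤ d) (hr : Rough z d) (hB : d * (k * W + 1) ≤ B) :
    |NNk z A B d k a / B - U / d| ≤ (κ + 2 / W) * U * (1 / d) := by
  obtain ⟨a', ha', hN⟩ := NNk_eq z A B d k a hk hkz ha hd hr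
  have hdr : (0:ℝ) < d := by exact_mod_cast hd
  have hkW : W ≤ k * W := Nat.le_mul_of_pos_left W (by omega)
  set B' := (A + B) / d - A / d with hB'
  have h1 : (A + B) / d = A / d + B' := by
    have : A / d ≤ (A + B) / d := Nat.div_le_div_right (by omega)
    omega
  have hWB : k * W + 1 ≤ B / d := by
    rw [Nat.le_div_iff_mul_le (by omega), mul_comm]; exact hB
  have h2 : B / d ≤ B' := by
    have : A / d + B / d ≤ (A + B) / d := Nat.div_add_div_le_add_div
    omega
  have h3 := hF (A / d) B' a' ha' (by omega)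
  rw [← hN] at h3
  have f1 : (((A + B) / d : ℕ) : ℝ) ≤ ((A + B : ℕ) : ℝ) / d := Nat.cast_div_le
  have f2 : ((A / d : ℕ) : ℝ) ≤ (A : ℝ) / d := Nat.cast_div_le
  have f3 : ((A + B : ℕ) : ℝ) / d - 1 ≤ (((A + B) / d : ℕ) : ℝ) := by
    rw [sub_le_iff_le_add, div_le_iff₀ hdr]
    have := Nat.lt_div_mul_add (a := A + B) (b := d) (by omega)
    have h : A + B ≤ ((A + B) / d + 1) * d := by nlinarith
    exact_mod_cast h
  have f4 : (A : ℝ) / d - 1 ≤ ((A / d : ℕ) : ℝ) := by
    rw [sub_le_iff_le_add, div_le_iff₀ hdr]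
    have := Nat.lt_div_mul_add (a := A) (b := d) (by omega)
    have h : A ≤ (A / d + 1) * d := by nlinarith
    exact_mod_cast h
  have f5 : (B' : ℝ) = (((A + B) / d : ℕ) : ℝ) - ((A / d : ℕ) : ℝ) := by
    have : (((A + B) / d : ℕ) : ℝ) = ((A / d + B' : ℕ) : ℝ) := by rw [← h1]
    rw [this]; push_cast; ring
  have f6 : ((A + B : ℕ) : ℝ) / d = (A:ℝ) / d + B / d := by push_cast; ring
  have g1 : |(B' : ℝ) - B / d| ≤ 1 := by
    rw [abs_le]; constructor <;> linarith
  have hWr : (1:ℝ) ≤ W := by exact_mod_cast hW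
  have g2 : (W : ℝ) ≤ B / d := by
    rw [le_div_iff₀ hdr]
    have : W * d ≤ B := by nlinarith
    exact_mod_cast this
  have g3 : (1:ℝ) ≤ (1 / W) * (B / d) := by
    rw [one_div, inv_mul_eq_div, le_div_iff₀ (by linarith)]
    linarith
  have g4 : (B' : ℝ) ≤ B / d + 1 := by linarith [(abs_le.1 g1).2]
  have g5 := abs_le.1 g1
  have h3' := abs_le.1 h3
  set c := NNk z A B d k a
  have k1 : κ * U * B' ≤ κ * U * (B / d) + U * ((1 / W) * (B / d)) := by
    have : κ * U * B' ≤ κ * U * (B / d + 1) := by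
      apply mul_le_mul_of_nonneg_left g4 (by positivity)
    have t : κ * U * 1 ≤ U * ((1 / W) * (B / d)) := by
      have : κ * U * 1 ≤ U * 1 := by nlinarith
      exact this.trans (mul_le_mul_of_nonneg_left g3 hU)
    nlinarith
  have k2 : U * B' - U * (B / d) ≤ U * ((1 / W) * (B / d)) := by
    have : U * (B' - B / d) ≤ U * ((1 / W) * (B / d)) :=
      mul_le_mul_of_nonneg_left (g5.2.trans g3) hU
    linarith
  have k3 : -(U * ((1 / W) * (B / d))) ≤ U * B' - U * (B / d) := by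
    have : U * (-((1 / W) * (B / d))) ≤ U * (B' - B / d) :=
      mul_le_mul_of_nonneg_left (by linarith) hU
    linarith
  have key : |c - U * (B / d)| ≤ (κ + 2 / (W:ℝ)) * (U * (B / d)) := by
    have e : (κ + 2 / (W:ℝ)) * (U * (B / d)) = κ * U * (B / d) + U * ((1 / W) * (B / d)) +
        U * ((1 / W) * (B / d)) := by ring
    rw [e, abs_le]
    constructor <;> linarith
  have hB0 : (0:ℝ) < B := by
    have : 0 < d * (k * W + 1) := Nat.mul_pos (by omega) (by omega)
    exact_mod_cast (by omega : 0 < B)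
  have e : c / B - U / d = (c - U * (B / d)) / B := by
    field_simp
  rw [e, abs_div, abs_of_pos hB0, div_le_iff₀ hB0]
  refine key.trans (le_of_eq ?_)
  ring

lemma tailk_le (z A B T D M k a : ℕ) (h : A + B < (D + 1) * (M + 1)) :
    ∑ d ∈ ((Icc 1 T).filter (Rough z)).filter (fun d => D < d), NNk z A B d k a ≤
      ∑ m ∈ (Icc 1 M).filter (Rough z), NNk z A B m k a := by
  simp only [NNk_sum]
  rw [sum_comm, sum_comm (s := (Icc 1 M).filter (Rough z))]
  refine sum_le_sum fun n hn => ?_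
  rw [mem_RC] at hn
  rw [← sum_filter, ← sum_filter, sum_const, sum_const, nsmul_eq_mul, nsmul_eq_mul, mul_one,
    mul_one]
  norm_cast
  refine Finset.card_le_card_of_injOn (fun d => n / d) ?_ ?_
  · intro d hd
    simp only [coe_filter, mem_filter, mem_Icc, Set.mem_ofPred_eq] at hd ⊢
    obtain ⟨⟨⟨⟨h1, h2⟩, h3⟩, h4⟩, k, rfl⟩ := hd
    rw [Nat.mul_div_cancel_left _ (by omega)]
    have hk : 1 ≤ k := by
      rcases Nat.eq_zero_or_pos k with h0 | h0
      · subst h0; simp at hn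
      · exact h0
    refine ⟨⟨⟨hk, ?_⟩, rough_of_dvd hn.2.2 (Dvd.intro_left d rfl)⟩, Dvd.intro_left d rfl⟩
    by_contra hc
    have : (D + 1) * (M + 1) ≤ d * k := Nat.mul_le_mul (by omega) (by omega)
    omega
  · intro a ha b hb hab
    simp only [coe_filter, mem_filter, mem_Icc, Set.mem_ofPred_eq] at ha hb hab
    obtain ⟨_, ka, hka⟩ := ha
    obtain ⟨hb1, kb, hkb⟩ := hb
    have ea : n / a = ka := by rw [hka]; exact Nat.mul_div_cancel_left _ (by omega)
    have eb : n / b = kb := by rw [hkb]; exact Nat.mul_div_cancel_left _ (by omega)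
    rw [ea, eb] at hab
    subst hab
    have hk : 0 < ka := by
      rcases Nat.eq_zero_or_pos ka with h0 | h0
      · subst h0; simp at hka; omega
      · exact h0
    have : a * ka = b * ka := by rw [← hka, ← hkb]
    exact Nat.eq_of_mul_eq_mul_right hk this

/-- the model sum -/
noncomputable def MS (L : ℝ) (z T D : ℕ) : ℝ :=
  ∑ d ∈ ((Icc 1 T).filter (Rough z)).filter (fun d => ¬ D < d),
    (ArithmeticFunction.moebius d : ℝ) * (L - Real.log d) ^ 2 * (1 / d)

lemma model {z W k : ℕ} {κ U L : ℝ} (hκ0 : 0 ≤ κ) (hκ : κ ≤ 1) (hU : 0 ≤ U) (hW : 1 ≤ W)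
    (hk : 1 ≤ k) (hkz : k < z) (hF : Dist z W k κ U)
    (X Y T D M a : ℕ) (ha : a.Coprime k) (hT : X + Y ≤ T) (hD : 1 ≤ D)
    (hDY : D * (k * W + 1) ≤ Y) (hM : X + Y < (D + 1) * (M + 1))
    (hMD : M ≤ D) (hL : L = Real.log (T : ℝ)) :
    |SSk L z X Y k a / Y - U * MS L z T D| ≤
      (κ + 2 / W) * U * L ^ 2 * ∑ d ∈ (Icc 1 T).filter (Rough z), (1:ℝ) / d +
      (1 + (κ + 2 / W)) * U * (L - Real.log D) ^ 2 *
        ∑ m ∈ (Icc 1 M).filter (Rough z), (1:ℝ) / m := by
  set E : ℝ := κ + 2 / W with hE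
  have hE0 : 0 ≤ E := by positivity
  have hY1 : 1 ≤ Y := by
    have : 1 ≤ D * (k * W + 1) := Nat.mul_pos (by omega) (by omega)
    omega
  have hDX : D ≤ X + Y := by
    have : D ≤ D * (k * W + 1) := Nat.le_mul_of_pos_right D (by omega)
    omega
  have hY0 : (0:ℝ) < Y := by exact_mod_cast hY1
  set R := (Icc 1 T).filter (Rough z) with hR
  rw [SSk_eq L z X Y k a T hT, sum_div,
    ← sum_filter_add_sum_filter_not R (fun d => D < d), MS, mul_sum, add_sub_assoc,
    ← sum_sub_distrib]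
  have hmu : ∀ d : ℕ, |(ArithmeticFunction.moebius d : ℝ)| ≤ 1 := by
    intro d
    have := @ArithmeticFunction.abs_moebius_le_one d
    exact_mod_cast this
  have hlog : ∀ d ∈ R, 0 ≤ Real.log d ∧ Real.log d ≤ L := by
    intro d hd
    rw [hR, mem_filter, mem_Icc] at hd
    constructor
    · exact Real.log_natCast_nonneg d
    · rw [hL]
      apply Real.log_le_log
      · exact_mod_cast (by omega : 0 < d)
      · exact_mod_cast hd.1.2
  rw [add_comm]
  refine (abs_add_le _ _).trans (add_le_add ?_ ?_)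
  · -- small d
    refine (abs_sum_le_sum_abs _ _).trans ?_
    have q1 : ∀ d ∈ R.filter (fun d => ¬ D < d),
        |(ArithmeticFunction.moebius d : ℝ) * (L - Real.log d) ^ 2 * NNk z X Y d k a / Y -
          U * ((ArithmeticFunction.moebius d : ℝ) * (L - Real.log d) ^ 2 * (1 / d))| ≤
        E * U * L ^ 2 * (1 / d) := by
      intro d hd
      rw [mem_filter] at hd
      obtain ⟨hdR, hdD⟩ := hd
      have hl := hlog d hdR
      rw [hR, mem_filter, mem_Icc] at hdR
      have hdd : d * (k * W + 1) ≤ Y := (Nat.mul_le_mul_right _ (by omega)).trans hDY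
      have a1 := NNk_div hκ0 hκ hU hW hk hkz hF X Y d a ha hdR.1.1 hdR.2 hdd
      rw [← hE] at a1
      have a4 : (L - Real.log d) ^ 2 ≤ L ^ 2 := by
        apply pow_le_pow_left₀ (by linarith) (by linarith)
      have e : (ArithmeticFunction.moebius d : ℝ) * (L - Real.log d) ^ 2 * NNk z X Y d k a / Y -
          U * ((ArithmeticFunction.moebius d : ℝ) * (L - Real.log d) ^ 2 * (1 / d)) =
          (ArithmeticFunction.moebius d : ℝ) * ((L - Real.log d) ^ 2 *
            (NNk z X Y d k a / Y - U / d)) := by ring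
      rw [e, abs_mul, abs_mul, abs_of_nonneg (sq_nonneg (L - Real.log d))]
      have a5 : (L - Real.log d) ^ 2 * |NNk z X Y d k a / Y - U / d| ≤
          L ^ 2 * (E * U * (1 / d)) := mul_le_mul a4 a1 (abs_nonneg _) (sq_nonneg _)
      have a6 : 0 ≤ (L - Real.log d) ^ 2 * |NNk z X Y d k a / Y - U / d| := by positivity
      calc |(ArithmeticFunction.moebius d : ℝ)| * ((L - Real.log d) ^ 2 *
            |NNk z X Y d k a / Y - U / d|) ≤ 1 * (L ^ 2 * (E * U * (1 / d))) :=
            mul_le_mul (hmu d) a5 a6 zero_le_one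
        _ = E * U * L ^ 2 * (1 / d) := by ring
    refine (sum_le_sum q1).trans ?_
    rw [← mul_sum]
    apply mul_le_mul_of_nonneg_left _ (by positivity)
    exact sum_le_sum_of_subset_of_nonneg (filter_subset _ _) (fun _ _ _ => by positivity)
  · -- large d
    refine (abs_sum_le_sum_abs _ _).trans ?_
    have q1 : ∀ d ∈ R.filter (fun d => D < d),
        |(ArithmeticFunction.moebius d : ℝ) * (L - Real.log d) ^ 2 * NNk z X Y d k a / Y| ≤
        (L - Real.log D) ^ 2 * (NNk z X Y d k a / Y) := by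
      intro d hd
      rw [mem_filter] at hd
      obtain ⟨hdR, hdD⟩ := hd
      have hl := hlog d hdR
      have hlD : Real.log D ≤ Real.log d := by
        apply Real.log_le_log
        · exact_mod_cast (by omega : 0 < D)
        · exact_mod_cast hdD.le
      have b1 : 0 ≤ NNk z X Y d k a / Y := div_nonneg (NNk_nonneg _ _ _ _ _ _) hY0.le
      rw [mul_div_assoc, abs_mul, abs_mul, abs_of_nonneg (sq_nonneg (L - Real.log d)),
        abs_of_nonneg b1]
      apply mul_le_mul_of_nonneg_right _ b1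
      have b2 : (L - Real.log d) ^ 2 ≤ (L - Real.log D) ^ 2 :=
        pow_le_pow_left₀ (by linarith) (by linarith) 2
      have b3 := mul_le_mul (hmu d) b2 (sq_nonneg _) zero_le_one
      linarith
    refine (sum_le_sum q1).trans ?_
    rw [← mul_sum, ← sum_div]
    have t1 := tailk_le z X Y T D M k a hM
    rw [← hR] at t1
    have u1 : (∑ m ∈ (Icc 1 M).filter (Rough z), NNk z X Y m k a) / Y ≤
        (1 + E) * U * ∑ m ∈ (Icc 1 M).filter (Rough z), (1:ℝ) / m := by
      rw [sum_div, mul_sum]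
      refine sum_le_sum fun m hm => ?_
      rw [mem_filter, mem_Icc] at hm
      have hdd : m * (k * W + 1) ≤ Y := (Nat.mul_le_mul_right _ (by omega)).trans hDY
      have a1 := NNk_div hκ0 hκ hU hW hk hkz hF X Y m a ha hm.1.1 hm.2 hdd
      rw [← hE] at a1
      have := (abs_le.1 a1).2
      have e : (1 + E) * U * (1 / (m:ℝ)) = U / m + E * U * (1 / m) := by ring
      rw [e]; linarith
    have v1 : (∑ d ∈ R.filter (fun d => D < d), NNk z X Y d k a) / (Y:ℝ) ≤
        (1 + E) * U * ∑ m ∈ (Icc 1 M).filter (Rough z), (1:ℝ) / m :=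
      (div_le_div_of_nonneg_right t1 hY0.le).trans u1
    have e : (1 + E) * U * (L - Real.log D) ^ 2 *
        ∑ m ∈ (Icc 1 M).filter (Rough z), (1:ℝ) / m =
        (L - Real.log D) ^ 2 * ((1 + E) * U *
          ∑ m ∈ (Icc 1 M).filter (Rough z), (1:ℝ) / m) := by ring
    rw [e]
    exact mul_le_mul_of_nonneg_left v1 (sq_nonneg _)

end Pool.Agent.T9h52.BT
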