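import Pool.Agent.T9h52.BT.NoFake2

/-!
# Exceptional moduli are multiples of a single conductor
-/

set_option autoImplicit false

namespace Pool.Agent.T9h52.BT.Ex

open Finset Filter
open Pool.Agent.H180R3.E469 (logdiv_nonneg)
open Pool.Agent.T9h52.BT.Inv

/-- The pair `(k, χ)` is exceptional at scale `X`. -/
structure Bad (ϑ ϑN ε3 X : ℝ) (k : ℕ) (χ : DirichletCharacter ℤ k) : Prop where
  k1 : 1 ≤ k
  kX : (k : ℝ) ≤ X ^ ϑ
  ne : χ ≠ 1
  sum : ∑ p ∈ (Icc 1 ⌊X ^ ε3⌋₊).filter (fun p : ℕ => p.Prime ∧ X ^ ϑN < p),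
    (1 + ((χ (p : ZMod k) : ℤ) : ℝ)) * (Real.log p / p) ≤ ϑ * Real.log X

lemma chr_toUnitHom {k : ℕ} (ψ : DirichletCharacter ℤ k) : chr ψ.toUnitHom = ψ := by
  unfold chr
  ext u
  rw [MulChar.ofUnitHom_coe, MulChar.coe_toUnitHom]

lemma toUnitHom_ne_one {k : ℕ} {ψ : DirichletCharacter ℤ k} (h : ψ ≠ 1) :
    ψ.toUnitHom ≠ 1 := by
  intro h1
  apply h
  rw [← chr_toUnitHom ψ, h1]
  unfold chr
  ext u
  rw [MulChar.ofUnitHom_coe]
  simp

lemma unit_val {k : ℕ} (χ : DirichletCharacter ℤ k) (u : (ZMod k)ˣ) :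
    χ (u : ZMod k) = 1 ∨ χ (u : ZMod k) = -1 := by
  have := (u.isUnit.map χ.toMonoidHom)
  exact Int.isUnit_iff.1 this

lemma changeLevel_nat {k K : ℕ} (hd : k ∣ K) (χ : DirichletCharacter ℤ k) {p : ℕ}
    (hp : p.Coprime K) : (DirichletCharacter.changeLevel hd χ) (p : ZMod K) = χ (p : ZMod k) := by
  have h1 : IsCoprime (p : ℤ) (K : ℤ) := Nat.isCoprime_iff_coprime.2 hp
  have h2 := DirichletCharacter.changeLevel_eq_cast_of_dvd' χ hd h1
  simpa using h2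

/-- Two exceptional characters agree. -/
lemma two_eq {ϑ ϑN ε3 X : ℝ} (hX : 1 ≤ X) (hϑ : 2 * ϑ ≤ ϑN) (hL : 0 ≤ Real.log X)
    (hnf : ∀ k : ℕ, 1 ≤ k → (k : ℝ) ≤ X ^ ϑN → ∀ ψ : (ZMod k)ˣ →* ℤˣ, ψ ≠ 1 →
      ϑN * Real.log X < ∑ p ∈ (Icc 1 ⌊X ^ ε3⌋₊).filter (fun p : ℕ => p.Prime ∧ X ^ ϑN < p),
        (1 - ((chr ψ (p : ZMod k) : ℤ) : ℝ)) * (Real.log p / p))
    {k1 k2 : ℕ} {χ1 : DirichletCharacter ℤ k1} {χ2 : DirichletCharacter ℤ k2}
    (h1 : Bad ϑ ϑN ε3 X k1 χ1) (h2 : Bad ϑ ϑN ε3 X k2 χ2) :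
    DirichletCharacter.changeLevel (dvd_mul_right k1 k2) χ1 =
      DirichletCharacter.changeLevel (dvd_mul_left k2 k1) χ2 := by
  have hX0 : 0 < X := by linarith
  have hk1 := h1.k1
  have hk2 := h2.k1
  set K := k1 * k2 with hK
  have hK1 : 1 ≤ K := Nat.mul_pos hk1 hk2
  haveI : NeZero K := ⟨by omega⟩
  have hd1 : k1 ∣ K := dvd_mul_right k1 k2
  have hd2 : k2 ∣ K := dvd_mul_left k2 k1
  by_contra hne
  set ψ : DirichletCharacter ℤ K := DirichletCharacter.changeLevel hd1 χ1 *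
    DirichletCharacter.changeLevel hd2 χ2 with hψ
  have hψ1 : ψ ≠ 1 := by
    intro h3
    apply hne
    ext u
    have h5 : ψ (u : ZMod K) = 1 := by rw [h3]; exact MulChar.one_apply_coe u
    rw [hψ, MulChar.mul_apply] at h5
    rcases unit_val (DirichletCharacter.changeLevel hd1 χ1) u with a | a <;>
      rcases unit_val (DirichletCharacter.changeLevel hd2 χ2) u with b | b <;>
      rw [a, b] at h5 ⊢
    · norm_num at h5
    · norm_num at h5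
  have hKX : (K : ℝ) ≤ X ^ ϑN := by
    rw [hK]
    push_cast
    calc (k1 : ℝ) * k2 ≤ X ^ ϑ * X ^ ϑ :=
          mul_le_mul h1.kX h2.kX (Nat.cast_nonneg _) (by positivity)
      _ = X ^ (2 * ϑ) := by rw [← Real.rpow_add hX0]; congr 1; ring
      _ ≤ X ^ ϑN := Real.rpow_le_rpow_of_exponent_le hX hϑ
  have h3 := hnf K hK1 hKX ψ.toUnitHom (toUnitHom_ne_one hψ1)
  rw [chr_toUnitHom] at h3
  have h4 : ∑ p ∈ (Icc 1 ⌊X ^ ε3⌋₊).filter (fun p : ℕ => p.Prime ∧ X ^ ϑN < p),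
        (1 - ((ψ (p : ZMod K) : ℤ) : ℝ)) * (Real.log p / p) ≤
      ∑ p ∈ (Icc 1 ⌊X ^ ε3⌋₊).filter (fun p : ℕ => p.Prime ∧ X ^ ϑN < p),
        ((1 + ((χ1 (p : ZMod k1) : ℤ) : ℝ)) * (Real.log p / p) +
          (1 + ((χ2 (p : ZMod k2) : ℤ) : ℝ)) * (Real.log p / p)) := by
    refine sum_le_sum fun p hp => ?_
    rw [mem_filter] at hp
    obtain ⟨_, hpp, hpX⟩ := hp
    have hKp : K < p := by
      have : (K:ℝ) < p := hKX.trans_lt hpX
      exact_mod_cast this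
    have hco : p.Coprime K := by
      rw [Nat.Prime.coprime_iff_not_dvd hpp]
      intro hdvd
      have := Nat.le_of_dvd (by omega) hdvd
      omega
    rw [← add_mul]
    refine mul_le_mul_of_nonneg_right ?_ (logdiv_nonneg p)
    have e1 : ψ (p : ZMod K) = χ1 (p : ZMod k1) * χ2 (p : ZMod k2) := by
      rw [hψ, MulChar.mul_apply, changeLevel_nat hd1 χ1 hco, changeLevel_nat hd2 χ2 hco]
    rw [e1]
    rcases chr_vals χ1 (p : ZMod k1) with a | a | a <;>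
      rcases chr_vals χ2 (p : ZMod k2) with b | b | b <;> rw [a, b] <;> norm_num
  rw [sum_add_distrib] at h4
  have h5 := h1.sum
  have h6 := h2.sum
  have h7 : 2 * ϑ * Real.log X ≤ ϑN * Real.log X := mul_le_mul_of_nonneg_right hϑ hL
  linarith

/-- An exceptional character is induced by the primitive character of any other one. -/
lemma two {ϑ ϑN ε3 X : ℝ} (hX : 1 ≤ X) (hϑ : 2 * ϑ ≤ ϑN) (hL : 0 ≤ Real.log X)
    (hnf : ∀ k : ℕ, 1 ≤ k → (k : ℝ) ≤ X ^ ϑN → ∀ ψ : (ZMod k)ˣ →* ℤˣ, ψ ≠ 1 →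
      ϑN * Real.log X < ∑ p ∈ (Icc 1 ⌊X ^ ε3⌋₊).filter (fun p : ℕ => p.Prime ∧ X ^ ϑN < p),
        (1 - ((chr ψ (p : ZMod k) : ℤ) : ℝ)) * (Real.log p / p))
    {k1 k2 : ℕ} {χ1 : DirichletCharacter ℤ k1} {χ2 : DirichletCharacter ℤ k2}
    (h1 : Bad ϑ ϑN ε3 X k1 χ1) (h2 : Bad ϑ ϑN ε3 X k2 χ2) :
    ∃ hd : χ1.conductor ∣ k2, DirichletCharacter.changeLevel hd χ1.primitiveCharacter = χ2 := by
  have hk1 := h1.k1
  have hk2 := h2.k1
  haveI : NeZero (k1 * k2) := ⟨(Nat.mul_pos hk1 hk2).ne'⟩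
  have h3 := two_eq hX hϑ hL hnf h1 h2
  have h4 : χ1.conductor = χ2.conductor := by
    rw [← DirichletCharacter.conductor_changeLevel χ1 (dvd_mul_right k1 k2), h3,
      DirichletCharacter.conductor_changeLevel χ2 (dvd_mul_left k2 k1)]
  have hd : χ1.conductor ∣ k2 := h4 ▸ χ2.conductor_dvd_level
  refine ⟨hd, ?_⟩
  apply DirichletCharacter.changeLevel_injective (dvd_mul_left k2 k1)
  rw [← h3, ← DirichletCharacter.changeLevel_trans]
  conv_rhs => rw [← DirichletCharacter.changeLevel_primitiveCharacter χ1]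
  rw [← DirichletCharacter.changeLevel_trans]

end Pool.Agent.T9h52.BT.Ex
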