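import Pool.Agent.T9h52.BT.Ex1
import Pool.Agent.H262R3.Lk.SWQ
import Pool.Agent.Helper601.Mertens

/-!
# The conductor of an exceptional character is large
-/

set_option autoImplicit false

namespace Pool.Agent.T9h52.BT.Ex

open Finset Filter
open Pool.Agent.H180R3.E469 (logdiv_nonneg)
open Pool.Agent.T9h52.BT.Inv
open Pool.Agent.H262R3.Lk.SWQ (SS av SS_bound abel)

/-- the complex character -/
noncomputable def toC {k : ℕ} (χ : DirichletCharacter ℤ k) : DirichletCharacter ℂ k :=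
  χ.ringHomComp (Int.castRingHom ℂ)

lemma toC_apply {k : ℕ} (χ : DirichletCharacter ℤ k) (a : ZMod k) :
    toC χ a = ((χ a : ℤ) : ℂ) := rfl

lemma toC_changeLevel {d k : ℕ} (hd : d ∣ k) (χ : DirichletCharacter ℤ d) :
    toC (DirichletCharacter.changeLevel hd χ) = DirichletCharacter.changeLevel hd (toC χ) := by
  ext u
  rw [DirichletCharacter.changeLevel_eq_cast_of_dvd, toC_apply, toC_apply,
    DirichletCharacter.changeLevel_eq_cast_of_dvd]

lemma toC_ne_one {k : ℕ} {χ : DirichletCharacter ℤ k} (h : χ ≠ 1) : toC χ ≠ 1 := by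
  intro h1
  apply h
  ext u
  have h2 : toC χ (u : ZMod k) = 1 := by rw [h1]; exact MulChar.one_apply_coe u
  rw [toC_apply] at h2
  have h3 : χ (u : ZMod k) = 1 := by exact_mod_cast h2
  rw [h3]
  simp

lemma conductor_toC {k : ℕ} [NeZero k] (χ : DirichletCharacter ℤ k) :
    (toC χ).conductor ∣ χ.conductor := by
  refine DirichletCharacter.conductor_dvd_of_mem_conductorSet _
    ⟨χ.conductor_dvd_level, toC χ.primitiveCharacter, ?_⟩
  rw [← toC_changeLevel, DirichletCharacter.changeLevel_primitiveCharacter]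

lemma harm {U V : ℕ} (hU : 1 ≤ U) (hUV : U ≤ V) :
    ∑ n ∈ Ico U V, 1 / ((n:ℝ) + 1) ≤ Real.log V - Real.log U := by
  induction V, hUV using Nat.le_induction with
  | base => simp
  | succ n hn ih =>
    rw [sum_Ico_succ_top hn]
    have hn0 : (0:ℝ) < n := by exact_mod_cast (by omega : 0 < n)
    have h1 : 1 / ((n:ℝ) + 1) ≤ Real.log (n + 1) - Real.log n := by
      have h2 := Real.one_sub_inv_le_log_of_pos (show 0 < ((n:ℝ) + 1) / n by positivity)
      rw [Real.log_div (by positivity) hn0.ne', inv_div] at h2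
      have h3 : 1 / ((n:ℝ) + 1) = 1 - n / (n + 1) := by field_simp; ring
      rw [h3]; exact h2
    push_cast
    linarith

/-- Abel summation -/
lemma abel_bound {q : ℕ} (χ : DirichletCharacter ℂ q) {U V : ℕ} (hU : 1 ≤ U) (hUV : U ≤ V)
    {c : ℝ} (hc : 0 ≤ c) (hS : ∀ n, U ≤ n → ‖SS χ n‖ ≤ c * n) :
    ‖∑ n ∈ Ioc U V, av χ n * ((1 / (n:ℝ) : ℝ) : ℂ)‖ ≤ c * (2 + (Real.log V - Real.log U)) := by
  rw [abel U (av χ) (fun n => 1 / (n:ℝ)) V hUV]
  have hU0 : (0:ℝ) < U := by exact_mod_cast hU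
  have hV0 : (0:ℝ) < V := by exact_mod_cast (by omega : 0 < V)
  have h1 : ‖(∑ k ∈ Icc 1 V, av χ k) * ((1 / (V:ℝ) : ℝ) : ℂ)‖ ≤ c := by
    rw [norm_mul, Complex.norm_real, Real.norm_of_nonneg (by positivity), mul_one_div,
      div_le_iff₀ hV0]
    exact hS V hUV
  have h2 : ‖(∑ k ∈ Icc 1 U, av χ k) * ((1 / (U:ℝ) : ℝ) : ℂ)‖ ≤ c := by
    rw [norm_mul, Complex.norm_real, Real.norm_of_nonneg (by positivity), mul_one_div,
      div_le_iff₀ hU0]
    exact hS U le_rfl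
  have h3 : ‖∑ n ∈ Ico U V, (∑ k ∈ Icc 1 n, av χ k) *
      ((1 / (n:ℝ) - 1 / ((n + 1 : ℕ) : ℝ) : ℝ) : ℂ)‖ ≤ c * (Real.log V - Real.log U) := by
    refine (norm_sum_le _ _).trans ?_
    refine le_trans (sum_le_sum (g := fun n : ℕ => c * (1 / ((n:ℝ) + 1))) fun n hn => ?_) ?_
    · rw [mem_Ico] at hn
      have hn0 : (0:ℝ) < n := by exact_mod_cast (by omega : 0 < n)
      have e1 : 1 / (n:ℝ) - 1 / ((n + 1 : ℕ) : ℝ) = 1 / (n * (n + 1)) := by
        push_cast; field_simp; ring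
      rw [norm_mul, Complex.norm_real, e1, Real.norm_of_nonneg (by positivity)]
      have h4 := hS n hn.1
      calc ‖∑ k ∈ Icc 1 n, av χ k‖ * (1 / ((n:ℝ) * (n + 1)))
          ≤ c * n * (1 / ((n:ℝ) * (n + 1))) := mul_le_mul_of_nonneg_right h4 (by positivity)
        _ = c * (1 / ((n:ℝ) + 1)) := by field_simp
    · rw [← mul_sum]
      exact mul_le_mul_of_nonneg_left (harm hU hUV) hc
  have h4 : ‖(∑ k ∈ Icc 1 V, av χ k) * ((1 / (V:ℝ) : ℝ) : ℂ) -
      (∑ k ∈ Icc 1 U, av χ k) * ((1 / (U:ℝ) : ℝ) : ℂ)‖ ≤ c + c :=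
    (norm_sub_le _ _).trans (add_le_add h1 h2)
  have h5 := norm_add_le ((∑ k ∈ Icc 1 V, av χ k) * ((1 / (V:ℝ) : ℝ) : ℂ) -
      (∑ k ∈ Icc 1 U, av χ k) * ((1 / (U:ℝ) : ℝ) : ℂ))
    (∑ n ∈ Ico U V, (∑ k ∈ Icc 1 n, av χ k) * ((1 / (n:ℝ) - 1 / ((n + 1 : ℕ) : ℝ) : ℝ) : ℂ))
  refine h5.trans ?_
  linarith

/-- Mertens in an interval -/
lemma mertens_int : ∃ D : ℝ, 0 ≤ D ∧ ∀ U V : ℕ, 1 ≤ U → U ≤ V →
    Real.log V - Real.log U - D ≤ ∑ p ∈ (Ioc U V).filter Nat.Prime, Real.log p / p := by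
  obtain ⟨D, hD⟩ := Pool.Agent.Helper601.Mertens.mertens_log
  have hD0 : 0 ≤ D := le_trans (abs_nonneg _) (hD 1 le_rfl)
  refine ⟨2 * D, by linarith, ?_⟩
  intro U V hU hUV
  have hsplit : ∑ p ∈ (Ioc U V).filter Nat.Prime, Real.log p / p =
      ∑ p ∈ (Icc 1 V).filter Nat.Prime, Real.log p / p -
      ∑ p ∈ (Icc 1 U).filter Nat.Prime, Real.log p / p := by
    rw [eq_sub_iff_add_eq, ← sum_union]
    · congr 1
      rw [← filter_union]
      congr 1
      ext x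
      simp only [mem_union, mem_Ioc, mem_Icc]
      omega
    · refine disjoint_filter_filter ?_
      rw [disjoint_left]
      intro x hx hx'
      rw [mem_Ioc] at hx
      rw [mem_Icc] at hx'
      omega
  have h1 := abs_le.1 (hD V (by omega))
  have h2 := abs_le.1 (hD U hU)
  rw [hsplit]
  linarith [h1.1, h2.2]

/-- lower bound for the sum of a quadratic character when the partial sums are small -/
lemma lower_sum {k q : ℕ} {χ : DirichletCharacter ℤ k} {χp : DirichletCharacter ℂ q} {D : ℝ}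
    (hD : ∀ U V : ℕ, 1 ≤ U → U ≤ V →
      Real.log V - Real.log U - D ≤ ∑ p ∈ (Ioc U V).filter Nat.Prime, Real.log p / p)
    {U V : ℕ} (hU : 1 ≤ U) (hUV : U ≤ V) (hval : ∀ p : ℕ, p.Prime → U < p →
      χp (p : ZMod q) = ((χ (p : ZMod k) : ℤ) : ℂ))
    {c : ℝ} (hc : 0 ≤ c) (hS : ∀ n, U ≤ n → ‖SS χp n‖ ≤ c * n) :
    Real.log V - Real.log U - D - c * (2 + (Real.log V - Real.log U)) ≤
      ∑ p ∈ (Ioc U V).filter Nat.Prime, (1 + ((χ (p : ZMod k) : ℤ) : ℝ)) * (Real.log p / p) := by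
  have h1 := abel_bound χp hU hUV hc hS
  have h2 : ∑ n ∈ Ioc U V, av χp n * ((1 / (n:ℝ) : ℝ) : ℂ) =
      ((∑ p ∈ (Ioc U V).filter Nat.Prime, ((χ (p : ZMod k) : ℤ) : ℝ) * (Real.log p / p) : ℝ) : ℂ) := by
    rw [sum_filter]
    push_cast
    refine sum_congr rfl fun n hn => ?_
    rw [mem_Ioc] at hn
    unfold av
    split_ifs with hp
    · rw [hval n hp hn.1]
      push_cast
      ring
    · simp
  rw [h2, Complex.norm_real, Real.norm_eq_abs] at h1
  have h3 := (abs_le.1 h1).1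
  have h4 := hD U V hU hUV
  have h5 : ∑ p ∈ (Ioc U V).filter Nat.Prime, (1 + ((χ (p : ZMod k) : ℤ) : ℝ)) * (Real.log p / p) =
      ∑ p ∈ (Ioc U V).filter Nat.Prime, Real.log p / p +
      ∑ p ∈ (Ioc U V).filter Nat.Prime, ((χ (p : ZMod k) : ℤ) : ℝ) * (Real.log p / p) := by
    rw [← sum_add_distrib]
    exact sum_congr rfl fun p _ => by ring
  rw [h5]
  linarith

end Pool.Agent.T9h52.BT.Ex
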