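import Pool.Agent.T9h52.BT.Ex2

/-!
# Brun–Titchmarsh outside the multiples of a single modulus
-/

set_option autoImplicit false

namespace Pool.Agent.T9h52.BT.Ex

open Finset Filter
open Pool.Agent.H180R3.E469 (logdiv_nonneg)
open Pool.Agent.T9h52.BT.Inv
open Pool.Agent.H262R3.Lk.SWQ (SS av SS_bound abel)

/-- everything that is needed about large X -/
lemma large_log (B n₁ : ℕ) (ϑN ε3 G : ℝ) (hϑN : 0 < ϑN) (hlt : ϑN < ε3) :
    ∃ X₂ : ℝ, 1 < X₂ ∧ ∀ X : ℝ, X₂ ≤ X → (n₁ : ℝ) + 1 ≤ X ^ ϑN ∧ 1 ≤ Real.log X ∧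
      2 ≤ ϑN * Real.log X ∧ 2 ^ (B + 1) ≤ ϑN ^ (B + 1) * Real.log X ∧
      G ≤ (ε3 - ϑN) * Real.log X ∧ 80 * (2 + ε3) ≤ ϑN ^ 2 * Real.log X := by
  have hd : 0 < ε3 - ϑN := by linarith
  have h1 : ∀ᶠ X : ℝ in atTop, (n₁ : ℝ) + 1 ≤ X ^ ϑN :=
    (tendsto_rpow_atTop hϑN).eventually_ge_atTop _
  have h2 : ∀ᶠ X : ℝ in atTop, 1 + 2 / ϑN + 2 ^ (B + 1) / ϑN ^ (B + 1) + |G| / (ε3 - ϑN) +
      80 * (2 + ε3) / ϑN ^ 2 ≤ Real.log X := Real.tendsto_log_atTop.eventually_ge_atTop _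
  obtain ⟨X₂, hX₂⟩ := eventually_atTop.1 (h1.and h2)
  refine ⟨max X₂ 2, lt_of_lt_of_le (by norm_num) (le_max_right _ _), ?_⟩
  intro X hX
  obtain ⟨g1, g2⟩ := hX₂ X ((le_max_left _ _).trans hX)
  have p1 : 0 < 2 / ϑN := by positivity
  have p2 : (0:ℝ) < 2 ^ (B + 1) / ϑN ^ (B + 1) := by positivity
  have p3 : 0 ≤ |G| / (ε3 - ϑN) := by positivity
  have hε3 : 0 < ε3 := by linarith
  have p4 : 0 < 80 * (2 + ε3) / ϑN ^ 2 := by positivity
  set L := Real.log X
  refine ⟨g1, by linarith only [g2, p1, p2, p3, p4], ?_, ?_, ?_, ?_⟩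
  · have h : 2 / ϑN ≤ L := by linarith only [g2, p1, p2, p3, p4]
    rwa [div_le_iff₀ hϑN, mul_comm] at h
  · have h : 2 ^ (B + 1) / ϑN ^ (B + 1) ≤ L := by linarith only [g2, p1, p2, p3, p4]
    rwa [div_le_iff₀ (by positivity), mul_comm] at h
  · have h : |G| / (ε3 - ϑN) ≤ L := by linarith only [g2, p1, p2, p3, p4]
    rw [div_le_iff₀ hd, mul_comm] at h
    exact (le_abs_self G).trans h
  · have h : 80 * (2 + ε3) / ϑN ^ 2 ≤ L := by linarith only [g2, p1, p2, p3, p4]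
    rw [div_le_iff₀ (by positivity)] at h
    linarith only [h]

/-- The conductor of an exceptional character exceeds every power of the logarithm. -/
lemma big_cond (B : ℕ) {ϑ ϑN ε3 : ℝ} (hϑ : 0 < ϑ) (hϑN : ϑ ≤ ϑN) (hlt : ϑN < ε3)
    (hϑ2 : 2 * ϑ ≤ ε3 - ϑN) : ∃ X₂ : ℝ, 1 < X₂ ∧ ∀ X : ℝ, X₂ ≤ X → ∀ (k : ℕ)
      (χ : DirichletCharacter ℤ k), Bad ϑ ϑN ε3 X k χ → (Real.log X) ^ B < χ.conductor := by
  obtain ⟨n₁, hn₁⟩ := SS_bound (B + 1)
  obtain ⟨D, hD0, hD⟩ := mertens_int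
  have hϑN0 : 0 < ϑN := by linarith
  have hε3 : 0 < ε3 := by linarith
  obtain ⟨X₂, hX₂1, hX₂⟩ := large_log B n₁ ϑN ε3 (2 * (D + 3)) hϑN0 hlt
  refine ⟨X₂, hX₂1, ?_⟩
  intro X hX k χ hbad
  obtain ⟨g1, g2, g3, g4, g5, g6⟩ := hX₂ X hX
  have hX1 : 1 < X := by linarith
  have hX0 : 0 < X := by linarith
  set L := Real.log X with hL
  have hk := hbad.k1
  haveI : NeZero k := ⟨by omega⟩
  by_contra hcon
  rw [not_lt] at hcon
  -- the primitive character
  have hne := toC_ne_one hbad.ne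
  set q := (toC χ).conductor with hq
  have hq0 : q ≠ 0 := DirichletCharacter.conductor_ne_zero (toC χ)
  have hq1 : q ≠ 1 := fun h =>
    hne (DirichletCharacter.eq_one_iff_conductor_eq_one.2 h)
  have hqle : q ≤ χ.conductor :=
    Nat.le_of_dvd (Nat.pos_of_ne_zero (DirichletCharacter.conductor_ne_zero χ)) (conductor_toC χ)
  have hqL : (q : ℝ) ≤ L ^ B := by
    have : (q : ℝ) ≤ χ.conductor := by exact_mod_cast hqle
    linarith
  set U : ℕ := ⌊X ^ ϑN⌋₊ with hU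
  set V : ℕ := ⌊X ^ ε3⌋₊ with hV
  have hUle : (U:ℝ) ≤ X ^ ϑN := Nat.floor_le (by positivity)
  have hUge : X ^ ϑN < U + 1 := Nat.lt_floor_add_one _
  have hVle : (V:ℝ) ≤ X ^ ε3 := Nat.floor_le (by positivity)
  have hVge : X ^ ε3 < V + 1 := Nat.lt_floor_add_one _
  have hn₁U : n₁ ≤ U := by
    have : (n₁:ℝ) < U + 1 := by linarith
    have h2 : n₁ < U + 1 := by exact_mod_cast this
    omega
  have hU1 : 1 ≤ U := by
    refine Nat.le_floor ?_
    rw [Nat.cast_one]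
    exact Real.one_le_rpow hX1.le hϑN0.le
  have hUV : U ≤ V := Nat.floor_le_floor (Real.rpow_le_rpow_of_exponent_le hX1.le hlt.le)
  have hU0 : (0:ℝ) < U := by exact_mod_cast hU1
  have hV0 : (0:ℝ) < V := by exact_mod_cast (by omega : 0 < V)
  have hl2 : Real.log 2 ≤ 1 := by have := Real.log_two_lt_d9; linarith
  have hlogU : ϑN * L - 1 ≤ Real.log U := by
    have h1 : X ^ ϑN / 2 ≤ U := by
      have : (1:ℝ) ≤ U := by exact_mod_cast hU1
      linarith
    have h2 := Real.log_le_log (by positivity) h1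
    rw [Real.log_div (by positivity) (by norm_num), Real.log_rpow hX0] at h2
    linarith
  have hlogUu : Real.log U ≤ ϑN * L := by
    have := Real.log_le_log hU0 hUle
    rwa [Real.log_rpow hX0] at this
  have hlogVu : Real.log V ≤ ε3 * L := by
    have := Real.log_le_log hV0 hVle
    rwa [Real.log_rpow hX0] at this
  have hlogV : ε3 * L - 1 ≤ Real.log V := by
    have h1 : X ^ ε3 / 2 ≤ V := by
      have : (1:ℝ) ≤ V := by exact_mod_cast (by omega : 1 ≤ V)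
      linarith
    have h2 := Real.log_le_log (by positivity) h1
    rw [Real.log_div (by positivity) (by norm_num), Real.log_rpow hX0] at h2
    linarith
  set ℓ : ℝ := ϑN * L / 2 with hℓ
  have hℓ1 : 1 ≤ ℓ := by rw [hℓ]; linarith
  have hℓU : ℓ ≤ Real.log U := by rw [hℓ]; linarith
  have hlogn : ∀ n : ℕ, U ≤ n → ℓ ≤ Real.log n := by
    intro n hn
    exact hℓU.trans (Real.log_le_log hU0 (by exact_mod_cast hn))
  set c : ℝ := 20 / ℓ ^ 2 with hc
  have hc0 : 0 ≤ c := by rw [hc]; positivity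
  have hS : ∀ n, U ≤ n → ‖SS (toC χ).primitiveCharacter n‖ ≤ c * n := by
    intro n hn
    have h1 := hn₁ n (hn₁U.trans hn) q (by omega) ?_ (toC χ).primitiveCharacter
      (DirichletCharacter.primitiveCharacter_isPrimitive _)
    · refine h1.trans ?_
      rw [hc, div_mul_eq_mul_div]
      refine div_le_div_of_nonneg_left (by positivity) (by positivity) ?_
      exact pow_le_pow_left₀ (by linarith) (hlogn n hn) 2
    · have h2 : ℓ ^ (B + 1) ≤ (Real.log n) ^ (B + 1) :=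
        pow_le_pow_left₀ (by linarith) (hlogn n hn) _
      refine hqL.trans (le_trans ?_ h2)
      have h3 : ℓ ^ (B + 1) = L ^ B * (ϑN ^ (B + 1) * L / 2 ^ (B + 1)) := by
        rw [hℓ, div_pow, mul_pow, pow_succ L]
        ring
      rw [h3]
      refine le_mul_of_one_le_right (by positivity) ?_
      rw [one_le_div (by positivity)]
      exact g4
  have hkU : ∀ p : ℕ, p.Prime → U < p → p.Coprime k := by
    intro p hp hpU
    have h1 : X ^ ϑN < p := (Nat.floor_lt (by positivity)).1 hpU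
    have h2 : (k:ℝ) < p := lt_of_le_of_lt (hbad.kX.trans
      (Real.rpow_le_rpow_of_exponent_le hX1.le hϑN)) h1
    have h3 : k < p := by exact_mod_cast h2
    rw [Nat.Prime.coprime_iff_not_dvd hp]
    intro hdvd
    have := Nat.le_of_dvd (by omega) hdvd
    omega
  have hval : ∀ p : ℕ, p.Prime → U < p → (toC χ).primitiveCharacter (p : ZMod q) =
      ((χ (p : ZMod k) : ℤ) : ℂ) := by
    intro p hp hpU
    have h1 : IsCoprime (p:ℤ) (k:ℤ) := Nat.isCoprime_iff_coprime.2 (hkU p hp hpU)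
    have h2 := DirichletCharacter.primitiveCharacter_apply_of_isCoprime (toC χ) h1
    rw [Int.cast_natCast, Int.cast_natCast] at h2
    rw [h2, toC_apply]
  have hfin := lower_sum (χ := χ) (χp := (toC χ).primitiveCharacter) hD hU1 hUV hval hc0 hS
  have hset : (Icc 1 V).filter (fun p : ℕ => p.Prime ∧ X ^ ϑN < p) =
      (Ioc U V).filter Nat.Prime := by
    ext p
    simp only [mem_filter, mem_Icc, mem_Ioc]
    rw [hU, Nat.floor_lt (by positivity)]
    constructor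
    · rintro ⟨⟨a, b⟩, c, d⟩
      exact ⟨⟨d, b⟩, c⟩
    · rintro ⟨⟨a, b⟩, c⟩
      exact ⟨⟨c.one_lt.le, b⟩, c, a⟩
  have hsum := hbad.sum
  rw [← hV, hset] at hsum
  have hcL : c * (2 + (Real.log V - Real.log U)) ≤ 1 := by
    have h1 : 2 + (Real.log V - Real.log U) ≤ (2 + ε3) * L := by
      have h2 : 0 ≤ Real.log U := by linarith
      nlinarith only [hlogVu, h2, g2]
    have h2 : c * (2 + (Real.log V - Real.log U)) ≤ c * ((2 + ε3) * L) :=
      mul_le_mul_of_nonneg_left h1 hc0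
    refine h2.trans ?_
    rw [hc, hℓ, div_mul_eq_mul_div, div_le_one (by positivity)]
    have h3 : (ϑN * L / 2) ^ 2 = (ϑN ^ 2 * L) * L / 4 := by ring
    rw [h3]
    have h4 := mul_le_mul_of_nonneg_right g6 (show (0:ℝ) ≤ L by linarith)
    linarith
  have h9 : 2 * ϑ * L ≤ (ε3 - ϑN) * L := mul_le_mul_of_nonneg_right hϑ2 (by linarith)
  nlinarith only [hfin, hsum, hcL, h9, g5, hlogV, hlogUu]

end Pool.Agent.T9h52.BT.Ex
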