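import Pool.Agent.H154R3.Task469B
import Pool.Agent.H295R3.D3

/-!
# The fundamental lemma in progressions
-/

set_option autoImplicit false

namespace Pool.Agent.T9h52.BT

open Finset Pool.Agent.H446R2 Pool.Agent.H154R3.Fund
open Pool.Agent.H295R3.D (Rough)

/-- rough numbers of a progression in an interval -/
noncomputable def RC (z A Y k a : ℕ) : Finset ℕ :=
  (Ioc A (A + Y)).filter (fun n => n ≡ a [MOD k] ∧ Rough z n)

/-- primes below `z` not dividing `k` -/
def Sk (z k : ℕ) : Finset ℕ := z.primesBelow.filter (fun p => ¬ p ∣ k)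

noncomputable def Vk (z k : ℕ) : ℝ := ∏ p ∈ Sk z k, (1 - dn p)

lemma Sk_prime {z k p : ℕ} (hp : p ∈ Sk z k) : p.Prime :=
  Nat.prime_of_mem_primesBelow (mem_filter.mp hp).1

lemma Sk_lt {z k p : ℕ} (hp : p ∈ Sk z k) : p < z :=
  Nat.lt_of_mem_primesBelow (mem_filter.mp hp).1

lemma one_sub_dn_pos {p : ℕ} (hp : p.Prime) : 0 < 1 - dn p := by
  unfold dn
  have : (2 : ℝ) ≤ p := by exact_mod_cast hp.two_le
  rw [sub_pos, div_lt_one (by linarith)]
  linarith

lemma one_sub_dn_le (p : ℕ) : 1 - dn p ≤ 1 := by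
  have := dn_nonneg p
  linarith

lemma Vk_pos (z k : ℕ) : 0 < Vk z k :=
  prod_pos fun _ hp => one_sub_dn_pos (Sk_prime hp)

lemma VV_pos (z : ℕ) : 0 < VV z :=
  prod_pos fun _ hp => one_sub_dn_pos (Nat.prime_of_mem_primesBelow hp)

/-- the density -/
lemma Vk_eq {z k : ℕ} (hk : 1 ≤ k) (hkz : k < z) : Vk z k / k = VV z / k.totient := by
  have h1 : VV z = Vk z k * ∏ p ∈ k.primeFactors, (1 - dn p) := by
    unfold VV Vk Sk
    rw [← Finset.prod_filter_mul_prod_filter_not z.primesBelow (fun p => ¬ p ∣ k)]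
    congr 1
    refine Finset.prod_congr ?_ fun _ _ => rfl
    ext p
    simp only [mem_filter, not_not, Nat.mem_primeFactors, Nat.mem_primesBelow]
    constructor
    · rintro ⟨⟨_, h2⟩, h3⟩
      exact ⟨h2, h3, by omega⟩
    · rintro ⟨h2, h3, _⟩
      exact ⟨⟨lt_of_le_of_lt (Nat.le_of_dvd (by omega) h3) hkz, h2⟩, h3⟩
  have h2 : (k.totient : ℝ) = k * ∏ p ∈ k.primeFactors, (1 - dn p) := by
    have h3 := Nat.totient_eq_mul_prod_factors k
    have h4 : ((k.totient : ℚ) : ℝ) = ((k * ∏ p ∈ k.primeFactors, (1 - (p : ℚ)⁻¹) : ℚ) : ℝ) := by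
      rw [h3]
    push_cast at h4
    rw [h4]
    congr 1
    refine Finset.prod_congr rfl fun p _ => ?_
    unfold dn
    rw [one_div]
  have hk0 : (0 : ℝ) < k := by exact_mod_cast hk
  have hP : 0 < ∏ p ∈ k.primeFactors, (1 - dn p) :=
    prod_pos fun p hp => one_sub_dn_pos (Nat.prime_of_mem_primeFactors hp)
  rw [h1, h2]
  field_simp

/-- first index -/
def ji (A k a : ℕ) : ℕ := (A + 1 - a % k + (k - 1)) / k

lemma ji_le_iff {A k a j : ℕ} (hk : 1 ≤ k) : ji A k a ≤ j ↔ A + 1 ≤ a % k + k * j := by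
  unfold ji
  rw [Nat.div_le_iff_le_mul_add_pred (by omega)]
  have : k * j + (k - 1) = k * j + k - 1 := by omega
  constructor <;> intro h <;> omega

lemma ji_mono {A B k a : ℕ} (hk : 1 ≤ k) (h : A ≤ B) : ji A k a ≤ ji B k a := by
  rw [ji_le_iff hk]
  have := (ji_le_iff (A := B) (a := a) hk).mp le_rfl
  omega

lemma ji_diff (A Y k a : ℕ) (hk : 1 ≤ k) :
    |((ji (A + Y) k a - ji A k a : ℕ) : ℝ) - Y / k| ≤ 1 := by
  have hm := ji_mono (A := A) (B := A + Y) (a := a) hk (by omega)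
  set u := ji A k a with hu
  set w := ji (A + Y) k a with hw
  have ha : a % k < k := Nat.mod_lt _ (by omega)
  have hu1 := (ji_le_iff (A := A) (a := a) (j := u) hk).mp le_rfl
  have hw1 := (ji_le_iff (A := A + Y) (a := a) (j := w) hk).mp le_rfl
  have hu2 : 0 < u → a % k + k * u ≤ A + k := by
    intro h0
    by_contra hcon
    have h1 : ji A k a ≤ u - 1 := by
      rw [ji_le_iff hk]
      have : k * (u - 1) + k = k * u := by
        obtain ⟨v, hv⟩ : ∃ v, u = v + 1 := ⟨u - 1, by omega⟩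
        rw [hv]
        simp
        ring
      omega
    omega
  have hw2 : 0 < w → a % k + k * w ≤ A + Y + k := by
    intro h0
    by_contra hcon
    have h1 : ji (A + Y) k a ≤ w - 1 := by
      rw [ji_le_iff hk]
      have : k * (w - 1) + k = k * w := by
        obtain ⟨v, hv⟩ : ∃ v, w = v + 1 := ⟨w - 1, by omega⟩
        rw [hv]
        simp
        ring
      omega
    omega
  have hk0 : (0 : ℝ) < k := by exact_mod_cast hk
  rw [Nat.cast_sub hm]
  have e : ((w : ℝ) - u) - Y / k = (k * w - k * u - Y) / k := by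
    field_simp
  rw [e, abs_div, abs_of_pos hk0, div_le_one hk0, abs_le]
  rcases Nat.eq_zero_or_pos u with h0 | h0
  · have hu0 : (u : ℝ) = 0 := by exact_mod_cast h0
    rw [hu0]
    rcases Nat.eq_zero_or_pos w with h1 | h1
    · have hw0 : (w : ℝ) = 0 := by exact_mod_cast h1
      rw [hw0]
      rw [h1] at hw1
      rw [h0] at hu1
      have : (Y : ℝ) ≤ k := by
        have : Y ≤ k := by omega
        exact_mod_cast this
      have h2 : (0 : ℝ) ≤ Y := Nat.cast_nonneg _
      constructor <;> linarith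
    · have h2 := hw2 h1
      rw [h0] at hu1
      have h3 : Y ≤ k * w + k := by omega
      have h4 : k * w ≤ Y + k := by omega
      have h3' : (Y : ℝ) ≤ k * w + k := by exact_mod_cast h3
      have h4' : (k : ℝ) * w ≤ Y + k := by exact_mod_cast h4
      constructor <;> linarith
  · have h1 : 0 < w := by omega
    have h2 := hw2 h1
    have h3 := hu2 h0
    have h4 : Y + k * u ≤ k * w + k := by omega
    have h5 : k * w ≤ Y + k * u + k := by omega
    have h4' : (Y : ℝ) + k * u ≤ k * w + k := by exact_mod_cast h4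
    have h5' : (k : ℝ) * w ≤ Y + k * u + k := by exact_mod_cast h5
    constructor <;> linarith

/-- The rough numbers of a progression correspond to an interval sieved by the primes not
dividing the modulus. -/
lemma RC_card (z A Y k a : ℕ) (hk : 1 ≤ k) (hak : a.Coprime k) :
    ∃ m : ℕ, (RC z A Y k a).card =
      ((Ioc m (m + (ji (A + Y) k a - ji A k a))).filter (fun n => ∀ p ∈ Sk z k, ¬ p ∣ n)).card := by
  classical
  set P := ∏ p ∈ Sk z k, p with hP
  have hPk : k.Coprime P := by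
    rw [hP]
    apply Nat.Coprime.prod_right
    intro p hp
    exact ((Nat.Prime.coprime_iff_not_dvd (Sk_prime hp)).mpr (mem_filter.mp hp).2).symm
  have hP1 : 1 ≤ P := Finset.prod_pos fun p hp => (Sk_prime hp).pos
  obtain ⟨T0, hT0⟩ := Nat.exists_mul_mod_eq_of_coprime (a % k) hPk (by omega)
  set T := T0 + P with hT
  have hTm : k * T ≡ a % k [MOD P] := by
    have : k * T = k * T0 + k * P := by rw [hT]; ring
    rw [this]
    have h1 : k * T0 + k * P ≡ k * T0 + 0 [MOD P] := by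
      apply Nat.ModEq.add_left
      exact (Nat.modEq_zero_iff_dvd.mpr (Dvd.intro_left k rfl))
    have h2 : k * T0 ≡ a % k [MOD P] := by
      unfold Nat.ModEq
      rw [hT0.2]
    rw [add_zero] at h1
    exact h1.trans h2
  have hT1 : 1 ≤ T := by omega
  have ha : a % k < k := Nat.mod_lt _ (by omega)
  have hm := ji_mono (A := A) (B := A + Y) (a := a) hk (by omega)
  refine ⟨ji A k a + T - 1, ?_⟩
  refine Finset.card_nbij' (fun n => (n - a % k) / k + T) (fun j => a % k + k * (j - T)) ?_ ?_ ?_ ?_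
  · intro n hn
    simp only [RC, coe_filter, mem_Ioc, Set.mem_ofPred_eq] at hn ⊢
    obtain ⟨⟨h1, h2⟩, h3, h4⟩ := hn
    obtain ⟨j, hj⟩ : ∃ j, n = a % k + k * j := by
      refine ⟨n / k, ?_⟩
      have h5 : n % k = a % k := h3
      have := Nat.mod_add_div n k
      omega
    have hj2 : (n - a % k) / k = j := by
      rw [hj, Nat.add_sub_cancel_left, Nat.mul_div_cancel_left _ (by omega)]
    rw [hj2]
    have g1 : ji A k a ≤ j := by rw [ji_le_iff hk]; omega
    have g2 : j < ji (A + Y) k a := by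
      by_contra hcon
      have := (ji_le_iff (A := A + Y) (a := a) hk).mp (not_lt.mp hcon)
      omega
    refine ⟨⟨by omega, by omega⟩, ?_⟩
    intro p hp hpd
    apply h4 p (Sk_prime hp) (Sk_lt hp)
    have h6 : k * (j + T) ≡ n [MOD P] := by
      rw [hj, mul_add, add_comm]
      exact Nat.ModEq.add_right _ hTm
    have h7 : k * (j + T) ≡ n [MOD p] := h6.of_dvd (Finset.dvd_prod_of_mem _ hp)
    have h8 : k * (j + T) ≡ 0 [MOD p] := Nat.modEq_zero_iff_dvd.mpr (hpd.mul_left k)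
    exact Nat.modEq_zero_iff_dvd.mp (h7.symm.trans h8)
  · intro j hj
    simp only [RC, coe_filter, mem_Ioc, Set.mem_ofPred_eq] at hj ⊢
    obtain ⟨⟨h1, h2⟩, h3⟩ := hj
    obtain ⟨i, hi⟩ : ∃ i, j = i + T := ⟨j - T, by omega⟩
    have hi2 : j - T = i := by omega
    rw [hi2]
    have g1 : ji A k a ≤ i := by omega
    have g2 : ¬ ji (A + Y) k a ≤ i := by omega
    rw [ji_le_iff hk] at g1 g2
    refine ⟨⟨by omega, by omega⟩, ?_, ?_⟩
    · show (a % k + k * i) % k = a % k
      rw [Nat.add_mul_mod_self_left, Nat.mod_mod]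
    · intro p hp hpz hpd
      have hnk : ¬ p ∣ k := by
        intro hpk
        have h5 : p ∣ a % k := (Nat.dvd_add_left (hpk.mul_right i)).mp hpd
        have h6 : p ∣ a := (Nat.dvd_mod_iff hpk).mp h5
        have h7 : p ∣ 1 := by
          have := Nat.dvd_gcd h6 hpk
          rwa [hak] at this
        exact hp.one_lt.ne' (Nat.dvd_one.mp h7)
      have hpS : p ∈ Sk z k := mem_filter.mpr ⟨Nat.mem_primesBelow.mpr ⟨hpz, hp⟩, hnk⟩
      apply h3 p hpS
      have h6 : k * (i + T) ≡ a % k + k * i [MOD P] := by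
        rw [mul_add, add_comm]
        exact Nat.ModEq.add_right _ hTm
      have h7 : k * (i + T) ≡ a % k + k * i [MOD p] := h6.of_dvd (Finset.dvd_prod_of_mem _ hpS)
      have h8 : a % k + k * i ≡ 0 [MOD p] := Nat.modEq_zero_iff_dvd.mpr hpd
      have h9 : p ∣ k * (i + T) := Nat.modEq_zero_iff_dvd.mp (h7.trans h8)
      rw [← hi] at h9
      exact (hp.dvd_mul.mp h9).resolve_left hnk
  · intro n hn
    simp only [RC, coe_filter, mem_Ioc, Set.mem_ofPred_eq] at hn ⊢
    obtain ⟨⟨h1, h2⟩, h3, h4⟩ := hn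
    obtain ⟨j, hj⟩ : ∃ j, n = a % k + k * j := by
      refine ⟨n / k, ?_⟩
      have h5 : n % k = a % k := h3
      have := Nat.mod_add_div n k
      omega
    have hj2 : (n - a % k) / k = j := by
      rw [hj, Nat.add_sub_cancel_left, Nat.mul_div_cancel_left _ (by omega)]
    rw [hj2, Nat.add_sub_cancel, ← hj]
  · intro j hj
    simp only [coe_filter, mem_Ioc, Set.mem_ofPred_eq] at hj ⊢
    obtain ⟨⟨h1, h2⟩, h3⟩ := hj
    rw [Nat.add_sub_cancel_left, Nat.mul_div_cancel_left _ (by omega)]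
    omega

/-- The fundamental lemma in progressions. -/
theorem flap : ∀ κ : ℝ, 0 < κ → ∃ s : ℕ, 1 ≤ s ∧ 1 / (s : ℝ) ≤ κ ∧ ∃ z₀ : ℕ, 2 ≤ z₀ ∧
    ∀ z : ℕ, z₀ ≤ z → ∀ k a A Y : ℕ, 1 ≤ k → k < z → a.Coprime k → k * z ^ s ≤ Y →
    |((RC z A Y k a).card : ℝ) - VV z * (Y / k.totient)| ≤
      κ / (s : ℝ) ^ 8 * (VV z * (Y / k.totient)) := by
  intro κ0 hκ0
  set κ : ℝ := min κ0 1 with hκdef
  have hκ : 0 < κ := lt_min hκ0 one_pos
  have hκ1 : κ ≤ 1 := min_le_right _ _
  have hκκ : κ ≤ κ0 := min_le_left _ _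
  obtain ⟨R, hR, hR1, hR2⟩ := exists_R κ hκ
  set s : ℕ := 8 * R + 18 with hs
  have hs0 : (0 : ℝ) < s := by rw [hs]; positivity
  have hs1 : (1 : ℝ) ≤ (s : ℝ) ^ 8 := by
    apply one_le_pow₀
    rw [hs]; push_cast; linarith
  refine ⟨s, by omega, hR1.trans hκκ, max 2 ⌈16 * (s : ℝ) ^ 8 / κ⌉₊, le_max_left _ _, ?_⟩
  intro z hz k a A Y hk hkz hak hY
  have hz2 : 2 ≤ z := (le_max_left _ _).trans hz
  have hz3 : 16 * (s : ℝ) ^ 8 / κ ≤ z :=
    (Nat.le_ceil _).trans (by exact_mod_cast (le_max_right _ _).trans hz)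
  have hzR : (2 : ℝ) ≤ z := by exact_mod_cast hz2
  have hVl : 1 / (z : ℝ) ≤ Vk z k := by
    have h1 : VV z ≤ Vk z k := by
      have h2 : VV z = Vk z k * ∏ p ∈ z.primesBelow.filter (fun p => ¬ ¬ p ∣ k), (1 - dn p) := by
        unfold VV Vk Sk
        rw [Finset.prod_filter_mul_prod_filter_not]
      rw [h2]
      apply mul_le_of_le_one_right (Vk_pos z k).le
      apply Finset.prod_le_one
      · intro p hp
        exact (one_sub_dn_pos (Nat.prime_of_mem_primesBelow (mem_filter.mp hp).1)).le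
      · intro p _
        exact one_sub_dn_le p
    refine le_trans ?_ h1
    refine le_trans ?_ (VV_lower z hz2)
    apply one_div_le_one_div_of_le (by linarith) (by linarith)
  have hV0 := Vk_pos z k
  obtain ⟨I, hI, hI1, hI2⟩ := exists_I z hz2
  obtain ⟨m, hm⟩ := RC_card z A Y k a hk hak
  set J : ℕ := ji (A + Y) k a - ji A k a with hJ
  have hJd := ji_diff A Y k a hk
  rw [← hJ] at hJd
  have h1 := sieve_two (Sk z k) (fun p hp => Sk_prime hp) R hR I hI
    (fun p hp => (Sk_lt hp).le.trans hI1) m J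
  rw [← hm] at h1
  change |_ - Vk z k * J| ≤ 2 * (2 ^ 24 * (1 / 2) ^ (2 * R)) * Vk z k * J + _ at h1
  have hk0 : (0 : ℝ) < k := by exact_mod_cast hk
  have hVeq := Vk_eq hk hkz
  have e1 : VV z * ((Y : ℝ) / k.totient) = Vk z k * (Y / k) := by
    calc VV z * ((Y : ℝ) / k.totient) = (VV z / k.totient) * Y := by ring
      _ = (Vk z k / k) * Y := by rw [hVeq]
      _ = _ := by ring
  rw [e1]
  set t : ℝ := (Y : ℝ) / k with ht
  have hts : (z : ℝ) ^ s ≤ t := by
    rw [ht, le_div_iff₀ hk0, mul_comm]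
    exact_mod_cast hY
  have hzs : (z : ℝ) ≤ (z : ℝ) ^ s := by
    calc (z : ℝ) = (z : ℝ) ^ 1 := (pow_one _).symm
      _ ≤ (z : ℝ) ^ s := pow_le_pow_right₀ (by linarith) (by omega)
  have ht0 : 0 < t := by linarith
  have ht16 : 16 * (s : ℝ) ^ 8 / κ ≤ t := hz3.trans (hzs.trans hts)
  set V := Vk z k with hVdef
  set c : ℝ := ((RC z A Y k a).card : ℝ) with hc
  have hN : (2 : ℝ) ^ ((4 * R + 8) * 2 ^ I) ≤ κ / (16 * (s : ℝ) ^ 8) * (V * t) := by
    have h2 : (2 : ℝ) ^ ((4 * R + 8) * 2 ^ I) ≤ (z : ℝ) ^ (8 * R + 16) := by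
      have : 2 ^ ((4 * R + 8) * 2 ^ I) ≤ z ^ (8 * R + 16) := by
        calc 2 ^ ((4 * R + 8) * 2 ^ I) = (2 ^ 2 ^ I) ^ (4 * R + 8) := by
              rw [← pow_mul, mul_comm]
          _ ≤ (z ^ 2) ^ (4 * R + 8) := Nat.pow_le_pow_left hI2 _
          _ = z ^ (8 * R + 16) := by rw [← pow_mul]; congr 1; ring
      exact_mod_cast this
    refine h2.trans ?_
    have h5 : (z : ℝ) ^ (8 * R + 17) ≤ V * t := by
      calc (z : ℝ) ^ (8 * R + 17) = 1 / z * (z : ℝ) ^ s := by
            rw [hs, show 8 * R + 18 = (8 * R + 17) + 1 by ring, pow_succ _ (8 * R + 17), one_div,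
              mul_comm ((z : ℝ) ^ (8 * R + 17)), inv_mul_cancel_left₀ (by linarith)]
        _ ≤ V * t := mul_le_mul hVl hts (by positivity) hV0.le
    have h6 : 1 ≤ κ / (16 * (s : ℝ) ^ 8) * z := by
      rw [div_le_iff₀ hκ] at hz3
      rw [div_mul_eq_mul_div, le_div_iff₀ (by positivity)]
      linarith
    calc (z : ℝ) ^ (8 * R + 16) = 1 * (z : ℝ) ^ (8 * R + 16) := by ring
      _ ≤ κ / (16 * (s : ℝ) ^ 8) * z * (z : ℝ) ^ (8 * R + 16) :=
          mul_le_mul_of_nonneg_right h6 (by positivity)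
      _ = κ / (16 * (s : ℝ) ^ 8) * (z : ℝ) ^ (8 * R + 17) := by ring
      _ ≤ κ / (16 * (s : ℝ) ^ 8) * (V * t) := mul_le_mul_of_nonneg_left h5 (by positivity)
  set e : ℝ := 2 * (2 ^ 24 * (1 / 2 : ℝ) ^ (2 * R)) with he
  have he0 : 0 ≤ e := by positivity
  have he2 : e ≤ κ / (2 * (s : ℝ) ^ 8) := hR2
  have he1 : e ≤ 1 := by
    refine he2.trans ?_
    rw [div_le_one (by positivity)]
    linarith
  have hJt := abs_le.mp hJd
  have hVt : V * 1 ≤ κ / (16 * (s : ℝ) ^ 8) * (V * t) := by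
    have : 1 ≤ κ / (16 * (s : ℝ) ^ 8) * t := by
      rw [div_le_iff₀ hκ] at ht16
      rw [div_mul_eq_mul_div, le_div_iff₀ (by positivity)]
      linarith
    calc V * 1 ≤ V * (κ / (16 * (s : ℝ) ^ 8) * t) := mul_le_mul_of_nonneg_left this hV0.le
      _ = _ := by ring
  have h10 : e * V * J ≤ κ / (2 * (s : ℝ) ^ 8) * (V * t) + V := by
    have a1 : e * V * J ≤ e * V * (t + 1) :=
      mul_le_mul_of_nonneg_left (by linarith) (by positivity)
    have a2 : e * V * t ≤ κ / (2 * (s : ℝ) ^ 8) * (V * t) := by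
      rw [mul_assoc]
      exact mul_le_mul_of_nonneg_right he2 (by positivity)
    have a3 : e * V * 1 ≤ V := by
      have := mul_le_mul_of_nonneg_right he1 hV0.le
      linarith
    linarith
  have h11 : |V * J - V * t| ≤ V := by
    rw [← mul_sub, abs_mul, abs_of_pos hV0]
    have := mul_le_mul_of_nonneg_left hJd hV0.le
    linarith
  have h12 : |c - V * t| ≤ |c - V * J| + |V * J - V * t| := abs_sub_le _ _ _
  have h13 : κ / (s : ℝ) ^ 8 * (V * t) = κ / (2 * (s : ℝ) ^ 8) * (V * t) +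
      8 * (κ / (16 * (s : ℝ) ^ 8) * (V * t)) := by
    field_simp
    ring
  have h14 : κ / (s : ℝ) ^ 8 * (V * t) ≤ κ0 / (s : ℝ) ^ 8 * (V * t) := by
    apply mul_le_mul_of_nonneg_right _ (by positivity)
    exact div_le_div_of_nonneg_right hκκ (by positivity)
  have h15 : 0 ≤ κ / (16 * (s : ℝ) ^ 8) * (V * t) := by positivity
  refine le_trans ?_ h14
  rw [h13]
  linarith

end Pool.Agent.T9h52.BT
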