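import Pool.Agent.T9h52.BT.Cell4

/-!
# A near extremal progression contains a near extremal block of cells
-/

set_option autoImplicit false

namespace Pool.Agent.T9h52.BT.Inv

open Finset
open Pool.Agent.H180R3.E469 (E C E_le lt_E E_pos half_le_E E_mono log_E_le le_log_E mem_C_iff
  logdiv_nonneg sum_cells idx mem_C_idx block_upper block_lower exp_sub_one_le)
open Pool.Agent.T9h52.BT
open Pool.Agent.T9h52.BT.Cell
open Pool.Agent.T9h52.BT.St (av wv sg)

/-- The number of primes of a block. -/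
lemma block_card {h : ℝ} (hh : 0 < h) {k M K K0 a : ℕ} {b : (ZMod k)ˣ} {B : ℝ} [NeZero k]
    (hab : ((a : ℕ) : ZMod k) = b) (hM : 1 ≤ M) (hK : K0 ≤ K) (hK0 : 0 < (K0:ℝ) * h)
    (hB : wv M (ff h k) K b ≤ B) :
    ((PrF (E h K) (E h (K + M) - E h K) k a).card : ℝ) ≤
      (1 / (K0 * h)) * (Real.exp (M * h) * (Real.exp (K * h) * (M * h)) * (B / k.totient)) := by
  have hM0 : (0:ℝ) < M := by exact_mod_cast hM
  have hφ : (0:ℝ) < k.totient := by
    exact_mod_cast Nat.totient_pos.2 (Nat.pos_of_ne_zero (NeZero.ne k))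
  have h1 := Th_le h hh.le k a K M
  have hg : ∑ i ∈ Ico K (K + M), ms h k i (a : ZMod k) =
      (M * h / k.totient) * wv M (ff h k) K b := by
    rw [wv_ff hh hM, sum_Ico_eq_sum_range, hab, Nat.add_sub_cancel_left]
    field_simp
  rw [hg] at h1
  have h2 : ((PrF (E h K) (E h (K + M) - E h K) k a).card : ℝ) * (K0 * h) ≤
      Th (E h K) (E h (K + M) - E h K) k a := by
    unfold Th
    rw [← nsmul_eq_mul, ← sum_const]
    refine sum_le_sum fun p hp => ?_
    rw [mem_PrF] at hp
    have hp0 : (0:ℝ) < p := by exact_mod_cast hp.2.1.pos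
    have h3 : Real.exp (K * h) < p := by
      have := hp.1.1
      rw [E, Nat.floor_lt (Real.exp_pos _).le] at this
      exact this
    have h4 : (K0:ℝ) * h ≤ K * h := mul_le_mul_of_nonneg_right (by exact_mod_cast hK) hh.le
    have h5 : (K:ℝ) * h ≤ Real.log p := by
      rw [Real.le_log_iff_exp_le hp0]
      exact h3.le
    linarith
  have h3 : (M * h / k.totient) * wv M (ff h k) K b ≤ (M * h / k.totient) * B :=
    mul_le_mul_of_nonneg_left hB (by positivity)
  have h4 := mul_le_mul_of_nonneg_left h3 (Real.exp_pos ((K + M : ℕ) * h)).le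
  have h5 : Real.exp ((K + M : ℕ) * h) = Real.exp (M * h) * Real.exp (K * h) := by
    rw [← Real.exp_add]; congr 1; push_cast; ring
  rw [one_div, inv_mul_eq_div, le_div_iff₀ hK0]
  refine h2.trans (h1.trans (h4.trans (le_of_eq ?_)))
  rw [h5]
  ring

lemma geo_le {h : ℝ} (hh : 0 < h) (K0 M J : ℕ) :
    ∑ j ∈ range J, Real.exp ((K0 + j * M : ℕ) * h) * (M * h) ≤
      Real.exp ((K0 + J * M : ℕ) * h) - Real.exp (K0 * h) := by
  induction J with
  | zero => simp
  | succ J ih =>
    rw [sum_range_succ]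
    have h1 : Real.exp ((K0 + (J + 1) * M : ℕ) * h) =
        Real.exp ((K0 + J * M : ℕ) * h) * Real.exp (M * h) := by
      rw [← Real.exp_add]; congr 1; push_cast; ring
    have h2 := Real.add_one_le_exp (M * h)
    have h3 := Real.exp_pos ((K0 + J * M : ℕ) * h)
    rw [h1]
    nlinarith

/-- Covering the progression by blocks. -/
lemma cover {h x y z0 : ℝ} (hh : 0 < h) {k M K0 J a : ℕ}
    (hM : 1 ≤ M) (hx : 0 ≤ x) (hz0 : 0 ≤ z0)
    (hK0 : Real.exp (K0 * h) ≤ max (x - y) z0)
    (hJ : x ≤ Real.exp ((K0 + J * M : ℕ) * h)) (l : ℤ) (hl : (l : ZMod k) = (a : ZMod k)) :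
    (({p : ℕ | p.Prime ∧ x - y < (p : ℝ) ∧ (p : ℝ) ≤ x ∧ (p : ℤ) ≡ l [ZMOD (k : ℤ)]}.ncard : ℕ) : ℝ)
      ≤ z0 + ∑ j ∈ range J, ((PrF (E h (K0 + j * M)) (E h (K0 + j * M + M) - E h (K0 + j * M))
        k a).card : ℝ) := by
  classical
  set S : Set ℕ := {p : ℕ | p.Prime ∧ x - y < (p : ℝ) ∧ (p : ℝ) ≤ x ∧ (p : ℤ) ≡ l [ZMOD (k : ℤ)]}
  set F : Finset ℕ := (Icc 1 ⌊z0⌋₊) ∪ (range J).biUnion (fun j =>
    PrF (E h (K0 + j * M)) (E h (K0 + j * M + M) - E h (K0 + j * M)) k a) with hF
  have hsub : S ⊆ (F : Set ℕ) := by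
    rintro p ⟨hp, h1, h2, h3⟩
    rw [hF, coe_union, Set.mem_union]
    have hp0 : (0:ℝ) < p := by exact_mod_cast hp.pos
    by_cases hz : (p:ℝ) ≤ z0
    · left
      rw [mem_coe, mem_Icc]
      exact ⟨hp.one_lt.le, Nat.le_floor hz⟩
    · right
      rw [not_le] at hz
      rw [mem_coe, mem_biUnion]
      have hpmax : max (x - y) z0 < p := max_lt h1 hz
      have hpK : Real.exp (K0 * h) < p := hK0.trans_lt hpmax
      have hpi := mem_C_idx hh hp
      have hpi' := mem_C_iff.1 hpi
      set i := idx h p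
      have hi1 : K0 ≤ i := by
        have : Real.exp (K0 * h) < Real.exp ((i + 1) * h) := hpK.trans_le hpi'.2.2
        have h4 : (K0:ℝ) * h < (i + 1) * h := Real.exp_lt_exp.1 this
        have h5 : (K0:ℝ) < i + 1 := lt_of_mul_lt_mul_right h4 hh.le
        have h6 : K0 < i + 1 := by exact_mod_cast h5
        omega
      have hi2 : i < K0 + J * M := by
        have : Real.exp (i * h) < Real.exp ((K0 + J * M : ℕ) * h) := hpi'.2.1.trans_le (h2.trans hJ)
        have h4 : (i:ℝ) * h < (K0 + J * M : ℕ) * h := Real.exp_lt_exp.1 this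
        have h5 : (i:ℝ) < (K0 + J * M : ℕ) := lt_of_mul_lt_mul_right h4 hh.le
        exact_mod_cast h5
      refine ⟨(i - K0) / M, ?_, ?_⟩
      · rw [mem_range]
        rw [Nat.div_lt_iff_lt_mul hM]
        omega
      · rw [mem_PrF]
        have hd1 : (i - K0) / M * M ≤ i - K0 := Nat.div_mul_le_self _ _
        have hd2 : i - K0 < ((i - K0) / M + 1) * M := Nat.lt_mul_of_div_lt (Nat.lt_succ_self _) hM
        have e1 : ((i - K0) / M + 1) * M = (i - K0) / M * M + M := by ring
        rw [e1] at hd2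
        set t := (i - K0) / M * M
        have hE : E h (K0 + t) + (E h (K0 + t + M) - E h (K0 + t)) = E h (K0 + t + M) := by
          have := E_mono hh.le (show K0 + t ≤ K0 + t + M by omega)
          omega
        rw [hE]
        refine ⟨⟨?_, ?_⟩, hp, ?_⟩
        · rw [E, Nat.floor_lt (Real.exp_pos _).le]
          refine lt_of_le_of_lt (Real.exp_le_exp.2 ?_) hpi'.2.1
          exact mul_le_mul_of_nonneg_right (by exact_mod_cast (by omega : K0 + t ≤ i)) hh.le
        · rw [E, Nat.le_floor_iff (Real.exp_pos _).le]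
          refine hpi'.2.2.trans (Real.exp_le_exp.2 ?_)
          exact mul_le_mul_of_nonneg_right (by exact_mod_cast (by omega : i + 1 ≤ K0 + t + M)) hh.le
        · rw [← ZMod.natCast_eq_natCast_iff, ← hl]
          have := (ZMod.intCast_eq_intCast_iff (p : ℤ) l k).2 h3
          rw [← this]
          push_cast
          rfl
  have h1 : S.ncard ≤ F.card := by
    rw [← Set.ncard_coe_finset F]
    exact Set.ncard_le_ncard hsub (Finset.finite_toSet F)
  have h2 : F.card ≤ ⌊z0⌋₊ + ∑ j ∈ range J, (PrF (E h (K0 + j * M))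
      (E h (K0 + j * M + M) - E h (K0 + j * M)) k a).card := by
    refine (card_union_le _ _).trans ?_
    refine add_le_add (by rw [Nat.card_Icc]; omega) card_biUnion_le
  calc ((S.ncard : ℕ) : ℝ) ≤ ((⌊z0⌋₊ + ∑ j ∈ range J, (PrF (E h (K0 + j * M))
      (E h (K0 + j * M + M) - E h (K0 + j * M)) k a).card : ℕ) : ℝ) := by
        exact_mod_cast h1.trans h2
    _ ≤ _ := by
        push_cast
        have := Nat.floor_le hz0
        linarith

/-- If no block is near extremal then the progression is not either. -/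
lemma blocks {h x y z0 κ : ℝ} (hh : 0 < h) {k M a : ℕ} {b : (ZMod k)ˣ} [NeZero k]
    (hab : ((a : ℕ) : ZMod k) = b) (hM : 1 ≤ M) (hMh : (M:ℝ) * h ≤ 1 / 4)
    (hκ1 : κ ≤ 1)
    (hz0 : Real.exp (2 * h) ≤ z0) (hzx : z0 ≤ x) (hy : 0 ≤ y)
    (l : ℤ) (hl : (l : ZMod k) = (a : ZMod k))
    (hno : ∀ K : ℕ, Real.log z0 - h ≤ K * h → K * h ≤ Real.log x → wv M (ff h k) K b ≤ 2 - κ) :
    (({p : ℕ | p.Prime ∧ x - y < (p : ℝ) ∧ (p : ℝ) ≤ x ∧ (p : ℤ) ≡ l [ZMOD (k : ℤ)]}.ncard : ℕ) : ℝ)
      ≤ z0 + (2 - κ) * ((1 + 2 * (M * h)) * (y + 5 * (M * h) * x)) /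
        (k.totient * (Real.log z0 - h)) := by
  have hM0 : (0:ℝ) < M := by exact_mod_cast hM
  have hMh0 : 0 < (M:ℝ) * h := by positivity
  have hhM : h ≤ M * h := by
    have : (1:ℝ) ≤ M := by exact_mod_cast hM
    nlinarith
  have hφ : (0:ℝ) < k.totient := by
    exact_mod_cast Nat.totient_pos.2 (Nat.pos_of_ne_zero (NeZero.ne k))
  have hz00 : 0 < z0 := (Real.exp_pos _).trans_le hz0
  have hx0 : 0 < x := hz00.trans_le hzx
  have hlz : 2 * h ≤ Real.log z0 := by
    rw [Real.le_log_iff_exp_le hz00]; exact hz0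
  set V := max (x - y) z0 with hV
  have hV0 : 0 < V := lt_of_lt_of_le hz00 (le_max_right _ _)
  have hVx : V ≤ x := max_le (by linarith) hzx
  have hlV : Real.log z0 ≤ Real.log V := Real.log_le_log hz00 (le_max_right _ _)
  have hlVx : Real.log V ≤ Real.log x := Real.log_le_log hV0 hVx
  set K0 : ℕ := ⌊Real.log V / h⌋₊ with hK0
  have hK0a : (K0:ℝ) * h ≤ Real.log V := by
    have := Nat.floor_le (show 0 ≤ Real.log V / h by
      apply div_nonneg _ hh.le; linarith)
    rw [← hK0] at this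
    rwa [le_div_iff₀ hh] at this
  have hK0b : Real.log V - h < (K0:ℝ) * h := by
    have := Nat.lt_floor_add_one (Real.log V / h)
    rw [← hK0, div_lt_iff₀ hh] at this
    linarith
  have hK0c : h < (K0:ℝ) * h := by linarith
  set J : ℕ := ⌈(Real.log x / h - K0) / M⌉₊ with hJ
  have hnn : 0 ≤ (Real.log x / h - K0) / M := by
    apply div_nonneg _ hM0.le
    rw [sub_nonneg, le_div_iff₀ hh]
    linarith
  have hJ1 : Real.log x ≤ ((K0 + J * M : ℕ) : ℝ) * h := by
    have := Nat.le_ceil ((Real.log x / h - K0) / M)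
    rw [← hJ, div_le_iff₀ hM0, sub_le_iff_le_add, div_le_iff₀ hh] at this
    push_cast
    linarith
  have hJ2 : ((K0 + J * M : ℕ) : ℝ) * h < Real.log x + M * h := by
    have := Nat.ceil_lt_add_one hnn
    rw [← hJ, ← sub_lt_iff_lt_add, lt_div_iff₀ hM0, lt_sub_iff_add_lt, lt_div_iff₀ hh] at this
    push_cast
    nlinarith
  have hcov := cover (k := k) (M := M) (K0 := K0) (J := J) (a := a) (y := y) (z0 := z0) hh hM
    hx0.le hz00.le
    (by rw [← hV]; rw [← Real.le_log_iff_exp_le hV0]; exact hK0a)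
    (by
      have := Real.exp_le_exp.2 hJ1
      rwa [Real.exp_log hx0] at this) l hl
  refine hcov.trans ?_
  have hK0pos : 0 < (K0:ℝ) * h := by linarith
  have h1 : ∀ j ∈ range J, ((PrF (E h (K0 + j * M)) (E h (K0 + j * M + M) - E h (K0 + j * M))
        k a).card : ℝ) ≤ (1 / (K0 * h)) * Real.exp (M * h) * ((2 - κ) / k.totient) *
          (Real.exp ((K0 + j * M : ℕ) * h) * (M * h)) := by
    intro j hj
    rw [mem_range] at hj
    have hb := block_card (B := 2 - κ) hh hab hM (show K0 ≤ K0 + j * M by omega) hK0pos (by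
      apply hno
      · have : (K0:ℝ) ≤ ((K0 + j * M : ℕ) : ℝ) := by push_cast; nlinarith [hM0, Nat.cast_nonneg (α := ℝ) j]
        have := mul_le_mul_of_nonneg_right this hh.le
        linarith
      · have h2 : K0 + j * M + M ≤ K0 + J * M := by
          have : (j + 1) * M ≤ J * M := Nat.mul_le_mul_right M hj
          linarith
        have h3 : (((K0 + j * M : ℕ) : ℝ) + M) ≤ ((K0 + J * M : ℕ) : ℝ) := by exact_mod_cast h2
        have h4 := mul_le_mul_of_nonneg_right h3 hh.le
        linarith)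
    refine hb.trans (le_of_eq ?_)
    ring
  have h2 := sum_le_sum h1
  rw [← mul_sum] at h2
  have h3 := geo_le hh K0 M J
  have hexpM : Real.exp (M * h) ≤ 1 + 2 * (M * h) := by
    have := exp_sub_one_le (t := M * h) hMh0.le (by linarith)
    nlinarith
  have h4 : Real.exp ((K0 + J * M : ℕ) * h) - Real.exp (K0 * h) ≤ y + 5 * (M * h) * x := by
    have a1 : Real.exp ((K0 + J * M : ℕ) * h) ≤ x * Real.exp (M * h) := by
      calc Real.exp ((K0 + J * M : ℕ) * h) ≤ Real.exp (Real.log x + M * h) :=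
            Real.exp_le_exp.2 hJ2.le
        _ = x * Real.exp (M * h) := by rw [Real.exp_add, Real.exp_log hx0]
    have a2 : V * (1 - h) ≤ Real.exp (K0 * h) := by
      calc V * (1 - h) ≤ V * Real.exp (-h) := by
            refine mul_le_mul_of_nonneg_left ?_ hV0.le
            have := Real.add_one_le_exp (-h)
            linarith
        _ = Real.exp (Real.log V - h) := by rw [sub_eq_add_neg, Real.exp_add, Real.exp_log hV0]
        _ ≤ _ := Real.exp_le_exp.2 hK0b.le
    have a3 : x - y ≤ V := le_max_left _ _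
    have a4 : x * Real.exp (M * h) ≤ x * (1 + 2 * (M * h)) := mul_le_mul_of_nonneg_left hexpM hx0.le
    have a5 : V * h ≤ x * (M * h) := mul_le_mul hVx hhM hh.le hx0.le
    nlinarith [mul_pos hMh0 hx0]
  have hlast : (1 / (K0 * h)) * Real.exp (M * h) * ((2 - κ) / k.totient) *
      ∑ j ∈ range J, Real.exp ((K0 + j * M : ℕ) * h) * (M * h) ≤
      (2 - κ) * ((1 + 2 * (M * h)) * (y + 5 * (M * h) * x)) /
        (k.totient * (Real.log z0 - h)) := by
    have b1 : 1 / ((K0:ℝ) * h) ≤ 1 / (Real.log z0 - h) :=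
      one_div_le_one_div_of_le (by linarith) (by linarith)
    have b2 : 0 ≤ (2 - κ) / k.totient := div_nonneg (by linarith) hφ.le
    have b3 : 0 ≤ y + 5 * (M * h) * x := by positivity
    calc (1 / (K0 * h)) * Real.exp (M * h) * ((2 - κ) / k.totient) *
          ∑ j ∈ range J, Real.exp ((K0 + j * M : ℕ) * h) * (M * h)
        ≤ (1 / (K0 * h)) * Real.exp (M * h) * ((2 - κ) / k.totient) * (y + 5 * (M * h) * x) :=
          mul_le_mul_of_nonneg_left (h3.trans h4) (by positivity)
      _ ≤ (1 / (Real.log z0 - h)) * (1 + 2 * (M * h)) * ((2 - κ) / k.totient) *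
            (y + 5 * (M * h) * x) := by
          refine mul_le_mul_of_nonneg_right (mul_le_mul_of_nonneg_right ?_ b2) b3
          refine mul_le_mul b1 hexpM (Real.exp_pos _).le ?_
          apply one_div_nonneg.2
          linarith
      _ = _ := by
          have : Real.log z0 - h ≠ 0 := by linarith
          field_simp
  linarith

end Pool.Agent.T9h52.BT.Inv
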