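import Pool.Agent.T9h52.BT.Inv1
import Pool.Agent.Results.MP_26a8c3_nt.PolynomialRange

/-!
# The inverse theorem
-/

set_option autoImplicit false

namespace Pool.Agent.T9h52.BT.Inv

open Finset Filter
open Pool.Agent.H180R3.E469 (E C E_le lt_E E_pos half_le_E E_mono log_E_le le_log_E mem_C_iff
  logdiv_nonneg sum_cells idx mem_C_idx block_upper block_lower exp_sub_one_le)
open Pool.Agent.T9h52.BT
open Pool.Agent.T9h52.BT.Cell
open Pool.Agent.T9h52.BT.St (av wv sg)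

/-- The quadratic character attached to a sign homomorphism. -/
noncomputable def chr {k : ℕ} (χ : (ZMod k)ˣ →* ℤˣ) : DirichletCharacter ℤ k := MulChar.ofUnitHom χ

lemma chr_unit {k : ℕ} (χ : (ZMod k)ˣ →* ℤˣ) (b : (ZMod k)ˣ) :
    ((chr χ (b : ZMod k) : ℤ) : ℝ) = sg χ b := by
  unfold chr sg
  rw [MulChar.ofUnitHom_coe]

lemma chr_ne_one {k : ℕ} {χ : (ZMod k)ˣ →* ℤˣ} (h : χ ≠ 1) : chr χ ≠ 1 := by
  intro h1
  apply h
  ext b
  have h2 : (chr χ) (b : ZMod k) = 1 := by rw [h1]; exact MulChar.one_apply_coe b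
  unfold chr at h2
  rw [MulChar.ofUnitHom_coe] at h2
  exact h2

/-- Characters with integral values take the values 0, 1, -1. -/
lemma chr_vals {k : ℕ} (χ : DirichletCharacter ℤ k) (a : ZMod k) :
    χ a = 0 ∨ χ a = 1 ∨ χ a = -1 := by
  by_cases h : IsUnit a
  · right
    have := (h.map χ.toMonoidHom)
    exact Int.isUnit_iff.1 this
  · left
    exact χ.map_nonunit h

lemma one_add_nonneg {k : ℕ} (χ : DirichletCharacter ℤ k) (a : ZMod k) :
    (0:ℝ) ≤ 1 + (χ a : ℝ) := by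
  rcases chr_vals χ a with h | h | h <;> rw [h] <;> norm_num

/-- summing the classes -/
lemma sum_classes {h : ℝ} (k i : ℕ) [NeZero k] (hk : (k : ℝ) ≤ Real.exp (i * h))
    (χ : (ZMod k)ˣ →* ℤˣ) :
    ∑ b : (ZMod k)ˣ, ms h k i b * (1 + sg χ b) =
      ∑ p ∈ C h i, (1 + ((chr χ (p : ZMod k) : ℤ) : ℝ)) * (Real.log p / p) := by
  classical
  have h1 : ∀ b : (ZMod k)ˣ, ms h k i b * (1 + sg χ b) =
      ∑ p ∈ (C h i).filter (fun p : ℕ => (p : ZMod k) = b),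
        (1 + ((chr χ (p : ZMod k) : ℤ) : ℝ)) * (Real.log p / p) := by
    intro b
    unfold ms
    rw [sum_mul]
    refine sum_congr rfl fun p hp => ?_
    rw [mem_filter] at hp
    rw [hp.2, chr_unit, mul_comm]
  rw [sum_congr rfl fun b _ => h1 b, ← sum_biUnion]
  · refine sum_congr ?_ fun _ _ => rfl
    ext p
    rw [mem_biUnion]
    constructor
    · rintro ⟨b, _, hp⟩
      exact (mem_filter.1 hp).1
    · intro hp
      have hp' := mem_C_iff.1 hp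
      have hkp : k < p := by
        have : (k : ℝ) < p := hk.trans_lt hp'.2.1
        exact_mod_cast this
      have hco : p.Coprime k := by
        rw [Nat.Prime.coprime_iff_not_dvd hp'.1]
        intro hdvd
        have := Nat.le_of_dvd (Nat.pos_of_ne_zero (NeZero.ne k)) hdvd
        omega
      refine ⟨ZMod.unitOfCoprime p hco, mem_univ _, ?_⟩
      rw [mem_filter]
      exact ⟨hp, (ZMod.coe_unitOfCoprime p hco).symm⟩
  · intro b _ b' _ hbb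
    rw [Function.onFun, disjoint_left]
    intro p hp hp'
    rw [mem_filter] at hp hp'
    exact hbb (Units.ext (hp.2.symm.trans hp'.2))

/-- Conclusion of the structure theorem in terms of primes. -/
lemma to_primes {h : ℝ} (hh : 0 < h) {k m w : ℕ} [NeZero k]
    (hk : (k : ℝ) ≤ Real.exp (m * h)) (hmw : m ≤ w) (χ : (ZMod k)ˣ →* ℤˣ) {u v : ℝ}
    (hu : Real.exp (m * h) ≤ u) (hv : v ≤ Real.exp (w * h)) :
    ∑ p ∈ (Icc 1 ⌊v⌋₊).filter (fun p : ℕ => p.Prime ∧ u < p),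
      (1 + ((chr χ (p : ZMod k) : ℤ) : ℝ)) * (Real.log p / p) ≤
      ∑ i ∈ Ico m w, ∑ b : (ZMod k)ˣ, ms h k i b * (1 + sg χ b) := by
  have h1 : ∀ i ∈ Ico m w, ∑ b : (ZMod k)ˣ, ms h k i b * (1 + sg χ b) =
      ∑ p ∈ C h i, (1 + ((chr χ (p : ZMod k) : ℤ) : ℝ)) * (Real.log p / p) := by
    intro i hi
    rw [mem_Ico] at hi
    refine sum_classes k i (hk.trans (Real.exp_le_exp.2 ?_)) χ
    exact mul_le_mul_of_nonneg_right (by exact_mod_cast hi.1) hh.le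
  rw [sum_congr rfl h1, sum_cells hh.le _ hmw]
  refine sum_le_sum_of_subset_of_nonneg ?_ fun p _ _ =>
    mul_nonneg (one_add_nonneg _ _) (logdiv_nonneg p)
  intro p hp
  rw [mem_filter, mem_Icc] at hp
  obtain ⟨⟨h2, h3⟩, h4, h5⟩ := hp
  rw [mem_filter, mem_Ioc]
  refine ⟨⟨?_, ?_⟩, h4⟩
  · rw [E, Nat.floor_lt (Real.exp_pos _).le]
    exact hu.trans_lt h5
  · rw [E, Nat.le_floor_iff (Real.exp_pos _).le]
    have h6 : (p:ℝ) ≤ v := by
      have hv0 : 0 ≤ v := by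
        by_contra hcon
        rw [not_le] at hcon
        rw [Nat.floor_of_nonpos hcon.le] at h3
        omega
      exact (Nat.le_floor_iff hv0).1 h3
    exact h6.trans hv

/-- numerical contradiction -/
lemma num_contra {κ δ M A x y k φ L ε' h cnt lyk : ℝ} (hκ0 : 0 < κ) (hκ1 : κ ≤ 1 / 100)
    (hδ : δ ≤ κ / 100) (hM : 1 ≤ M) (hA : 5000 * M / κ ≤ A) (hL : 1 ≤ L)
    (hLA : L ≤ κ / 100 * A) (hε' : ε' ≤ κ / 4000) (hh : h = 1 / A ^ 2)
    (hφ0 : 0 < φ) (hφk : φ ≤ k) (hk1 : 1 ≤ k) (hx : 0 < x) (hy : k * (x / A) ≤ y)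
    (hlyk0 : 0 < lyk) (hlyk : lyk ≤ L)
    (hc1 : cnt ≤ x / A ^ 2 + (2 - κ) * ((1 + 2 * (M * h)) * (y + 5 * (M * h) * x)) /
        (φ * ((1 - 2 * ε') * L - h)))
    (hc2 : (2 - δ) * y / (φ * lyk) ≤ cnt) : False := by
  have hA0 : 0 < A := lt_of_lt_of_le (by positivity) hA
  have hAM : 5000 * M ≤ A * κ := by rwa [div_le_iff₀ hκ0] at hA
  have hA1 : 500000 ≤ A := by nlinarith only [hAM, hκ1, hM, hA0, hκ0]
  have hxA : 0 < x / A := by positivity
  have hy0 : 0 < y := lt_of_lt_of_le (by positivity) hy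
  have hφx : φ * (x / A) ≤ y := (mul_le_mul_of_nonneg_right hφk hxA.le).trans hy
  have hL0 : 0 < L := by linarith
  set Q : ℝ := y / (φ * L) with hQ
  have hQ0 : 0 < Q := by positivity
  -- first term
  have h1 : x / A ^ 2 ≤ κ / 100 * Q := by
    rw [hQ, ← mul_div_assoc, le_div_iff₀ (by positivity)]
    have e1 : x / A ^ 2 * (φ * L) = (φ * (x / A)) * (L / A) := by field_simp
    have e2 : L / A ≤ κ / 100 := by rw [div_le_iff₀ hA0]; exact hLA
    rw [e1, mul_comm]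
    exact mul_le_mul e2 hφx (by positivity) (by positivity)
  -- second term
  have hh0 : 0 < h := by rw [hh]; positivity
  have hMh : M * h ≤ κ / 5000 / A := by
    rw [hh, le_div_iff₀ hA0]
    have : M * (1 / A ^ 2) * A = M / A := by field_simp
    rw [this, div_le_iff₀ hA0]
    linarith
  have hA1' : κ / 5000 / A ≤ κ / 5000 / 500000 :=
    div_le_div_of_nonneg_left (by positivity) (by norm_num) hA1
  have hMh2 : 2 * (M * h) ≤ κ / 1000 := by linarith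
  have hMhx : 5 * (M * h) * x ≤ κ / 1000 * y := by
    have h2 : M * h * x ≤ κ / 5000 / A * x := mul_le_mul_of_nonneg_right hMh hx.le
    have h3 : κ / 5000 / A * x = κ / 5000 * (x / A) := by ring
    have h4 : x / A ≤ y := by
      have : (1:ℝ) * (x / A) ≤ k * (x / A) := mul_le_mul_of_nonneg_right hk1 hxA.le
      linarith
    have h5 := mul_le_mul_of_nonneg_left h4 (show 0 ≤ κ / 5000 by positivity)
    linarith
  have hhle : h ≤ κ / 10000 := by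
    have : h ≤ M * h := by nlinarith only [hM, hh0]
    linarith
  have hden : (1 - κ / 1000) * L ≤ (1 - 2 * ε') * L - h := by
    have h2 : 2 * ε' * L ≤ κ / 2000 * L := mul_le_mul_of_nonneg_right (by linarith) hL0.le
    have h3 : h ≤ κ / 10000 * L := by nlinarith only [hhle, hL, hκ0]
    nlinarith only [h2, h3, hκ0, hL0]
  have hden0 : 0 < (1 - κ / 1000) * L := mul_pos (by linarith) hL0
  have hnum : (1 + 2 * (M * h)) * (y + 5 * (M * h) * x) ≤ (1 + κ / 400) * y := by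
    have h2 : (1 + 2 * (M * h)) * (y + 5 * (M * h) * x) ≤ (1 + κ / 1000) * ((1 + κ / 1000) * y) := by
      refine mul_le_mul (by linarith) (by linarith) (by positivity) (by positivity)
    have h3 : (1 + κ / 1000) * (1 + κ / 1000) ≤ 1 + κ / 400 := by nlinarith only [hκ0, hκ1]
    have h4 := mul_le_mul_of_nonneg_right h3 hy0.le
    linarith
  have h2 : (2 - κ) * ((1 + 2 * (M * h)) * (y + 5 * (M * h) * x)) /
        (φ * ((1 - 2 * ε') * L - h)) ≤ (2 - κ + κ / 100) * Q := by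
    have h3 : (2 - κ) * ((1 + 2 * (M * h)) * (y + 5 * (M * h) * x)) /
        (φ * ((1 - 2 * ε') * L - h)) ≤
        (2 - κ) * ((1 + κ / 400) * y) / (φ * ((1 - κ / 1000) * L)) := by
      refine div_le_div₀ ?_ ?_ (by positivity) ?_
      · exact mul_nonneg (by linarith) (by positivity)
      · exact mul_le_mul_of_nonneg_left hnum (by linarith)
      · exact mul_le_mul_of_nonneg_left hden hφ0.le
    refine h3.trans ?_
    rw [hQ, div_le_iff₀ (by positivity)]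
    have e1 : (2 - κ + κ / 100) * (y / (φ * L)) * (φ * ((1 - κ / 1000) * L)) =
        ((2 - κ + κ / 100) * (1 - κ / 1000)) * y := by field_simp
    rw [e1, ← mul_assoc]
    refine mul_le_mul_of_nonneg_right ?_ hy0.le
    nlinarith only [hκ0, hκ1]
  have h3 : (2 - κ / 100) * Q ≤ (2 - δ) * y / (φ * lyk) := by
    have e1 : (2 - κ / 100) * Q = (2 - κ / 100) * y / (φ * L) := by rw [hQ]; ring
    rw [e1]
    refine div_le_div₀ ?_ ?_ (by positivity) ?_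
    · exact mul_nonneg (by linarith) hy0.le
    · exact mul_le_mul_of_nonneg_right (by linarith) hy0.le
    · exact mul_le_mul_of_nonneg_left hlyk hφ0.le
  have h4 : (2 - κ / 100) * Q ≤ κ / 100 * Q + (2 - κ + κ / 100) * Q := by linarith
  have h5 : 0 < κ * Q := by positivity
  nlinarith only [h4, h5]

/-- quantities for large x -/
lemma large_x (ε' B c : ℝ) (hε' : 0 < ε') (hc : 0 < c) : ∃ x₀ : ℝ, 1 < x₀ ∧ ∀ x : ℝ, x₀ ≤ x →
    B ≤ x ^ ε' ∧ B ≤ Real.log x ∧ Real.log x ≤ c * x ^ ε' := by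
  have h1 : ∀ᶠ x : ℝ in atTop, B ≤ x ^ ε' := (tendsto_rpow_atTop hε').eventually_ge_atTop B
  have h2 : ∀ᶠ x : ℝ in atTop, B ≤ Real.log x := Real.tendsto_log_atTop.eventually_ge_atTop B
  have h3 : ∀ᶠ x : ℝ in atTop, ‖Real.log x‖ ≤ c * ‖x ^ ε'‖ :=
    (isLittleO_log_rpow_atTop hε').bound hc
  obtain ⟨x₀, hx₀⟩ := eventually_atTop.1 (h1.and (h2.and (h3.and (eventually_gt_atTop 1))))
  refine ⟨max x₀ 2, lt_of_lt_of_le (by norm_num) (le_max_right _ _), ?_⟩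
  intro x hx
  obtain ⟨g1, g2, g3, g4⟩ := hx₀ x ((le_max_left _ _).trans hx)
  refine ⟨g1, g2, ?_⟩
  rw [Real.norm_of_nonneg (Real.log_nonneg g4.le), Real.norm_of_nonneg (by positivity)] at g3
  exact g3

/-- the number of primes of the progression in `(x - y, x]` -/
noncomputable def cnt (k : ℕ) (l : ℤ) (x y : ℝ) : ℝ :=
  (({p : ℕ | p.Prime ∧ x - y < (p : ℝ) ∧ (p : ℝ) ≤ x ∧ (p : ℤ) ≡ l [ZMOD (k : ℤ)]}.ncard : ℕ) : ℝ)

/-- the parameters of the argument -/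
structure Par (κ εs ρ C₃ ϑ ε' : ℝ) (X₀ M : ℕ) (A L : ℝ) : Prop where
  κ0 : 0 < κ
  κ1 : κ ≤ 1 / 100
  κϑ : κ ≤ ϑ
  εs0 : 0 < εs
  εs1 : εs ≤ 1 / 100
  ρ0 : 0 < ρ
  ρ1 : ρ < 1 / 4
  M1 : 1 ≤ M
  C1 : 1 ≤ C₃
  SA : SA εs ρ X₀
  X2 : 2 ≤ X₀
  e0 : 0 < ε'
  e1 : ε' ≤ 1 / 8
  e2 : ε' ≤ ρ * κ / 20000
  e3 : ε' ≤ κ / 4000
  A1 : 5000 * M / κ ≤ A
  A2 : 20 * ((M:ℝ) + 1) / εs ≤ A
  A3 : 1000 / εs ≤ A
  A4 : 10 ≤ A
  L1 : 10000 / κ * (C₃ + 1) ≤ L
  L2 : 1000 / κ * (4 * X₀) ≤ L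
  L3 : 10 ≤ L
  LA : L ≤ κ / 100 * A
  lA : Real.log A = ε' * L

namespace Par

variable {κ εs ρ C₃ ϑ ε' A L : ℝ} {X₀ M : ℕ}

lemma A0 (P : Par κ εs ρ C₃ ϑ ε' X₀ M A L) : 0 < A := by have := P.A4; linarith

lemma hA (P : Par κ εs ρ C₃ ϑ ε' X₀ M A L) : 1 / A ^ 2 ≤ 1 / A := by
  have h1 := P.A4
  refine one_div_le_one_div_of_le P.A0 ?_
  nlinarith only [h1]

lemma h0 (P : Par κ εs ρ C₃ ϑ ε' X₀ M A L) : 0 < 1 / A ^ 2 := by have := P.A0; positivity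

lemma h10 (P : Par κ εs ρ C₃ ϑ ε' X₀ M A L) : 1 / A ^ 2 ≤ 1 / 10 :=
  P.hA.trans (one_div_le_one_div_of_le (by norm_num) P.A4)

lemma Mh (P : Par κ εs ρ C₃ ϑ ε' X₀ M A L) : ((M:ℝ) + 1) * (1 / A ^ 2) ≤ εs / 20 := by
  have h1 := P.A2
  have h2 := P.εs0
  have h3 := P.A0
  rw [div_le_iff₀ h2] at h1
  have hMA : (M:ℝ) + 1 ≤ εs / 20 * A := by linarith only [h1]
  calc ((M:ℝ) + 1) * (1 / A ^ 2) ≤ (εs / 20 * A) * (1 / A) :=
        mul_le_mul hMA P.hA P.h0.le (by positivity)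
    _ = εs / 20 := by field_simp

lemma mm (P : Par κ εs ρ C₃ ϑ ε' X₀ M A L) {N : ℕ} (hN1 : (1 - 2 * ε') * L - 1 / A ^ 2 ≤
    N * (1 / A ^ 2)) :
    κ * N ≤ 1000 * ⌈κ * N / 1000⌉₊ ∧ 100 * (⌈κ * N / 1000⌉₊ : ℝ) ≤ κ * N ∧
      κ * L / 2000 ≤ ⌈κ * N / 1000⌉₊ * (1 / A ^ 2) := by
  have hκ0 := P.κ0
  have hA0 := P.A0
  have hh0 := P.h0
  have hh1 := P.h10
  have hL3 := P.L3
  have he1 := P.e1
  have hNh : L / 2 ≤ N * (1 / A ^ 2) := by nlinarith only [hN1, hh1, hL3, he1]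
  have hN0 : (0:ℝ) ≤ N := Nat.cast_nonneg N
  have hκN0 : 0 ≤ κ * N / 1000 := by positivity
  have hm1 : κ * N ≤ 1000 * ⌈κ * N / 1000⌉₊ := by
    have := Nat.le_ceil (κ * N / 1000)
    linarith only [this]
  have hκNbig : 1000 ≤ κ * N := by
    have h1 : L / 2 ≤ N * (1 / A) := hNh.trans (mul_le_mul_of_nonneg_left P.hA hN0)
    have h2 : L / 2 * A ≤ N := by
      rw [mul_one_div, le_div_iff₀ hA0] at h1
      exact h1
    have h3 : 5000 * M ≤ κ * A := by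
      have := P.A1
      rw [div_le_iff₀ hκ0] at this
      linarith only [this]
    have hM1 : (1:ℝ) ≤ M := by exact_mod_cast P.M1
    have h4 : A ≤ N := by nlinarith only [h2, hL3, hA0]
    have h6 := mul_le_mul_of_nonneg_left h4 hκ0.le
    linarith only [h6, h3, hM1]
  refine ⟨hm1, ?_, ?_⟩
  · have := Nat.ceil_lt_add_one hκN0
    linarith only [this, hκNbig]
  · have h1 := mul_le_mul_of_nonneg_right hm1 hh0.le
    have h2 : κ * (L / 2) ≤ κ * (N * (1 / A ^ 2)) := mul_le_mul_of_nonneg_left hNh hκ0.le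
    linarith only [h1, h2]

lemma adm (P : Par κ εs ρ C₃ ϑ ε' X₀ M A L) {k m : ℕ} (hk : 1 ≤ k) (hkA : (k:ℝ) ≤ A)
    (hmh : κ * L / 2000 ≤ m * (1 / A ^ 2)) :
    Adm εs ρ (1 / A ^ 2) X₀ k m ∧ C₃ ≤ m * (1 / A ^ 2) := by
  have hκ0 := P.κ0
  have hA0 := P.A0
  have hh0 := P.h0
  have hεs := P.εs0
  have hρ0 := P.ρ0
  have hmhC : C₃ + 1 ≤ m * (1 / A ^ 2) := by
    have h2 : κ * (10000 / κ * (C₃ + 1)) ≤ κ * L := mul_le_mul_of_nonneg_left P.L1 hκ0.le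
    have h3 : κ * (10000 / κ * (C₃ + 1)) = 10000 * (C₃ + 1) := by field_simp
    have h4 := P.C1
    linarith only [h2, h3, hmh, h4]
  refine ⟨⟨P.SA, P.εs0, P.εs1, P.ρ0, P.ρ1, hh0, ?_, P.X2, hk, ?_, ?_⟩, by linarith only [hmhC]⟩
  · have h2 : 1 / A ≤ 1 / (1000 / εs) := one_div_le_one_div_of_le (by positivity) P.A3
    have h3 : 1 / (1000 / εs) = εs / 1000 := by field_simp
    have h4 := P.hA
    linarith only [h2, h3, h4]
  · have h2 : κ * (1000 / κ * (4 * X₀)) ≤ κ * L := mul_le_mul_of_nonneg_left P.L2 hκ0.le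
    have h3 : κ * (1000 / κ * (4 * (X₀:ℝ))) = 4000 * X₀ := by field_simp; ring
    have h4 := Real.add_one_le_exp (m * (1 / A ^ 2))
    linarith only [h2, h3, h4, hmh]
  · have hA4 := P.A4
    have h1 : 4 * (k:ℝ) / (1 / A ^ 2) ≤ A ^ 4 := by
      rw [div_div_eq_mul_div, div_one]
      have h5 : 4 * (k:ℝ) ≤ A * A := by nlinarith only [hkA, hA4]
      have h6 := mul_le_mul_of_nonneg_right h5 (sq_nonneg A)
      have h7 : A * A * A ^ 2 = A ^ 4 := by ring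
      linarith only [h6, h7]
    have h2 : A ^ 4 = Real.exp (4 * (ε' * L)) := by
      rw [← P.lA]
      have : 4 * Real.log A = ((4:ℕ):ℝ) * Real.log A := by norm_num
      rw [this, Real.exp_nat_mul, Real.exp_log hA0]
    rw [h2] at h1
    refine h1.trans (Real.exp_le_exp.2 ?_)
    have h3 : ρ * (κ * L / 2000) ≤ ρ * (m * (1 / A ^ 2)) := mul_le_mul_of_nonneg_left hmh hρ0.le
    have hL3 := P.L3
    have h4 : ε' * L ≤ ρ * κ / 20000 * L := mul_le_mul_of_nonneg_right P.e2 (by linarith only [hL3])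
    have h5 : 0 ≤ ρ * κ * L := by positivity
    have e5 : ρ * (κ * L / 2000) = ρ * κ * L / 2000 := by ring
    have e6 : ρ * κ / 20000 * L = ρ * κ * L / 20000 := by ring
    linarith only [h3, h4, h5, e5, e6]

end Par

/-- the part after the good block has been found -/
lemma inverse_end {κ εs ρ C₃ ϑ ε' A L x : ℝ} {X₀ M : ℕ} (P : Par κ εs ρ C₃ ϑ ε' X₀ M A L)
    (hx : 0 < x) (hL : L = Real.log x) (hϑ : 0 < ϑ)
    (hmain : ∀ (h : ℝ) (k m N : ℕ) [NeZero k], Adm εs ρ h X₀ k m →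
      κ * N ≤ 1000 * m → 100 * m ≤ κ * N → ((M:ℝ) + 1) * h ≤ εs / 10 → C₃ ≤ m * h →
      ∀ a0, 2 - κ ≤ wv M (ff h k) N a0 →
      ∃ χ : (ZMod k)ˣ →* ℤˣ, χ ≠ 1 ∧ sg χ a0 = -1 ∧
        ∑ i ∈ Ico (2 * m) (2 * (N / 4)), ∑ b : (ZMod k)ˣ, ms h k i b * (1 + sg χ b) ≤
          ϑ * (N * h))
    {k N : ℕ} [NeZero k] {b : (ZMod k)ˣ} (hk : 1 ≤ k) (hkA : (k:ℝ) ≤ A)
    (hN1 : (1 - 2 * ε') * L - 1 / A ^ 2 ≤ N * (1 / A ^ 2)) (hN2 : N * (1 / A ^ 2) ≤ L)
    (hNw : 2 - κ < wv M (ff (1 / A ^ 2) k) N b) :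
    ∃ χ : DirichletCharacter ℤ k, χ ≠ 1 ∧ χ (b : ZMod k) = -1 ∧
        ∑ p ∈ (Icc 1 ⌊x ^ (1 / 3 : ℝ)⌋₊).filter (fun p : ℕ => p.Prime ∧ x ^ ϑ < p),
          (1 + ((χ (p : ZMod k) : ℤ) : ℝ)) * (Real.log p / p) ≤ ϑ * Real.log x := by
  obtain ⟨hm1, hm2, hmh⟩ := P.mm hN1
  set m : ℕ := ⌈κ * N / 1000⌉₊ with hm
  obtain ⟨hAdm, hC3⟩ := P.adm hk hkA hmh
  have hMh := P.Mh
  have hεs := P.εs0
  obtain ⟨χ, hχ, hχb, hres⟩ := hmain (1 / A ^ 2) k m N hAdm hm1 hm2 (by linarith only [hMh, hεs])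
    hC3 b hNw.le
  refine ⟨chr χ, chr_ne_one hχ, ?_, ?_⟩
  · have h1 := chr_unit χ b
    rw [hχb] at h1
    exact_mod_cast h1
  have hN0 : (0:ℝ) ≤ N := Nat.cast_nonneg N
  have hκ1 := P.κ1
  have hκϑ := P.κϑ
  have hL3 := P.L3
  have hh1 := P.h10
  have hh0 := P.h0
  have he1 := P.e1
  have hmN : 2 * m ≤ 2 * (N / 4) := by
    have h1 : 10000 * (m:ℝ) ≤ N := by nlinarith only [hm2, hκ1, hN0]
    have h2 : 10000 * m ≤ N := by exact_mod_cast h1
    omega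
  have hfin := to_primes (k := k) (m := 2 * m) (w := 2 * (N / 4)) (u := x ^ ϑ)
    (v := x ^ (1 / 3 : ℝ)) hh0
    (by
      refine (hAdm.big (K := 2 * m) (by omega)).1) hmN χ
    (by
      rw [Real.rpow_def_of_pos hx, ← hL]
      refine Real.exp_le_exp.2 ?_
      have h1 := mul_le_mul_of_nonneg_right hm2 hh0.le
      have h2 : κ * N * (1 / A ^ 2) ≤ κ * L := by
        rw [mul_assoc]; exact mul_le_mul_of_nonneg_left hN2 P.κ0.le
      have h3 : κ * L ≤ ϑ * L := mul_le_mul_of_nonneg_right hκϑ (by linarith only [hL3])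
      have h4 : 0 < κ * L := mul_pos P.κ0 (by linarith only [hL3])
      push_cast
      linarith only [h1, h2, h3, h4])
    (by
      rw [Real.rpow_def_of_pos hx, ← hL]
      refine Real.exp_le_exp.2 ?_
      have h1 : N ≤ 2 * (2 * (N / 4)) + 4 := by omega
      have h2 : (N:ℝ) ≤ 2 * ((2 * (N / 4) : ℕ) : ℝ) + 4 := by exact_mod_cast h1
      have h3 := mul_le_mul_of_nonneg_right h2 hh0.le
      have h4 : ε' * L ≤ 1 / 8 * L := mul_le_mul_of_nonneg_right he1 (by linarith only [hL3])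
      linarith only [h3, hN1, h4, hL3, hh1])
  refine hfin.trans (hres.trans ?_)
  rw [← hL]
  exact mul_le_mul_of_nonneg_left hN2 hϑ.le

lemma unit_of_gcd {k : ℕ} {l : ℤ} (hgcd : Int.gcd l (k : ℤ) = 1) :
    ∃ b : (ZMod k)ˣ, (b : ZMod k) = (l : ZMod k) := by
  have h1 : IsCoprime l (k : ℤ) := Int.isCoprime_iff_gcd_eq_one.2 hgcd
  have h2 : IsUnit (l : ZMod k) := by
    obtain ⟨u, v, huv⟩ := h1
    have h3 : (u : ZMod k) * (l : ZMod k) = 1 := by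
      have := congrArg (fun t : ℤ => (t : ZMod k)) huv
      push_cast at this
      simpa using this
    exact IsUnit.of_mul_eq_one _ (by rw [mul_comm]; exact h3)
  obtain ⟨b, hb⟩ := h2
  exact ⟨b, hb⟩

/-- existence of a good block -/
lemma good_block {κ εs ρ C₃ ϑ ε' A L x y δ : ℝ} {X₀ M : ℕ} (P : Par κ εs ρ C₃ ϑ ε' X₀ M A L)
    (hx : 1 < x) (hL : L = Real.log x) (hδ : δ ≤ κ / 100)
    {k : ℕ} [NeZero k] {l : ℤ} (hk : 1 ≤ k) (hgcd : Int.gcd l (k : ℤ) = 1)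
    (hyx : y ≤ x) (hky : k * (x / A) ≤ y)
    (hnear : (2 - δ) * y / ((Nat.totient k : ℝ) * Real.log (y / k)) ≤ cnt k l x y)
    (hyk1 : 1 < y / k) (hy0 : 0 < y) :
    ∃ (N : ℕ) (b : (ZMod k)ˣ), (b : ZMod k) = (l : ZMod k) ∧
      (1 - 2 * ε') * L - 1 / A ^ 2 ≤ N * (1 / A ^ 2) ∧
      N * (1 / A ^ 2) ≤ L ∧ 2 - κ < wv M (ff (1 / A ^ 2) k) N b := by
  have hxpos : 0 < x := by linarith only [hx]
  have hA0 := P.A0
  have hh0 := P.h0
  have hk0 : (0:ℝ) < k := by exact_mod_cast hk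
  have hk1 : (1:ℝ) ≤ k := by exact_mod_cast hk
  have hφ0 : (0:ℝ) < Nat.totient k := by exact_mod_cast Nat.totient_pos.2 hk
  have hφk : (Nat.totient k : ℝ) ≤ k := by exact_mod_cast Nat.totient_le k
  obtain ⟨b, hb⟩ := unit_of_gcd hgcd
  obtain ⟨a, ha, hab⟩ := rep b
  have hlyk0 : 0 < Real.log (y / k) := Real.log_pos hyk1
  have hlyk : Real.log (y / k) ≤ L := by
    rw [hL]
    refine Real.log_le_log (by linarith only [hyk1]) ?_
    rw [div_le_iff₀ hk0]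
    have := mul_le_mul_of_nonneg_left hk1 hxpos.le
    linarith only [this, hyx]
  have hlz0 : Real.log (x / A ^ 2) = (1 - 2 * ε') * L := by
    rw [Real.log_div hxpos.ne' (by positivity), Real.log_pow, P.lA, ← hL]
    push_cast; ring
  have hz00 : 0 < x / A ^ 2 := by positivity
  have hMh := P.Mh
  have hεs1 := P.εs1
  have hL3 := P.L3
  have hh10 := P.h10
  have he1 := P.e1
  have hA4 := P.A4
  have hL8 : ε' * L ≤ 1 / 8 * L := mul_le_mul_of_nonneg_right he1 (by linarith only [hL3])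
  have hA2 : 1 ≤ A ^ 2 := by nlinarith only [hA4]
  have hκ1 := P.κ1
  have hM1' : (1:ℝ) ≤ M := by exact_mod_cast P.M1
  by_contra hcon
  push Not at hcon
  have h1 := blocks (x := x) (y := y) (z0 := x / A ^ 2) (κ := κ) hh0 hab P.M1
    (by linarith only [hMh, hεs1, hh0]) (by linarith only [hκ1])
    (by
      rw [← Real.le_log_iff_exp_le hz00, hlz0]
      linarith only [hh10, hL8, hL3])
    (div_le_self hxpos.le hA2) hy0.le l (by rw [← hb, hab])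
    (by
      intro K hK1 hK2
      rw [hlz0] at hK1
      exact hcon K b hb hK1 (by rw [hL]; exact hK2))
  rw [hlz0] at h1
  exact num_contra P.κ0 hκ1 hδ hM1' P.A1 (by linarith only [hL3]) P.LA P.e3 rfl
    hφ0 hφk hk1 hxpos hky hlyk0 hlyk h1 hnear

theorem inverse (ε ϑ : ℝ) (hε : 0 < ε) (hϑ : 0 < ϑ) : ∃ δ : ℝ, 0 < δ ∧ ∃ x₀ : ℝ, 1 < x₀ ∧
    ∀ (k : ℕ) (l : ℤ) (x y : ℝ), 1 ≤ k → y ≤ x → Int.gcd l (k : ℤ) = 1 → x₀ ≤ x →
      x ^ ε ≤ y / k →
      (2 - δ) * y / ((Nat.totient k : ℝ) * Real.log (y / k)) ≤ cnt k l x y →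
      (k : ℝ) ≤ x ^ ϑ ∧ ∃ χ : DirichletCharacter ℤ k, χ ≠ 1 ∧ χ (l : ZMod k) = -1 ∧
        ∑ p ∈ (Icc 1 ⌊x ^ (1 / 3 : ℝ)⌋₊).filter (fun p : ℕ => p.Prime ∧ x ^ ϑ < p),
          (1 + ((χ (p : ZMod k) : ℤ) : ℝ)) * (Real.log p / p) ≤ ϑ * Real.log x := by
  obtain ⟨κ, εs, ρ, C₃, X₀, M, hκ0, hκ1, hκϑ, hεs0, hεs1, hεsκ, hρ0, hρ1, hM1, hC31, hSA, hX₀,
    hmain⟩ := cells_structure ϑ hϑ
  have hM1' : (1:ℝ) ≤ M := by exact_mod_cast hM1
  set ε' : ℝ := min (min ε (1 / 8)) (min (ρ * κ / 20000) (κ / 4000)) with hε'def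
  have hε'0 : 0 < ε' := lt_min (lt_min hε (by norm_num)) (lt_min (by positivity) (by positivity))
  have hε'a : ε' ≤ ε := (min_le_left _ _).trans (min_le_left _ _)
  have hε'b : ε' ≤ 1 / 8 := (min_le_left _ _).trans (min_le_right _ _)
  have hε'c : ε' ≤ ρ * κ / 20000 := (min_le_right _ _).trans (min_le_left _ _)
  have hε'd : ε' ≤ κ / 4000 := (min_le_right _ _).trans (min_le_right _ _)
  obtain ⟨x₁, hPR⟩ := Pool.Agent.Results.MP_26a8c3_nt.PolynomialRange.result ε' hε'0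
    (by linarith only [hε'b])
  set B : ℝ := 5000 * M / κ + 10 + 10000 / κ * (C₃ + 1) + 1000 / κ * (4 * X₀) +
    20 * ((M:ℝ) + 1) / εs + 1000 / εs with hB
  obtain ⟨x₂, hx₂1, hx₂⟩ := large_x ε' B (κ / 100) hε'0 (by positivity)
  refine ⟨min (ε' ^ 3 / 10 ^ 7) (κ / 100), lt_min (by positivity) (by positivity), max x₁ x₂,
    lt_of_lt_of_le hx₂1 (le_max_right _ _), ?_⟩
  intro k l x y hk hyx hgcd hx0 hxε hnear
  have hxx₁ : x₁ ≤ x := (le_max_left _ _).trans hx0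
  have hxx₂ : x₂ ≤ x := (le_max_right _ _).trans hx0
  have hx1 : 1 < x := by linarith only [hx₂1, hxx₂]
  have hxpos : 0 < x := by linarith only [hx1]
  obtain ⟨gA, gL, gLA⟩ := hx₂ x hxx₂
  have hX₀r : (2:ℝ) ≤ X₀ := by exact_mod_cast hX₀
  have hBpos1 : 0 < 5000 * M / κ := by positivity
  have hBpos2 : 0 < 10000 / κ * (C₃ + 1) := by positivity
  have hBpos3 : 0 < 1000 / κ * (4 * (X₀:ℝ)) := by positivity
  have hBpos4 : 0 < 20 * ((M:ℝ) + 1) / εs := by positivity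
  have hBpos5 : 0 < 1000 / εs := by positivity
  have P : Par κ εs ρ C₃ ϑ ε' X₀ M (x ^ ε') (Real.log x) :=
    ⟨hκ0, hκ1, hκϑ, hεs0, hεs1, hρ0, hρ1, hM1, hC31, hSA, hX₀, hε'0, hε'b, hε'c, hε'd,
      by linarith only [gA, hB, hBpos1, hBpos2, hBpos3, hBpos4, hBpos5],
      by linarith only [gA, hB, hBpos1, hBpos2, hBpos3, hBpos4, hBpos5],
      by linarith only [gA, hB, hBpos1, hBpos2, hBpos3, hBpos4, hBpos5],
      by linarith only [gA, hB, hBpos1, hBpos2, hBpos3, hBpos4, hBpos5],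
      by linarith only [gL, hB, hBpos1, hBpos2, hBpos3, hBpos4, hBpos5],
      by linarith only [gL, hB, hBpos1, hBpos2, hBpos3, hBpos4, hBpos5],
      by linarith only [gL, hB, hBpos1, hBpos2, hBpos3, hBpos4, hBpos5],
      gLA, Real.log_rpow hxpos _⟩
  clear hB gA gL gLA hx₂ hBpos1 hBpos2 hBpos3 hBpos4 hBpos5
  have hk0 : (0:ℝ) < k := by exact_mod_cast hk
  have hk1 : (1:ℝ) ≤ k := by exact_mod_cast hk
  haveI : NeZero k := ⟨by omega⟩
  have hφ0 : (0:ℝ) < Nat.totient k := by exact_mod_cast Nat.totient_pos.2 hk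
  have hA0 := P.A0
  have hxε' : x ^ ε' ≤ y / k :=
    le_trans (Real.rpow_le_rpow_of_exponent_le hx1.le hε'a) hxε
  have hy0 : 0 < y := by
    have : 0 < y / k := hA0.trans_le hxε'
    exact (div_pos_iff_of_pos_right hk0).1 this
  have hA4 := P.A4
  have hyk1 : 1 < y / k := by linarith only [hA4, hxε']
  have hlyk0 : 0 < Real.log (y / k) := Real.log_pos hyk1
  have hx1mε' : x ^ (1 - ε') = x / x ^ ε' := by
    rw [Real.rpow_sub hxpos, Real.rpow_one]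
  have hbig : x / x ^ ε' < y / k := by
    by_contra hcon
    rw [not_lt, ← hx1mε'] at hcon
    have h1 := hPR k l x y hk hyx hgcd hxx₁ hxε' hcon
    have h2 : (2 - ε' ^ 3 / 10 ^ 7) * y / ((Nat.totient k : ℝ) * Real.log (y / k)) ≤
        (2 - min (ε' ^ 3 / 10 ^ 7) (κ / 100)) * y / ((Nat.totient k : ℝ) * Real.log (y / k)) := by
      refine div_le_div_of_nonneg_right ?_ (by positivity)
      refine mul_le_mul_of_nonneg_right ?_ hy0.le
      have := min_le_left (ε' ^ 3 / 10 ^ 7) (κ / 100)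
      linarith only [this]
    have h3 := h2.trans hnear
    unfold cnt at h3
    exact absurd h1 (not_lt.2 h3)
  have hky : k * (x / x ^ ε') ≤ y := by
    rw [lt_div_iff₀ hk0] at hbig
    linarith only [hbig]
  have hkA : (k:ℝ) ≤ x ^ ε' := by
    have h1 : k * (x / x ^ ε') ≤ x := hky.trans hyx
    have h2 : k * (x / x ^ ε') = x * (k / x ^ ε') := by ring
    rw [h2] at h1
    have h3 : (k:ℝ) / x ^ ε' ≤ 1 := by
      by_contra hcon
      rw [not_le] at hcon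
      have := mul_lt_mul_of_pos_left hcon hxpos
      linarith only [this, h1]
    rwa [div_le_one hA0] at h3
  have hAϑ : x ^ ε' ≤ x ^ ϑ := Real.rpow_le_rpow_of_exponent_le hx1.le
    (by linarith only [hε'd, hκϑ, hκ0])
  refine ⟨hkA.trans hAϑ, ?_⟩
  obtain ⟨N, b, hbl, hN1, hN2, hNw⟩ := good_block P hx1 rfl (min_le_right _ _) hk hgcd hyx hky
    hnear hyk1 hy0
  rw [← hbl]
  exact inverse_end P hxpos rfl hϑ hmain hk hkA hN1 hN2 hNw

end Pool.Agent.T9h52.BT.Inv
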