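import Pool.Agent.T9h52.BT.Bd

/-!
# Selberg's sum over all rough numbers up to `N`: upper bound
-/

set_option autoImplicit false

namespace Pool.Agent.T9h52.BT

open Finset
open ArithmeticFunction (vonMangoldt vonMangoldt_nonneg vonMangoldt_le_log)
open Pool.Agent.H295R3.D (Rough lam SS rough_of_dvd rough_mul lam_eq lam_one lam_le IsBad vM_eq
  card_bad rough_prime theta_le_two)

lemma theta_nat (N : ℕ) : Chebyshev.theta N = ∑ p ∈ (Icc 1 N).filter Nat.Prime, Real.log p := by
  unfold Chebyshev.theta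
  rw [Nat.floor_natCast]
  rfl

lemma PS0_le (N : ℕ) : PSk 0 0 N 1 1 ≤
    ∑ p ∈ (Icc 1 N).filter Nat.Prime, Real.log p * Chebyshev.theta ((N : ℝ) / p) := by
  unfold PSk
  rw [← Finset.sum_fiberwise_of_maps_to (s := PrP 0 0 N 1 1)
    (t := (Icc 1 N).filter Nat.Prime) (g := fun x => x.1)]
  · refine sum_le_sum fun p hp => ?_
    rw [mem_filter, mem_Icc] at hp
    have e : Chebyshev.theta ((N : ℝ) / p) =
        ∑ q ∈ (Icc 1 (N / p)).filter Nat.Prime, Real.log q := by
      unfold Chebyshev.theta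
      rw [Nat.floor_div_eq_div]
      rfl
    rw [e, mul_sum]
    refine le_of_eq (Finset.sum_nbij' (fun x => x.2) (fun q => (p, q)) ?_ ?_ ?_ ?_ ?_)
    · intro x hx
      rw [mem_filter, mem_PrP] at hx
      obtain ⟨⟨⟨h1, h2⟩, _, ⟨h3, h4⟩, _⟩, h5⟩ := hx
      rw [mem_filter, mem_Icc]
      refine ⟨⟨h2.pos, ?_⟩, h2⟩
      rw [Nat.le_div_iff_mul_le hp.2.pos, ← h5, mul_comm]
      omega
    · intro q hq
      rw [mem_filter, mem_Icc] at hq
      rw [mem_filter, mem_PrP]
      have h1 := (Nat.le_div_iff_mul_le hp.2.pos).mp hq.1.2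
      rw [mul_comm] at h1
      refine ⟨⟨⟨hp.2, hq.2⟩, ⟨Nat.zero_le _, Nat.zero_le _⟩, ⟨Nat.mul_pos hp.2.pos hq.2.pos, ?_⟩,
        Nat.modEq_one⟩, rfl⟩
      rw [zero_add]
      exact h1
    · intro x hx
      rw [mem_filter] at hx
      rw [← hx.2]
    · intro q _
      rfl
    · intro x hx
      rw [mem_filter] at hx
      rw [← hx.2]
  · intro x hx
    rw [mem_PrP] at hx
    obtain ⟨⟨h1, h2⟩, _, ⟨h3, h4⟩, _⟩ := hx
    rw [mem_filter, mem_Icc]
    have : x.1 ≤ x.1 * x.2 := Nat.le_mul_of_pos_right _ h2.pos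
    exact ⟨⟨h1.pos, by omega⟩, h1⟩

lemma Icc_sub (N M : ℕ) (hMN : M ≤ N) (g : ℕ → ℝ) :
    ∑ p ∈ (Icc 1 N).filter Nat.Prime, g p = ∑ p ∈ (Icc 1 M).filter Nat.Prime, g p +
      ∑ p ∈ (Ioc M N).filter Nat.Prime, g p := by
  rw [← sum_union]
  · congr 1
    rw [← filter_union]
    congr 1
    ext x
    simp only [mem_union, mem_Ioc, mem_Icc]
    omega
  · refine disjoint_filter_filter ?_
    rw [disjoint_left]
    intro x hx hx'
    rw [mem_Icc] at hx
    rw [mem_Ioc] at hx'
    omega

/-- Upper bound for Selberg's sum at the main scale. -/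
lemma SS_upper (ε₁ C L : ℝ) (z N : ℕ) (hz : 2 ≤ z) (hN : z * z ≤ N) (hε0 : 0 ≤ ε₁) (hε : ε₁ ≤ 1)
    (hM : ∀ N : ℕ, 1 ≤ N →
      |∑ p ∈ (Finset.Icc 1 N).filter Nat.Prime, Real.log p / p - Real.log N| ≤ C)
    (hθ : ∀ x : ℝ, (z : ℝ) ≤ x → Chebyshev.theta x ≤ (1 + ε₁) * x)
    (hL : L = Real.log N) :
    SS L z 0 N ≤ 2 * (1 + ε₁) * N * L + N * (4 * Real.log z + 6 * C + 4) + 4 * N * L / z + L ^ 2 +
      3 * L ^ 2 * (2 * N / z + √(N : ℝ)) := by
  have hC0 : 0 ≤ C := (abs_nonneg _).trans (hM 1 le_rfl)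
  have hzN : z ≤ N := by nlinarith
  have hz0 : (0:ℝ) < z := by exact_mod_cast (by omega : 0 < z)
  have hN0 : (0:ℝ) < N := by exact_mod_cast (by omega : 0 < N)
  have hL0 : 0 ≤ L := by rw [hL]; exact Real.log_natCast_nonneg N
  have hlz : 0 ≤ Real.log z := Real.log_natCast_nonneg z
  have hlzL : Real.log z ≤ L := by
    rw [hL]
    exact Real.log_le_log hz0 (by exact_mod_cast hzN)
  have hP1 : 1 ≤ N / z := by
    rw [Nat.le_div_iff_mul_le (by omega)]; omega
  have hNzN : N / z ≤ N := Nat.div_le_self _ _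
  have hlogp : ∀ p ∈ Icc 1 N, Real.log p ≤ L := by
    intro p hp
    rw [mem_Icc] at hp
    rw [hL]
    apply Real.log_le_log
    · exact_mod_cast (by omega : 0 < p)
    · exact_mod_cast hp.2
  -- pointwise
  have key : ∀ n ∈ (Ioc 0 N).filter (Rough z), lam L n ≤
      (((if n.Prime then (2 * L - Real.log n) * Real.log n else 0) +
      ∑ x ∈ n.divisorsAntidiagonal.filter (fun x => (x.1.Prime ∧ x.2.Prime) ∧ 0 ≤ x.1 ∧ 0 ≤ x.2),
        Real.log x.1 * Real.log x.2) + (if IsBad z n then 3 * L ^ 2 else 0)) +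
        (if n = 1 then L ^ 2 else 0) := by
    intro n hn
    rw [mem_filter, mem_Ioc] at hn
    by_cases h1 : n = 1
    · subst h1
      rw [lam_one, if_pos rfl, if_neg Nat.not_prime_one]
      have hb : 0 ≤ ∑ x ∈ (1 : ℕ).divisorsAntidiagonal.filter
          (fun x => (x.1.Prime ∧ x.2.Prime) ∧ 0 ≤ x.1 ∧ 0 ≤ x.2),
          Real.log x.1 * Real.log x.2 :=
        sum_nonneg fun x _ => mul_nonneg (Real.log_natCast_nonneg _) (Real.log_natCast_nonneg _)
      have hc : 0 ≤ (if IsBad z 1 then 3 * L ^ 2 else 0) := by split_ifs <;> positivity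
      linarith
    · rw [if_neg h1, add_zero]
      exact lam_pt (X := n) (by omega) le_rfl (Real.log_natCast_nonneg n)
        (hlogp n (mem_Icc.mpr ⟨by omega, hn.1.2⟩)) hn.2
  have s0 : SS L z 0 N = ∑ n ∈ (Ioc 0 N).filter (Rough z), lam L n := by
    unfold SS; rw [zero_add]
  rw [s0]
  refine (sum_le_sum key).trans ?_
  rw [sum_add_distrib, sum_add_distrib, sum_add_distrib]
  -- the one
  have t0 : ∑ n ∈ (Ioc 0 N).filter (Rough z), (if n = 1 then L ^ 2 else 0) ≤ L ^ 2 := by
    rw [← sum_filter]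
    have hsub : ((Ioc 0 N).filter (Rough z)).filter (fun n => n = 1) ⊆ {1} := by
      intro n hn
      rw [mem_filter] at hn
      rw [mem_singleton]
      exact hn.2
    refine (sum_le_sum_of_subset_of_nonneg hsub fun _ _ _ => by positivity).trans ?_
    simp
  -- bad
  have t3 : ∑ n ∈ (Ioc 0 N).filter (Rough z), (if IsBad z n then 3 * L ^ 2 else 0) ≤
      3 * L ^ 2 * (2 * N / z + √(N : ℝ)) := by
    have h := card_bad z 0 N (by omega)
    rw [zero_add] at h
    refine le_trans ?_ (mul_le_mul_of_nonneg_left h (by positivity))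
    rw [← sum_filter, sum_const, nsmul_eq_mul, mul_comm]
    apply mul_le_mul_of_nonneg_left _ (by positivity)
    have : ((Ioc 0 N).filter (Rough z)).filter (IsBad z) ⊆ (Ioc 0 N).filter (IsBad z) :=
      filter_subset_filter _ (filter_subset _ _)
    exact_mod_cast card_le_card this
  -- pairs
  have hMsum := abs_le.mp (hM N (by omega))
  have hMz := abs_le.mp (hM (N / z) hP1)
  have hNzlog : L - Real.log z - 1 ≤ Real.log ((N / z : ℕ) : ℝ) := by
    have hNz : (0:ℝ) < ((N / z : ℕ) : ℝ) := by exact_mod_cast hP1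
    have hle : (N:ℝ) ≤ 2 * (z * ((N / z : ℕ) : ℝ)) := by
      have := Nat.lt_div_mul_add (a := N) (b := z) (by omega)
      have h : N ≤ 2 * (z * (N / z)) := by nlinarith
      exact_mod_cast h
    have := Real.log_le_log hN0 hle
    rw [Real.log_mul (by norm_num) (by positivity), Real.log_mul hz0.ne' hNz.ne'] at this
    have h2 := Real.log_two_lt_d9
    rw [hL]
    linarith
  have hIoc : ∑ p ∈ (Ioc (N / z) N).filter Nat.Prime, Real.log p / p ≤ Real.log z + 1 + 2 * C := by
    have h1 := Icc_sub N (N / z) hNzN (fun p => Real.log p / p)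
    rw [hL] at hNzlog
    linarith
  have t2 : ∑ n ∈ (Ioc 0 N).filter (Rough z),
      ∑ x ∈ n.divisorsAntidiagonal.filter (fun x => (x.1.Prime ∧ x.2.Prime) ∧ 0 ≤ x.1 ∧ 0 ≤ x.2),
        Real.log x.1 * Real.log x.2 ≤ (1 + ε₁) * N * (L + C) + 2 * N * (Real.log z + 1 + 2 * C) := by
    have h1 : ∑ n ∈ (Ioc 0 N).filter (Rough z),
      ∑ x ∈ n.divisorsAntidiagonal.filter (fun x => (x.1.Prime ∧ x.2.Prime) ∧ 0 ≤ x.1 ∧ 0 ≤ x.2),
        Real.log x.1 * Real.log x.2 ≤ PSk 0 0 N 1 1 := by
      rw [PSk_eq]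
      refine sum_le_sum_of_subset_of_nonneg ?_ ?_
      · intro n hn
        rw [mem_filter] at hn ⊢
        rw [zero_add]
        exact ⟨hn.1, Nat.modEq_one⟩
      · intro n _ _
        exact sum_nonneg fun x _ =>
          mul_nonneg (Real.log_natCast_nonneg _) (Real.log_natCast_nonneg _)
    refine h1.trans ((PS0_le N).trans ?_)
    rw [Icc_sub N (N / z) hNzN]
    refine add_le_add ?_ ?_
    · have h2 : ∀ p ∈ (Icc 1 (N / z)).filter Nat.Prime,
          Real.log p * Chebyshev.theta ((N : ℝ) / p) ≤ (1 + ε₁) * N * (Real.log p / p) := by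
        intro p hp
        rw [mem_filter, mem_Icc] at hp
        have hp0 : (0:ℝ) < p := by exact_mod_cast hp.2.pos
        have h3 := hθ ((N : ℝ) / p) (by
          rw [le_div_iff₀ hp0]
          have := (Nat.le_div_iff_mul_le (by omega)).mp hp.1.2
          rw [mul_comm]
          exact_mod_cast this)
        calc Real.log p * Chebyshev.theta ((N : ℝ) / p) ≤ Real.log p * ((1 + ε₁) * (N / p)) :=
              mul_le_mul_of_nonneg_left h3 (Real.log_natCast_nonneg _)
          _ = _ := by ring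
      refine (sum_le_sum h2).trans ?_
      rw [← mul_sum]
      apply mul_le_mul_of_nonneg_left _ (by positivity)
      have h4 : ∑ p ∈ (Icc 1 (N / z)).filter Nat.Prime, Real.log p / (p : ℝ) ≤
          ∑ p ∈ (Icc 1 N).filter Nat.Prime, Real.log p / (p : ℝ) := by
        refine sum_le_sum_of_subset_of_nonneg (filter_subset_filter _ (Icc_subset_Icc_right hNzN)) ?_
        intro i _ _
        exact div_nonneg (Real.log_natCast_nonneg i) (by positivity)
      rw [hL]
      linarith
    · have h2 : ∀ p ∈ (Ioc (N / z) N).filter Nat.Prime,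
          Real.log p * Chebyshev.theta ((N : ℝ) / p) ≤ 2 * N * (Real.log p / p) := by
        intro p hp
        rw [mem_filter, mem_Ioc] at hp
        have hp0 : (0:ℝ) < p := by exact_mod_cast hp.2.pos
        have h3 := theta_le_two ((N : ℝ) / p) (by positivity)
        calc Real.log p * Chebyshev.theta ((N : ℝ) / p) ≤ Real.log p * (2 * (N / p)) :=
              mul_le_mul_of_nonneg_left h3 (Real.log_natCast_nonneg _)
          _ = _ := by ring
      refine (sum_le_sum h2).trans ?_
      rw [← mul_sum]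
      exact mul_le_mul_of_nonneg_left hIoc (by positivity)
  -- primes
  have t1 : ∑ n ∈ (Ioc 0 N).filter (Rough z),
      (if n.Prime then (2 * L - Real.log n) * Real.log n else 0) ≤
      4 * N * L / z + (L + Real.log z + 1) * ((1 + ε₁) * N) := by
    have h1 : ∑ n ∈ (Ioc 0 N).filter (Rough z),
        (if n.Prime then (2 * L - Real.log n) * Real.log n else 0) ≤
        ∑ p ∈ (Icc 1 N).filter Nat.Prime, (2 * L - Real.log p) * Real.log p := by
      rw [← sum_filter]
      refine sum_le_sum_of_subset_of_nonneg ?_ ?_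
      · intro p hp
        rw [mem_filter, mem_filter, mem_Ioc] at hp
        rw [mem_filter, mem_Icc]
        exact ⟨⟨by omega, hp.1.1.2⟩, hp.2⟩
      · intro p hp _
        rw [mem_filter] at hp
        have := hlogp p hp.1
        have h0 := Real.log_natCast_nonneg p
        apply mul_nonneg <;> linarith
    refine h1.trans ?_
    rw [Icc_sub N (N / z) hNzN]
    refine add_le_add ?_ ?_
    · have h2 : ∀ p ∈ (Icc 1 (N / z)).filter Nat.Prime,
          (2 * L - Real.log p) * Real.log p ≤ 2 * L * Real.log p := by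
        intro p _
        apply mul_le_mul_of_nonneg_right _ (Real.log_natCast_nonneg _)
        linarith [Real.log_natCast_nonneg p]
      refine (sum_le_sum h2).trans ?_
      rw [← mul_sum, ← theta_nat]
      have h3 := theta_le_two ((N / z : ℕ) : ℝ) (by positivity)
      have h4 : ((N / z : ℕ) : ℝ) ≤ (N : ℝ) / z := Nat.cast_div_le
      calc 2 * L * Chebyshev.theta ((N / z : ℕ) : ℝ) ≤ 2 * L * (2 * (N / z)) :=
            mul_le_mul_of_nonneg_left (by linarith) (by linarith)
        _ = _ := by ring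
    · have h2 : ∀ p ∈ (Ioc (N / z) N).filter Nat.Prime,
          (2 * L - Real.log p) * Real.log p ≤ (L + Real.log z + 1) * Real.log p := by
        intro p hp
        rw [mem_filter, mem_Ioc] at hp
        apply mul_le_mul_of_nonneg_right _ (Real.log_natCast_nonneg _)
        have h3 : Real.log ((N / z : ℕ) : ℝ) ≤ Real.log p := by
          apply Real.log_le_log
          · exact_mod_cast hP1
          · exact_mod_cast hp.1.1.le
        linarith
      refine (sum_le_sum h2).trans ?_
      rw [← mul_sum]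
      apply mul_le_mul_of_nonneg_left _ (by linarith)
      have h3 := hθ (N : ℝ) (by exact_mod_cast hzN)
      rw [theta_nat] at h3
      refine le_trans ?_ h3
      refine sum_le_sum_of_subset_of_nonneg ?_ fun i _ _ => Real.log_natCast_nonneg i
      apply filter_subset_filter
      intro p hp
      rw [mem_Ioc] at hp
      rw [mem_Icc]
      omega
  have hfin : (1 + ε₁) * N * (L + C) + 2 * N * (Real.log z + 1 + 2 * C) +
      (L + Real.log z + 1) * ((1 + ε₁) * N) ≤
      2 * (1 + ε₁) * N * L + N * (4 * Real.log z + 6 * C + 4) := by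
    have h1 : (1 + ε₁) * N * C ≤ 2 * N * C := by
      have : (1 + ε₁) * (N * C) ≤ 2 * (N * C) :=
        mul_le_mul_of_nonneg_right (by linarith) (by positivity)
      linarith
    have h2 : (Real.log z + 1) * ((1 + ε₁) * N) ≤ (Real.log z + 1) * (2 * N) := by
      apply mul_le_mul_of_nonneg_left _ (by linarith)
      apply mul_le_mul_of_nonneg_right (by linarith) hN0.le
    nlinarith
  linarith

end Pool.Agent.T9h52.BT
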