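import Pool.Agent.T9h52.BT.Inv2

/-!
# A nonprincipal character is not equal to one on most primes
-/

set_option autoImplicit false

namespace Pool.Agent.T9h52.BT.NF

open Finset Filter
open Pool.Agent.H180R3.E469 (E C E_le lt_E E_pos half_le_E E_mono log_E_le le_log_E mem_C_iff
  logdiv_nonneg sum_cells idx mem_C_idx block_upper block_lower exp_sub_one_le)
open Pool.Agent.T9h52.BT
open Pool.Agent.T9h52.BT.Cell
open Pool.Agent.T9h52.BT.Inv
open Pool.Agent.T9h52.BT.St (av wv sg cc av_congr av_sub av_add av_const av_sum av_mul_const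
  av_const_mul av_comm abs_av_le_of sg_mul sg_abs sg_cases cc_wv wv_abs cc_abs)

/-- twisting the convolution -/
lemma conv_twist {k : ℕ} [NeZero k] (f g : (ZMod k)ˣ → ℝ) (ψ : (ZMod k)ˣ →* ℤˣ) :
    (av fun c => (av fun b => f b * g (c * b⁻¹)) * sg ψ c) = cc f ψ * cc g ψ := by
  unfold cc
  have h1 : (av fun c => (av fun b => f b * g (c * b⁻¹)) * sg ψ c) =
      av fun c => av fun b => f b * g (c * b⁻¹) * sg ψ c :=
    av_congr fun c => (av_mul_const _ _).symm
  rw [h1, av_comm]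
  have h2 : ∀ b, (av fun c => f b * g (c * b⁻¹) * sg ψ c) =
      (f b * sg ψ b) * av fun c => g c * sg ψ c := by
    intro b
    have h3 : (av fun c => g c * sg ψ c) = av fun c => g (c * b⁻¹) * sg ψ (c * b⁻¹) :=
      (St.av_mul_right b⁻¹ (fun c => g c * sg ψ c)).symm
    rw [h3, ← av_const_mul]
    refine av_congr fun c => ?_
    have h4 : sg ψ c = sg ψ b * sg ψ (c * b⁻¹) := by
      rw [← sg_mul]
      congr 1
      rw [mul_comm b, inv_mul_cancel_right]
    rw [h4]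
    ring
  rw [av_congr h2, av_mul_const]

lemma twisted_H2 {k M m K : ℕ} [NeZero k] {s : ℕ → (ZMod k)ˣ → ℝ} {err : ℝ}
    (ψ : (ZMod k)ˣ →* ℤˣ)
    (hH : ∀ c, |(∑ i ∈ Icc m (K - m), av fun b => s i b * wv M s (K - i) (c * b⁻¹)) -
      K * wv M s K c| ≤ err) :
    |(∑ i ∈ Icc m (K - m), cc (s i) ψ * cc (wv M s (K - i)) ψ) - K * cc (wv M s K) ψ| ≤ err := by
  have h1 : (∑ i ∈ Icc m (K - m), cc (s i) ψ * cc (wv M s (K - i)) ψ) - K * cc (wv M s K) ψ =
      av fun c => ((∑ i ∈ Icc m (K - m), av fun b => s i b * wv M s (K - i) (c * b⁻¹)) -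
      K * wv M s K c) * sg ψ c := by
    have h2 : ∀ c, ((∑ i ∈ Icc m (K - m), av fun b => s i b * wv M s (K - i) (c * b⁻¹)) -
      K * wv M s K c) * sg ψ c =
        (∑ i ∈ Icc m (K - m), (av fun b => s i b * wv M s (K - i) (c * b⁻¹)) * sg ψ c) -
          K * (wv M s K c * sg ψ c) := by
      intro c
      rw [sub_mul, sum_mul]
      ring
    rw [av_congr h2, av_sub, av_sum, av_const_mul]
    congr 1
    refine sum_congr rfl fun i _ => ?_
    rw [conv_twist]
  rw [h1]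
  refine abs_av_le_of fun c => ?_
  rw [abs_mul, sg_abs, mul_one]
  exact hH c

/-- the combinatorial core -/
lemma core {k M m N : ℕ} [NeZero k] {s : ℕ → (ZMod k)ˣ → ℝ} {κ : ℝ} (ψ : (ZMod k)ˣ →* ℤˣ)
    (hκ : κ ≤ 1 / 1000) (hκ0 : 0 ≤ κ) (hM : 1 ≤ M) (hm : 1 ≤ m)
    (hmN : 1000 * m ≤ N) (hMN : 1000 * M ≤ N)
    (hs : ∀ i, m ≤ i → ∀ b, |s i b| ≤ 1 + κ)
    (hH : ∀ K, 2 * m + M ≤ K → K ≤ N → ∀ c,
      |(∑ i ∈ Icc m (K - m), av fun b => s i b * wv M s (K - i) (c * b⁻¹)) -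
      K * wv M s K c| ≤ N / 100)
    (hd : ∑ i ∈ Ico m (N + M), (1 + cc (s i) ψ) ≤ N / 1000) : False := by
  have hNpos : (0:ℝ) < N := by exact_mod_cast (by omega : 0 < N)
  have hN0 : (0:ℝ) ≤ N := hNpos.le
  have hM0 : (0:ℝ) < M := by exact_mod_cast hM
  have hc : ∀ i, m ≤ i → |cc (s i) ψ| ≤ 1 + κ := fun i hi => cc_abs (hs i hi) ψ
  have hdabs : ∀ i, m ≤ i → |1 + cc (s i) ψ| ≤ (1 + cc (s i) ψ) + 2 * κ := by
    intro i hi
    have h1 := (abs_le.1 (hc i hi)).1
    rw [abs_le]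
    constructor <;> linarith only [h1, hκ0]
  have hD : ∑ i ∈ Ico m (N + M), |1 + cc (s i) ψ| ≤ N / 250 := by
    have h1 : ∑ i ∈ Ico m (N + M), |1 + cc (s i) ψ| ≤
        ∑ i ∈ Ico m (N + M), ((1 + cc (s i) ψ) + 2 * κ) :=
      sum_le_sum fun i hi => hdabs i (mem_Ico.1 hi).1
    rw [sum_add_distrib, sum_const, Nat.card_Ico, nsmul_eq_mul] at h1
    have h2 : ((N + M - m : ℕ) : ℝ) ≤ 11 / 10 * N := by
      have : 10 * (N + M - m) ≤ 11 * N := by omega
      have h3 : 10 * ((N + M - m : ℕ) : ℝ) ≤ 11 * N := by exact_mod_cast this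
      linarith only [h3]
    have h3 : ((N + M - m : ℕ) : ℝ) * (2 * κ) ≤ 11 / 10 * N * (2 / 1000) :=
      mul_le_mul h2 (by linarith only [hκ]) (by linarith only [hκ0]) (by positivity)
    linarith only [h1, h3, hd, hNpos]
  -- windows
  have hc' : ∀ j, m ≤ j → |cc (wv M s j) ψ| ≤ 1 + κ := fun j hj =>
    cc_abs (fun b => wv_abs hM fun l _ => hs (j + l) (by omega) b) ψ
  have hw : ∀ j, |1 + cc (wv M s j) ψ| ≤ (∑ l ∈ range M, |1 + cc (s (j + l)) ψ|) / M := by
    intro j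
    rw [cc_wv]
    have h1 : 1 + (∑ l ∈ range M, cc (s (j + l)) ψ) / M =
        (∑ l ∈ range M, (1 + cc (s (j + l)) ψ)) / M := by
      rw [sum_add_distrib, sum_const, card_range, nsmul_eq_mul]
      field_simp
    rw [h1, abs_div, abs_of_pos hM0]
    exact div_le_div_of_nonneg_right (abs_sum_le_sum_abs _ _) hM0.le
  have hD' : ∑ j ∈ Icc m N, |1 + cc (wv M s j) ψ| ≤ N / 250 := by
    refine (sum_le_sum fun j _ => hw j).trans ?_
    rw [← sum_div, div_le_iff₀ hM0, sum_comm]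
    calc ∑ l ∈ range M, ∑ j ∈ Icc m N, |1 + cc (s (j + l)) ψ|
        ≤ ∑ l ∈ range M, ∑ i ∈ Ico m (N + M), |1 + cc (s i) ψ| := by
          refine sum_le_sum fun l hl => ?_
          rw [mem_range] at hl
          have e1 : ∑ j ∈ Icc m N, |1 + cc (s (j + l)) ψ| =
              ∑ i ∈ (Icc m N).image (fun j => j + l), |1 + cc (s i) ψ| := by
            rw [sum_image]
            intro a _ b _ h
            simpa using h
          rw [e1]
          refine sum_le_sum_of_subset_of_nonneg ?_ fun _ _ _ => abs_nonneg _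
          intro i hi
          rw [mem_image] at hi
          obtain ⟨j, hj, rfl⟩ := hi
          rw [mem_Icc] at hj
          rw [mem_Ico]
          omega
      _ = (M:ℝ) * ∑ i ∈ Ico m (N + M), |1 + cc (s i) ψ| := by
          rw [sum_const, card_range, nsmul_eq_mul]
      _ ≤ N / 250 * M := by
          rw [mul_comm]
          exact mul_le_mul_of_nonneg_right hD hM0.le
  -- all late windows are close to one
  have hlate : ∀ K ∈ Icc (N / 2 + 1) N, (1:ℝ) ≤ |1 + cc (wv M s K) ψ| := by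
    intro K hK
    rw [mem_Icc] at hK
    have h1 := (abs_le.1 (twisted_H2 ψ (hH K (by omega) hK.2))).2
    have h2 : ∑ i ∈ Icc m (K - m), (1 - 4 * |1 + cc (s i) ψ| - |1 + cc (wv M s (K - i)) ψ|) ≤
        ∑ i ∈ Icc m (K - m), cc (s i) ψ * cc (wv M s (K - i)) ψ := by
      refine sum_le_sum fun i hi => ?_
      rw [mem_Icc] at hi
      have a1 := hc' (K - i) (by omega)
      set d := 1 + cc (s i) ψ with hdd
      set d' := 1 + cc (wv M s (K - i)) ψ with hdd'
      have e1 : cc (s i) ψ * cc (wv M s (K - i)) ψ = 1 - d - d' + d * d' := by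
        rw [hdd, hdd']; ring
      have a2 : |d'| ≤ 3 := by
        have := abs_le.1 a1
        rw [hdd', abs_le]
        constructor <;> linarith only [this.1, this.2, hκ]
      have a3 : |d * d'| ≤ 3 * |d| := by
        rw [abs_mul, mul_comm]
        exact mul_le_mul_of_nonneg_right a2 (abs_nonneg _)
      have a4 := (abs_le.1 a3).1
      have a5 := le_abs_self d
      have a6 := le_abs_self d'
      rw [e1]
      linarith only [a4, a5, a6]
    rw [sum_sub_distrib, sum_sub_distrib, sum_const, Nat.card_Icc, nsmul_eq_mul, mul_one,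
      ← mul_sum, St.sum_reflect (fun j => |1 + cc (wv M s j) ψ|)] at h2
    have h3 : ∑ i ∈ Icc m (K - m), |1 + cc (s i) ψ| ≤ N / 250 := by
      refine le_trans (sum_le_sum_of_subset_of_nonneg ?_ fun _ _ _ => abs_nonneg _) hD
      intro i hi
      rw [mem_Icc] at hi
      rw [mem_Ico]
      omega
    have h4 : ∑ i ∈ Icc m (K - m), |1 + cc (wv M s i) ψ| ≤ N / 250 := by
      refine le_trans (sum_le_sum_of_subset_of_nonneg ?_ fun _ _ _ => abs_nonneg _) hD'
      intro i hi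
      rw [mem_Icc] at hi ⊢
      omega
    have h5 : (K:ℝ) - N / 500 ≤ ((K - m + 1 - m : ℕ) : ℝ) := by
      have : 500 * K ≤ 500 * (K - m + 1 - m) + N := by omega
      have h6 : 500 * (K:ℝ) ≤ 500 * ((K - m + 1 - m : ℕ) : ℝ) + N := by exact_mod_cast this
      linarith only [h6]
    have h7 : (N:ℝ) / 2 ≤ K := by
      have : N ≤ 2 * K := by omega
      have h8 : (N:ℝ) ≤ 2 * K := by exact_mod_cast this
      linarith only [h8]
    have h9 : (K:ℝ) * cc (wv M s K) ψ ≥ K * (9 / 10) := by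
      linarith only [h1, h2, h3, h4, h5, h7]
    have hK0 : (0:ℝ) < K := by linarith only [h7, hNpos]
    have h10 : 9 / 10 ≤ cc (wv M s K) ψ := le_of_mul_le_mul_left h9 hK0
    have h11 := le_abs_self (1 + cc (wv M s K) ψ)
    linarith only [h10, h11]
  have h1 : ∑ K ∈ Icc (N / 2 + 1) N, (1:ℝ) ≤ ∑ K ∈ Icc m N, |1 + cc (wv M s K) ψ| := by
    refine (sum_le_sum hlate).trans ?_
    refine sum_le_sum_of_subset_of_nonneg ?_ fun _ _ _ => abs_nonneg _
    intro i hi
    rw [mem_Icc] at hi ⊢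
    omega
  rw [sum_const, Nat.card_Icc, nsmul_eq_mul, mul_one] at h1
  have h2 : (N:ℝ) / 2 ≤ ((N + 1 - (N / 2 + 1) : ℕ) : ℝ) := by
    have : N ≤ 2 * (N + 1 - (N / 2 + 1)) := by omega
    have h3 : (N:ℝ) ≤ 2 * ((N + 1 - (N / 2 + 1) : ℕ) : ℝ) := by exact_mod_cast this
    linarith only [h3]
  linarith only [h1, h2, hD', hNpos]

end Pool.Agent.T9h52.BT.NF
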