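import Pool.Agent.T9h52.BT.NoFake

/-!
# A nonprincipal character is not equal to one on most primes, conclusion
-/

set_option autoImplicit false

namespace Pool.Agent.T9h52.BT.NF

open Finset Filter
open Pool.Agent.H180R3.E469 (E C E_le lt_E E_pos half_le_E E_mono log_E_le le_log_E mem_C_iff
  logdiv_nonneg sum_cells idx mem_C_idx block_upper block_lower exp_sub_one_le)
open Pool.Agent.T9h52.BT
open Pool.Agent.T9h52.BT.Cell
open Pool.Agent.T9h52.BT.Inv
open Pool.Agent.T9h52.BT.St (av wv sg cc av_congr av_sub av_add av_const av_sum av_mul_const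
  av_const_mul av_comm abs_av_le_of sg_mul sg_abs sg_cases cc_wv wv_abs cc_abs)

/-- summing the classes with weights -/
lemma sum_classes' {h : ℝ} (k i : ℕ) [NeZero k] (hk : (k : ℝ) ≤ Real.exp (i * h))
    (F : ZMod k → ℝ) :
    ∑ b : (ZMod k)ˣ, ms h k i b * F b = ∑ p ∈ C h i, F (p : ZMod k) * (Real.log p / p) := by
  classical
  have h1 : ∀ b : (ZMod k)ˣ, ms h k i b * F b =
      ∑ p ∈ (C h i).filter (fun p : ℕ => (p : ZMod k) = b), F (p : ZMod k) * (Real.log p / p) := by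
    intro b
    unfold ms
    rw [sum_mul]
    refine sum_congr rfl fun p hp => ?_
    rw [mem_filter] at hp
    rw [hp.2, mul_comm]
  rw [sum_congr rfl fun b _ => h1 b, ← sum_biUnion]
  · refine sum_congr ?_ fun _ _ => rfl
    ext p
    rw [mem_biUnion]
    constructor
    · rintro ⟨b, _, hp⟩
      exact (mem_filter.1 hp).1
    · intro hp
      have hp' := mem_C_iff.1 hp
      have hkp : k < p := by
        have : (k : ℝ) < p := hk.trans_lt hp'.2.1
        exact_mod_cast this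
      have hco : p.Coprime k := by
        rw [Nat.Prime.coprime_iff_not_dvd hp'.1]
        intro hdvd
        have := Nat.le_of_dvd (Nat.pos_of_ne_zero (NeZero.ne k)) hdvd
        omega
      refine ⟨ZMod.unitOfCoprime p hco, mem_univ _, ?_⟩
      rw [mem_filter]
      exact ⟨hp, (ZMod.coe_unitOfCoprime p hco).symm⟩
  · intro b _ b' _ hbb
    rw [Function.onFun, disjoint_left]
    intro p hp hp'
    rw [mem_filter] at hp hp'
    exact hbb (Units.ext (hp.2.symm.trans hp'.2))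

lemma av_sg_zero {k : ℕ} [NeZero k] {ψ : (ZMod k)ˣ →* ℤˣ} (hψ : ψ ≠ 1) :
    av (fun b => sg ψ b) = 0 := by
  obtain ⟨a, ha⟩ : ∃ a, ψ a ≠ 1 := by
    by_contra hcon
    push Not at hcon
    exact hψ (MonoidHom.ext hcon)
  have ha' : sg ψ a = -1 := by
    rcases Int.units_eq_one_or (ψ a) with h | h
    · exact absurd h ha
    · unfold sg; rw [h]; simp
  have h5 := St.av_mul_left a (fun b => sg ψ b)
  have h6 : (av fun b => sg ψ (a * b)) = - av fun b => sg ψ b := by
    rw [← St.av_neg]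
    refine av_congr fun b => ?_
    rw [sg_mul, ha']
    ring
  rw [h6] at h5
  linarith

lemma one_sub_nonneg {k : ℕ} (χ : DirichletCharacter ℤ k) (a : ZMod k) :
    (0:ℝ) ≤ 1 - (χ a : ℝ) := by
  rcases chr_vals χ a with h | h | h <;> rw [h] <;> norm_num

/-- the twisted means in terms of primes -/
lemma dsum {C₁ ε ρ h : ℝ} {X₀ k m : ℕ} (A : Adm ε ρ h X₀ k m) [NeZero k]
    (hC : ∀ u w : ℕ, u ≤ w → |∑ i ∈ Ico u w, ∑ p ∈ C h i, Real.log p / p -
      ((w:ℝ) - u) * h| ≤ C₁) {w : ℕ} (hmw : m ≤ w) {ψ : (ZMod k)ˣ →* ℤˣ} (hψ : ψ ≠ 1)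
    {u v : ℝ} (hu : u ≤ Real.exp (m * h)) (hv : Real.exp (w * h) ≤ v) :
    ∑ i ∈ Ico m w, (1 + cc (ss h k i) ψ) ≤ C₁ / h +
      (∑ p ∈ (Icc 1 ⌊v⌋₊).filter (fun p : ℕ => p.Prime ∧ u < p),
        (1 - ((chr ψ (p : ZMod k) : ℤ) : ℝ)) * (Real.log p / p)) / h := by
  have hh := A.h0
  have h1 : ∀ i ∈ Ico m w, 1 + cc (ss h k i) ψ = (1 - av (ff h k i)) +
      (∑ p ∈ C h i, (1 - ((chr ψ (p : ZMod k) : ℤ) : ℝ)) * (Real.log p / p)) / h := by
    intro i hi
    rw [mem_Ico] at hi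
    have hk : (k:ℝ) ≤ Real.exp (i * h) := (A.big hi.1).1
    rw [← sum_classes' k i hk (fun a => 1 - ((chr ψ a : ℤ) : ℝ))]
    have h2 : cc (ss h k i) ψ = - av (fun b => ff h k i b * sg ψ b) := by
      unfold cc ss
      have h3 : ∀ b, (1 - ff h k i b) * sg ψ b = sg ψ b - ff h k i b * sg ψ b := by
        intro b; ring
      rw [av_congr h3, av_sub, av_sg_zero hψ]
      ring
    rw [h2]
    have h4 : (∑ b : (ZMod k)ˣ, ms h k i b * (1 - ((chr ψ (b : ZMod k) : ℤ) : ℝ))) / h =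
        av (fun b => ff h k i b - ff h k i b * sg ψ b) := by
      unfold av ff
      rw [ZMod.card_units_eq_totient, sum_div, sum_div]
      refine sum_congr rfl fun b _ => ?_
      rw [chr_unit]
      have hφ := A.tot0
      field_simp
    rw [h4, av_sub]
    ring
  rw [sum_congr rfl h1, sum_add_distrib, ← sum_div, sum_cells hh.le _ hmw]
  have h2 := (abs_le.1 (av_ff_sum A hC le_rfl hmw)).1
  have h3 : ∑ i ∈ Ico m w, (1 - av (ff h k i)) = ((w:ℝ) - m) - ∑ i ∈ Ico m w, av (ff h k i) := by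
    rw [sum_sub_distrib, sum_const, Nat.card_Ico, nsmul_eq_mul, mul_one, Nat.cast_sub hmw]
  rw [h3]
  refine add_le_add (by linarith only [h2]) (div_le_div_of_nonneg_right ?_ hh.le)
  refine sum_le_sum_of_subset_of_nonneg ?_ fun p _ _ =>
    mul_nonneg (one_sub_nonneg _ _) (logdiv_nonneg p)
  intro p hp
  rw [mem_filter, mem_Ioc] at hp
  obtain ⟨⟨h4, h5⟩, h6⟩ := hp
  have hlt : Real.exp (m * h) < p := by
    rw [E, Nat.floor_lt (Real.exp_pos _).le] at h4
    exact h4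
  have hle : (p:ℝ) ≤ Real.exp (w * h) := by
    rw [E, Nat.le_floor_iff (Real.exp_pos _).le] at h5
    exact h5
  rw [mem_filter, mem_Icc]
  refine ⟨⟨h6.one_lt.le, Nat.le_floor (hle.trans hv)⟩, h6, hu.trans_lt hlt⟩

/-- Nonprincipal characters are not equal to one on most primes. -/
theorem no_fake (ε : ℝ) (hε : 0 < ε) : ∃ ϑ : ℝ, 0 < ϑ ∧ ϑ < ε ∧ ∃ X₁ : ℝ, 1 < X₁ ∧
    ∀ X : ℝ, X₁ ≤ X → ∀ k : ℕ, 1 ≤ k → (k : ℝ) ≤ X ^ ϑ → ∀ ψ : (ZMod k)ˣ →* ℤˣ, ψ ≠ 1 →
      ϑ * Real.log X < ∑ p ∈ (Icc 1 ⌊X ^ ε⌋₊).filter (fun p : ℕ => p.Prime ∧ X ^ ϑ < p),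
        (1 - ((chr ψ (p : ZMod k) : ℤ) : ℝ)) * (Real.log p / p) := by
  obtain ⟨C₁, hC11, hC⟩ := mertens_small
  obtain ⟨ρ, hρ0, hρ1, hρε, X₀, hX₀, hSA⟩ := selbergAP (1 / 10000) (by norm_num)
  obtain ⟨M, hM⟩ : ∃ M : ℕ, M = 40000 := ⟨_, rfl⟩
  obtain ⟨h, hh⟩ : ∃ h : ℝ, h = 1 / (10000000 * ((M:ℝ) + 1)) := ⟨_, rfl⟩
  have hh0 : 0 < h := by rw [hh]; positivity
  have hMr : (M:ℝ) = 40000 := by rw [hM]; norm_num
  have hMh : ((M:ℝ) + 1) * h = 1 / 10000000 := by rw [hh]; field_simp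
  have hh1 : h ≤ 1 / 10000000 := by
    rw [← hMh]
    have : 1 * h ≤ ((M:ℝ) + 1) * h := mul_le_mul_of_nonneg_right (by rw [hMr]; norm_num) hh0.le
    linarith only [this]
  have hρ1' : ρ ≤ 1 / 10000000 := by norm_num at hρε ⊢; exact hρε
  obtain ⟨ϑ, hϑ⟩ : ∃ ϑ : ℝ, ϑ = ρ * ε / (4 * 100000) := ⟨_, rfl⟩
  have hϑ0 : 0 < ϑ := by rw [hϑ]; positivity
  have hρε1 : ρ * ε ≤ 1 / 10000000 * ε := mul_le_mul_of_nonneg_right hρ1' hε.le
  have hϑε : ϑ ≤ ε / 10000000000 := by
    rw [hϑ]; linarith only [hρε1, hε]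
  set B : ℝ := (1000000000000 * (C₁ + 1) + 100000000 * (X₀:ℝ)) / ε + 10000000 * Real.log (4 / h) / (ρ * ε) +
    10000000 / ε with hB
  refine ⟨ϑ, hϑ0, by linarith only [hϑε, hε], Real.exp (|B| + 1), ?_, ?_⟩
  · rw [Real.one_lt_exp_iff]
    have := abs_nonneg B
    linarith only [this]
  intro X hX k hk hkX ψ hψ
  haveI : NeZero k := ⟨by omega⟩
  have hX0 : 0 < X := (Real.exp_pos _).trans_le hX
  set L : ℝ := Real.log X with hL
  have hLB : B ≤ L := by
    have h1 : |B| + 1 ≤ L := by rw [hL, Real.le_log_iff_exp_le hX0]; exact hX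
    have h2 := le_abs_self B
    linarith only [h1, h2]
  have hlog4 : 0 ≤ Real.log (4 / h) := by
    apply Real.log_nonneg
    rw [le_div_iff₀ hh0]
    linarith only [hh1]
  have hX₀r : (2:ℝ) ≤ X₀ := by exact_mod_cast hX₀
  have b1 : 0 ≤ (1000000000000 * (C₁ + 1) + 100000000 * (X₀:ℝ)) / ε := by positivity
  have b2 : 0 ≤ 10000000 * Real.log (4 / h) / (ρ * ε) := by positivity
  have b3 : 0 ≤ 10000000 / ε := by positivity
  have hL1 : 1000000000000 * (C₁ + 1) + 100000000 * (X₀:ℝ) ≤ L * ε := by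
    have : (1000000000000 * (C₁ + 1) + 100000000 * (X₀:ℝ)) / ε ≤ L := by linarith only [hLB, hB, b1, b2, b3]
    rwa [div_le_iff₀ hε] at this
  have hL2 : 10000000 * Real.log (4 / h) ≤ L * (ρ * ε) := by
    have : 10000000 * Real.log (4 / h) / (ρ * ε) ≤ L := by linarith only [hLB, hB, b1, b2, b3]
    rwa [div_le_iff₀ (by positivity)] at this
  clear b1 b2 b3 hLB hB
  have hLε : 2 * 1000000000000 ≤ L * ε := by linarith only [hL1, hC11, hX₀r]
  have hLpos : 0 < L := by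
    by_contra hcon
    have : L * ε ≤ 0 := mul_nonpos_of_nonpos_of_nonneg (not_lt.1 hcon) hε.le
    linarith only [this, hLε]
  -- number of cells
  set N₀ : ℕ := ⌊ε * L / h⌋₊ with hN₀
  have hN₀a : (N₀:ℝ) * h ≤ ε * L := by
    have := Nat.floor_le (show 0 ≤ ε * L / h by positivity)
    rw [← hN₀] at this
    rwa [le_div_iff₀ hh0] at this
  have hN₀b : ε * L - h < (N₀:ℝ) * h := by
    have := Nat.lt_floor_add_one (ε * L / h)
    rw [← hN₀, div_lt_iff₀ hh0] at this
    linarith only [this]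
  have hN₀M : (M:ℝ) + 1 ≤ N₀ := by
    have : ((M:ℝ) + 1) * h ≤ N₀ * h := by rw [hMh]; linarith only [hN₀b, hh1, hLε]
    exact le_of_mul_le_mul_right this hh0
  have hN₀M' : M + 1 ≤ N₀ := by exact_mod_cast hN₀M
  set N : ℕ := N₀ - M with hN
  have hNM : N + M = N₀ := by omega
  have hNr : (N:ℝ) + M = N₀ := by exact_mod_cast hNM
  have hNh : ε * L - 1 ≤ N * h := by
    have h1 : (N:ℝ) * h = N₀ * h - M * h := by rw [← hNr]; ring
    rw [h1]
    linarith only [hN₀b, hMh, hh0]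
  set m : ℕ := ⌈(N:ℝ) / 100000⌉₊ with hm
  have hm1 : (N:ℝ) / 100000 ≤ m := Nat.le_ceil _
  have hm2 : (m:ℝ) < N / 100000 + 1 := Nat.ceil_lt_add_one (by positivity)
  have hmh : (ε * L - 1) / 100000 ≤ m * h := by
    have := mul_le_mul_of_nonneg_right hm1 hh0.le
    linarith only [this, hNh]
  have hNbig : 1000000000000 * (C₁ + 1) / h ≤ N := by
    rw [div_le_iff₀ hh0]
    linarith only [hNh, hL1, hX₀r]
  have hNbig2 : (1000000000000:ℝ) ≤ N := by
    have h1 : (1000000000000:ℝ) ≤ 1000000000000 * (C₁ + 1) / h := by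
      rw [le_div_iff₀ hh0]
      nlinarith only [hh1, hC11, hh0]
    linarith only [h1, hNbig]
  have hmN : 1000 * m ≤ N := by
    have : 1000 * (m:ℝ) ≤ N := by linarith only [hm2, hNbig2]
    exact_mod_cast this
  have hm0 : 1 ≤ m := by
    have : (0:ℝ) < m := by linarith only [hm1, hNbig2]
    exact_mod_cast this
  have hMN : 1000 * M ≤ N := by
    have : 1000 * (M:ℝ) ≤ N := by rw [hMr]; linarith only [hNbig2]
    exact_mod_cast this
  have hA : Adm (1 / 10000) ρ h X₀ k m := by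
    refine ⟨hSA, by norm_num, by norm_num, hρ0, hρ1, hh0, ?_, hX₀, hk, ?_, ?_⟩
    · linarith only [hh1]
    · have h4 := Real.add_one_le_exp ((m:ℝ) * h)
      linarith only [h4, hmh, hL1, hC11, hX₀r]
    · have h1 : 4 * (k:ℝ) / h ≤ (4 / h) * X ^ ϑ := by
        rw [mul_div_right_comm]
        exact mul_le_mul_of_nonneg_left hkX (by positivity)
      refine h1.trans ?_
      rw [Real.rpow_def_of_pos hX0, ← hL]
      have h2 : (4 / h) = Real.exp (Real.log (4 / h)) := (Real.exp_log (by positivity)).symm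
      rw [h2, ← Real.exp_add]
      refine Real.exp_le_exp.2 ?_
      have h3 := mul_le_mul_of_nonneg_left hmh hρ0.le
      have h4 : L * ϑ = L * (ρ * ε) / (4 * 100000) := by rw [hϑ]; ring
      have h5 : ρ * ((ε * L - 1) / 100000) = (L * (ρ * ε) - ρ) / 100000 := by ring
      have h6 : ρ * 1000000000000 ≤ L * (ρ * ε) := by
        have := mul_le_mul_of_nonneg_left hLε hρ0.le
        linarith only [this, hρ0]
      rw [h4]
      rw [h5] at h3
      linarith only [h3, hL2, h6, hρ0, hlog4]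
  have hMε : 4 ≤ (1 / 10000 : ℝ) * M := by rw [hMr]; norm_num
  by_contra hcon
  rw [not_lt] at hcon
  have hd := dsum hA (hC h hh0) (w := N + M) (by omega) hψ (u := X ^ ϑ) (v := X ^ ε)
    (by
      rw [Real.rpow_def_of_pos hX0, ← hL]
      refine Real.exp_le_exp.2 ?_
      have h1 : L * ϑ ≤ L * (ε / 10000000000) := mul_le_mul_of_nonneg_left hϑε hLpos.le
      linarith only [h1, hmh, hLε])
    (by
      rw [Real.rpow_def_of_pos hX0, ← hL, hNM]
      refine Real.exp_le_exp.2 ?_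
      linarith only [hN₀a])
  refine core (k := k) (M := M) (m := m) (N := N) (s := ss h k) (κ := 2 / 10000) ψ
    (by norm_num) (by norm_num) (by omega) hm0 hmN hMN ?_ ?_ ?_
  · intro i hi b
    have h1 := hA.ff_le hi b
    have h2 := ff_nonneg hh0 k i b
    unfold ss
    rw [abs_le]
    constructor
    · linarith only [h1]
    · linarith only [h2]
  · intro K hK1 hK2 c
    have h1 : (m:ℝ) ≤ K := by exact_mod_cast (by omega : m ≤ K)
    have h2 := mul_le_mul_of_nonneg_right h1 hh0.le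
    refine (H2_bound hA (by linarith only [hC11]) (hC h hh0) c hm0 hMε
      (by rw [hMh]; norm_num) hK1 hK2 (by linarith only [h2, hmh, hLε]) ?_).trans ?_
    · have h3 : 2 * ρ * N ≤ m / 50 := by
        have h4 : ρ * N ≤ 1 / 10000000 * N := mul_le_mul_of_nonneg_right hρ1' (Nat.cast_nonneg _)
        linarith only [h4, hm1]
      have h5 := mul_le_mul_of_nonneg_right h3 hh0.le
      linarith only [h5, hmh, hLε]
    · have h3 : (2 + 7 * C₁) / h ≤ N / 100000000000 := by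
        have h4 : (2 + 7 * C₁) / h ≤ (1000000000000 * (C₁ + 1) / h) / 100000000000 := by
          rw [div_div, div_le_div_iff₀ hh0 (by positivity)]
          nlinarith only [hC11, hh0]
        linarith only [h4, hNbig]
      rw [hMr]
      linarith only [h3, hm2, hNbig2]
  · refine hd.trans ?_
    have h1 : C₁ / h ≤ N / 1000000000000 := by
      have h4 : C₁ / h ≤ (1000000000000 * (C₁ + 1) / h) / 1000000000000 := by
        rw [div_div, div_le_div_iff₀ hh0 (by positivity)]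
        nlinarith only [hC11, hh0]
      linarith only [h4, hNbig]
    have h2 : (∑ p ∈ (Icc 1 ⌊X ^ ε⌋₊).filter (fun p : ℕ => p.Prime ∧ X ^ ϑ < p),
        (1 - ((chr ψ (p : ZMod k) : ℤ) : ℝ)) * (Real.log p / p)) / h ≤ N / 1000000000 := by
      rw [div_le_iff₀ hh0]
      refine hcon.trans ?_
      have h3 : ϑ * L ≤ ε / 10000000000 * L := mul_le_mul_of_nonneg_right hϑε hLpos.le
      linarith only [h3, hNh, hLε]
    have hN0 : (0:ℝ) ≤ N := Nat.cast_nonneg _
    linarith only [h1, h2, hN0]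

end Pool.Agent.T9h52.BT.NF
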