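import Pool.Agent.T9h52.BT.Main
import Pool.Agent.H295R3.Task469D

/-!
# Selberg's formula in short progressions
-/

set_option autoImplicit false

namespace Pool.Agent.T9h52.BT

open Finset Filter Topology
open Pool.Agent.H295R3.D (Rough lam SS rough_sum large lower aux8000)
open Pool.Agent.H154R3.Fund (VV VV_upper)

/-- Selberg's formula in short progressions, with the length measured in powers. -/
def SelbergAP : Prop := ∀ ε : ℝ, 0 < ε → ∃ ρ : ℝ, 0 < ρ ∧ ρ < 1 / 4 ∧ ρ ≤ ε / 1000 ∧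
  ∃ X₀ : ℕ, 2 ≤ X₀ ∧
  ∀ X Y k a w : ℕ, X₀ ≤ X → Y ≤ X → 1 ≤ k → a.Coprime k → (k : ℝ) * (X : ℝ) ^ (1 - ρ) ≤ Y →
    (X : ℝ) ^ (2 * ρ) ≤ w →
    Real.log X * Th X Y k a + PSk w X Y k a ≤ (2 + ε) * (Y / k.totient) * Real.log X ∧
    (2 - ε) * (Y / k.totient) * Real.log X ≤ Real.log X * Th X Y k a + PSk 0 X Y k a

lemma PSk_anti {w w' X Y k a : ℕ} (h : w ≤ w') : PSk w' X Y k a ≤ PSk w X Y k a := by
  unfold PSk
  refine sum_le_sum_of_subset_of_nonneg ?_ fun _ _ _ =>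
    mul_nonneg (Real.log_natCast_nonneg _) (Real.log_natCast_nonneg _)
  intro x hx
  rw [mem_PrP] at hx ⊢
  exact ⟨hx.1, ⟨h.trans hx.2.1.1, h.trans hx.2.1.2⟩, hx.2.2⟩

lemma num_low {ε lx L N lz C z S1 : ℝ} (hε : 0 < ε) (hε1 : ε ≤ 1) (hN0 : 0 < N) (hlx0 : 0 < lx)
    (hlxL : lx ≤ L) (hlow : 2 * (1 - ε / 64) * N * L - 2 * z * L - N * (2 * lz + 2 * C + 5) ≤ S1)
    (hzL : 2 * z * L ≤ N) (hlz : lz ≤ ε / 8000 * lx) (hC0 : 0 ≤ C)
    (hC : 6 * C + 40 ≤ ε / 64 * lx) : (2 - ε / 16) * lx ≤ S1 / N := by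
  rw [le_div_iff₀ hN0]
  refine le_trans ?_ hlow
  have hm3 : N * (2 * lz + 2 * C + 5) + N ≤ N * (ε / 50 * lx) := by
    have : 2 * lz + 2 * C + 5 + 1 ≤ ε / 50 * lx := by nlinarith
    have := mul_le_mul_of_nonneg_left this hN0.le
    linarith
  have hm4 : (2 - ε / 32) * lx * N ≤ 2 * (1 - ε / 64) * N * L := by
    have h0 : (2 - ε / 32) * lx ≤ (2 - ε / 32) * L :=
      mul_le_mul_of_nonneg_left hlxL (by linarith)
    have := mul_le_mul_of_nonneg_right h0 hN0.le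
    linarith
  have h5 : 0 ≤ N * (ε * lx) := by positivity
  linarith

lemma num_up {ε lx L N lz C z S1 sq : ℝ} (hε : 0 < ε) (hε1 : ε ≤ 1) (hN0 : 0 < N) (hlx0 : 0 < lx)
    (hz : 0 < z) (hL1 : 1 ≤ L) (hLlx : L ≤ lx + 1)
    (hupp : S1 ≤ 2 * (1 + ε / 64) * N * L + N * (4 * lz + 6 * C + 4) + 4 * N * L / z + L ^ 2 +
      3 * L ^ 2 * (2 * N / z + sq))
    (e1 : 3 * L ^ 2 * (2 * N / z) ≤ ε / 1000 * lx * N)
    (e2 : 3 * L ^ 2 * sq ≤ ε / 2000 * lx * N) (e4 : L ^ 2 ≤ N)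
    (hlz : lz ≤ ε / 8000 * lx) (hC0 : 0 ≤ C)
    (hC : 6 * C + 40 ≤ ε / 64 * lx) : S1 / N ≤ (2 + ε / 10) * lx := by
  rw [div_le_iff₀ hN0]
  refine hupp.trans ?_
  have e3 : 4 * N * L / z ≤ ε / 1000 * lx * N := by
    have h1 : 4 * N * L / z ≤ 3 * L ^ 2 * (2 * N / z) := by
      have h2 : 4 * N * L ≤ 3 * L ^ 2 * (2 * N) := by
        have h4 : L * 1 ≤ L * L := mul_le_mul_of_nonneg_left hL1 (by linarith)
        have h5 : N * (L * 1) ≤ N * (L * L) := mul_le_mul_of_nonneg_left h4 hN0.le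
        have h6 : 0 ≤ N * (L * L) := by positivity
        nlinarith
      calc 4 * N * L / z ≤ (3 * L ^ 2 * (2 * N)) / z := div_le_div_of_nonneg_right h2 hz.le
        _ = _ := by ring
    exact h1.trans e1
  have e5 : N * (4 * lz + 6 * C + 4) + N + N ≤ N * (ε / 60 * lx) := by
    have : 4 * lz + 6 * C + 4 + 1 + 1 ≤ ε / 60 * lx := by nlinarith
    have := mul_le_mul_of_nonneg_left this hN0.le
    linarith
  have e6 : 2 * (1 + ε / 64) * N * L ≤ (2 + ε / 32) * N * lx + 3 * N := by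
    have h0 : (2 + ε / 32) * L ≤ (2 + ε / 32) * (lx + 1) :=
      mul_le_mul_of_nonneg_left (by linarith) (by linarith)
    have h1 : (2 + ε / 32) * L ≤ (2 + ε / 32) * lx + 3 := by linarith
    have := mul_le_mul_of_nonneg_left h1 hN0.le
    linarith
  have e7 : 3 * N ≤ N * (ε / 64 * lx) := by
    have : (3:ℝ) ≤ ε / 64 * lx := by linarith
    have := mul_le_mul_of_nonneg_left this hN0.le
    linarith
  have e8 : 0 ≤ N * (ε * lx) := by positivity
  have e9 : 3 * L ^ 2 * (2 * N / z + sq) = 3 * L ^ 2 * (2 * N / z) + 3 * L ^ 2 * sq := by ring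
  rw [e9]
  linarith

lemma num_S2 {ε lx φ Y S1N S2 : ℝ} (hε : 0 < ε) (hlx0 : 0 < lx) (hφ : 0 < φ) (hY : 0 < Y)
    (hc : |φ * (S2 / Y) - S1N| ≤ 7 * ε / 100 * lx) (hl : (2 - ε / 16) * lx ≤ S1N)
    (hu : S1N ≤ (2 + ε / 10) * lx) :
    S2 ≤ (2 + ε / 5) * (Y / φ) * lx ∧ (2 - ε / 5) * (Y / φ) * lx ≤ S2 := by
  have hc := abs_le.mp hc
  have h2 : S2 = (φ * (S2 / Y)) * (Y / φ) := by field_simp
  have h3 : 0 ≤ Y / φ := by positivity
  have h0 : 0 < ε * lx := by positivity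
  constructor
  · have h1 : φ * (S2 / Y) ≤ (2 + ε / 5) * lx := by linarith [hc.2]
    rw [h2]
    calc (φ * (S2 / Y)) * (Y / φ) ≤ ((2 + ε / 5) * lx) * (Y / φ) :=
          mul_le_mul_of_nonneg_right h1 h3
      _ = _ := by ring
  · have h1 : (2 - ε / 5) * lx ≤ φ * (S2 / Y) := by linarith [hc.1]
    rw [h2]
    calc (2 - ε / 5) * (Y / φ) * lx = ((2 - ε / 5) * lx) * (Y / φ) := by ring
      _ ≤ (φ * (S2 / Y)) * (Y / φ) := mul_le_mul_of_nonneg_right h1 h3

lemma num_fin1 {ε ε0 lx L Q T P S2 : ℝ} (hε : 0 < ε) (hε0 : ε ≤ ε0) (hlx0 : 0 < lx) (hQ : 0 < Q)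
    (hlxL : lx ≤ L) (hT : 0 ≤ T) (hge : L * T + P ≤ S2) (hup : S2 ≤ (2 + ε / 5) * Q * lx) :
    lx * T + P ≤ (2 + ε0) * Q * lx := by
  have hQlx : 0 < Q * lx := by positivity
  have h1 : lx * T ≤ L * T := mul_le_mul_of_nonneg_right hlxL hT
  have h2 : ε * (Q * lx) ≤ ε0 * (Q * lx) := mul_le_mul_of_nonneg_right hε0 hQlx.le
  have h3 : 0 ≤ ε * (Q * lx) := by positivity
  nlinarith

lemma num_fin2 {ε ε0 lx L Q T P P' S2 r1 r2 : ℝ} (hε : 0 < ε) (hε1 : ε ≤ 1) (hε0 : ε ≤ ε0)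
    (hlx0 : 0 < lx) (hQ : 0 < Q)
    (hlxL : lx ≤ L) (hLlx : L ≤ lx + 1) (hlx : 40 ≤ ε / 64 * lx)
    (hT : 0 ≤ T) (hP' : 0 ≤ P') (hge : L * T + P' ≤ S2) (hup : S2 ≤ (2 + ε / 5) * Q * lx)
    (hlow : (2 - ε / 5) * Q * lx ≤ S2) (hle : S2 ≤ (2 * L - lx) * T + P + (r1 + r2))
    (h1 : r1 ≤ ε / 64 * (Q * lx)) (h2 : r2 ≤ ε / 64 * (Q * lx)) :
    (2 - ε0) * Q * lx ≤ lx * T + P := by
  have hQlx : 0 < Q * lx := by positivity
  have hThle : T ≤ 3 * Q := by
    have h1 : lx * T ≤ 3 * Q * lx := by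
      have h2 : lx * T ≤ L * T := mul_le_mul_of_nonneg_right hlxL hT
      have h3 : (2 + ε / 5) * Q * lx ≤ 3 * Q * lx := by
        have : (2 + ε / 5) * (Q * lx) ≤ 3 * (Q * lx) :=
          mul_le_mul_of_nonneg_right (by linarith) hQlx.le
        linarith
      linarith
    have h4 : T * lx ≤ (3 * Q) * lx := by linarith
    exact le_of_mul_le_mul_right h4 hlx0
  have h5 : (2 * L - lx) * T ≤ lx * T + ε / 64 * (Q * lx) := by
    have h6 : (2 * L - lx) * T ≤ (lx + 2) * T :=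
      mul_le_mul_of_nonneg_right (by linarith) hT
    have h7 : 6 * Q ≤ ε / 64 * (Q * lx) := by
      have : (6:ℝ) ≤ ε / 64 * lx := by linarith
      have := mul_le_mul_of_nonneg_left this hQ.le
      linarith
    linarith
  have h13 : ε * (Q * lx) ≤ ε0 * (Q * lx) := mul_le_mul_of_nonneg_right hε0 hQlx.le
  have h15 : 0 ≤ ε * (Q * lx) := by positivity
  nlinarith

lemma num_err {ε lx L x z xr T : ℝ} (hε : 0 < ε) (hlx0 : 0 < lx) (hL : 3 * L ^ 2 ≤ 12 * lx ^ 2)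
    (hz : 0 < z) (hxr : 0 < xr) (hzx : xr / 2 ≤ z) (hlx : 768 * lx ≤ ε / 64 * xr)
    (hT : 0 ≤ T) : 3 * L ^ 2 * (2 * T / z) ≤ ε / 1000 * lx * T := by
  have h2 : 2 * T / z ≤ 4 * T / xr := by
    rw [div_le_div_iff₀ hz hxr]
    have := mul_le_mul_of_nonneg_left hzx hT
    linarith
  calc 3 * L ^ 2 * (2 * T / z) ≤ 12 * lx ^ 2 * (4 * T / xr) :=
        mul_le_mul hL h2 (by positivity) (by positivity)
    _ = (48 * lx / xr) * (lx * T) := by ring
    _ ≤ (ε / 1000) * (lx * T) := by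
        apply mul_le_mul_of_nonneg_right _ (by positivity)
        rw [div_le_iff₀ hxr]
        have : 0 < ε * xr := by positivity
        linarith
    _ = ε / 1000 * lx * T := by ring

lemma num_err2 {ε lx L x14 x12 sq : ℝ} (hε : 0 < ε) (hlx0 : 0 < lx) (hL : 3 * L ^ 2 ≤ 12 * lx ^ 2)
    (hx14 : 0 < x14) (hx12 : 0 < x12) (hsq0 : 0 ≤ sq) (hsq : sq ≤ 2 * x12)
    (hlx : 768 * lx ≤ ε / 64 * x14) : 3 * L ^ 2 * sq ≤ ε / 2000 * lx * (x14 * x12) := by
  calc 3 * L ^ 2 * sq ≤ 12 * lx ^ 2 * (2 * x12) :=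
        mul_le_mul hL hsq hsq0 (by positivity)
    _ = (24 * lx) * (lx * x12) := by ring
    _ ≤ (ε / 2000 * x14) * (lx * x12) := by
        apply mul_le_mul_of_nonneg_right _ (by positivity)
        have : 0 < ε * x14 := by positivity
        linarith
    _ = _ := by ring

lemma num_err3 {ε lx L Y φ Q z xr xh : ℝ} (hε : 0 < ε) (hlx0 : 0 < lx)
    (hL : 3 * L ^ 2 ≤ 12 * lx ^ 2) (hz : 0 < z) (hxh : 0 < xh) (hQ : 0 < Q)
    (hzx : xr / 2 ≤ z) (hxhh : xh * xh = xr) (hlx : 768 * lx ≤ ε / 64 * xh) (hY0 : 0 ≤ Y)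
    (hY : Y = Q * φ) (hφ : φ ≤ xh) : 3 * L ^ 2 * (2 * Y / z) ≤ ε / 64 * (Q * lx) := by
  have hQY : Y ≤ Q * xh := by
    rw [hY]
    exact mul_le_mul_of_nonneg_left hφ hQ.le
  have h2 : 2 * Y / z ≤ 4 * Q / xh := by
    rw [div_le_div_iff₀ hz hxh]
    have h3 : 2 * Y * xh ≤ 2 * (Q * xh) * xh := by
      apply mul_le_mul_of_nonneg_right _ hxh.le
      linarith
    have h4 : 2 * (Q * xh) * xh = 4 * Q * (xr / 2) := by
      rw [← hxhh]; ring
    have h5 : 4 * Q * (xr / 2) ≤ 4 * Q * z := mul_le_mul_of_nonneg_left hzx (by positivity)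
    linarith
  calc 3 * L ^ 2 * (2 * Y / z) ≤ 12 * lx ^ 2 * (4 * Q / xh) :=
        mul_le_mul hL h2 (by positivity) (by positivity)
    _ = (48 * lx / xh) * (Q * lx) := by ring
    _ ≤ (ε / 64) * (Q * lx) := by
        apply mul_le_mul_of_nonneg_right _ (by positivity)
        rw [div_le_iff₀ hxh]
        linarith

theorem selbergAP : SelbergAP := by
  intro ε0 hε0
  set ε : ℝ := min ε0 1 with hεdef
  have hε : 0 < ε := lt_min hε0 one_pos
  have hε1 : ε ≤ 1 := min_le_right _ _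
  have hεε0 : ε ≤ ε0 := min_le_left _ _
  obtain ⟨C₁, hC1, hRS⟩ := rough_sum
  obtain ⟨C₂, hC2⟩ := Pool.Agent.Helper601.Mertens.mertens_log
  have hC20 : 0 ≤ C₂ := (abs_nonneg _).trans (hC2 1 le_rfl)
  have hC1pos : 0 < C₁ := by linarith
  set κ : ℝ := ε / (8000 * C₁) with hκdef
  have hκ : 0 < κ := by positivity
  have hκC : κ * C₁ = ε / 8000 := by rw [hκdef]; field_simp
  have hκ1 : κ ≤ ε / 8000 := by
    rw [← hκC]; exact le_mul_of_one_le_right hκ.le hC1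
  obtain ⟨s, hs1, hsκ, z₀, hz₀, hz⟩ := flap κ hκ
  have hs0 : (0:ℝ) < s := by exact_mod_cast hs1
  have hs8000 : (8000:ℝ) ≤ s := by
    rw [div_le_iff₀ hs0] at hsκ
    exact aux8000 κ s hs0 (by linarith) hsκ
  set ρ : ℝ := 1 / (s:ℝ) ^ 4 with hρdef
  have hρ : 0 < ρ := by positivity
  have hsinv : 1 / (s:ℝ) ≤ ε / 8000 := hsκ.trans hκ1
  set t : ℝ := 1 / (s:ℝ) with htdef
  have ht0 : 0 < t := by positivity
  have hts : t * s = 1 := by rw [htdef]; field_simp
  have hρt : ρ = t ^ 4 := by rw [hρdef, htdef]; field_simp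
  have ht1 : t ≤ 1 / 8000 := hsinv.trans (by linarith)
  have ht3 : t ^ 3 ≤ 1 / 64 := by
    calc t ^ 3 ≤ (1 / 8000) ^ 3 := pow_le_pow_left₀ ht0.le ht1 3
      _ ≤ 1 / 64 := by norm_num
  have ht43 : t ^ 4 ≤ t ^ 3 := pow_le_pow_of_le_one ht0.le (by linarith) (by norm_num)
  have ht4t : t ^ 4 ≤ t := by
    calc t ^ 4 ≤ t ^ 1 := pow_le_pow_of_le_one ht0.le (by linarith) (by norm_num)
      _ = t := pow_one t
  have hρ1 : ρ ≤ 1 / 64 := by rw [hρt]; linarith
  set κ' : ℝ := κ / (s:ℝ) ^ 8 with hκ'def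
  have hκ' : 0 < κ' := by positivity
  have hκ't : κ' = κ * t ^ 8 := by rw [hκ'def, htdef]; field_simp
  -- PNT
  have hpnt : ∀ᶠ x : ℝ in atTop, (1 - ε / 64) * x ≤ Chebyshev.theta x ∧
      Chebyshev.theta x ≤ (1 + ε / 64) * x := by
    have h := Pool.Agent.Cov.PNT.theta_div_tendsto.eventually (lt_mem_nhds
      (show 1 - ε / 64 < (1:ℝ) by linarith))
    have h' := Pool.Agent.Cov.PNT.theta_div_tendsto.eventually (gt_mem_nhds
      (show (1:ℝ) < 1 + ε / 64 by linarith))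
    filter_upwards [h, h', eventually_gt_atTop 0] with x h1 h1' h2
    rw [lt_div_iff₀ h2] at h1
    rw [div_lt_iff₀ h2] at h1'
    exact ⟨h1.le, h1'.le⟩
  obtain ⟨x₁, hx₁⟩ := eventually_atTop.1 hpnt
  set B : ℝ := max (max z₀ 3) (max (4 / κ') (max x₁ 3)) with hBdef
  have hlarge := large ρ (ε / 64) (6 * C₂ + 40) (B + 1) hρ (by positivity)
  have hlarge' := large (ρ / 2) (ε / 64) 1 3 (by positivity) (by positivity)
  obtain ⟨X₀, hX₀⟩ := eventually_atTop.1 (hlarge.and hlarge')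
  refine ⟨ρ / 2, by positivity, by linarith, by linarith, max X₀ 2, le_max_right _ _, ?_⟩
  intro X Y k a w hX hYX hk hak hXY hw
  obtain ⟨⟨g1, g2, g3, g4, g5, g6, g7, g8⟩, ⟨-, l2, l3, -, -, -, l7, -⟩⟩ :=
    hX₀ X ((le_max_left _ _).trans hX)
  clear hX₀ hlarge hlarge'
  set x : ℝ := (X:ℝ) with hx
  set lx : ℝ := Real.log x with hlx
  have hx0 : 0 < x := by linarith
  have hxr0 : 0 < x ^ ρ := by positivity
  have hxh0 : 0 < x ^ (ρ / 2) := by positivity
  have hxhh : x ^ (ρ / 2) * x ^ (ρ / 2) = x ^ ρ := by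
    rw [← Real.rpow_add hx0]; congr 1; ring
  set z : ℕ := ⌊x ^ ρ⌋₊ with hzdef
  have hzle : (z:ℝ) ≤ x ^ ρ := Nat.floor_le hxr0.le
  have hzge : x ^ ρ / 2 ≤ z := by
    have := Nat.sub_one_lt_floor (x ^ ρ)
    rw [← hzdef] at this
    linarith
  have hBz : B ≤ z := by linarith
  have hzz₀ : z₀ ≤ z := by
    have : (z₀:ℝ) ≤ z := ((le_max_left _ _).trans (le_max_left _ _)).trans hBz
    exact_mod_cast this
  have hz3 : 3 ≤ z := by
    have : (3:ℝ) ≤ z := ((le_max_right _ _).trans (le_max_left _ _)).trans hBz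
    exact_mod_cast this
  have hzκ : 4 / κ' ≤ z := ((le_max_left _ _).trans (le_max_right _ _)).trans hBz
  have hzx₁ : x₁ ≤ z := (((le_max_left _ _).trans (le_max_right _ _)).trans
    (le_max_right _ _)).trans hBz
  have hz3r : (3:ℝ) ≤ z := by exact_mod_cast hz3
  have hz0r : (0:ℝ) < z := by linarith
  -- k
  have hk0 : (0:ℝ) < k := by exact_mod_cast hk
  have hx1ρ : 0 < x ^ (1 - ρ / 2) := by positivity
  have hYxr : (Y:ℝ) ≤ x := by rw [hx]; exact_mod_cast hYX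
  have hkx : (k:ℝ) ≤ x ^ (ρ / 2) := by
    have h1 : (k:ℝ) * x ^ (1 - ρ / 2) ≤ x ^ (ρ / 2) * x ^ (1 - ρ / 2) := by
      rw [← Real.rpow_add hx0]
      have : ρ / 2 + (1 - ρ / 2) = 1 := by ring
      rw [this, Real.rpow_one]
      exact hXY.trans hYxr
    exact le_of_mul_le_mul_right h1 hx1ρ
  have hxh6 : 6 ≤ x ^ (ρ / 2) := by linarith
  have hkz : k < z := by
    have : (k:ℝ) < z := by
      have h1 : x ^ (ρ / 2) * 6 ≤ x ^ ρ := by
        rw [← hxhh]; exact mul_le_mul_of_nonneg_left hxh6 hxh0.le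
      linarith
    exact_mod_cast this
  have hφ0 : (0:ℝ) < k.totient := by exact_mod_cast Nat.totient_pos.2 hk
  have hφk : (k.totient:ℝ) ≤ k := by exact_mod_cast Nat.totient_le k
  -- logs
  have hlxr : Real.log (x ^ ρ) = ρ * lx := Real.log_rpow hx0 ρ
  have hlz_le : Real.log z ≤ ρ * lx := by
    rw [← hlxr]; exact Real.log_le_log hz0r hzle
  have hl2 : Real.log 2 ≤ 1 := by have := Real.log_two_lt_d9; linarith
  have hl20 : 0 ≤ Real.log 2 := Real.log_nonneg (by norm_num)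
  have hlz_ge : ρ * lx / 2 ≤ Real.log z := by
    have h1 : Real.log (x ^ ρ / 2) ≤ Real.log z := Real.log_le_log (by positivity) hzge
    rw [Real.log_div hxr0.ne' (by norm_num), hlxr] at h1
    linarith
  have hlz0 : 0 < Real.log z := Real.log_pos (by linarith)
  -- Y
  have hkx1 : 0 < (k:ℝ) * x ^ (1 - ρ / 2) := by positivity
  have hY0 : (0:ℝ) < Y := lt_of_lt_of_le hkx1 hXY
  have hY1 : 1 ≤ Y := by exact_mod_cast hY0
  have hlY : Real.log k + (1 - ρ / 2) * lx ≤ Real.log Y := by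
    rw [hlx, ← Real.log_rpow hx0, ← Real.log_mul hk0.ne' hx1ρ.ne']
    exact Real.log_le_log hkx1 hXY
  have hlk0 : 0 ≤ Real.log k := Real.log_natCast_nonneg k
  -- L
  set L : ℝ := Real.log ((X + Y : ℕ) : ℝ) with hLdef
  have hNr : ((X + Y : ℕ) : ℝ) = x + Y := by push_cast; rfl
  have hN0 : (0:ℝ) < ((X + Y : ℕ) : ℝ) := by rw [hNr]; linarith
  have hlxL : lx ≤ L := by
    rw [hLdef, hNr]; exact Real.log_le_log hx0 (by linarith)
  have hLlx : L ≤ lx + Real.log 2 := by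
    rw [hLdef, hNr, hlx, ← Real.log_mul hx0.ne' (by norm_num)]
    exact Real.log_le_log (by linarith) (by linarith)
  have hlx0 : 0 < lx := by linarith
  have hT : t ^ 3 * lx ≤ lx / 64 := by
    have := mul_le_mul_of_nonneg_right ht3 hlx0.le
    linarith
  have hRT : ρ * lx ≤ t ^ 3 * lx := by
    apply mul_le_mul_of_nonneg_right _ hlx0.le
    rw [hρt]; exact ht43
  have hR : ρ * lx ≤ lx / 64 := hRT.trans hT
  have hεlx : 0 < ε * lx := mul_pos hε hlx0
  have hL2 : L ≤ 2 * lx := by linarith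
  have hL0 : 0 < L := by linarith
  -- W
  set W : ℕ := z ^ s with hWdef
  have hW1 : 1 ≤ W := Nat.one_le_pow _ _ (by omega)
  have hzW : z ≤ W := by
    calc z = z ^ 1 := (pow_one z).symm
      _ ≤ z ^ s := Nat.pow_le_pow_right (by omega) hs1
  have hWr1 : (1:ℝ) ≤ W := by exact_mod_cast hW1
  have hW0 : (0:ℝ) < W := by linarith
  have hlW : Real.log W ≤ t ^ 3 * lx := by
    rw [hWdef]
    push_cast
    rw [Real.log_pow]
    have h1 : (s:ℝ) * Real.log z ≤ s * (ρ * lx) := mul_le_mul_of_nonneg_left hlz_le hs0.le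
    have h2 : (s:ℝ) * (ρ * lx) = t ^ 3 * lx := by
      rw [hρt]
      calc (s:ℝ) * (t ^ 4 * lx) = (t * s) * (t ^ 3 * lx) := by ring
        _ = t ^ 3 * lx := by rw [hts, one_mul]
    linarith
  -- D
  set D : ℕ := Y / (k * W + 1) with hDdef
  have hDY : D * (k * W + 1) ≤ Y := Nat.div_mul_le_self _ _
  have hl4 : Real.log 4 ≤ 2 := by
    have : (4:ℝ) = 2 ^ 2 := by norm_num
    rw [this, Real.log_pow]; push_cast; linarith
  have hkW1 : 1 ≤ k * W := Nat.mul_pos (by omega) (by omega)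
  have hkW0 : (0:ℝ) < k * W := by positivity
  have hWY : k * W + 1 ≤ Y := by
    have h1 : Real.log ((k * W + 1 : ℕ) : ℝ) ≤ Real.log Y := by
      have h2 : Real.log ((k * W + 1 : ℕ) : ℝ) ≤ Real.log 2 + (Real.log k + Real.log W) := by
        rw [← Real.log_mul hk0.ne' hW0.ne', ← Real.log_mul (by norm_num) hkW0.ne']
        apply Real.log_le_log (by positivity)
        have : (1:ℝ) ≤ k * W := by exact_mod_cast hkW1
        push_cast; linarith
      linarith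
    have h2 := (Real.log_le_log_iff (by positivity) hY0).1 h1
    exact_mod_cast h2
  have hD1 : 1 ≤ D := by
    rw [hDdef, Nat.le_div_iff_mul_le (by omega)]; omega
  have hD0 : (0:ℝ) < D := by exact_mod_cast hD1
  have hDge : (Y:ℝ) ≤ 4 * (k * W * D) := by
    have h1 : Y < (D + 1) * (k * W + 1) := by
      have := Nat.lt_div_mul_add (a := Y) (b := k * W + 1) (by omega)
      rw [← hDdef] at this
      exact lt_of_lt_of_eq this (by ring)
    have h2 : Y ≤ 4 * (k * W * D) := by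
      calc Y ≤ (D + 1) * (k * W + 1) := h1.le
        _ ≤ (2 * D) * (2 * (k * W)) := Nat.mul_le_mul (by omega) (by omega)
        _ = 4 * (k * W * D) := by ring
    exact_mod_cast h2
  have hlD : Real.log Y - 2 - Real.log k - t ^ 3 * lx ≤ Real.log D := by
    have := Real.log_le_log hY0 hDge
    rw [Real.log_mul (by norm_num) (by positivity), Real.log_mul hkW0.ne' hD0.ne',
      Real.log_mul hk0.ne' hW0.ne'] at this
    linarith
  have hlD2 : lx - 2 * (t ^ 3 * lx) - 2 ≤ Real.log D := by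
    have : ρ / 2 * lx ≤ t ^ 3 * lx := by
      have h1 : 0 ≤ t ^ 3 * lx := by positivity
      linarith
    linarith
  have hDX : D ≤ X + Y := (Nat.div_le_self _ _).trans (by omega)
  have hLD0 : 0 ≤ L - Real.log D := by
    rw [sub_nonneg, hLdef]
    apply Real.log_le_log hD0
    exact_mod_cast hDX
  have ht3lx : 4 ≤ t ^ 3 * lx := by
    linarith
  have hLD : L - Real.log D ≤ 3 * t ^ 3 * lx := by linarith
  -- M
  set M : ℕ := (X + Y) / (D + 1) with hMdef
  have hM : X + Y < (D + 1) * (M + 1) := by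
    have := Nat.lt_div_mul_add (a := X + Y) (b := D + 1) (by omega)
    rw [← hMdef] at this
    exact lt_of_lt_of_eq this (by ring)
  have hMD : M ≤ D := by
    have h1 : X + Y < (D + 1) * (D + 1) := by
      have h2 : L < 2 * Real.log D := by linarith
      have h3 : 2 * Real.log D = Real.log ((D * D : ℕ) : ℝ) := by
        push_cast
        rw [Real.log_mul hD0.ne' hD0.ne']; ring
      rw [h3, hLdef] at h2
      have h4 := (Real.log_lt_log_iff hN0 (by positivity)).1 h2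
      have h5 : X + Y < D * D := by exact_mod_cast h4
      exact lt_of_lt_of_le h5 (Nat.mul_le_mul (by omega) (by omega))
    rw [hMdef]
    have := Nat.div_lt_of_lt_mul (m := X + Y) (n := D + 1) (k := D + 1) h1
    omega
  have hWM : W ≤ M := by
    rw [hMdef, Nat.le_div_iff_mul_le (by omega)]
    have h1 : W * (D + 1) ≤ W * (2 * D) := Nat.mul_le_mul_left _ (by omega)
    have h2 : W * (2 * D) = 2 * (D * W) := by ring
    have h3 : D * W ≤ D * (k * W + 1) := by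
      apply Nat.mul_le_mul_left
      have : W ≤ k * W := Nat.le_mul_of_pos_left W (by omega)
      omega
    omega
  have hzM : z ≤ M := hzW.trans hWM
  have hM0 : (0:ℝ) < M := by exact_mod_cast (by omega : 0 < M)
  have hlM : Real.log M ≤ L - Real.log D := by
    have h1 : (M:ℝ) * D ≤ ((X + Y : ℕ) : ℝ) := by
      have : M * (D + 1) ≤ X + Y := Nat.div_mul_le_self _ _
      have h2 : M * D ≤ X + Y := (Nat.mul_le_mul_left M (by omega : D ≤ D + 1)).trans this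
      exact_mod_cast h2
    have := Real.log_le_log (by positivity) h1
    rw [Real.log_mul hM0.ne' hD0.ne'] at this
    linarith
  -- fundamental lemma
  set V : ℝ := VV z with hVdef
  have hV0 : 0 < V := VV_pos z
  have hVl : V ≤ 1 / Real.log z := VV_upper z (by omega)
  set U : ℝ := V / k.totient with hUdef
  have hU0 : 0 < U := by positivity
  have hF : Dist z W k κ' U := by
    intro A Y' a' ha' hWY'
    have h := hz z hzz₀ k a' A Y' hk hkz ha' hWY'
    have e1 : U * (Y':ℝ) = V * (Y' / k.totient) := by rw [hUdef]; ring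
    have e2 : κ' * U * (Y':ℝ) = κ / (s:ℝ) ^ 8 * (V * (Y' / k.totient)) := by
      rw [hUdef, hκ'def]; ring
    rw [e1, e2]
    exact h
  have hF1 : Dist z W 1 κ' V := by
    intro A Y' a' ha' hWY'
    have h := hz z hzz₀ 1 a' A Y' le_rfl (by omega) ha' hWY'
    rw [Nat.totient_one, Nat.cast_one, div_one] at h
    rw [mul_assoc]
    exact h
  have hs8 : (1:ℝ) ≤ (s:ℝ) ^ 8 := one_le_pow₀ (by linarith)
  have hκ'κ : κ' ≤ κ := by
    rw [hκ'def]; exact div_le_self hκ.le hs8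
  have hκ'1 : κ' ≤ 1 := by linarith
  have hE : κ' + 2 / (W:ℝ) ≤ 2 * κ' := by
    have h1 : (z:ℝ) ≤ W := by exact_mod_cast hzW
    have h2 : 4 / κ' ≤ W := hzκ.trans h1
    rw [div_le_iff₀ hκ'] at h2
    have h3 : 2 / (W:ℝ) ≤ κ' := by
      rw [div_le_iff₀ hW0]
      linarith
    linarith
  have hm1 := model hκ'.le hκ'1 hU0.le hW1 hk hkz hF X Y (X + Y) D M a hak le_rfl hD1 hDY hM hMD
    hLdef
  have hD1Y : D * (1 * W + 1) ≤ X + Y := by
    have h3 : D * (1 * W + 1) ≤ D * (k * W + 1) := by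
      apply Nat.mul_le_mul_left
      have : W ≤ k * W := Nat.le_mul_of_pos_left W (by omega)
      omega
    omega
  have hm2 := model hκ'.le hκ'1 hV0.le hW1 le_rfl (by omega : 1 < z) hF1 0 (X + Y) (X + Y) D M 1
    (Nat.coprime_one_right 1) (by omega) hD1 hD1Y (by omega) hMD hLdef
  rw [SSk_one] at hm2
  have hRS1 := hRS z (X + Y) hz3 (by omega)
  have hRS2 := hRS z M hz3 hzM
  rw [← hLdef] at hRS1
  set E : ℝ := κ' + 2 / (W:ℝ) with hEdef
  have hE0 : 0 ≤ E := by positivity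
  have hE1 : E ≤ 1 := by linarith
  -- error terms
  have hlzinv : 1 / Real.log z ≤ 2 / (t ^ 4 * lx) := by
    rw [div_le_div_iff₀ hlz0 (by positivity)]
    rw [hρt] at hlz_ge
    linarith
  have hVle : V ≤ 2 / (t ^ 4 * lx) := hVl.trans hlzinv
  have ht4lx : 0 < t ^ 4 * lx := by positivity
  have hR1 : ∑ d ∈ (Icc 1 (X + Y)).filter (Rough z), (1:ℝ) / d ≤ 4 * C₁ / t ^ 4 := by
    refine hRS1.trans ?_
    have h1 : L / Real.log z ≤ 4 / t ^ 4 := by
      have : L / Real.log z = L * (1 / Real.log z) := by ring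
      rw [this]
      calc L * (1 / Real.log z) ≤ (2 * lx) * (2 / (t ^ 4 * lx)) :=
            mul_le_mul hL2 hlzinv (by positivity) (by positivity)
        _ = 4 / t ^ 4 := by field_simp; norm_num
    calc C₁ * (L / Real.log z) ≤ C₁ * (4 / t ^ 4) := mul_le_mul_of_nonneg_left h1 hC1pos.le
      _ = 4 * C₁ / t ^ 4 := by ring
  have hR2 : ∑ m ∈ (Icc 1 M).filter (Rough z), (1:ℝ) / m ≤ 6 * C₁ / t := by
    refine hRS2.trans ?_
    have h0 : Real.log M ≤ 3 * t ^ 3 * lx := hlM.trans hLD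
    have h1 : Real.log M / Real.log z ≤ 6 / t := by
      have : Real.log M / Real.log z = Real.log M * (1 / Real.log z) := by ring
      rw [this]
      calc Real.log M * (1 / Real.log z) ≤ (3 * t ^ 3 * lx) * (2 / (t ^ 4 * lx)) :=
            mul_le_mul h0 hlzinv (by positivity) (by positivity)
        _ = 6 / t := by field_simp; norm_num
    calc C₁ * (Real.log M / Real.log z) ≤ C₁ * (6 / t) := mul_le_mul_of_nonneg_left h1 hC1pos.le
      _ = 6 * C₁ / t := by ring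
  set G1 : ℝ := ∑ d ∈ (Icc 1 (X + Y)).filter (Rough z), (1:ℝ) / d with hG1
  set G2 : ℝ := ∑ m ∈ (Icc 1 M).filter (Rough z), (1:ℝ) / m with hG2
  have hG10 : 0 ≤ G1 := sum_nonneg fun _ _ => by positivity
  have hG20 : 0 ≤ G2 := sum_nonneg fun _ _ => by positivity
  have hA1 : E * V * L ^ 2 * G1 ≤ 64 * (κ * C₁) * lx := by
    have hE2 : E ≤ 2 * (κ * t ^ 8) := by rw [← hκ't]; exact hE
    have hLsq : L ^ 2 ≤ (2 * lx) ^ 2 := pow_le_pow_left₀ hL0.le hL2 2
    calc E * V * L ^ 2 * G1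
        ≤ (2 * (κ * t ^ 8)) * (2 / (t ^ 4 * lx)) * (2 * lx) ^ 2 * (4 * C₁ / t ^ 4) := by
          gcongr
      _ = 64 * (κ * C₁) * lx := by field_simp; norm_num
  have hA2 : (1 + E) * V * (L - Real.log D) ^ 2 * G2 ≤ 216 * (κ * C₁) * lx := by
    have hLsq : (L - Real.log D) ^ 2 ≤ (3 * t ^ 3 * lx) ^ 2 := pow_le_pow_left₀ hLD0 hLD 2
    calc (1 + E) * V * (L - Real.log D) ^ 2 * G2
        ≤ (1 + 1) * (2 / (t ^ 4 * lx)) * (3 * t ^ 3 * lx) ^ 2 * (6 * C₁ / t) := by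
          gcongr
      _ = 216 * (t * C₁) * lx := by field_simp; norm_num
      _ ≤ 216 * (κ * C₁) * lx := by gcongr
  set Bd : ℝ := E * V * L ^ 2 * G1 + (1 + E) * V * (L - Real.log D) ^ 2 * G2 with hBd
  have hBd1 : Bd ≤ 7 * ε / 200 * lx := by
    have : Bd ≤ 280 * (κ * C₁) * lx := by linarith
    rw [hκC] at this
    linarith
  set S1 : ℝ := SS L z 0 (X + Y) with hS1
  set S2 : ℝ := SSk L z X Y k a with hS2
  have hcmp : |k.totient * (S2 / Y) - S1 / ((X + Y : ℕ) : ℝ)| ≤ 7 * ε / 100 * lx := by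
    have e1 : (k.totient : ℝ) * (E * U * L ^ 2 * G1 + (1 + E) * U * (L - Real.log D) ^ 2 * G2) =
        Bd := by
      rw [hUdef, hBd]
      field_simp
    have h1 : |k.totient * (S2 / Y) - V * MS L z (X + Y) D| ≤ Bd := by
      have e2 : k.totient * (S2 / Y) - V * MS L z (X + Y) D =
          k.totient * (S2 / Y - U * MS L z (X + Y) D) := by
        rw [hUdef]; field_simp
      rw [e2, abs_mul, abs_of_pos hφ0, ← e1]
      exact mul_le_mul_of_nonneg_left hm1 hφ0.le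
    have h2 : |S1 / ((X + Y : ℕ) : ℝ) - V * MS L z (X + Y) D| ≤ Bd := hm2
    rw [abs_le] at h1 h2 ⊢
    constructor <;> linarith [h1.1, h1.2, h2.1, h2.2]
  -- main scale
  have hzz : z * z ≤ X + Y := by
    have h1 : Real.log ((z * z : ℕ) : ℝ) ≤ L := by
      push_cast
      rw [Real.log_mul hz0r.ne' hz0r.ne']
      linarith
    rw [hLdef] at h1
    have := (Real.log_le_log_iff (by positivity) hN0).1 h1
    exact_mod_cast this
  have hlow := lower (ε / 64) C₂ L z (X + Y) (by omega) hzz (by positivity) (by linarith) hC2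
    (fun y hy => (hx₁ y (hzx₁.trans hy)).1) hLdef
  have hupp := SS_upper (ε / 64) C₂ L z (X + Y) (by omega) hzz (by positivity) (by linarith) hC2
    (fun y hy => (hx₁ y (hzx₁.trans hy)).2) hLdef
  rw [← hS1] at hlow hupp
  set N : ℝ := ((X + Y : ℕ) : ℝ) with hNdef
  have hxN : x ≤ N := by rw [hNr]; linarith only [hY0]
  have hz14 : (z:ℝ) ≤ x ^ (1/4 : ℝ) :=
    hzle.trans (Real.rpow_le_rpow_of_exponent_le (by linarith only [g1]) (by linarith only [hρ1]))
  have hx140 : 0 < x ^ (1/4 : ℝ) := by positivity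
  have hlx14 : lx ≤ x ^ (1/4 : ℝ) / 4 := by
    have h2 : ε / 64 * x ^ (1/4 : ℝ) ≤ 1 / 64 * x ^ (1/4 : ℝ) :=
      mul_le_mul_of_nonneg_right (by linarith only [hε1]) hx140.le
    linarith only [h2, g8, hlx0]
  have hx12 : x ^ (1/4 : ℝ) * x ^ (1/4 : ℝ) ≤ x := by
    rw [← Real.rpow_add hx0]
    calc x ^ ((1/4 : ℝ) + 1/4) ≤ x ^ (1:ℝ) :=
          Real.rpow_le_rpow_of_exponent_le (by linarith only [g1]) (by norm_num)
      _ = x := Real.rpow_one x
  have hLx14 : L ≤ x ^ (1/4 : ℝ) / 2 := by linarith only [hL2, hlx14]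
  have hzL : 2 * z * L ≤ N := by
    have h1 : (z:ℝ) * L ≤ x ^ (1/4 : ℝ) * (x ^ (1/4 : ℝ) / 2) :=
      mul_le_mul hz14 hLx14 hL0.le hx140.le
    linarith only [h1, hx12, hxN]
  have hm2' : Real.log z ≤ ε / 8000 * lx := by
    have h1 : ρ * lx ≤ (ε / 8000) * lx := by
      apply mul_le_mul_of_nonneg_right _ hlx0.le
      rw [hρt]; exact ht4t.trans hsinv
    exact hlz_le.trans h1
  have hC3 : 6 * C₂ + 40 ≤ ε / 64 * lx := g6
  -- error terms with powers
  have hN12 : √N ≤ 2 * x ^ (1/2 : ℝ) := by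
    rw [← Real.sqrt_eq_rpow]
    have : (2:ℝ) * √x = √(4 * x) := by
      rw [Real.sqrt_mul (by norm_num)]
      congr 1
      rw [show (4:ℝ) = 2 ^ 2 by norm_num, Real.sqrt_sq (by norm_num)]
    rw [this]
    apply Real.sqrt_le_sqrt
    rw [hNr]; linarith only [hYxr, hx0]
  have h3L2 : 3 * L ^ 2 ≤ 12 * lx ^ 2 := by
    have := pow_le_pow_left₀ hL0.le hL2 2
    linarith only [this]
  have hlxz : 768 * lx ≤ ε / 64 * x ^ ρ := by
    have h1 : x ^ (ρ / 2) ≤ x ^ ρ :=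
      Real.rpow_le_rpow_of_exponent_le (by linarith only [g1]) (by linarith only [hρ])
    have h2 : ε / 64 * x ^ (ρ / 2) ≤ ε / 64 * x ^ ρ := mul_le_mul_of_nonneg_left h1 (by positivity)
    linarith only [h2, l7]
  have hx12p : 0 < x ^ (1/2 : ℝ) := by positivity
  have herr2 : 3 * L ^ 2 * √N ≤ ε / 2000 * lx * (x ^ (1/4 : ℝ) * x ^ (1/2 : ℝ)) :=
    num_err2 hε hlx0 h3L2 hx140 hx12p (Real.sqrt_nonneg _) hN12 g8
  have hx34 : x ^ (1/4 : ℝ) * x ^ (1/2 : ℝ) ≤ x ^ (1 - ρ / 2) := by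
    rw [← Real.rpow_add hx0]
    exact Real.rpow_le_rpow_of_exponent_le (by linarith only [g1])
      (by norm_num; linarith only [hρ1])
  have hxx : x ^ (1 - ρ / 2) ≤ x := by
    calc x ^ (1 - ρ / 2) ≤ x ^ (1:ℝ) :=
          Real.rpow_le_rpow_of_exponent_le (by linarith only [g1]) (by linarith only [hρ])
      _ = x := Real.rpow_one x
  have hS1low : (2 - ε / 16) * lx ≤ S1 / N :=
    num_low hε hε1 hN0 hlx0 hlxL hlow hzL hm2' hC20 hC3
  have hS1up : S1 / N ≤ (2 + ε / 10) * lx := by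
    refine num_up hε hε1 hN0 hlx0 hz0r (by linarith only [hlxL, g4]) (by linarith only [hLlx, hl2])
      hupp (num_err (x := x) hε hlx0 h3L2 hz0r hxr0 hzge hlxz hN0.le) ?_ ?_ hm2' hC20 hC3
    · refine herr2.trans ?_
      apply mul_le_mul_of_nonneg_left _ (by positivity)
      exact hx34.trans (hxx.trans hxN)
    · have h1 : L * L ≤ (x ^ (1/4 : ℝ) / 2) * (x ^ (1/4 : ℝ) / 2) :=
        mul_le_mul hLx14 hLx14 hL0.le (by positivity)
      nlinarith only [h1, hx12, hxN, hx0]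
  have hS2b := num_S2 hε hlx0 hφ0 hY0 hcmp hS1low hS1up
  have hzX : z ≤ X := by
    have : (z:ℝ) ≤ x := by
      calc (z:ℝ) ≤ x ^ ρ := hzle
        _ ≤ x ^ (1:ℝ) :=
          Real.rpow_le_rpow_of_exponent_le (by linarith only [g1]) (by linarith only [hρ1])
        _ = x := Real.rpow_one x
    have h' : (z:ℝ) ≤ (X:ℝ) := this
    exact_mod_cast h'
  have hX1 : 1 ≤ X := by omega
  have hge := SSk_ge (L := L) (z := z) (X := X) (Y := Y) (k := k) (a := a) hX1 hzX le_rfl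
  have hle := SSk_le (L := L) (z := z) (X := X) (Y := Y) (k := k) (a := a) (by omega) hX1 le_rfl
  rw [← hS2] at hge hle
  have hTh0 := Th_nonneg X Y k a
  have hzw : z ≤ w := by
    have h1 : (z:ℝ) ≤ w := by
      refine hzle.trans ?_
      have e : 2 * (ρ / 2) = ρ := by ring
      rw [e] at hw
      exact hw
    exact_mod_cast h1
  have hPSw : PSk w X Y k a ≤ PSk z X Y k a := PSk_anti hzw
  have hYφ0 : 0 < (Y:ℝ) / k.totient := by positivity
  constructor
  · have := num_fin1 hε hεε0 hlx0 hYφ0 hlxL hTh0 hge hS2b.1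
    linarith only [this, hPSw]
  · rw [mul_add] at hle
    refine num_fin2 hε hε1 hεε0 hlx0 hYφ0 hlxL (by linarith only [hLlx, hl2])
      (by linarith only [hC3, hC20]) hTh0 (PSk_nonneg z X Y k a) hge hS2b.1 hS2b.2 hle ?_ ?_
    · exact num_err3 hε hlx0 h3L2 hz0r hxh0 hYφ0 hzge hxhh l7 hY0.le (by field_simp)
        (hφk.trans hkx)
    · refine herr2.trans ?_
      have hQx : x ^ (1/4 : ℝ) * x ^ (1/2 : ℝ) ≤ (Y:ℝ) / k.totient := by
        refine hx34.trans ?_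
        rw [le_div_iff₀ hφ0, mul_comm]
        exact (mul_le_mul_of_nonneg_right hφk hx1ρ.le).trans hXY
      have h11 : ε / 2000 * lx * (x ^ (1/4 : ℝ) * x ^ (1/2 : ℝ)) ≤
          ε / 2000 * lx * ((Y:ℝ) / k.totient) :=
        mul_le_mul_of_nonneg_left hQx (by positivity)
      have h12 : 0 ≤ ε * ((Y:ℝ) / k.totient * lx) := by positivity
      nlinarith only [h11, h12]

end Pool.Agent.T9h52.BT
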