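import Mathlib

/-!
# Averages over a finite group and approximate homomorphisms
-/

set_option autoImplicit false

namespace Pool.Agent.T9h52.BT.St

open Finset

variable {G : Type*} [Fintype G]

/-- the average -/
noncomputable def av (F : G → ℝ) : ℝ := (∑ b, F b) / Fintype.card G

lemma av_congr {F H : G → ℝ} (h : ∀ b, F b = H b) : av F = av H := by
  unfold av; rw [sum_congr rfl fun b _ => h b]

lemma av_add (F H : G → ℝ) : av (fun b => F b + H b) = av F + av H := by
  unfold av; rw [sum_add_distrib, add_div]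

lemma av_sub (F H : G → ℝ) : av (fun b => F b - H b) = av F - av H := by
  unfold av; rw [sum_sub_distrib, sub_div]

lemma av_neg (F : G → ℝ) : av (fun b => - F b) = - av F := by
  unfold av; rw [sum_neg_distrib, neg_div]

lemma av_const_mul (c : ℝ) (F : G → ℝ) : av (fun b => c * F b) = c * av F := by
  unfold av; rw [← mul_sum, mul_div_assoc]

lemma av_mul_const (F : G → ℝ) (c : ℝ) : av (fun b => F b * c) = av F * c := by
  unfold av; rw [← sum_mul]; ring

lemma av_mono {F H : G → ℝ} (h : ∀ b, F b ≤ H b) : av F ≤ av H := by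
  unfold av
  exact div_le_div_of_nonneg_right (sum_le_sum fun b _ => h b) (Nat.cast_nonneg _)

lemma av_nonneg {F : G → ℝ} (h : ∀ b, 0 ≤ F b) : 0 ≤ av F := by
  unfold av
  exact div_nonneg (sum_nonneg fun b _ => h b) (Nat.cast_nonneg _)

lemma av_sum {ι : Type*} (s : Finset ι) (F : ι → G → ℝ) :
    av (fun b => ∑ i ∈ s, F i b) = ∑ i ∈ s, av (F i) := by
  unfold av
  rw [sum_comm, sum_div]

lemma av_comm (F : G → G → ℝ) :
    av (fun b => av fun c => F b c) = av (fun c => av fun b => F b c) := by
  unfold av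
  rw [← sum_div, ← sum_div, sum_comm]

lemma abs_av_le (F : G → ℝ) : |av F| ≤ av fun b => |F b| := by
  unfold av
  rw [abs_div, abs_of_nonneg (Nat.cast_nonneg (α := ℝ) (Fintype.card G))]
  exact div_le_div_of_nonneg_right (abs_sum_le_sum_abs _ _) (Nat.cast_nonneg _)

section
variable [Nonempty G]

lemma card_pos : (0 : ℝ) < Fintype.card G := by exact_mod_cast Fintype.card_pos

lemma av_const (c : ℝ) : av (fun _ : G => c) = c := by
  unfold av
  rw [sum_const, card_univ, nsmul_eq_mul, mul_comm, mul_div_assoc, div_self card_pos.ne', mul_one]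

lemma av_le {F : G → ℝ} {c : ℝ} (h : ∀ b, F b ≤ c) : av F ≤ c := by
  have := av_mono h
  rwa [av_const] at this

lemma le_av {F : G → ℝ} {c : ℝ} (h : ∀ b, c ≤ F b) : c ≤ av F := by
  have := av_mono h
  rwa [av_const] at this

lemma abs_av_le_of {F : G → ℝ} {c : ℝ} (h : ∀ b, |F b| ≤ c) : |av F| ≤ c :=
  (abs_av_le F).trans (av_le h)

lemma av_abs_sq_le (F : G → ℝ) : (av fun b => |F b|) ^ 2 ≤ av fun b => F b ^ 2 := by
  unfold av
  rw [div_pow, div_le_div_iff₀ (by have := card_pos (G := G); positivity) card_pos]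
  have h := sq_sum_le_card_mul_sum_sq (s := (univ : Finset G)) (f := fun b => |F b|)
  rw [card_univ] at h
  simp only [sq_abs] at h
  have h0 := card_pos (G := G)
  nlinarith

lemma av_abs_le_sqrt {F : G → ℝ} {R : ℝ} (h : (av fun b => F b ^ 2) ≤ R) :
    (av fun b => |F b|) ≤ Real.sqrt R :=
  Real.le_sqrt_of_sq_le ((av_abs_sq_le F).trans h)

lemma av2_abs_sq_le (F : G → G → ℝ) :
    (av fun b => av fun c => |F b c|) ^ 2 ≤ av fun b => av fun c => F b c ^ 2 := by
  have h1 := av_abs_sq_le (fun b => av fun c => |F b c|)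
  have h2 : ∀ b, |(av fun c => |F b c|)| = av fun c => |F b c| := by
    intro b
    exact abs_of_nonneg (av_nonneg fun c => abs_nonneg _)
  rw [av_congr h2] at h1
  refine h1.trans (av_mono fun b => av_abs_sq_le _)

lemma av2_abs_le_sqrt {F : G → G → ℝ} {R : ℝ} (h : (av fun b => av fun c => F b c ^ 2) ≤ R) :
    (av fun b => av fun c => |F b c|) ≤ Real.sqrt R :=
  Real.le_sqrt_of_sq_le ((av2_abs_sq_le F).trans h)

end

section
variable [CommGroup G]

lemma av_mul_left (a : G) (F : G → ℝ) : av (fun b => F (a * b)) = av F := by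
  have h := Equiv.sum_comp (Equiv.mulLeft a) F
  simp only [Equiv.coe_mulLeft] at h
  unfold av
  rw [h]

lemma av_mul_right (a : G) (F : G → ℝ) : av (fun b => F (b * a)) = av F := by
  have h := Equiv.sum_comp (Equiv.mulRight a) F
  simp only [Equiv.coe_mulRight] at h
  unfold av
  rw [h]

lemma av_div_left (a : G) (F : G → ℝ) : av (fun b => F (a * b⁻¹)) = av F := by
  unfold av
  have := Equiv.sum_comp ((Equiv.inv G).trans (Equiv.mulLeft a)) F
  simpa using this

/-- The product of two functions with one translated argument. -/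
lemma av2_mul (f g : G → ℝ) : (av fun b => av fun c => f b * g (b * c)) = av f * av g := by
  have : (fun b => av fun c => f b * g (b * c)) = fun b => f b * av g := by
    funext b
    rw [av_const_mul, av_mul_left]
  rw [this, av_mul_const]

lemma av2_mul' (f g : G → ℝ) : (av fun b => av fun c => f b * g c) = av f * av g := by
  have : (fun b => av fun c => f b * g c) = fun b => f b * av g := by
    funext b
    rw [av_const_mul]
  rw [this, av_mul_const]

/-- The autocorrelation. -/
noncomputable def rho (f : G → ℝ) (a : G) : ℝ := av fun c => f (a * c) * f c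

lemma abs_rho_le {f : G → ℝ} {B : ℝ} (hf : ∀ b, |f b| ≤ B) (a : G) : |rho f a| ≤ B ^ 2 := by
  refine abs_av_le_of fun c => ?_
  rw [abs_mul, sq]
  exact mul_le_mul (hf _) (hf _) (abs_nonneg _) ((abs_nonneg _).trans (hf 1))

/-- Comparison of the autocorrelations. -/
lemma corr {u w v : G → ℝ} {κ R e : ℝ} (hκ0 : 0 ≤ κ) (hκ : κ ≤ 1 / 10)
    (hu : ∀ b, |u b| ≤ 1 + κ) (hw : ∀ b, |w b| ≤ 1 + κ) (hv : ∀ b, |v b| ≤ 1 + κ)
    (hR : (av fun b => av fun c => (u b * w (b * c) - v c) ^ 2) ≤ R)
    (he : 1 - e ≤ av fun c => v c ^ 2) (a : G) :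
    (av fun b => av fun c => |v (a * c) * v c - u b * u (a * b)|) ≤
      22 * Real.sqrt R + 40 * κ + 4 * e := by
  set x : G → G → ℝ := fun b c => u b * w (b * c) - v c with hx
  have hxR : (av fun b => av fun c => |x b c|) ≤ Real.sqrt R := av2_abs_le_sqrt hR
  have h2 : ∀ f : G → ℝ, (∀ b, |f b| ≤ 1 + κ) → ∀ b, |f b| ≤ 2 := fun f hf b =>
    (hf b).trans (by linarith)
  have hsq : ∀ f : G → ℝ, (∀ b, |f b| ≤ 1 + κ) → ∀ b, f b ^ 2 ≤ 1 + 3 * κ := by
    intro f hf b
    have := abs_le.mp (hf b)
    nlinarith [sq_nonneg κ]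
  -- w is nearly of modulus one
  have hw2 : (av fun c => |w c ^ 2 - 1|) ≤ 10 * κ + e + 4 * Real.sqrt R := by
    have h3 : (av fun b => av fun c => (u b ^ 2) * (w (b * c)) ^ 2) =
        (av fun b => u b ^ 2) * av fun c => w c ^ 2 := av2_mul (fun b => u b ^ 2) fun c => w c ^ 2
    have h4 : (1 - e) - 4 * Real.sqrt R ≤
        av fun b => av fun c => (u b ^ 2) * (w (b * c)) ^ 2 := by
      have h5 : (av fun b => av fun c => (v c ^ 2 - 4 * |x b c|)) ≤
          av fun b => av fun c => (u b ^ 2) * (w (b * c)) ^ 2 := by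
        refine av_mono fun b => av_mono fun c => ?_
        have e1 : (u b ^ 2) * (w (b * c)) ^ 2 = (v c + x b c) ^ 2 := by
          simp only [hx]; ring
        rw [e1]
        have h6 : |v c * x b c| ≤ 2 * |x b c| := by
          rw [abs_mul]
          exact mul_le_mul_of_nonneg_right (h2 v hv c) (abs_nonneg _)
        have := (abs_le.mp h6).1
        nlinarith [sq_nonneg (x b c)]
      have h7 : (av fun b => av fun c => (v c ^ 2 - 4 * |x b c|)) =
          (av fun c => v c ^ 2) - 4 * av fun b => av fun c => |x b c| := by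
        have : (fun b => av fun c => (v c ^ 2 - 4 * |x b c|)) =
            fun b => (av fun c => v c ^ 2) - 4 * av fun c => |x b c| := by
          funext b
          rw [av_sub, av_const_mul]
        rw [this, av_sub, av_const, av_const_mul]
      rw [h7] at h5
      linarith
    have h8 : (av fun b => u b ^ 2) ≤ 1 + 3 * κ := av_le (hsq u hu)
    have h9 : 0 ≤ av fun c => w c ^ 2 := av_nonneg fun c => sq_nonneg _
    have h10 : (av fun c => w c ^ 2) ≤ 1 + 3 * κ := av_le (hsq w hw)
    have h11 : (av fun b => u b ^ 2) * (av fun c => w c ^ 2) ≤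
        (1 + 3 * κ) * av fun c => w c ^ 2 := mul_le_mul_of_nonneg_right h8 h9
    have h12 : (1 - e) - 4 * Real.sqrt R - 3 * κ * (1 + 3 * κ) ≤ av fun c => w c ^ 2 := by
      nlinarith
    have h13 : (av fun c => |w c ^ 2 - 1|) ≤ av fun c => (1 + 6 * κ - w c ^ 2) := by
      refine av_mono fun c => ?_
      have := hsq w hw c
      rw [abs_le]
      constructor <;> linarith
    rw [av_sub, av_const] at h13
    have h16 : 3 * κ * (1 + 3 * κ) ≤ 4 * κ := by nlinarith
    linarith
  -- pointwise
  have hpt : ∀ b c, |v (a * c) * v c - u b * u (a * b)| ≤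
      2 * |x b (a * c)| + 4 * |x (a * b) c| + 4 * |w (a * b * c) ^ 2 - 1| := by
    intro b c
    have e0 : b * (a * c) = a * b * c := by rw [← mul_assoc, mul_comm b a]
    have e1 : v (a * c) * v c - u b * u (a * b) =
        - (x b (a * c) * v c) - u b * w (a * b * c) * x (a * b) c +
          u b * u (a * b) * (w (a * b * c) ^ 2 - 1) := by
      simp only [hx]
      rw [e0]
      ring
    rw [e1]
    have a1 : |x b (a * c) * v c| ≤ 2 * |x b (a * c)| := by
      rw [abs_mul, mul_comm]
      exact mul_le_mul_of_nonneg_right (h2 v hv c) (abs_nonneg _)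
    have a2 : |u b * w (a * b * c) * x (a * b) c| ≤ 4 * |x (a * b) c| := by
      rw [abs_mul, abs_mul]
      have : |u b| * |w (a * b * c)| ≤ 2 * 2 :=
        mul_le_mul (h2 u hu b) (h2 w hw _) (abs_nonneg _) (by norm_num)
      exact mul_le_mul_of_nonneg_right (by linarith) (abs_nonneg _)
    have a3 : |u b * u (a * b) * (w (a * b * c) ^ 2 - 1)| ≤ 4 * |w (a * b * c) ^ 2 - 1| := by
      rw [abs_mul, abs_mul]
      have : |u b| * |u (a * b)| ≤ 2 * 2 :=
        mul_le_mul (h2 u hu b) (h2 u hu _) (abs_nonneg _) (by norm_num)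
      exact mul_le_mul_of_nonneg_right (by linarith) (abs_nonneg _)
    have b1 := abs_le.mp a1
    have b2 := abs_le.mp a2
    have b3 := abs_le.mp a3
    rw [abs_le]
    constructor <;> linarith
  have h14 : (av fun b => av fun c => |v (a * c) * v c - u b * u (a * b)|) ≤
      av fun b => av fun c => (2 * |x b (a * c)| + 4 * |x (a * b) c| +
        4 * |w (a * b * c) ^ 2 - 1|) := av_mono fun b => av_mono fun c => hpt b c
  have h15 : (av fun b => av fun c => (2 * |x b (a * c)| + 4 * |x (a * b) c| +
        4 * |w (a * b * c) ^ 2 - 1|)) =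
      2 * (av fun b => av fun c => |x b c|) + 4 * (av fun b => av fun c => |x b c|) +
        4 * av fun c => |w c ^ 2 - 1| := by
    have e1 : (fun b => av fun c => (2 * |x b (a * c)| + 4 * |x (a * b) c| +
        4 * |w (a * b * c) ^ 2 - 1|)) =
        fun b => (2 * (av fun c => |x b c|) + 4 * (av fun c => |x (a * b) c|)) +
          4 * av fun c => |w c ^ 2 - 1| := by
      funext b
      rw [av_add, av_add, av_const_mul, av_const_mul, av_const_mul,
        av_mul_left a (fun c => |x b c|), av_mul_left (a * b) (fun c => |w c ^ 2 - 1|)]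
    rw [e1, av_add, av_add, av_const, av_const_mul, av_const_mul,
      av_mul_left a (fun b => av fun c => |x b c|)]
  rw [h15] at h14
  linarith

end

end Pool.Agent.T9h52.BT.St
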