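import Pool.Agent.T9h52.BT.St1

/-!
# From approximate homomorphisms to real characters
-/

set_option autoImplicit false

namespace Pool.Agent.T9h52.BT.St

open Finset

variable {G : Type*} [Fintype G] [CommGroup G]

/-- the real value of a sign character -/
noncomputable def sg (χ : G →* ℤˣ) (a : G) : ℝ := ((χ a : ℤ) : ℝ)

omit [Fintype G] in
lemma sg_mul (χ : G →* ℤˣ) (a b : G) : sg χ (a * b) = sg χ a * sg χ b := by
  unfold sg
  rw [map_mul]
  push_cast
  ring

omit [Fintype G] in
lemma sg_cases (χ : G →* ℤˣ) (a : G) : sg χ a = 1 ∨ sg χ a = -1 := by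
  unfold sg
  rcases Int.units_eq_one_or (χ a) with h | h
  · left; rw [h]; simp
  · right; rw [h]; simp

omit [Fintype G] in
lemma sg_mul_self (χ : G →* ℤˣ) (a : G) : sg χ a * sg χ a = 1 := by
  rcases sg_cases χ a with h | h <;> rw [h] <;> norm_num

omit [Fintype G] in
lemma sg_abs (χ : G →* ℤˣ) (a : G) : |sg χ a| = 1 := by
  rcases sg_cases χ a with h | h <;> rw [h] <;> norm_num

/-- mean square -/
noncomputable def sq2 (f : G → ℝ) : ℝ := av fun b => f b ^ 2

lemma sq2_nonneg (f : G → ℝ) : 0 ≤ sq2 f := av_nonneg fun _ => sq_nonneg _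

lemma sq2_le {f : G → ℝ} {κ : ℝ} (hκ0 : 0 ≤ κ) (hκ : κ ≤ 1) (hf : ∀ b, |f b| ≤ 1 + κ) :
    sq2 f ≤ 1 + 3 * κ := by
  refine av_le fun b => ?_
  have := abs_le.mp (hf b)
  nlinarith

lemma sq_bd {x κ : ℝ} (hκ0 : 0 ≤ κ) (hκ : κ ≤ 1) (hf : |x| ≤ 1 + κ) : x ^ 2 ≤ 1 + 3 * κ := by
  have := abs_le.mp hf
  nlinarith

/-- products of two values -/
lemma av_abs_mul_ge {s : G → ℝ} {κ : ℝ} (hκ0 : 0 ≤ κ) (hκ : κ ≤ 1)
    (hs : ∀ b, |s b| ≤ 1 + κ) (a : G) :
    2 * sq2 s - (1 + 3 * κ) ≤ av fun b => |s b * s (a * b)| := by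
  have h1 : (av fun b => (s b ^ 2 + s (a * b) ^ 2 - (1 + 3 * κ))) ≤
      av fun b => |s b * s (a * b)| := by
    refine av_mono fun b => ?_
    rw [abs_mul]
    have e1 : s b ^ 2 = |s b| ^ 2 := (sq_abs _).symm
    have e2 : s (a * b) ^ 2 = |s (a * b)| ^ 2 := (sq_abs _).symm
    rw [e1, e2]
    have hx := hs b
    have hy := hs (a * b)
    have hx0 := abs_nonneg (s b)
    have hy0 := abs_nonneg (s (a * b))
    set x := |s b|
    set y := |s (a * b)|
    have h2 : x ^ 2 ≤ x * (1 + κ) := by nlinarith
    have h3 : y ^ 2 ≤ y * (1 + κ) := by nlinarith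
    have h4 : 0 ≤ ((1 + κ) - x) * ((1 + κ) - y) :=
      mul_nonneg (by linarith) (by linarith)
    have h5 : (1 + κ) ^ 2 ≤ 1 + 3 * κ := by nlinarith
    nlinarith
  have h2 : (av fun b => (s b ^ 2 + s (a * b) ^ 2 - (1 + 3 * κ))) =
      2 * sq2 s - (1 + 3 * κ) := by
    rw [av_sub, av_add, av_const, av_mul_left a (fun b => s b ^ 2)]
    unfold sq2
    ring
  linarith

/-- An approximate homomorphism is close to a sign character. -/
lemma exists_hom {r s : G → ℝ} {κ err e0 : ℝ} (hκ0 : 0 ≤ κ) (hκ : κ ≤ 1 / 100)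
    (herr : err ≤ 1 / 100) (he0 : e0 ≤ 1 / 100)
    (hs : ∀ b, |s b| ≤ 1 + κ)
    (h : ∀ a, (av fun b => |r a - s b * s (a * b)|) ≤ err)
    (he : 1 - e0 ≤ sq2 s) :
    ∃ χ : G →* ℤˣ, ∀ a, 1 - (err + 2 * e0 + 3 * κ) ≤ sg χ a * r a := by
  classical
  have herr0 : 0 ≤ err := (av_nonneg fun b => abs_nonneg _).trans (h 1)
  have he00 : 0 ≤ e0 + 3 * κ := by
    have := sq2_le hκ0 (by linarith) hs
    linarith
  have hlow : ∀ a, 1 - (err + 2 * e0 + 3 * κ) ≤ |r a| := by
    intro a
    have h1 := av_abs_mul_ge hκ0 (by linarith) hs a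
    have h2 : (av fun b => |s b * s (a * b)|) ≤
        av fun b => (|r a| + |r a - s b * s (a * b)|) := by
      refine av_mono fun b => ?_
      have := abs_sub_abs_le_abs_sub (s b * s (a * b)) (r a)
      rw [abs_sub_comm] at this
      linarith
    rw [av_add, av_const] at h2
    have := h a
    linarith
  have hup : ∀ a, |r a| ≤ 11 / 10 := by
    intro a
    have h2 : |r a| ≤ av fun b => (|r a - s b * s (a * b)| + (1 + 3 * κ)) := by
      refine le_av fun b => ?_
      have h3 : |s b * s (a * b)| ≤ 1 + 3 * κ := by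
        rw [abs_mul]
        have hx := hs b
        have hy := hs (a * b)
        have hx0 := abs_nonneg (s b)
        have hy0 := abs_nonneg (s (a * b))
        have : |s b| * |s (a * b)| ≤ (1 + κ) * (1 + κ) := mul_le_mul hx hy hy0 (by linarith)
        nlinarith
      have := abs_sub_abs_le_abs_sub (r a) (s b * s (a * b))
      linarith
    rw [av_add, av_const] at h2
    have := h a
    linarith
  have hone : 0 < r 1 := by
    have h1 := h 1
    have h2 : sq2 s ≤ av fun b => (r 1 + |r 1 - s b * s (1 * b)|) := by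
      unfold sq2
      refine av_mono fun b => ?_
      rw [one_mul]
      have := neg_abs_le (r 1 - s b * s b)
      nlinarith
    rw [av_add, av_const] at h2
    linarith
  have hmul : ∀ a a', |r a * r a' - r (a * a')| ≤ 1 / 2 := by
    intro a a'
    have hpt : ∀ b, |r a * r a' - r (a * a')| ≤
        11 / 10 * |r a - s b * s (a * b)| + 11 / 10 * |r a' - s (a * b) * s (a' * (a * b))| +
        11 / 10 * ((1 + 3 * κ - s (a * b) ^ 2) + 3 * κ) +
        |r (a * a') - s b * s ((a * a') * b)| := by
      intro b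
      have e0 : (a * a') * b = a' * (a * b) := by rw [mul_comm a a', mul_assoc]
      rw [e0]
      have key : r a * r a' - r (a * a') =
          r a' * (r a - s b * s (a * b)) +
          (s b * s (a * b)) * (r a' - s (a * b) * s (a' * (a * b))) +
          (s b * s (a' * (a * b))) * (s (a * b) ^ 2 - 1) -
          (r (a * a') - s b * s (a' * (a * b))) := by ring
      have hss : ∀ x y, |s x * s y| ≤ 11 / 10 := by
        intro x y
        rw [abs_mul]
        have hx := hs x
        have hy := hs y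
        have hx0 := abs_nonneg (s x)
        have hy0 := abs_nonneg (s y)
        have : |s x| * |s y| ≤ (1 + κ) * (1 + κ) := mul_le_mul hx hy hy0 (by linarith)
        nlinarith
      have a1 : |r a' * (r a - s b * s (a * b))| ≤ 11 / 10 * |r a - s b * s (a * b)| := by
        rw [abs_mul]
        exact mul_le_mul_of_nonneg_right (hup a') (abs_nonneg _)
      have a2 : |(s b * s (a * b)) * (r a' - s (a * b) * s (a' * (a * b)))| ≤
          11 / 10 * |r a' - s (a * b) * s (a' * (a * b))| := by
        rw [abs_mul]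
        exact mul_le_mul_of_nonneg_right (hss _ _) (abs_nonneg _)
      have a3 : |(s b * s (a' * (a * b))) * (s (a * b) ^ 2 - 1)| ≤
          11 / 10 * ((1 + 3 * κ - s (a * b) ^ 2) + 3 * κ) := by
        rw [abs_mul]
        refine mul_le_mul (hss _ _) ?_ (abs_nonneg _) (by norm_num)
        have := sq_bd hκ0 (by linarith) (hs (a * b))
        rw [abs_le]
        constructor <;> linarith
      have b1 := abs_le.mp a1
      have b2 := abs_le.mp a2
      have b3 := abs_le.mp a3
      have b4 := abs_le.mp (le_refl |r (a * a') - s b * s (a' * (a * b))|)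
      rw [key, abs_le]
      constructor <;> linarith
    have h2 : |r a * r a' - r (a * a')| ≤ av fun b =>
        (11 / 10 * |r a - s b * s (a * b)| + 11 / 10 * |r a' - s (a * b) * s (a' * (a * b))| +
        11 / 10 * ((1 + 3 * κ - s (a * b) ^ 2) + 3 * κ) +
        |r (a * a') - s b * s ((a * a') * b)|) := le_av hpt
    have h3 : (av fun b => |r a' - s (a * b) * s (a' * (a * b))|) ≤ err := by
      rw [av_mul_left a (fun b => |r a' - s b * s (a' * b)|)]
      exact h a'
    have h4 : (av fun b => s (a * b) ^ 2) = sq2 s := by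
      rw [av_mul_left a (fun b => s b ^ 2)]; rfl
    have h5 := h a
    have h6 := h (a * a')
    rw [av_add, av_add, av_add, av_const_mul, av_const_mul, av_const_mul, av_add, av_sub,
      av_const, av_const, h4] at h2
    linarith
  have hsmall : err + 2 * e0 + 3 * κ ≤ 6 / 100 := by linarith
  have hbig : ∀ a, 94 / 100 ≤ |r a| := fun a => by linarith [hlow a]
  let f : G → ℤˣ := fun a => if 0 < r a then 1 else -1
  have hf : ∀ a, (0 < r a ∧ f a = 1) ∨ (r a < 0 ∧ f a = -1) := by
    intro a
    by_cases h0 : 0 < r a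
    · left; exact ⟨h0, by simp [f, h0]⟩
    · right
      refine ⟨?_, by simp [f, h0]⟩
      rcases lt_or_eq_of_le (not_lt.mp h0) with h1 | h1
      · exact h1
      · have := hbig a
        rw [h1, abs_zero] at this
        norm_num at this
  refine ⟨{ toFun := f, map_one' := by simp [f, hone], map_mul' := ?_ }, ?_⟩
  · intro a a'
    have hm := abs_le.mp (hmul a a')
    have b1 := hbig a
    have b2 := hbig a'
    have b3 := hbig (a * a')
    rcases hf a with ⟨p1, q1⟩ | ⟨p1, q1⟩ <;> rcases hf a' with ⟨p2, q2⟩ | ⟨p2, q2⟩ <;>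
      rcases hf (a * a') with ⟨p3, q3⟩ | ⟨p3, q3⟩ <;> rw [q1, q2, q3]
    · simp
    · exfalso
      rw [abs_of_pos p1] at b1
      rw [abs_of_pos p2] at b2
      rw [abs_of_neg p3] at b3
      nlinarith
    · exfalso
      rw [abs_of_pos p1] at b1
      rw [abs_of_neg p2] at b2
      rw [abs_of_pos p3] at b3
      nlinarith
    · simp
    · exfalso
      rw [abs_of_neg p1] at b1
      rw [abs_of_pos p2] at b2
      rw [abs_of_pos p3] at b3
      nlinarith
    · simp
    · simp
    · exfalso
      rw [abs_of_neg p1] at b1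
      rw [abs_of_neg p2] at b2
      rw [abs_of_neg p3] at b3
      nlinarith
  · intro a
    have h1 := hlow a
    unfold sg
    simp only [MonoidHom.coe_mk, OneHom.coe_mk]
    rcases hf a with ⟨p1, q1⟩ | ⟨p1, q1⟩
    · rw [q1]
      rw [abs_of_pos p1] at h1
      simpa using h1
    · rw [q1]
      rw [abs_of_neg p1] at h1
      simpa using h1

/-- The twisted mean of a function whose autocorrelation is close to a character. -/
lemma ci_sq {r s : G → ℝ} {χ : G →* ℤˣ} {η err : ℝ}
    (h : ∀ a, (av fun b => |r a - s b * s (a * b)|) ≤ err)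
    (hr : ∀ a, 1 - η ≤ sg χ a * r a) :
    1 - η - err ≤ (av fun b => s b * sg χ b) ^ 2 := by
  have h1 : (av fun b => s b * sg χ b) ^ 2 =
      av fun a => sg χ a * av fun b => s b * s (a * b) := by
    have e1 : (av fun b => s b * sg χ b) ^ 2 =
        av fun b => av fun c => (s b * sg χ b) * (s (b * c) * sg χ (b * c)) := by
      rw [av2_mul (fun b => s b * sg χ b) (fun b => s b * sg χ b), sq]
    rw [e1, av_comm]
    refine av_congr fun a => ?_
    rw [← av_const_mul]
    refine av_congr fun b => ?_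
    rw [sg_mul, mul_comm b a]
    have := sg_mul_self χ b
    linear_combination (s b * s (a * b) * sg χ a) * this
  rw [h1]
  refine le_av fun a => ?_
  have h2 : |sg χ a * (r a - av fun b => s b * s (a * b))| ≤ err := by
    rw [abs_mul, sg_abs, one_mul]
    have e2 : r a - (av fun b => s b * s (a * b)) = av fun b => (r a - s b * s (a * b)) := by
      rw [av_sub, av_const]
    rw [e2]
    exact (abs_av_le _).trans (h a)
  have h3 := (abs_le.mp h2).2
  have h4 := hr a
  nlinarith

end Pool.Agent.T9h52.BT.St
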