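import Pool.Agent.T9h52.BT.St2

/-!
# The energy argument
-/

set_option autoImplicit false

namespace Pool.Agent.T9h52.BT.St

open Finset

variable {G : Type*} [Fintype G] [CommGroup G]

lemma icc_card_le {m N : ℕ} (hm : 1 ≤ m) : ((Icc m (N - m)).card : ℝ) ≤ N := by
  rw [Nat.card_Icc]
  exact_mod_cast (by omega : N - m + 1 - m ≤ N)

lemma sum_reflect {m K : ℕ} (F : ℕ → ℝ) :
    ∑ i ∈ Icc m (K - m), F (K - i) = ∑ j ∈ Icc m (K - m), F j := by
  rcases Nat.lt_or_ge K m with h | h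
  · have : Icc m (K - m) = Icc m (K - m) := rfl
    have h0 : K - m = 0 := by omega
    rcases Nat.eq_zero_or_pos m with hm | hm
    · omega
    · rw [h0, Icc_eq_empty (by omega)]
      simp
  · refine sum_nbij' (fun i => K - i) (fun j => K - j) ?_ ?_ ?_ ?_ ?_
    · intro i hi; rw [mem_Icc] at hi ⊢; constructor <;> omega
    · intro i hi; rw [mem_Icc] at hi ⊢; constructor <;> omega
    · intro i hi; rw [mem_Icc] at hi; omega
    · intro i hi; rw [mem_Icc] at hi; omega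
    · intro i hi; rfl

/-- Step 1: near extremality forces full energy. -/
lemma step1 {s v : ℕ → G → ℝ} {κ : ℝ} {m N : ℕ} (hκ0 : 0 ≤ κ) (hκ : κ ≤ 1)
    (hm : 1 ≤ m)
    (hs : ∀ i ∈ Icc m (N - m), ∀ b, |s i b| ≤ 1 + κ)
    (hv : ∀ i ∈ Icc m (N - m), ∀ b, |v i b| ≤ 1 + κ) (a0 : G)
    (h2 : |(∑ i ∈ Icc m (N - m), av fun b => s i b * v (N - i) (a0 * b⁻¹)) - N * v N a0| ≤
      κ * N)
    (h3 : v N a0 ≤ -1 + κ) :
    N * (1 - 7 * κ) ≤ ∑ i ∈ Icc m (N - m), sq2 (s i) ∧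
      N * (1 - 7 * κ) ≤ ∑ j ∈ Icc m (N - m), sq2 (v j) := by
  have hN0 : (0 : ℝ) ≤ N := Nat.cast_nonneg N
  have hpt : ∀ i ∈ Icc m (N - m), - (av fun b => s i b * v (N - i) (a0 * b⁻¹)) ≤
      (sq2 (s i) + sq2 (v (N - i))) / 2 := by
    intro i _
    have h1 : - (av fun b => s i b * v (N - i) (a0 * b⁻¹)) ≤
        av fun b => (1 / 2 * s i b ^ 2 + 1 / 2 * v (N - i) (a0 * b⁻¹) ^ 2) := by
      rw [← av_neg]
      refine av_mono fun b => ?_
      nlinarith [sq_nonneg (s i b + v (N - i) (a0 * b⁻¹))]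
    rw [av_add, av_const_mul, av_const_mul, av_div_left a0 (fun b => v (N - i) b ^ 2)] at h1
    unfold sq2
    linarith
  have hsum := sum_le_sum hpt
  rw [sum_neg_distrib] at hsum
  have e1 : ∑ i ∈ Icc m (N - m), (sq2 (s i) + sq2 (v (N - i))) / 2 =
      ((∑ i ∈ Icc m (N - m), sq2 (s i)) + ∑ j ∈ Icc m (N - m), sq2 (v j)) / 2 := by
    rw [← sum_div, sum_add_distrib, sum_reflect (fun j => sq2 (v j))]
  rw [e1] at hsum
  have h4 := (abs_le.mp h2).2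
  have h5 : (N : ℝ) * v N a0 ≤ N * (-1 + κ) := mul_le_mul_of_nonneg_left h3 hN0
  have hc := icc_card_le (N := N) hm
  have hA : ∑ i ∈ Icc m (N - m), sq2 (s i) ≤ N * (1 + 3 * κ) := by
    calc ∑ i ∈ Icc m (N - m), sq2 (s i) ≤ ∑ i ∈ Icc m (N - m), (1 + 3 * κ) :=
          sum_le_sum fun i hi => sq2_le hκ0 hκ (hs i hi)
      _ ≤ N * (1 + 3 * κ) := by
          rw [sum_const, nsmul_eq_mul]
          exact mul_le_mul_of_nonneg_right hc (by linarith)
  have hB : ∑ i ∈ Icc m (N - m), sq2 (v i) ≤ N * (1 + 3 * κ) := by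
    calc ∑ i ∈ Icc m (N - m), sq2 (v i) ≤ ∑ i ∈ Icc m (N - m), (1 + 3 * κ) :=
          sum_le_sum fun i hi => sq2_le hκ0 hκ (hv i hi)
      _ ≤ N * (1 + 3 * κ) := by
          rw [sum_const, nsmul_eq_mul]
          exact mul_le_mul_of_nonneg_right hc (by linarith)
  constructor <;> nlinarith

/-- the defect of a pair -/
noncomputable def RR (s v : ℕ → G → ℝ) (i j : ℕ) : ℝ :=
  av fun b => av fun c => (s i b * v (i + j) (b * c) - v j c) ^ 2

lemma RR_nonneg (s v : ℕ → G → ℝ) (i j : ℕ) : 0 ≤ RR s v i j :=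
  av_nonneg fun _ => av_nonneg fun _ => sq_nonneg _

lemma RR_eq (s v : ℕ → G → ℝ) {i K : ℕ} (hi : i ≤ K) :
    RR s v i (K - i) = sq2 (s i) * sq2 (v K) -
      2 * (av fun a => v K a * av fun b => s i b * v (K - i) (a * b⁻¹)) + sq2 (v (K - i)) := by
  unfold RR
  have e0 : i + (K - i) = K := by omega
  rw [e0]
  have e1 : ∀ b, (av fun c => (s i b * v K (b * c) - v (K - i) c) ^ 2) =
      (av fun c => s i b ^ 2 * v K (b * c) ^ 2) -
      2 * (av fun c => s i b * (v K c * v (K - i) (c * b⁻¹))) + sq2 (v (K - i)) := by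
    intro b
    have h1 : (av fun c => s i b * (v K c * v (K - i) (c * b⁻¹))) =
        av fun c => s i b * (v K (b * c) * v (K - i) c) := by
      rw [← av_mul_left b (fun c => s i b * (v K c * v (K - i) (c * b⁻¹)))]
      refine av_congr fun c => ?_
      have : b * c * b⁻¹ = c := by rw [mul_comm b c, mul_assoc, mul_inv_cancel, mul_one]
      rw [this]
    rw [h1, ← av_const_mul, ← av_sub]
    unfold sq2
    rw [← av_add]
    refine av_congr fun c => ?_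
    ring
  rw [av_congr e1, av_add, av_sub, av_const, av_const_mul,
    av2_mul (fun b => s i b ^ 2) (fun b => v K b ^ 2), av_comm]
  have e2 : (av fun a => v K a * av fun b => s i b * v (K - i) (a * b⁻¹)) =
      av fun c => av fun b => s i b * (v K c * v (K - i) (c * b⁻¹)) := by
    refine av_congr fun a => ?_
    rw [← av_const_mul]
    refine av_congr fun b => ?_
    ring
  rw [e2]
  rfl

/-- Step 2 on one antidiagonal. -/
lemma step2a {s v : ℕ → G → ℝ} {κ : ℝ} {m N K : ℕ} (hκ0 : 0 ≤ κ) (hκ : κ ≤ 1 / 10)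
    (hm : 1 ≤ m) (hmK : m ≤ K) (hKN : K ≤ N - m)
    (hs : ∀ i ∈ Icc m (N - m), ∀ b, |s i b| ≤ 1 + κ)
    (hv : ∀ i ∈ Icc m (N - m), ∀ b, |v i b| ≤ 1 + κ)
    (h2 : ∀ a, |(∑ i ∈ Icc m (K - m), av fun b => s i b * v (K - i) (a * b⁻¹)) - K * v K a| ≤
      κ * N) :
    ∑ i ∈ Icc m (K - m), RR s v i (K - i) ≤
      N * (1 + 3 * κ - sq2 (v K)) + 7 * κ * N := by
  have hN0 : (0 : ℝ) ≤ N := Nat.cast_nonneg N
  have hK0 : (0 : ℝ) ≤ K := Nat.cast_nonneg K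
  have hKN' : (K : ℝ) ≤ N := by exact_mod_cast (by omega : K ≤ N)
  have hKm : K ∈ Icc m (N - m) := mem_Icc.mpr ⟨hmK, hKN⟩
  have hvK := hv K hKm
  have e1 : ∑ i ∈ Icc m (K - m), RR s v i (K - i) =
      (∑ i ∈ Icc m (K - m), sq2 (s i)) * sq2 (v K) -
      2 * (av fun a => v K a * ∑ i ∈ Icc m (K - m), av fun b => s i b * v (K - i) (a * b⁻¹)) +
      ∑ j ∈ Icc m (K - m), sq2 (v j) := by
    have h1 : ∑ i ∈ Icc m (K - m), RR s v i (K - i) =
        ∑ i ∈ Icc m (K - m), (sq2 (s i) * sq2 (v K) -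
      2 * (av fun a => v K a * av fun b => s i b * v (K - i) (a * b⁻¹)) + sq2 (v (K - i))) := by
      refine sum_congr rfl fun i hi => RR_eq s v ?_
      rw [mem_Icc] at hi
      omega
    rw [h1, sum_add_distrib, sum_sub_distrib, ← sum_mul, ← mul_sum,
      sum_reflect (fun j => sq2 (v j)), ← av_sum]
    simp only [← mul_sum]
  have h3 : (K : ℝ) * sq2 (v K) - (1 + κ) * (κ * N) ≤
      av fun a => v K a * ∑ i ∈ Icc m (K - m), av fun b => s i b * v (K - i) (a * b⁻¹) := by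
    have h4 : (av fun a => ((K : ℝ) * v K a ^ 2 - (1 + κ) * (κ * N))) ≤
      av fun a => v K a * ∑ i ∈ Icc m (K - m), av fun b => s i b * v (K - i) (a * b⁻¹) := by
      refine av_mono fun a => ?_
      have h5 := h2 a
      set S := ∑ i ∈ Icc m (K - m), av fun b => s i b * v (K - i) (a * b⁻¹)
      have h6 : |v K a * (S - K * v K a)| ≤ (1 + κ) * (κ * N) := by
        rw [abs_mul]
        exact mul_le_mul (hvK a) h5 (abs_nonneg _) (by linarith)
      have h7 := (abs_le.mp h6).1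
      nlinarith
    rw [av_sub, av_const_mul, av_const] at h4
    exact h4
  have hcard : ((Icc m (K - m)).card : ℝ) ≤ K := icc_card_le hm
  have hsub : ∀ i ∈ Icc m (K - m), i ∈ Icc m (N - m) := by
    intro i hi
    rw [mem_Icc] at hi ⊢
    constructor <;> omega
  have hA : ∑ i ∈ Icc m (K - m), sq2 (s i) ≤ K * (1 + 3 * κ) := by
    calc ∑ i ∈ Icc m (K - m), sq2 (s i) ≤ ∑ i ∈ Icc m (K - m), (1 + 3 * κ) :=
          sum_le_sum fun i hi => sq2_le hκ0 (by linarith) (hs i (hsub i hi))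
      _ ≤ K * (1 + 3 * κ) := by
          rw [sum_const, nsmul_eq_mul]
          exact mul_le_mul_of_nonneg_right hcard (by linarith)
  have hB : ∑ i ∈ Icc m (K - m), sq2 (v i) ≤ K * (1 + 3 * κ) := by
    calc ∑ i ∈ Icc m (K - m), sq2 (v i) ≤ ∑ i ∈ Icc m (K - m), (1 + 3 * κ) :=
          sum_le_sum fun i hi => sq2_le hκ0 (by linarith) (hv i (hsub i hi))
      _ ≤ K * (1 + 3 * κ) := by
          rw [sum_const, nsmul_eq_mul]
          exact mul_le_mul_of_nonneg_right hcard (by linarith)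
  have hβ0 := sq2_nonneg (v K)
  have hβ1 := sq2_le hκ0 (by linarith) hvK
  have hA' := mul_le_mul_of_nonneg_right hA hβ0
  rw [e1]
  set β := sq2 (v K)
  have h8 : (K : ℝ) * (1 + 3 * κ) * β + K * (1 + 3 * κ) - 2 * (K * β) =
      K * ((1 + 3 * κ - β) + 3 * κ * β) := by ring
  have h9 : (K : ℝ) * ((1 + 3 * κ - β) + 3 * κ * β) ≤ N * ((1 + 3 * κ - β) + 3 * κ * β) :=
    mul_le_mul_of_nonneg_right hKN' (by nlinarith)
  have h10 : N * (3 * κ * β) ≤ 4 * (κ * N) := by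
    have : 3 * κ * β ≤ 4 * κ := by nlinarith
    nlinarith
  have h11 : (1 + κ) * (κ * N) ≤ 11 / 10 * (κ * N) :=
    mul_le_mul_of_nonneg_right (by linarith) (by positivity)
  have h12 : 0 ≤ κ * N := by positivity
  linarith

/-- The admissible pairs. -/
def PP (m T N : ℕ) : Finset (ℕ × ℕ) :=
  ((range (N + 1)) ×ˢ (range (N + 1))).filter fun p =>
    m ≤ p.1 ∧ m ≤ p.2 ∧ T ≤ p.1 + p.2 ∧ p.1 + p.2 ≤ N - m

lemma mem_PP {m T N : ℕ} {p : ℕ × ℕ} : p ∈ PP m T N ↔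
    m ≤ p.1 ∧ m ≤ p.2 ∧ T ≤ p.1 + p.2 ∧ p.1 + p.2 ≤ N - m := by
  unfold PP
  rw [mem_filter, mem_product, mem_range, mem_range]
  constructor
  · exact fun h => h.2
  · intro h
    exact ⟨⟨by omega, by omega⟩, h⟩

lemma sum_PP {m T N : ℕ} (hm : 1 ≤ m) (F : ℕ → ℕ → ℝ) :
    ∑ p ∈ PP m T N, F p.1 p.2 = ∑ K ∈ Icc T (N - m), ∑ i ∈ Icc m (K - m), F i (K - i) := by
  rw [sum_sigma']
  refine sum_nbij' (fun p => ⟨p.1 + p.2, p.1⟩) (fun q => (q.2, q.1 - q.2)) ?_ ?_ ?_ ?_ ?_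
  · intro p hp
    rw [mem_PP] at hp
    rw [mem_sigma]
    simp only [mem_Icc]
    refine ⟨⟨?_, ?_⟩, ?_, ?_⟩ <;> omega
  · intro q hq
    rw [mem_sigma] at hq
    simp only [mem_Icc] at hq
    rw [mem_PP]
    simp only
    refine ⟨?_, ?_, ?_, ?_⟩ <;> omega
  · intro p hp
    simp
  · intro q hq
    rw [mem_sigma] at hq
    simp only [mem_Icc] at hq
    obtain ⟨a, b⟩ := q
    simp only at hq ⊢
    have : b + (a - b) = a := by omega
    rw [this]
  · intro p hp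
    simp

/-- Step 2: the total defect is small. -/
lemma step2 {s v : ℕ → G → ℝ} {κ : ℝ} {m T N : ℕ} (hκ0 : 0 ≤ κ) (hκ : κ ≤ 1 / 10)
    (hm : 1 ≤ m) (hmT : m ≤ T)
    (hs : ∀ i ∈ Icc m (N - m), ∀ b, |s i b| ≤ 1 + κ)
    (hv : ∀ i ∈ Icc m (N - m), ∀ b, |v i b| ≤ 1 + κ)
    (h2 : ∀ K ∈ Icc T (N - m), ∀ a,
      |(∑ i ∈ Icc m (K - m), av fun b => s i b * v (K - i) (a * b⁻¹)) - K * v K a| ≤ κ * N)
    (hE : N * (1 - 7 * κ) ≤ ∑ j ∈ Icc m (N - m), sq2 (v j)) :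
    ∑ p ∈ PP m T N, RR s v p.1 p.2 ≤ 17 * κ * N ^ 2 := by
  have hN0 : (0 : ℝ) ≤ N := Nat.cast_nonneg N
  rw [sum_PP hm]
  have h1 : ∀ K ∈ Icc T (N - m), ∑ i ∈ Icc m (K - m), RR s v i (K - i) ≤
      N * (1 + 3 * κ - sq2 (v K)) + 7 * κ * N := by
    intro K hK
    have hK' := mem_Icc.mp hK
    exact step2a hκ0 hκ hm (hmT.trans hK'.1) hK'.2 hs hv (h2 K hK)
  have hsub : Icc T (N - m) ⊆ Icc m (N - m) := Icc_subset_Icc_left hmT
  have h3 : ∑ K ∈ Icc T (N - m), (N * (1 + 3 * κ - sq2 (v K)) + 7 * κ * N) ≤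
      ∑ K ∈ Icc m (N - m), (N * (1 + 3 * κ - sq2 (v K)) + 7 * κ * N) := by
    refine sum_le_sum_of_subset_of_nonneg hsub fun K hK _ => ?_
    have := sq2_le hκ0 (by linarith) (hv K hK)
    have h4 : 0 ≤ N * (1 + 3 * κ - sq2 (v K)) := mul_nonneg hN0 (by linarith)
    have h5 : 0 ≤ 7 * κ * N := by positivity
    linarith
  have h4 : ∑ K ∈ Icc m (N - m), (N * (1 + 3 * κ - sq2 (v K)) + 7 * κ * N) =
      ((Icc m (N - m)).card : ℝ) * (N * (1 + 3 * κ) + 7 * κ * N) -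
        N * ∑ K ∈ Icc m (N - m), sq2 (v K) := by
    rw [mul_sum, ← nsmul_eq_mul, ← sum_const, ← sum_sub_distrib]
    refine sum_congr rfl fun K _ => ?_
    ring
  have hc := icc_card_le (N := N) hm
  have h5 : ((Icc m (N - m)).card : ℝ) * (N * (1 + 3 * κ) + 7 * κ * N) ≤
      N * (N * (1 + 3 * κ) + 7 * κ * N) := mul_le_mul_of_nonneg_right hc (by positivity)
  have h6 := mul_le_mul_of_nonneg_left hE hN0
  have h7 := sum_le_sum h1
  nlinarith

/-- sums over injective images -/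
lemma sum_inj_le {α : Type*} {A : Finset α} {P : Finset (ℕ × ℕ)} {g : α → ℕ × ℕ}
    (hinj : Set.InjOn g A) (hmem : ∀ x ∈ A, g x ∈ P) {F : ℕ × ℕ → ℝ} (hF : ∀ p, 0 ≤ F p) :
    ∑ x ∈ A, F (g x) ≤ ∑ p ∈ P, F p := by
  classical
  rw [← sum_image (f := F) hinj]
  refine sum_le_sum_of_subset_of_nonneg ?_ fun p _ _ => hF p
  intro p hp
  rw [mem_image] at hp
  obtain ⟨x, hx, rfl⟩ := hp
  exact hmem x hx

lemma sum_sqrt_le {α : Type*} (A : Finset α) (F : α → ℝ) (hF : ∀ x, 0 ≤ F x) {C S : ℝ}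
    (hC : (A.card : ℝ) ≤ C) (hS : ∑ x ∈ A, F x ≤ S) :
    ∑ x ∈ A, Real.sqrt (F x) ≤ Real.sqrt (C * S) := by
  apply Real.le_sqrt_of_sq_le
  have h := sq_sum_le_card_mul_sum_sq (s := A) (f := fun x => Real.sqrt (F x))
  have h1 : ∑ x ∈ A, Real.sqrt (F x) ^ 2 = ∑ x ∈ A, F x :=
    sum_congr rfl fun x _ => Real.sq_sqrt (hF x)
  rw [h1] at h
  have hS0 : 0 ≤ ∑ x ∈ A, F x := sum_nonneg fun x _ => hF x
  calc (∑ x ∈ A, Real.sqrt (F x)) ^ 2 ≤ A.card * ∑ x ∈ A, F x := h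
    _ ≤ C * S := mul_le_mul hC hS hS0 ((Nat.cast_nonneg _).trans hC)

end Pool.Agent.T9h52.BT.St
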