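import Pool.Agent.T9h52.BT.St3

/-!
# The sign character attached to a near extremal configuration
-/

set_option autoImplicit false

namespace Pool.Agent.T9h52.BT.St

open Finset

variable {G : Type*} [Fintype G] [CommGroup G]

/-- the window average -/
noncomputable def wv (M : ℕ) (s : ℕ → G → ℝ) (K : ℕ) (a : G) : ℝ :=
  (∑ l ∈ range M, s (K + l) a) / M

omit [Fintype G] [CommGroup G] in
lemma wv_abs {M : ℕ} (hM : 1 ≤ M) {s : ℕ → G → ℝ} {K : ℕ} {a : G} {B : ℝ}
    (h : ∀ l < M, |s (K + l) a| ≤ B) : |wv M s K a| ≤ B := by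
  unfold wv
  have hM' : (0 : ℝ) < M := by exact_mod_cast hM
  rw [abs_div, abs_of_pos hM', div_le_iff₀ hM']
  calc |∑ l ∈ range M, s (K + l) a| ≤ ∑ l ∈ range M, |s (K + l) a| := abs_sum_le_sum_abs _ _
    _ ≤ ∑ l ∈ range M, B := sum_le_sum fun l hl => h l (mem_range.mp hl)
    _ = B * M := by rw [sum_const, card_range, nsmul_eq_mul, mul_comm]

/-- the twisted mean -/
noncomputable def cc (f : G → ℝ) (χ : G →* ℤˣ) : ℝ := av fun b => f b * sg χ b

lemma cc_abs {f : G → ℝ} {B : ℝ} (h : ∀ b, |f b| ≤ B) (χ : G →* ℤˣ) : |cc f χ| ≤ B := by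
  refine abs_av_le_of fun b => ?_
  rw [abs_mul, sg_abs, mul_one]
  exact h b

lemma cc_wv (M : ℕ) (s : ℕ → G → ℝ) (K : ℕ) (χ : G →* ℤˣ) :
    cc (wv M s K) χ = (∑ l ∈ range M, cc (s (K + l)) χ) / M := by
  unfold cc wv
  rw [← av_sum]
  have : (fun b => (∑ l ∈ range M, s (K + l) b) / (M : ℝ) * sg χ b) =
      fun b => (∑ l ∈ range M, s (K + l) b * sg χ b) * (1 / (M : ℝ)) := by
    funext b
    rw [← sum_mul]
    ring
  rw [this, av_mul_const]
  ring

lemma var_eq (f : G → ℝ) (χ : G →* ℤˣ) :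
    (av fun b => (f b - cc f χ * sg χ b) ^ 2) = sq2 f - cc f χ ^ 2 := by
  have h1 : ∀ b, (f b - cc f χ * sg χ b) ^ 2 =
      f b ^ 2 - (2 * cc f χ) * (f b * sg χ b) + cc f χ ^ 2 := by
    intro b
    have := sg_mul_self χ b
    linear_combination (cc f χ ^ 2) * this
  rw [av_congr h1, av_add, av_sub, av_const, av_const_mul]
  unfold sq2
  have : (av fun b => f b * sg χ b) = cc f χ := rfl
  rw [this]
  ring

lemma wv_lip {M : ℕ} (hM : 1 ≤ M) {s : ℕ → G → ℝ} {K : ℕ} {B : ℝ} (χ : G →* ℤˣ)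
    (h : ∀ l ≤ M, ∀ a, |s (K + l) a| ≤ B) :
    |cc (wv M s (K + 1)) χ - cc (wv M s K) χ| ≤ 2 * B / M := by
  have hM' : (0 : ℝ) < M := by exact_mod_cast hM
  rw [cc_wv, cc_wv, ← sub_div, abs_div, abs_of_pos hM']
  refine div_le_div_of_nonneg_right ?_ hM'.le
  have e1 : ∑ l ∈ range M, cc (s (K + 1 + l)) χ - ∑ l ∈ range M, cc (s (K + l)) χ =
      cc (s (K + M)) χ - cc (s (K + 0)) χ := by
    have h1 := sum_range_succ (fun l => cc (s (K + l)) χ) M
    have h2 := sum_range_succ' (fun l => cc (s (K + l)) χ) M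
    have h3 : ∑ l ∈ range M, cc (s (K + (l + 1))) χ = ∑ l ∈ range M, cc (s (K + 1 + l)) χ :=
      sum_congr rfl fun l _ => by rw [show K + (l + 1) = K + 1 + l by ring]
    rw [h3] at h2
    linarith
  rw [e1]
  have h1 := abs_le.mp (cc_abs (h M le_rfl) χ)
  have h2 := abs_le.mp (cc_abs (h 0 (Nat.zero_le _)) χ)
  rw [abs_le]
  constructor <;> linarith

lemma wv_var {M : ℕ} (hM : 1 ≤ M) (s : ℕ → G → ℝ) (K : ℕ) (χ : G →* ℤˣ) :
    sq2 (wv M s K) - cc (wv M s K) χ ^ 2 ≤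
      (∑ l ∈ range M, (sq2 (s (K + l)) - cc (s (K + l)) χ ^ 2)) / M := by
  have hM' : (0 : ℝ) < M := by exact_mod_cast hM
  rw [← var_eq]
  have e1 : ∑ l ∈ range M, (sq2 (s (K + l)) - cc (s (K + l)) χ ^ 2) =
      av fun b => ∑ l ∈ range M, (s (K + l) b - cc (s (K + l)) χ * sg χ b) ^ 2 := by
    rw [av_sum]
    exact sum_congr rfl fun l _ => (var_eq _ _).symm
  rw [e1]
  have e2 : (av fun b => ∑ l ∈ range M, (s (K + l) b - cc (s (K + l)) χ * sg χ b) ^ 2) / M =
      av fun b => (∑ l ∈ range M, (s (K + l) b - cc (s (K + l)) χ * sg χ b) ^ 2) * (1 / M) := by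
    rw [av_mul_const]; ring
  rw [e2]
  refine av_mono fun b => ?_
  rw [cc_wv]
  unfold wv
  have e3 : (∑ l ∈ range M, s (K + l) b) / M - (∑ l ∈ range M, cc (s (K + l)) χ) / M * sg χ b =
      (∑ l ∈ range M, (s (K + l) b - cc (s (K + l)) χ * sg χ b)) / M := by
    rw [sum_sub_distrib, ← sum_mul]
    ring
  rw [e3, div_pow, div_le_iff₀ (by positivity)]
  have h := sq_sum_le_card_mul_sum_sq (s := range M)
    (f := fun l => s (K + l) b - cc (s (K + l)) χ * sg χ b)
  rw [card_range] at h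
  refine h.trans (le_of_eq ?_)
  generalize (∑ l ∈ range M, (s (K + l) b - cc (s (K + l)) χ * sg χ b) ^ 2) = Z
  field_simp

/-- The defect of a pair controls the twisted means. -/
lemma cc_RR (s v : ℕ → G → ℝ) (χ : G →* ℤˣ) (i j : ℕ) :
    |cc (s i) χ * cc (v (i + j)) χ - cc (v j) χ| ≤ Real.sqrt (RR s v i j) := by
  have e1 : cc (s i) χ * cc (v (i + j)) χ - cc (v j) χ =
      av fun b => av fun c => (s i b * v (i + j) (b * c) - v j c) * sg χ c := by
    have h1 := av2_mul (fun b => s i b * sg χ b) (fun b => v (i + j) b * sg χ b)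
    unfold cc
    rw [← h1]
    have h2 : (av fun b => v j b * sg χ b) = av fun _ : G => av fun b => v j b * sg χ b := by
      rw [av_const]
    rw [h2, ← av_sub]
    refine av_congr fun b => ?_
    rw [← av_sub]
    refine av_congr fun c => ?_
    rw [sg_mul]
    have := sg_mul_self χ b
    linear_combination (s i b * v (i + j) (b * c) * sg χ c) * this
  rw [e1]
  have h2 : |(av fun b => av fun c => (s i b * v (i + j) (b * c) - v j c) * sg χ c)| ≤
      av fun b => av fun c => |s i b * v (i + j) (b * c) - v j c| := by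
    refine (abs_av_le _).trans (av_mono fun b => (abs_av_le _).trans (av_mono fun c => ?_))
    rw [abs_mul, sg_abs, mul_one]
  exact h2.trans (av2_abs_le_sqrt le_rfl)

/-- The sign is forced. -/
lemma sign_forced {t x p q r κ d1 d2 d3 : ℝ} (hκ0 : 0 ≤ κ) (hκ : κ ≤ 1 / 100)
    (ht : |t| ≤ 1 + κ) (hx : |x| ≤ 1 + κ)
    (h1 : |x * q - p| ≤ d1) (h2 : |x * r - q| ≤ d2) (h3 : |t * r - p| ≤ d3) :
    1 - t ≤ (1 + 3 * κ - x ^ 2) + 3 * (d1 + d2 + d3) + 3 * (1 + 3 * κ - r ^ 2) ∨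
      1 + 3 * κ < r ^ 2 := by
  by_cases hr : 1 + 3 * κ < r ^ 2
  · right; exact hr
  left
  rw [not_lt] at hr
  have d10 : 0 ≤ d1 := (abs_nonneg _).trans h1
  have d20 : 0 ≤ d2 := (abs_nonneg _).trans h2
  have d30 : 0 ≤ d3 := (abs_nonneg _).trans h3
  have ht' := abs_le.mp ht
  have hx' := sq_bd hκ0 (by linarith) hx
  by_cases hr2 : |r| < 1 / 2
  · have : r ^ 2 ≤ 1 / 4 := by
      rw [← sq_abs]
      have := abs_nonneg r
      nlinarith
    linarith [ht'.1]
  · rw [not_lt] at hr2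
    have h4 : |r * (t - x ^ 2)| ≤ d3 + d1 + 11 / 10 * d2 := by
      have e1 : r * (t - x ^ 2) = (t * r - p) - (x * q - p) - x * (x * r - q) := by ring
      have h5 : |x * (x * r - q)| ≤ 11 / 10 * d2 := by
        rw [abs_mul]
        exact mul_le_mul (by linarith) h2 (abs_nonneg _) (by norm_num)
      have b1 := abs_le.mp h1
      have b3 := abs_le.mp h3
      have b5 := abs_le.mp h5
      rw [e1, abs_le]
      constructor <;> linarith
    rw [abs_mul] at h4
    have h6 : |t - x ^ 2| ≤ 2 * (d3 + d1 + 11 / 10 * d2) := by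
      have := abs_nonneg (t - x ^ 2)
      nlinarith
    have h7 := (abs_le.mp h6).1
    have h8 : (0:ℝ) ≤ 3 * (1 + 3 * κ - r ^ 2) := by linarith
    linarith

end Pool.Agent.T9h52.BT.St
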