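import Pool.Agent.T9h52.BT.St4

/-!
# The structure theorem
-/

set_option autoImplicit false

namespace Pool.Agent.T9h52.BT.St

open Finset

variable {G : Type*} [Fintype G] [CommGroup G]

lemma sum_two_mul (F : ℕ → ℝ) (m L : ℕ) (h : m ≤ L) :
    ∑ i ∈ Ico (2 * m) (2 * L), F i = ∑ i ∈ Ico m L, (F (2 * i) + F (2 * i + 1)) := by
  induction L, h using Nat.le_induction with
  | base => simp
  | succ n hn ih =>
    rw [sum_Ico_succ_top hn, ← ih, show 2 * (n + 1) = 2 * n + 1 + 1 by ring,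
      sum_Ico_succ_top (by omega), sum_Ico_succ_top (by omega)]
    ring

/-- Step 3: choice of the base point. -/
lemma step3 {s v : ℕ → G → ℝ} {κ : ℝ} {m T N : ℕ} (hκ0 : 0 ≤ κ) (hκ : κ ≤ 1 / 10)
    (hm : 1 ≤ m) (hmT : m ≤ T) (hTN : 16 * T ≤ N)
    (hv : ∀ i ∈ Icc m (N - m), ∀ b, |v i b| ≤ 1 + κ)
    (hP : ∑ p ∈ PP m T N, RR s v p.1 p.2 ≤ 17 * κ * N ^ 2)
    (hE : N * (1 - 7 * κ) ≤ ∑ j ∈ Icc m (N - m), sq2 (v j)) :
    ∃ j ∈ Ico T (2 * T), (∑ i ∈ Icc m (N - m - 2 * T), RR s v i j) +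
      N * (1 + 3 * κ - sq2 (v j)) ≤ 27 * κ * N ^ 2 / T := by
  have hN0 : (0 : ℝ) ≤ N := Nat.cast_nonneg N
  have hT0 : (0 : ℝ) < T := by exact_mod_cast (by omega : 0 < T)
  have h1 : ∑ j ∈ Ico T (2 * T), ((∑ i ∈ Icc m (N - m - 2 * T), RR s v i j) +
      N * (1 + 3 * κ - sq2 (v j))) ≤ 27 * κ * N ^ 2 := by
    rw [sum_add_distrib]
    have a1 : ∑ j ∈ Ico T (2 * T), ∑ i ∈ Icc m (N - m - 2 * T), RR s v i j ≤
        17 * κ * N ^ 2 := by
      rw [← sum_product' (Ico T (2 * T)) (Icc m (N - m - 2 * T)) (fun j i => RR s v i j)]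
      refine le_trans ?_ hP
      refine sum_inj_le (g := fun x : ℕ × ℕ => (x.2, x.1)) (F := fun p => RR s v p.1 p.2)
        ?_ ?_ (fun p => RR_nonneg _ _ _ _)
      · intro x _ y _ hxy
        simp only [Prod.mk.injEq] at hxy
        exact Prod.ext hxy.2 hxy.1
      · intro x hx
        rw [mem_product, mem_Ico, mem_Icc] at hx
        rw [mem_PP]
        simp only
        refine ⟨?_, ?_, ?_, ?_⟩ <;> omega
    have a2 : ∑ j ∈ Ico T (2 * T), N * (1 + 3 * κ - sq2 (v j)) ≤ 10 * κ * N ^ 2 := by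
      have b1 : ∑ j ∈ Ico T (2 * T), N * (1 + 3 * κ - sq2 (v j)) ≤
          ∑ j ∈ Icc m (N - m), N * (1 + 3 * κ - sq2 (v j)) := by
        refine sum_le_sum_of_subset_of_nonneg ?_ fun K hK _ => ?_
        · intro j hj
          rw [mem_Ico] at hj
          rw [mem_Icc]
          omega
        · exact mul_nonneg hN0 (by linarith [sq2_le hκ0 (by linarith) (hv K hK)])
      have b2 : ∑ j ∈ Icc m (N - m), N * (1 + 3 * κ - sq2 (v j)) =
          ((Icc m (N - m)).card : ℝ) * (N * (1 + 3 * κ)) -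
            N * ∑ j ∈ Icc m (N - m), sq2 (v j) := by
        rw [mul_sum, ← nsmul_eq_mul, ← sum_const, ← sum_sub_distrib]
        exact sum_congr rfl fun j _ => by ring
      have b3 : ((Icc m (N - m)).card : ℝ) * (N * (1 + 3 * κ)) ≤ N * (N * (1 + 3 * κ)) :=
        mul_le_mul_of_nonneg_right (icc_card_le hm) (by positivity)
      have b4 := mul_le_mul_of_nonneg_left hE hN0
      nlinarith
    linarith
  by_contra hcon
  push Not at hcon
  have h2 : ∑ j ∈ Ico T (2 * T), (27 * κ * N ^ 2 / T) <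
      ∑ j ∈ Ico T (2 * T), ((∑ i ∈ Icc m (N - m - 2 * T), RR s v i j) +
      N * (1 + 3 * κ - sq2 (v j))) := by
    refine sum_lt_sum_of_nonempty ?_ hcon
    exact ⟨T, by rw [mem_Ico]; omega⟩
  rw [sum_const, Nat.card_Ico, nsmul_eq_mul] at h2
  have e1 : ((2 * T - T : ℕ) : ℝ) = T := by
    have : 2 * T - T = T := by omega
    rw [this]
  rw [e1, mul_div_cancel₀ _ hT0.ne'] at h2
  linarith

set_option maxHeartbeats 4000000 in
/-- Step 3b: the character. -/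
lemma step3b {s : ℕ → G → ℝ} {κ D τ : ℝ} {m T M N : ℕ} (hτ0 : 0 < τ) (hτ : τ ≤ 1 / 16)
    (hD0 : 0 < D) (hD : D ≤ 1 / 10000) (hκ : κ = τ * D ^ 2 / 27)
    (hm : 1 ≤ m) (hmT : m ≤ T) (hTN : 16 * T ≤ N) (hτT : τ * N ≤ T) (hM : 1 ≤ M)
    (hMT : M ≤ T)
    (hs : ∀ i, m ≤ i → i ≤ N + M → ∀ b, |s i b| ≤ 1 + κ)
    (hP : ∑ p ∈ PP m T N, RR s (wv M s) p.1 p.2 ≤ 17 * κ * N ^ 2)
    (hEs : N * (1 - 7 * κ) ≤ ∑ i ∈ Icc m (N - m), sq2 (s i))
    (hE : N * (1 - 7 * κ) ≤ ∑ j ∈ Icc m (N - m), sq2 (wv M s j)) :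
    ∃ χ : G →* ℤˣ,
      ∑ i ∈ Icc m (N - m - 2 * T), (1 + 3 * κ - cc (s i) χ ^ 2) ≤ 106 * D * N := by
  have hκ0 : 0 ≤ κ := by rw [hκ]; positivity
  have hκD : 432 * κ ≤ D ^ 2 := by rw [hκ]; nlinarith [sq_nonneg D]
  have hDD : D ^ 2 ≤ D / 10000 := by nlinarith
  have hκ1 : κ ≤ 1 / 100 := by nlinarith
  have hN0 : (0 : ℝ) ≤ N := Nat.cast_nonneg N
  have hT0 : (0 : ℝ) < T := by exact_mod_cast (by omega : 0 < T)
  have hNpos : (0 : ℝ) < N := by exact_mod_cast (by omega : 0 < N)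
  have hv : ∀ i ∈ Icc m (N - m), ∀ b, |wv M s i b| ≤ 1 + κ := by
    intro i hi b
    rw [mem_Icc] at hi
    exact wv_abs hM fun l hl => hs (i + l) (by omega) (by omega) b
  obtain ⟨j, hj, hjb⟩ := step3 hκ0 (by linarith) hm hmT hTN hv hP hE
  rw [mem_Ico] at hj
  have hδ : 27 * κ * N ^ 2 / T ≤ D ^ 2 * N := by
    rw [div_le_iff₀ hT0, hκ]
    have : D ^ 2 * N * (τ * N) ≤ D ^ 2 * N * T := mul_le_mul_of_nonneg_left hτT (by positivity)
    nlinarith
  have hjm : j ∈ Icc m (N - m) := by rw [mem_Icc]; omega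
  have hvj := hv j hjm
  have hβ := sq2_le hκ0 (by linarith) hvj
  have hRs0 : 0 ≤ ∑ i ∈ Icc m (N - m - 2 * T), RR s (wv M s) i j :=
    sum_nonneg fun i _ => RR_nonneg _ _ _ _
  have hRs : ∑ i ∈ Icc m (N - m - 2 * T), RR s (wv M s) i j ≤ D ^ 2 * N := by
    have : 0 ≤ (N : ℝ) * (1 + 3 * κ - sq2 (wv M s j)) := mul_nonneg hN0 (by linarith)
    linarith
  have hβ2 : 1 - D ^ 2 ≤ sq2 (wv M s j) := by
    have h1 : (N : ℝ) * (1 + 3 * κ - sq2 (wv M s j)) ≤ N * D ^ 2 := by linarith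
    have h2 := le_of_mul_le_mul_left h1 hNpos
    linarith
  -- comparison of autocorrelations
  set r : G → ℝ := rho (wv M s j) with hr
  have hcorr : ∀ i ∈ Icc m (N - m - 2 * T), ∀ a,
      (av fun b => |r a - s i b * s i (a * b)|) ≤
        22 * Real.sqrt (RR s (wv M s) i j) + 5 * D ^ 2 := by
    intro i hi a
    rw [mem_Icc] at hi
    have hsi : ∀ b, |s i b| ≤ 1 + κ := hs i hi.1 (by omega)
    have hwij : ∀ b, |wv M s (i + j) b| ≤ 1 + κ := hv (i + j) (by rw [mem_Icc]; omega)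
    have h1 := corr hκ0 (by linarith) hsi hwij hvj (R := RR s (wv M s) i j) (e := D ^ 2)
      le_rfl hβ2 a
    have h2 : (av fun b => |r a - s i b * s i (a * b)|) ≤
        av fun b => av fun c => |wv M s j (a * c) * wv M s j c - s i b * s i (a * b)| := by
      refine av_mono fun b => ?_
      have e1 : r a - s i b * s i (a * b) =
          av fun c => (wv M s j (a * c) * wv M s j c - s i b * s i (a * b)) := by
        rw [av_sub, av_const]
        rfl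
      rw [e1]
      exact abs_av_le _
    linarith
  -- choice of a good index
  have hcardle : ((Icc m (N - m - 2 * T)).card : ℝ) ≤ N := by
    rw [Nat.card_Icc]
    exact_mod_cast (by omega : N - m - 2 * T + 1 - m ≤ N)
  have hcardge : (N : ℝ) ≤ 2 * ((Icc m (N - m - 2 * T)).card : ℝ) := by
    rw [Nat.card_Icc]
    exact_mod_cast (by omega : N ≤ 2 * (N - m - 2 * T + 1 - m))
  have hsqrt : ∑ i ∈ Icc m (N - m - 2 * T), Real.sqrt (RR s (wv M s) i j) ≤ D * N := by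
    have h1 := sum_sqrt_le (Icc m (N - m - 2 * T)) (fun i => RR s (wv M s) i j)
      (fun i => RR_nonneg _ _ _ _) hcardle hRs
    have e1 : (N : ℝ) * (D ^ 2 * N) = (D * N) ^ 2 := by ring
    rw [e1, Real.sqrt_sq (by positivity)] at h1
    exact h1
  have hα : ∑ i ∈ Icc m (N - m - 2 * T), (1 + 3 * κ - sq2 (s i)) ≤ 10 * κ * N := by
    have b1 : ∑ i ∈ Icc m (N - m - 2 * T), (1 + 3 * κ - sq2 (s i)) ≤
        ∑ i ∈ Icc m (N - m), (1 + 3 * κ - sq2 (s i)) := by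
      refine sum_le_sum_of_subset_of_nonneg ?_ fun K hK _ => ?_
      · exact Icc_subset_Icc_right (by omega)
      · rw [mem_Icc] at hK
        linarith [sq2_le hκ0 (by linarith) (hs K hK.1 (by omega))]
    have b2 : ∑ i ∈ Icc m (N - m), (1 + 3 * κ - sq2 (s i)) =
        ((Icc m (N - m)).card : ℝ) * (1 + 3 * κ) - ∑ j ∈ Icc m (N - m), sq2 (s j) := by
      rw [← nsmul_eq_mul, ← sum_const, ← sum_sub_distrib]
    have b3 : ((Icc m (N - m)).card : ℝ) * (1 + 3 * κ) ≤ N * (1 + 3 * κ) :=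
      mul_le_mul_of_nonneg_right (icc_card_le hm) (by positivity)
    linarith
  obtain ⟨i0, hi0, hi0b⟩ : ∃ i ∈ Icc m (N - m - 2 * T),
      Real.sqrt (RR s (wv M s) i j) + (1 + 3 * κ - sq2 (s i)) ≤ 3 * D := by
    by_contra hcon
    push Not at hcon
    have h1 : ∑ i ∈ Icc m (N - m - 2 * T), 3 * D ≤ ∑ i ∈ Icc m (N - m - 2 * T),
        (Real.sqrt (RR s (wv M s) i j) + (1 + 3 * κ - sq2 (s i))) :=
      sum_le_sum fun i hi => (hcon i hi).le
    rw [sum_add_distrib, sum_const, nsmul_eq_mul] at h1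
    have h2 : (N : ℝ) * (3 * D) ≤ 2 * ((Icc m (N - m - 2 * T)).card : ℝ) * (3 * D) :=
      mul_le_mul_of_nonneg_right hcardge (by positivity)
    have h3 : 20 * κ * N < D * N := by
      refine mul_lt_mul_of_pos_right ?_ hNpos
      linarith
    nlinarith
  have hi0' := mem_Icc.mp hi0
  have hsi0 : ∀ b, |s i0 b| ≤ 1 + κ := hs i0 hi0'.1 (by omega)
  have hsq0 := Real.sqrt_nonneg (RR s (wv M s) i0 j)
  have hal0 := sq2_le hκ0 (by linarith) hsi0
  obtain ⟨χ, hχ⟩ := exists_hom (r := r) (s := s i0) (κ := κ) (err := 67 * D) (e0 := 3 * D)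
    hκ0 hκ1 (by linarith) (by linarith) hsi0
    (fun a => (hcorr i0 hi0 a).trans (by linarith)) (by linarith)
  refine ⟨χ, ?_⟩
  have hfin : ∀ i ∈ Icc m (N - m - 2 * T), 1 + 3 * κ - cc (s i) χ ^ 2 ≤
      75 * D + 22 * Real.sqrt (RR s (wv M s) i j) := by
    intro i hi
    have h1 := ci_sq (r := r) (s := s i) (χ := χ) (hcorr i hi) hχ
    have e1 : (av fun b => s i b * sg χ b) = cc (s i) χ := rfl
    rw [e1] at h1
    linarith
  calc ∑ i ∈ Icc m (N - m - 2 * T), (1 + 3 * κ - cc (s i) χ ^ 2)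
      ≤ ∑ i ∈ Icc m (N - m - 2 * T), (75 * D + 22 * Real.sqrt (RR s (wv M s) i j)) :=
        sum_le_sum hfin
    _ = ((Icc m (N - m - 2 * T)).card : ℝ) * (75 * D) +
          22 * ∑ i ∈ Icc m (N - m - 2 * T), Real.sqrt (RR s (wv M s) i j) := by
        rw [sum_add_distrib, sum_const, nsmul_eq_mul, mul_sum]
    _ ≤ N * (75 * D) + 22 * (D * N) := by
        have := mul_le_mul_of_nonneg_right hcardle (show (0:ℝ) ≤ 75 * D by positivity)
        linarith
    _ ≤ 106 * D * N := by nlinarith [mul_nonneg hD0.le hN0]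

end Pool.Agent.T9h52.BT.St
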