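import Pool.Agent.T9h52.BT.Ex2
import Pool.Agent.H307R2.Sg6

/-!
# Partial sums of `(1 * χ)(n) n ^ (-σ)`
-/

set_option autoImplicit false

namespace Pool.Agent.T9h52.BT.Zr

open Finset ArithmeticFunction
open Pool.Agent.T9h52.BT.Inv (chr_vals one_add_nonneg)
open Pool.Agent.T9h52.BT.Ex (toC toC_apply toC_ne_one)
open scoped ArithmeticFunction ComplexOrder

/-- `n ^ (-σ)` -/
noncomputable def uu (σ : ℝ) : ArithmeticFunction ℝ :=
  ⟨fun n => if n = 0 then 0 else (n:ℝ) ^ (-σ), by simp⟩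

/-- `χ(n) n ^ (-σ)` -/
noncomputable def fu {k : ℕ} (χ : DirichletCharacter ℤ k) (σ : ℝ) : ArithmeticFunction ℝ :=
  ⟨fun n => if n = 0 then 0 else ((χ (n : ZMod k) : ℤ) : ℝ) * (n:ℝ) ^ (-σ), by simp⟩

lemma uu_apply (σ : ℝ) {n : ℕ} (hn : n ≠ 0) : uu σ n = (n:ℝ) ^ (-σ) := if_neg hn

lemma fu_apply {k : ℕ} (χ : DirichletCharacter ℤ k) (σ : ℝ) {n : ℕ} (hn : n ≠ 0) :
    fu χ σ n = ((χ (n : ZMod k) : ℤ) : ℝ) * (n:ℝ) ^ (-σ) := if_neg hn

lemma uu_mul (σ : ℝ) (m n : ℕ) : uu σ (m * n) = uu σ m * uu σ n := by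
  rcases eq_or_ne m 0 with h | h
  · subst h; simp
  rcases eq_or_ne n 0 with h' | h'
  · subst h'; simp
  rw [uu_apply σ h, uu_apply σ h', uu_apply σ (mul_ne_zero h h'), Nat.cast_mul,
    Real.mul_rpow (Nat.cast_nonneg _) (Nat.cast_nonneg _)]

lemma fu_mul {k : ℕ} (χ : DirichletCharacter ℤ k) (σ : ℝ) (m n : ℕ) :
    fu χ σ (m * n) = fu χ σ m * fu χ σ n := by
  rcases eq_or_ne m 0 with h | h
  · subst h; simp
  rcases eq_or_ne n 0 with h' | h'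
  · subst h'; simp
  rw [fu_apply χ σ h, fu_apply χ σ h', fu_apply χ σ (mul_ne_zero h h')]
  simp only [Nat.cast_mul]
  rw [Real.mul_rpow (Nat.cast_nonneg _) (Nat.cast_nonneg _), map_mul]
  push_cast
  ring

/-- the logarithm times a completely multiplicative function -/
lemma log_cm {h : ArithmeticFunction ℝ} (hh : ∀ m n, h (m * n) = h m * h n) :
    h.pmul log = h.pmul Λ * h := by
  ext n
  rw [pmul_apply, mul_apply]
  have h1 : ∀ x ∈ n.divisorsAntidiagonal, (h.pmul Λ) x.1 * h x.2 = h n * Λ x.1 := by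
    intro x hx
    rw [Nat.mem_divisorsAntidiagonal] at hx
    rw [pmul_apply, ← hx.1, hh]
    ring
  rw [sum_congr rfl h1, ← mul_sum, Nat.sum_divisorsAntidiagonal (fun d _ => Λ d), vonMangoldt_sum]
  rfl

lemma log_mul_conv (f g : ArithmeticFunction ℝ) :
    (f * g).pmul log = f.pmul log * g + f * g.pmul log := by
  ext n
  rw [pmul_apply, ArithmeticFunction.add_apply, mul_apply, mul_apply, mul_apply, sum_mul, ← sum_add_distrib]
  refine sum_congr rfl fun x hx => ?_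
  rw [Nat.mem_divisorsAntidiagonal] at hx
  have h1 : x.1 ≠ 0 := by rintro h; rw [h, zero_mul] at hx; exact hx.2 hx.1.symm
  have h2 : x.2 ≠ 0 := by rintro h; rw [h, mul_zero] at hx; exact hx.2 hx.1.symm
  rw [pmul_apply, pmul_apply, log_apply, log_apply, log_apply, ← hx.1, Nat.cast_mul,
    Real.log_mul (by exact_mod_cast h1) (by exact_mod_cast h2)]
  ring

/-- `r(n) n ^ (-σ)` -/
noncomputable def rr {k : ℕ} (χ : DirichletCharacter ℤ k) (σ : ℝ) : ArithmeticFunction ℝ :=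
  fu χ σ * uu σ

/-- its summatory function -/
noncomputable def Sr {k : ℕ} (χ : DirichletCharacter ℤ k) (σ : ℝ) (N : ℕ) : ℝ :=
  ∑ n ∈ Ioc 0 N, rr χ σ n

lemma rr_log {k : ℕ} (χ : DirichletCharacter ℤ k) (σ : ℝ) :
    (rr χ σ).pmul log = ((fu χ σ).pmul Λ + (uu σ).pmul Λ) * rr χ σ := by
  unfold rr
  rw [log_mul_conv, log_cm (fu_mul χ σ), log_cm (uu_mul σ)]
  ring

lemma toC_sq {k : ℕ} (χ : DirichletCharacter ℤ k) : toC χ ^ 2 = 1 := by
  ext u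
  rw [MulChar.pow_apply_coe, toC_apply, MulChar.one_apply_coe]
  rcases Pool.Agent.T9h52.BT.Ex.unit_val χ u with h | h <;> rw [h] <;> norm_num

lemma rr_apply {k : ℕ} (χ : DirichletCharacter ℤ k) (σ : ℝ) {n : ℕ} (hn : n ≠ 0) :
    rr χ σ n = (∑ d ∈ n.divisors, ((χ (d : ZMod k) : ℤ) : ℝ)) * (n:ℝ) ^ (-σ) := by
  unfold rr
  rw [mul_apply, ← Nat.sum_divisorsAntidiagonal (fun d _ => ((χ (d : ZMod k) : ℤ) : ℝ)), sum_mul]
  refine sum_congr rfl fun x hx => ?_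
  rw [Nat.mem_divisorsAntidiagonal] at hx
  have h1 : x.1 ≠ 0 := by rintro h; rw [h, zero_mul] at hx; exact hx.2 hx.1.symm
  have h2 : x.2 ≠ 0 := by rintro h; rw [h, mul_zero] at hx; exact hx.2 hx.1.symm
  rw [fu_apply χ σ h1, uu_apply σ h2, ← hx.1, Nat.cast_mul,
    Real.mul_rpow (Nat.cast_nonneg _) (Nat.cast_nonneg _)]
  ring

lemma div_sum_nonneg {k : ℕ} [NeZero k] (χ : DirichletCharacter ℤ k) (n : ℕ) :
    0 ≤ ∑ d ∈ n.divisors, ((χ (d : ZMod k) : ℤ) : ℝ) := by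
  have h1 := DirichletCharacter.zetaMul_nonneg (toC_sq χ) n
  have h2 : (toC χ).zetaMul n = ((∑ d ∈ n.divisors, ((χ (d : ZMod k) : ℤ) : ℝ) : ℝ) : ℂ) := by
    unfold DirichletCharacter.zetaMul
    rw [coe_zeta_mul_apply]
    push_cast
    refine sum_congr rfl fun d hd => ?_
    have hd0 : d ≠ 0 := (Nat.pos_of_mem_divisors hd).ne'
    simp [toArithmeticFunction, hd0, toC_apply]
  rw [h2] at h1
  exact_mod_cast h1

lemma rr_nonneg {k : ℕ} [NeZero k] (χ : DirichletCharacter ℤ k) (σ : ℝ) (n : ℕ) :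
    0 ≤ rr χ σ n := by
  rcases eq_or_ne n 0 with h | h
  · subst h; simp
  · rw [rr_apply χ σ h]
    exact mul_nonneg (div_sum_nonneg χ n) (Real.rpow_nonneg (Nat.cast_nonneg _) _)

lemma Sr_mono {k : ℕ} [NeZero k] (χ : DirichletCharacter ℤ k) (σ : ℝ) {M N : ℕ} (h : M ≤ N) :
    Sr χ σ M ≤ Sr χ σ N :=
  sum_le_sum_of_subset_of_nonneg (Ioc_subset_Ioc_right h) fun n _ _ => rr_nonneg χ σ n

lemma one_le_Sr {k : ℕ} [NeZero k] (χ : DirichletCharacter ℤ k) (σ : ℝ) {N : ℕ} (h : 1 ≤ N) :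
    1 ≤ Sr χ σ N := by
  refine le_trans ?_ (Sr_mono χ σ h)
  unfold Sr
  have : Ioc 0 1 = {1} := rfl
  rw [this, sum_singleton, rr_apply χ σ one_ne_zero]
  simp

/-- growth of the partial sums -/
lemma growth {k : ℕ} [NeZero k] (χ : DirichletCharacter ℤ k) (σ : ℝ) {M N : ℕ} (h : M ≤ N)
    {u T : ℝ} (hu : ∀ n : ℕ, M < n → u ≤ Real.log n)
    (hT : ∑ d ∈ Ioc 0 N, (1 + ((χ (d : ZMod k) : ℤ) : ℝ)) * (d:ℝ) ^ (-σ) * Λ d ≤ T) :
    u * (Sr χ σ N - Sr χ σ M) ≤ T * Sr χ σ N := by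
  have h1 : Sr χ σ N - Sr χ σ M = ∑ n ∈ Ioc M N, rr χ σ n := by
    unfold Sr
    rw [sub_eq_iff_eq_add', sum_Ioc_consecutive _ (Nat.zero_le _) h]
  rw [h1, mul_sum]
  have h2 : ∑ n ∈ Ioc M N, u * rr χ σ n ≤ ∑ n ∈ Ioc M N, ((rr χ σ).pmul log) n := by
    refine sum_le_sum fun n hn => ?_
    rw [mem_Ioc] at hn
    rw [pmul_apply, log_apply, mul_comm]
    exact mul_le_mul_of_nonneg_left (hu n hn.1) (rr_nonneg χ σ n)
  have h3 : ∑ n ∈ Ioc M N, ((rr χ σ).pmul log) n ≤ ∑ n ∈ Ioc 0 N, ((rr χ σ).pmul log) n := by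
    refine sum_le_sum_of_subset_of_nonneg (Ioc_subset_Ioc_left (Nat.zero_le _)) fun n hn _ => ?_
    rw [mem_Ioc] at hn
    rw [pmul_apply, log_apply]
    exact mul_nonneg (rr_nonneg χ σ n) (Real.log_natCast_nonneg n)
  refine h2.trans (h3.trans ?_)
  rw [rr_log, sum_Ioc_mul_eq_sum_sum]
  have h4 : ∀ d ∈ Ioc 0 N, ((fu χ σ).pmul Λ + (uu σ).pmul Λ) d * ∑ m ∈ Ioc 0 (N / d), rr χ σ m ≤
      (1 + ((χ (d : ZMod k) : ℤ) : ℝ)) * (d:ℝ) ^ (-σ) * Λ d * Sr χ σ N := by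
    intro d hd
    rw [mem_Ioc] at hd
    have e1 : ((fu χ σ).pmul Λ + (uu σ).pmul Λ) d =
        (1 + ((χ (d : ZMod k) : ℤ) : ℝ)) * (d:ℝ) ^ (-σ) * Λ d := by
      rw [ArithmeticFunction.add_apply, pmul_apply, pmul_apply, fu_apply χ σ (by omega), uu_apply σ (by omega)]
      ring
    rw [e1]
    refine mul_le_mul_of_nonneg_left (Sr_mono χ σ (Nat.div_le_self N d)) ?_
    exact mul_nonneg (mul_nonneg (one_add_nonneg _ _) (Real.rpow_nonneg (Nat.cast_nonneg _) _))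
      vonMangoldt_nonneg
  refine (sum_le_sum h4).trans ?_
  rw [← sum_mul]
  exact mul_le_mul_of_nonneg_right hT (sum_nonneg fun n _ => rr_nonneg χ σ n)

end Pool.Agent.T9h52.BT.Zr
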