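import Pool.Agent.T9h52.BT.Zr1

/-!
# The asymptotic formula for the partial sums
-/

set_option autoImplicit false

namespace Pool.Agent.T9h52.BT.Zr

open Finset ArithmeticFunction
open Pool.Agent.T9h52.BT.Inv (chr_vals one_add_nonneg)
open Pool.Agent.T9h52.BT.Ex (toC toC_apply toC_ne_one)
open Pool.Agent.H307R2 (LFunction_eq zeta_eq TM_norm_le Ech_norm_le Ez_norm_le TM Ech Ez)

/-- the real value of `L(σ, χ)` -/
noncomputable def Lr {k : ℕ} [NeZero k] (χ : DirichletCharacter ℤ k) (σ : ℝ) : ℝ :=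
  ((toC χ).LFunction (σ : ℂ)).re

/-- the real value of `ζ(σ)` -/
noncomputable def zr (σ : ℝ) : ℝ := (riemannZeta (σ : ℂ)).re

lemma icc_eq (M : ℕ) : Icc 1 M = Ioc 0 M := by
  ext n; rw [mem_Icc, mem_Ioc]; omega

lemma cpow_real (n : ℕ) (σ : ℝ) : (n : ℂ) ^ (-(σ : ℂ)) = (((n:ℝ) ^ (-σ) : ℝ) : ℂ) := by
  rw [Complex.ofReal_cpow (Nat.cast_nonneg _)]
  push_cast
  rfl

lemma sum_fu {k : ℕ} [NeZero k] {χ : DirichletCharacter ℤ k} (hχ : χ ≠ 1) {σ : ℝ} (hσ : 0 < σ)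
    {M : ℕ} (hM : 1 ≤ M) : |∑ n ∈ Ioc 0 M, fu χ σ n - Lr χ σ| ≤ k * (M:ℝ) ^ (-σ) := by
  have h1 := LFunction_eq (toC_ne_one hχ) hM (s := (σ : ℂ)) (by simpa using hσ)
  have h2 := TM_norm_le hM (Ech_norm_le (toC_ne_one hχ) M) (s := (σ : ℂ)) (by simpa using hσ)
  set T := TM M (Ech (toC χ) M) (σ : ℂ) with hT
  have h3 : ∑ n ∈ Icc 1 M, (toC χ) (n : ZMod k) * (n : ℂ) ^ (-(σ : ℂ)) =
      ((∑ n ∈ Ioc 0 M, fu χ σ n : ℝ) : ℂ) := by
    rw [icc_eq, Complex.ofReal_sum]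
    refine sum_congr rfl fun n hn => ?_
    rw [mem_Ioc] at hn
    rw [fu_apply χ σ (by omega), cpow_real, toC_apply]
    push_cast
    rfl
  rw [h3] at h1
  have h4 : ∑ n ∈ Ioc 0 M, fu χ σ n - Lr χ σ = -((σ : ℂ) * T).re := by
    unfold Lr
    rw [h1, Complex.add_re, Complex.ofReal_re]
    ring
  rw [h4, abs_neg]
  refine (Complex.abs_re_le_norm _).trans ?_
  rw [norm_mul, Complex.norm_real, Real.norm_of_nonneg hσ.le]
  rw [Complex.ofReal_re] at h2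
  calc σ * ‖T‖ ≤ σ * (k * ((M:ℝ) ^ (-σ) / σ)) := mul_le_mul_of_nonneg_left h2 hσ.le
    _ = k * (M:ℝ) ^ (-σ) := by field_simp

lemma sum_uu {σ : ℝ} (hσ : 0 < σ) (hσ1 : σ < 1) {M : ℕ} (hM : 1 ≤ M) :
    |∑ n ∈ Ioc 0 M, uu σ n - zr σ - (M:ℝ) ^ (1 - σ) / (1 - σ)| ≤ (M:ℝ) ^ (-σ) := by
  have hne : (σ : ℂ) ≠ 1 := by
    intro h
    have : σ = 1 := by exact_mod_cast h
    linarith
  have h1 := zeta_eq hM (s := (σ : ℂ)) (by simpa using hσ) hne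
  have h2 := TM_norm_le hM Ez_norm_le (s := (σ : ℂ)) (by simpa using hσ)
  set T := TM M Ez (σ : ℂ) with hT
  have h3 : ∑ n ∈ Icc 1 M, (n : ℂ) ^ (-(σ : ℂ)) = ((∑ n ∈ Ioc 0 M, uu σ n : ℝ) : ℂ) := by
    rw [icc_eq, Complex.ofReal_sum]
    refine sum_congr rfl fun n hn => ?_
    rw [mem_Ioc] at hn
    rw [uu_apply σ (by omega), cpow_real]
  have h5 : (M : ℂ) ^ (1 - (σ : ℂ)) / ((σ : ℂ) - 1) =
      ((-((M:ℝ) ^ (1 - σ) / (1 - σ)) : ℝ) : ℂ) := by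
    have h6 : (M : ℂ) ^ (1 - (σ : ℂ)) = (((M:ℝ) ^ (1 - σ) : ℝ) : ℂ) := by
      rw [Complex.ofReal_cpow (Nat.cast_nonneg _)]
      push_cast
      rfl
    rw [h6]
    have h7 : (σ : ℂ) - 1 = -(((1 - σ : ℝ)) : ℂ) := by push_cast; ring
    rw [h7, div_neg]
    push_cast
    rfl
  rw [h3, h5] at h1
  have h4 : ∑ n ∈ Ioc 0 M, uu σ n - zr σ - (M:ℝ) ^ (1 - σ) / (1 - σ) = -((σ : ℂ) * T).re := by
    unfold zr
    rw [h1, Complex.add_re, Complex.add_re, Complex.ofReal_re, Complex.ofReal_re]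
    ring
  rw [h4, abs_neg]
  refine (Complex.abs_re_le_norm _).trans ?_
  rw [norm_mul, Complex.norm_real, Real.norm_of_nonneg hσ.le]
  rw [Complex.ofReal_re, one_mul] at h2
  calc σ * ‖T‖ ≤ σ * ((M:ℝ) ^ (-σ) / σ) := mul_le_mul_of_nonneg_left h2 hσ.le
    _ = (M:ℝ) ^ (-σ) := by field_simp

lemma rpow_neg_le {σ t M : ℝ} (hσ : 0 < σ) (hσ1 : σ ≤ 1) (hM : 0 < M) (ht : 0 < t)
    (h : t ≤ 2 * M) : M ^ (-σ) ≤ 2 * t ^ (-σ) := by
  have h1 : t ^ σ ≤ 2 * M ^ σ := by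
    calc t ^ σ ≤ (2 * M) ^ σ := Real.rpow_le_rpow ht.le h hσ.le
      _ = 2 ^ σ * M ^ σ := Real.mul_rpow (by norm_num) hM.le
      _ ≤ 2 * M ^ σ := by
        refine mul_le_mul_of_nonneg_right ?_ (Real.rpow_nonneg hM.le _)
        calc (2:ℝ) ^ σ ≤ 2 ^ (1:ℝ) := Real.rpow_le_rpow_of_exponent_le (by norm_num) hσ1
          _ = 2 := Real.rpow_one 2
  rw [Real.rpow_neg hM.le, Real.rpow_neg ht.le]
  have h2 : 0 < M ^ σ := Real.rpow_pos_of_pos hM _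
  have h3 : 0 < t ^ σ := Real.rpow_pos_of_pos ht _
  rw [← div_eq_mul_inv, inv_eq_one_div, div_le_div_iff₀ h2 h3]
  linarith

/-- the real variable version -/
lemma sum_uu_real {σ : ℝ} (hσ : 0 < σ) (hσ1 : σ < 1) {t : ℝ} (ht : 1 ≤ t) :
    |∑ n ∈ Ioc 0 ⌊t⌋₊, uu σ n - zr σ - t ^ (1 - σ) / (1 - σ)| ≤ 4 * t ^ (-σ) := by
  have hM : 1 ≤ ⌊t⌋₊ := (Nat.one_le_floor_iff t).2 ht
  set M := ⌊t⌋₊ with hMdef
  have hM1 : (1:ℝ) ≤ M := by exact_mod_cast hM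
  have hM0 : (0:ℝ) < M := by linarith
  have hMt : (M:ℝ) ≤ t := Nat.floor_le (by linarith)
  have htM : t < M + 1 := Nat.lt_floor_add_one t
  have h1 := sum_uu hσ hσ1 hM
  have h2 := rpow_neg_le hσ hσ1.le hM0 (by linarith : 0 < t) (by linarith)
  have h3 : t ^ (1 - σ) ≤ (M:ℝ) ^ (1 - σ) + (1 - σ) * (M:ℝ) ^ (-σ) := by
    have h4 : t = M * (1 + (t - M) / M) := by field_simp; ring
    have h5 : (1 + (t - M) / M) ^ (1 - σ) ≤ 1 + (1 - σ) * ((t - M) / M) :=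
      rpow_one_add_le_one_add_mul_self (by
        have : 0 ≤ (t - M) / M := div_nonneg (by linarith) hM0.le
        linarith) (by linarith) (by linarith)
    have h6 : 0 ≤ (M:ℝ) ^ (1 - σ) := Real.rpow_nonneg hM0.le _
    calc t ^ (1 - σ) = (M * (1 + (t - M) / M)) ^ (1 - σ) := by rw [← h4]
      _ = (M:ℝ) ^ (1 - σ) * (1 + (t - M) / M) ^ (1 - σ) := by
          refine Real.mul_rpow hM0.le ?_
          have : 0 ≤ (t - M) / M := div_nonneg (by linarith) hM0.le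
          linarith
      _ ≤ (M:ℝ) ^ (1 - σ) * (1 + (1 - σ) * ((t - M) / M)) := mul_le_mul_of_nonneg_left h5 h6
      _ = (M:ℝ) ^ (1 - σ) + (1 - σ) * (t - M) * ((M:ℝ) ^ (1 - σ) / M) := by ring
      _ ≤ (M:ℝ) ^ (1 - σ) + (1 - σ) * (M:ℝ) ^ (-σ) := by
          have e1 : (M:ℝ) ^ (1 - σ) / M = (M:ℝ) ^ (-σ) := by
            rw [div_eq_iff hM0.ne', ← Real.rpow_add_one hM0.ne']
            congr 1; ring
          rw [e1]
          have h7 : 0 ≤ (M:ℝ) ^ (-σ) := Real.rpow_nonneg hM0.le _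
          have h8 : (1 - σ) * (t - M) ≤ 1 - σ := by
            have := mul_le_mul_of_nonneg_left (by linarith : t - M ≤ 1) (by linarith : 0 ≤ 1 - σ)
            linarith
          have h9 := mul_le_mul_of_nonneg_right h8 h7
          linarith
  have h4 : (M:ℝ) ^ (1 - σ) ≤ t ^ (1 - σ) := Real.rpow_le_rpow hM0.le hMt (by linarith)
  have h5 : |(M:ℝ) ^ (1 - σ) / (1 - σ) - t ^ (1 - σ) / (1 - σ)| ≤ (M:ℝ) ^ (-σ) := by
    have h6 : (0:ℝ) < 1 - σ := by linarith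
    rw [← sub_div, abs_div, abs_of_pos h6, div_le_iff₀ h6, abs_sub_comm, abs_of_nonneg (by linarith)]
    linarith
  have h6 : ∑ n ∈ Ioc 0 M, uu σ n - zr σ - t ^ (1 - σ) / (1 - σ) =
      (∑ n ∈ Ioc 0 M, uu σ n - zr σ - (M:ℝ) ^ (1 - σ) / (1 - σ)) +
      ((M:ℝ) ^ (1 - σ) / (1 - σ) - t ^ (1 - σ) / (1 - σ)) := by ring
  rw [h6]
  refine (abs_add_le _ _).trans ?_
  linarith

lemma uu_nonneg (σ : ℝ) (n : ℕ) : 0 ≤ uu σ n := by
  rcases eq_or_ne n 0 with h | h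
  · subst h; simp
  · rw [uu_apply σ h]; positivity

lemma uu_le_one {σ : ℝ} (hσ : 0 ≤ σ) (n : ℕ) : uu σ n ≤ 1 := by
  rcases eq_or_ne n 0 with h | h
  · subst h; simp
  · rw [uu_apply σ h]
    have : (1:ℝ) ≤ n := by exact_mod_cast Nat.one_le_iff_ne_zero.2 h
    exact Real.rpow_le_one_of_one_le_of_nonpos this (by linarith)

lemma abs_fu_le {k : ℕ} (χ : DirichletCharacter ℤ k) (σ : ℝ) {n : ℕ} (hn : n ≠ 0) :
    |fu χ σ n| ≤ (n:ℝ) ^ (-σ) := by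
  have h0 : 0 ≤ (n:ℝ) ^ (-σ) := by positivity
  rw [fu_apply χ σ hn]
  rcases chr_vals χ (n : ZMod k) with h | h | h <;> rw [h]
  · simpa using h0
  · push_cast; rw [one_mul, abs_of_nonneg h0]
  · push_cast; rw [neg_one_mul, abs_neg, abs_of_nonneg h0]

lemma abs_zr_le {σ : ℝ} (hσ : 0 < σ) (hσ1 : σ < 1) : |zr σ| ≤ 2 + 1 / (1 - σ) := by
  have h1 := sum_uu hσ hσ1 (M := 1) le_rfl
  have e1 : Ioc 0 1 = {1} := rfl
  rw [e1, sum_singleton, uu_apply σ one_ne_zero] at h1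
  simp only [Nat.cast_one, Real.one_rpow] at h1
  have h2 : 0 < 1 / (1 - σ) := by
    have : 0 < 1 - σ := by linarith
    positivity
  rw [abs_le] at h1 ⊢
  constructor <;> linarith [h1.1, h1.2]

end Pool.Agent.T9h52.BT.Zr
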