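import Pool.Agent.T9h52.BT.Zr2

/-!
# The hyperbola method
-/

set_option autoImplicit false

namespace Pool.Agent.T9h52.BT.Zr

open Finset ArithmeticFunction
open Pool.Agent.T9h52.BT.Inv (chr_vals one_add_nonneg)

lemma part2 {k : ℕ} [NeZero k] {χ : DirichletCharacter ℤ k} (hχ : χ ≠ 1) {σ : ℝ} (hσ : 0 < σ)
    {N y : ℕ} (hy : 1 ≤ y) :
    |∑ d ∈ Ioc y N, fu χ σ d * ∑ m ∈ Ioc 0 (N / d), uu σ m| ≤
      2 * k * (y:ℝ) ^ (-σ) * ((N / y : ℕ) : ℝ) := by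
  have hy0 : (0:ℝ) < y := by exact_mod_cast hy
  have h1 : ∑ d ∈ Ioc y N, fu χ σ d * ∑ m ∈ Ioc 0 (N / d), uu σ m =
      ∑ m ∈ Ioc 0 (N / y), uu σ m * ∑ d ∈ Ioc y (N / m), fu χ σ d := by
    have h2 : ∀ d ∈ Ioc y N, fu χ σ d * ∑ m ∈ Ioc 0 (N / d), uu σ m =
        ∑ m ∈ Ioc 0 (N / d), uu σ m * fu χ σ d := by
      intro d _
      rw [mul_sum]
      exact sum_congr rfl fun m _ => mul_comm _ _
    rw [sum_congr rfl h2, sum_comm' (t' := Ioc 0 (N / y)) (s' := fun m => Ioc y (N / m))]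
    · exact sum_congr rfl fun m _ => by rw [mul_sum]
    · intro d m
      simp only [mem_Ioc]
      constructor
      · rintro ⟨⟨a, b⟩, c, e⟩
        have hd : 0 < d := by omega
        rw [Nat.le_div_iff_mul_le hd] at e
        refine ⟨⟨a, ?_⟩, c, ?_⟩
        · rw [Nat.le_div_iff_mul_le c]; rw [mul_comm]; exact e
        · rw [Nat.le_div_iff_mul_le hy]
          exact (Nat.mul_le_mul_left m a.le).trans e
      · rintro ⟨⟨a, b⟩, c, e⟩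
        have hd : 0 < d := by omega
        rw [Nat.le_div_iff_mul_le c] at b
        refine ⟨⟨a, ?_⟩, c, ?_⟩
        · exact (Nat.le_mul_of_pos_right d c).trans b
        · rw [Nat.le_div_iff_mul_le hd]; rw [mul_comm]; exact b
  rw [h1]
  have h3 : ∀ m ∈ Ioc 0 (N / y), |uu σ m * ∑ d ∈ Ioc y (N / m), fu χ σ d| ≤
      2 * k * (y:ℝ) ^ (-σ) := by
    intro m _
    rw [abs_mul, abs_of_nonneg (uu_nonneg σ m)]
    have h4 : |∑ d ∈ Ioc y (N / m), fu χ σ d| ≤ 2 * k * (y:ℝ) ^ (-σ) := by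
      rcases le_total (N / m) y with h5 | h5
      · rw [Ioc_eq_empty_of_le h5, sum_empty, abs_zero]; positivity
      · have h6 := sum_fu hχ hσ hy
        have h7 := sum_fu hχ hσ (M := N / m) (hy.trans h5)
        have h8 : ((N / m : ℕ) : ℝ) ^ (-σ) ≤ (y:ℝ) ^ (-σ) :=
          Real.rpow_le_rpow_of_nonpos hy0 (by exact_mod_cast h5) (by linarith)
        have h9 : (k:ℝ) * ((N / m : ℕ) : ℝ) ^ (-σ) ≤ k * (y:ℝ) ^ (-σ) :=
          mul_le_mul_of_nonneg_left h8 (Nat.cast_nonneg _)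
        have h10 : ∑ d ∈ Ioc y (N / m), fu χ σ d =
            ∑ d ∈ Ioc 0 (N / m), fu χ σ d - ∑ d ∈ Ioc 0 y, fu χ σ d := by
          rw [eq_sub_iff_add_eq', sum_Ioc_consecutive _ (Nat.zero_le _) h5]
        rw [h10]
        rw [abs_le] at h6 h7 ⊢
        constructor <;> linarith [h6.1, h6.2, h7.1, h7.2]
    calc uu σ m * |∑ d ∈ Ioc y (N / m), fu χ σ d|
        ≤ 1 * |∑ d ∈ Ioc y (N / m), fu χ σ d| :=
          mul_le_mul_of_nonneg_right (uu_le_one hσ.le m) (abs_nonneg _)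
      _ ≤ 2 * k * (y:ℝ) ^ (-σ) := by rw [one_mul]; exact h4
  refine (abs_sum_le_sum_abs _ _).trans ((sum_le_sum h3).trans ?_)
  rw [sum_const, Nat.card_Ioc, nsmul_eq_mul, Nat.sub_zero, mul_comm]

lemma part1 {k : ℕ} [NeZero k] {χ : DirichletCharacter ℤ k} (hχ : χ ≠ 1) {σ : ℝ} (hσ : 0 < σ)
    (hσ1 : σ < 1) {t : ℝ} {y : ℕ} (hy : 1 ≤ y) (hyt : (y:ℝ) ≤ t) :
    |∑ d ∈ Ioc 0 y, fu χ σ d * (∑ m ∈ Ioc 0 (⌊t⌋₊ / d), uu σ m) - zr σ * Lr χ σ -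
      t ^ (1 - σ) / (1 - σ) * Lr χ 1| ≤
      4 * y * t ^ (-σ) + (2 + 1 / (1 - σ)) * (k * (y:ℝ) ^ (-σ)) +
        t ^ (1 - σ) / (1 - σ) * (k * (y:ℝ) ^ (-1 : ℝ)) := by
  have hy0 : (0:ℝ) < y := by exact_mod_cast hy
  have ht0 : 0 < t := by linarith
  have h1σ : 0 < 1 - σ := by linarith
  obtain ⟨e, he⟩ : ∃ e : ℕ → ℝ, e = fun d => (∑ m ∈ Ioc 0 (⌊t⌋₊ / d), uu σ m) - zr σ -
    (t / d) ^ (1 - σ) / (1 - σ) := ⟨_, rfl⟩
  have he1 : ∀ d ∈ Ioc 0 y, |e d| ≤ 4 * (t / d) ^ (-σ) := by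
    intro d hd
    rw [mem_Ioc] at hd
    have hd0 : (0:ℝ) < d := by exact_mod_cast hd.1
    have hdy : (d:ℝ) ≤ y := by exact_mod_cast hd.2
    have h1 : 1 ≤ t / d := by rw [le_div_iff₀ hd0]; linarith
    have h2 := sum_uu_real hσ hσ1 h1
    rw [Nat.floor_div_natCast] at h2
    rw [he]
    exact h2
  have h2 : ∀ d ∈ Ioc 0 y, fu χ σ d * (∑ m ∈ Ioc 0 (⌊t⌋₊ / d), uu σ m) =
      fu χ σ d * zr σ + fu χ 1 d * (t ^ (1 - σ) / (1 - σ)) + fu χ σ d * e d := by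
    intro d hd
    rw [mem_Ioc] at hd
    have hd0 : (0:ℝ) < d := by exact_mod_cast hd.1
    have e1 : (∑ m ∈ Ioc 0 (⌊t⌋₊ / d), uu σ m) = zr σ + (t / d) ^ (1 - σ) / (1 - σ) + e d := by
      rw [he]; ring
    have e2 : fu χ σ d * ((t / d) ^ (1 - σ)) = fu χ 1 d * t ^ (1 - σ) := by
      rw [fu_apply χ σ (by omega), fu_apply χ 1 (by omega), Real.div_rpow ht0.le hd0.le]
      have e3 : (d:ℝ) ^ (-σ) / (d:ℝ) ^ (1 - σ) = (d:ℝ) ^ (-1 : ℝ) := by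
        rw [← Real.rpow_sub hd0]; congr 1; ring
      rw [← e3]; ring
    rw [e1]
    linear_combination (1 / (1 - σ)) * e2
  rw [sum_congr rfl h2, sum_add_distrib, sum_add_distrib, ← sum_mul, ← sum_mul]
  have hA := sum_fu hχ hσ hy
  have hB := sum_fu hχ one_pos hy
  have hz := abs_zr_le hσ hσ1
  set A := ∑ d ∈ Ioc 0 y, fu χ σ d with hAdef
  set B := ∑ d ∈ Ioc 0 y, fu χ 1 d with hBdef
  have hE : |∑ d ∈ Ioc 0 y, fu χ σ d * e d| ≤ 4 * y * t ^ (-σ) := by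
    refine (abs_sum_le_sum_abs _ _).trans ?_
    have h3 : ∀ d ∈ Ioc 0 y, |fu χ σ d * e d| ≤ 4 * t ^ (-σ) := by
      intro d hd
      have hd' := mem_Ioc.1 hd
      have hd0 : (0:ℝ) < d := by exact_mod_cast hd'.1
      rw [abs_mul]
      calc |fu χ σ d| * |e d| ≤ (d:ℝ) ^ (-σ) * (4 * (t / d) ^ (-σ)) :=
            mul_le_mul (abs_fu_le χ σ (by omega)) (he1 d hd) (abs_nonneg _) (by positivity)
        _ = 4 * t ^ (-σ) := by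
            rw [Real.div_rpow ht0.le hd0.le]
            have : (d:ℝ) ^ (-σ) ≠ 0 := (Real.rpow_pos_of_pos hd0 _).ne'
            field_simp
    refine (sum_le_sum h3).trans ?_
    rw [sum_const, Nat.card_Ioc, nsmul_eq_mul, Nat.sub_zero]
    linarith
  have hA2 : |zr σ * (A - Lr χ σ)| ≤ (2 + 1 / (1 - σ)) * (k * (y:ℝ) ^ (-σ)) := by
    rw [abs_mul]
    exact mul_le_mul hz hA (abs_nonneg _) (by positivity)
  have hB2 : |t ^ (1 - σ) / (1 - σ) * (B - Lr χ 1)| ≤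
      t ^ (1 - σ) / (1 - σ) * (k * (y:ℝ) ^ (-1 : ℝ)) := by
    rw [abs_mul, abs_of_nonneg (show 0 ≤ t ^ (1 - σ) / (1 - σ) by positivity)]
    exact mul_le_mul_of_nonneg_left hB (by positivity)
  have e4 : A * zr σ + B * (t ^ (1 - σ) / (1 - σ)) + ∑ d ∈ Ioc 0 y, fu χ σ d * e d -
      zr σ * Lr χ σ - t ^ (1 - σ) / (1 - σ) * Lr χ 1 =
      ∑ d ∈ Ioc 0 y, fu χ σ d * e d + zr σ * (A - Lr χ σ) +
        t ^ (1 - σ) / (1 - σ) * (B - Lr χ 1) := by ring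
  rw [e4]
  have h5 := abs_add_le (∑ d ∈ Ioc 0 y, fu χ σ d * e d + zr σ * (A - Lr χ σ))
    (t ^ (1 - σ) / (1 - σ) * (B - Lr χ 1))
  have h6 := abs_add_le (∑ d ∈ Ioc 0 y, fu χ σ d * e d) (zr σ * (A - Lr χ σ))
  linarith

theorem Sr_formula {k : ℕ} [NeZero k] {χ : DirichletCharacter ℤ k} (hχ : χ ≠ 1) {σ : ℝ}
    (hσ : 0 < σ) (hσ1 : σ < 1) {t : ℝ} {y : ℕ} (hy : 1 ≤ y) (hyt : (y:ℝ) ≤ t) :
    |Sr χ σ ⌊t⌋₊ - zr σ * Lr χ σ - t ^ (1 - σ) / (1 - σ) * Lr χ 1| ≤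
      4 * y * t ^ (-σ) + (2 + 1 / (1 - σ)) * (k * (y:ℝ) ^ (-σ)) +
        t ^ (1 - σ) / (1 - σ) * (k * (y:ℝ) ^ (-1 : ℝ)) + 2 * k * (y:ℝ) ^ (-σ) * (t / y) := by
  have hy0 : (0:ℝ) < y := by exact_mod_cast hy
  have ht0 : 0 < t := by linarith
  have hyN : y ≤ ⌊t⌋₊ := (Nat.le_floor_iff ht0.le).2 hyt
  have h1 := part1 hχ hσ hσ1 hy hyt
  have h2 := part2 hχ hσ (N := ⌊t⌋₊) hy
  have h3 : ((⌊t⌋₊ / y : ℕ) : ℝ) ≤ t / y := by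
    have := Nat.floor_le (show 0 ≤ t / y by positivity)
    rwa [Nat.floor_div_natCast] at this
  have h4 : 2 * k * (y:ℝ) ^ (-σ) * ((⌊t⌋₊ / y : ℕ) : ℝ) ≤ 2 * k * (y:ℝ) ^ (-σ) * (t / y) :=
    mul_le_mul_of_nonneg_left h3 (by positivity)
  have h5 : Sr χ σ ⌊t⌋₊ = ∑ d ∈ Ioc 0 y, fu χ σ d * (∑ m ∈ Ioc 0 (⌊t⌋₊ / d), uu σ m) +
      ∑ d ∈ Ioc y ⌊t⌋₊, fu χ σ d * ∑ m ∈ Ioc 0 (⌊t⌋₊ / d), uu σ m := by
    unfold Sr rr
    rw [sum_Ioc_mul_eq_sum_sum, sum_Ioc_consecutive _ (Nat.zero_le _) hyN]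
  rw [h5]
  rw [abs_le] at h1 h2 ⊢
  constructor <;> linarith [h1.1, h1.2, h2.1, h2.2]

end Pool.Agent.T9h52.BT.Zr
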