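import Pool.Agent.T9h52.BT.Zr3

/-!
# Rarity of primes with `χ(p) = 1` forces a real zero
-/

set_option autoImplicit false

namespace Pool.Agent.T9h52.BT.Zr

open Finset ArithmeticFunction Filter
open Pool.Agent.T9h52.BT.Inv (chr_vals one_add_nonneg)
open Pool.Agent.T9h52.BT.Ex (toC toC_apply toC_ne_one)
open scoped ArithmeticFunction ArithmeticFunction.zeta

lemma lam_div_le {N : ℕ} (hN : 1 ≤ N) : ∑ d ∈ Ioc 0 N, Λ d / d ≤ Real.log N + 6 := by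
  have hN0 : (0:ℝ) < N := by exact_mod_cast hN
  have h1 := sum_Ioc_mul_zeta_eq_sum (R := ℝ) Λ N
  have h2 : ∑ n ∈ Ioc 0 N, (Λ * (ζ : ArithmeticFunction ℝ)) n ≤ N * Real.log N := by
    rw [vonMangoldt_mul_zeta]
    have h3 : ∀ n ∈ Ioc 0 N, log n ≤ Real.log N := by
      intro n hn
      rw [mem_Ioc] at hn
      rw [log_apply]
      exact Real.log_le_log (by exact_mod_cast hn.1) (by exact_mod_cast hn.2)
    refine (sum_le_sum h3).trans ?_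
    rw [sum_const, Nat.card_Ioc, nsmul_eq_mul, Nat.sub_zero]
  rw [h1] at h2
  have h4 : ∀ d ∈ Ioc 0 N, N * (Λ d / d) - Λ d ≤ Λ d * ((N / d : ℕ) : ℝ) := by
    intro d hd
    rw [mem_Ioc] at hd
    have hd0 : (0:ℝ) < d := by exact_mod_cast hd.1
    have h5 : (N:ℝ) / d - 1 ≤ ((N / d : ℕ) : ℝ) := by
      have := Nat.lt_floor_add_one ((N:ℝ) / d)
      rw [Nat.floor_div_eq_div] at this
      linarith
    have h6 := mul_le_mul_of_nonneg_left h5 (vonMangoldt_nonneg (n := d))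
    have h7 : N * (Λ d / d) - Λ d = Λ d * ((N:ℝ) / d - 1) := by ring
    rw [h7]
    exact h6
  have h5 := sum_le_sum h4
  rw [sum_sub_distrib, ← mul_sum] at h5
  have h6 : ∑ d ∈ Ioc 0 N, Λ d ≤ 6 * N := by
    have h7 := Chebyshev.psi_le_const_mul_self (x := (N:ℝ)) hN0.le
    rw [Chebyshev.psi, Nat.floor_natCast] at h7
    refine h7.trans ?_
    have h3 : Real.log 4 ≤ 2 := by
      have h8 : Real.log 4 = 2 * Real.log 2 := by
        rw [show (4 : ℝ) = 2 ^ 2 by norm_num, Real.log_pow]; norm_num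
      have := Real.log_two_lt_d9
      linarith
    exact mul_le_mul_of_nonneg_right (by linarith) hN0.le
  have h7 : N * ∑ d ∈ Ioc 0 N, Λ d / d ≤ N * (Real.log N + 6) := by linarith
  exact le_of_mul_le_mul_left h7 hN0

lemma lam_nonprime : ∃ C : ℝ, 0 ≤ C ∧ ∀ N : ℕ, 1 ≤ N →
    ∑ d ∈ (Ioc 0 N).filter (fun d => ¬ d.Prime), Λ d / d ≤ C := by
  obtain ⟨D, hD⟩ := Pool.Agent.Helper601.Mertens.mertens_log
  have hD0 : 0 ≤ D := le_trans (abs_nonneg _) (hD 1 le_rfl)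
  refine ⟨D + 6, by linarith, fun N hN => ?_⟩
  have h1 := lam_div_le hN
  have h2 := (abs_le.1 (hD N hN)).1
  have h3 := sum_filter_add_sum_filter_not (Ioc 0 N) Nat.Prime (fun d => Λ d / (d:ℝ))
  have h4 : ∑ d ∈ (Ioc 0 N).filter Nat.Prime, Λ d / (d:ℝ) =
      ∑ p ∈ (Icc 1 N).filter Nat.Prime, Real.log p / p := by
    rw [icc_eq]
    refine sum_congr rfl fun p hp => ?_
    rw [vonMangoldt_apply_prime (mem_filter.1 hp).2]
  rw [h4] at h3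
  linarith

/-- the weighted sum over primes and prime powers -/
lemma T_bound : ∃ C : ℝ, 0 ≤ C ∧ ∀ (k : ℕ) (χ : DirichletCharacter ℤ k) (x z : ℝ) (N : ℕ), 1 ≤ z →
    1 ≤ N → 0 ≤ x →
    ∑ p ∈ (Icc 1 N).filter (fun p : ℕ => p.Prime ∧ z < p),
      (1 + ((χ (p : ZMod k) : ℤ) : ℝ)) * (Real.log p / p) ≤ x →
    ∑ d ∈ Ioc 0 N, (1 + ((χ (d : ZMod k) : ℤ) : ℝ)) * (Λ d / d) ≤ x + 2 * Real.log z + C := by
  obtain ⟨C, hC0, hC⟩ := lam_nonprime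
  refine ⟨2 * C + 12, by linarith, ?_⟩
  intro k χ x z N hz hN hx h
  have h2 : ∀ a : ZMod k, (1 + ((χ a : ℤ) : ℝ)) ≤ 2 := by
    intro a
    rcases chr_vals χ a with h | h | h <;> rw [h] <;> norm_num
  have hnn : ∀ d : ℕ, 0 ≤ Λ d / (d:ℝ) := fun d => div_nonneg vonMangoldt_nonneg (Nat.cast_nonneg _)
  rw [← sum_filter_add_sum_filter_not (Ioc 0 N) (fun p : ℕ => p.Prime ∧ z < p)]
  have h3 : ∑ d ∈ (Ioc 0 N).filter (fun p : ℕ => p.Prime ∧ z < p),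
      (1 + ((χ (d : ZMod k) : ℤ) : ℝ)) * (Λ d / d) ≤ x := by
    rw [icc_eq] at h
    refine le_trans (le_of_eq ?_) h
    refine sum_congr rfl fun p hp => ?_
    rw [vonMangoldt_apply_prime (mem_filter.1 hp).2.1]
  have hz1 : 1 ≤ ⌊z⌋₊ := (Nat.one_le_floor_iff z).2 hz
  have h4 : ∑ d ∈ (Ioc 0 N).filter (fun p : ℕ => ¬ (p.Prime ∧ z < p)),
      (1 + ((χ (d : ZMod k) : ℤ) : ℝ)) * (Λ d / d) ≤
      2 * ∑ d ∈ Ioc 0 ⌊z⌋₊, Λ d / d + 2 * ∑ d ∈ (Ioc 0 N).filter (fun d => ¬ d.Prime), Λ d / d := by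
    have h5 : ∑ d ∈ (Ioc 0 N).filter (fun p : ℕ => ¬ (p.Prime ∧ z < p)),
        (1 + ((χ (d : ZMod k) : ℤ) : ℝ)) * (Λ d / d) ≤
        ∑ d ∈ Ioc 0 ⌊z⌋₊ ∪ (Ioc 0 N).filter (fun d => ¬ d.Prime), 2 * (Λ d / d) := by
      refine le_trans (sum_le_sum (g := fun d : ℕ => 2 * (Λ d / (d:ℝ))) fun d _ => ?_)
        (sum_le_sum_of_subset_of_nonneg ?_ fun d _ _ => ?_)
      · exact mul_le_mul_of_nonneg_right (h2 _) (hnn d)
      · intro d hd
        rw [mem_filter, mem_Ioc] at hd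
        rw [mem_union, mem_filter, mem_Ioc, mem_Ioc]
        by_cases hp : d.Prime
        · left
          refine ⟨hd.1.1, ?_⟩
          have : ¬ z < d := fun h => hd.2 ⟨hp, h⟩
          exact (Nat.le_floor_iff (by linarith)).2 (not_lt.1 this)
        · right; exact ⟨hd.1, hp⟩
      · exact mul_nonneg (by norm_num) (hnn d)
    refine h5.trans ?_
    have h6 : ∑ d ∈ Ioc 0 ⌊z⌋₊ ∪ (Ioc 0 N).filter (fun d => ¬ d.Prime), 2 * (Λ d / (d:ℝ)) +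
        ∑ d ∈ Ioc 0 ⌊z⌋₊ ∩ (Ioc 0 N).filter (fun d => ¬ d.Prime), 2 * (Λ d / (d:ℝ)) =
        ∑ d ∈ Ioc 0 ⌊z⌋₊, 2 * (Λ d / (d:ℝ)) +
          ∑ d ∈ (Ioc 0 N).filter (fun d => ¬ d.Prime), 2 * (Λ d / (d:ℝ)) := sum_union_inter
    have h7 : 0 ≤ ∑ d ∈ Ioc 0 ⌊z⌋₊ ∩ (Ioc 0 N).filter (fun d => ¬ d.Prime), 2 * (Λ d / (d:ℝ)) :=
      sum_nonneg fun d _ => mul_nonneg (by norm_num) (hnn d)
    rw [mul_sum, mul_sum]
    linarith
  have h5 := lam_div_le hz1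
  have h6 : Real.log ⌊z⌋₊ ≤ Real.log z :=
    Real.log_le_log (by exact_mod_cast hz1) (Nat.floor_le (by linarith))
  have h7 := hC N hN
  linarith

end Pool.Agent.T9h52.BT.Zr
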