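import Pool.Agent.T9h52.BT.Zr4

/-!
# Rarity of primes with `χ(p) = 1` forces a real zero: conclusion
-/

set_option autoImplicit false

namespace Pool.Agent.T9h52.BT.Zr

open Finset ArithmeticFunction Filter
open Pool.Agent.T9h52.BT.Inv (chr_vals one_add_nonneg large_x)
open Pool.Agent.T9h52.BT.Ex (toC toC_apply toC_ne_one)
open scoped ArithmeticFunction

lemma exp_le_two {a : ℝ} (ha : a ≤ 1 / 2) : Real.exp a ≤ 2 := by
  have h1 : Real.exp a ≤ Real.exp (1 / 2) := Real.exp_le_exp.2 ha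
  have h2 : Real.exp (1 / 2) ≤ 1 / (1 - 1 / 2) := by
    have := Real.add_one_le_exp (-(1 / 2 : ℝ))
    rw [Real.exp_neg] at this
    have h3 := Real.exp_pos (1 / 2 : ℝ)
    have h4 : (1 / 2 : ℝ) ≤ (Real.exp (1 / 2))⁻¹ := by linarith
    rw [le_inv_comm₀ (by norm_num) h3] at h4
    norm_num at h4 ⊢
    linarith
  linarith [show (1:ℝ) / (1 - 1 / 2) = 2 by norm_num]

/-- the error term is small -/
lemma err_small {c ϑ ν η : ℝ} (hc0 : 0 < c) (hc1 : c ≤ 1 / 3) (hϑ : ϑ ≤ c / 16) (hν0 : 0 < ν)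
    (hν1 : ν ≤ 1) (hη : 0 < η) : ∃ x₀ : ℝ, 1 < x₀ ∧ ∀ x : ℝ, x₀ ≤ x → ∀ k : ℕ,
      (k : ℝ) ≤ x ^ ϑ → ∃ y : ℕ, 1 ≤ y ∧ (y : ℝ) ≤ x ^ c ∧ 2 * ν ≤ Real.log x ∧
        4 * y * (x ^ c) ^ (-(1 - ν / Real.log x)) +
        (2 + 1 / (1 - (1 - ν / Real.log x))) * (k * (y:ℝ) ^ (-(1 - ν / Real.log x))) +
        (x ^ c) ^ (1 - (1 - ν / Real.log x)) / (1 - (1 - ν / Real.log x)) *
          (k * (y:ℝ) ^ (-1 : ℝ)) +
        2 * k * (y:ℝ) ^ (-(1 - ν / Real.log x)) * (x ^ c / y) ≤ η := by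
  obtain ⟨x₀, hx₀1, hx₀⟩ := large_x (c / 8) (300 / η + 2) (η * ν / 200) (by positivity) (by positivity)
  refine ⟨x₀, hx₀1, ?_⟩
  intro x hx k hk
  obtain ⟨g1, g2, g3⟩ := hx₀ x hx
  have hx1 : 1 < x := by linarith
  have hx0 : 0 < x := by linarith
  have hη' : 0 < 300 / η := by positivity
  obtain ⟨L, hL⟩ : ∃ L, L = Real.log x := ⟨_, rfl⟩
  rw [← hL] at g2 g3 ⊢
  have hL2 : 2 ≤ L := by linarith
  have hL0 : 0 < L := by linarith
  have hνL : 0 < ν / L := by positivity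
  have hνL1 : ν / L ≤ 1 / 2 := by rw [div_le_iff₀ hL0]; linarith
  -- the quantity E
  obtain ⟨E, hE⟩ : ∃ E, E = x ^ (-(c / 8)) := ⟨_, rfl⟩
  have hE0 : 0 < E := by rw [hE]; positivity
  have hEinv : x ^ (c / 8) * E = 1 := by
    rw [hE, ← Real.rpow_add hx0]; simp
  have hE1 : E ≤ η / 300 := by
    have h1 : 300 / η ≤ x ^ (c / 8) := by linarith
    have h2 := mul_le_mul_of_nonneg_right h1 hE0.le
    rw [hEinv] at h2
    have h3 : 300 / η * E = E / (η / 300) := by field_simp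
    rw [h3, div_le_one (by positivity)] at h2
    exact h2
  have hE2 : L * E ≤ η * ν / 200 := by
    have h2 := mul_le_mul_of_nonneg_right g3 hE0.le
    rw [mul_assoc, hEinv, mul_one] at h2
    exact h2
  have hmono : ∀ a b : ℝ, a ≤ b → x ^ a ≤ x ^ b := fun a b h =>
    Real.rpow_le_rpow_of_exponent_le hx1.le h
  -- y
  have hy34 : 2 ≤ x ^ (3 * c / 4) := by
    have h1 : x ^ (c / 8) ≤ x ^ (3 * c / 4) := hmono _ _ (by linarith)
    linarith
  obtain ⟨Y, hY⟩ : ∃ Y, Y = x ^ (3 * c / 4) := ⟨_, rfl⟩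
  rw [← hY] at hy34
  have hY0 : 0 < Y := by linarith
  obtain ⟨y, hy⟩ : ∃ y : ℕ, y = ⌊Y⌋₊ := ⟨_, rfl⟩
  have hy1 : 1 ≤ y := by rw [hy]; exact (Nat.one_le_floor_iff Y).2 (by linarith)
  have hyr : (1:ℝ) ≤ y := by exact_mod_cast hy1
  have hy0 : (0:ℝ) < y := by linarith
  have hyY : (y:ℝ) ≤ Y := by rw [hy]; exact Nat.floor_le hY0.le
  have hYy : Y ≤ 2 * y := by
    have := Nat.lt_floor_add_one Y
    rw [← hy] at this
    linarith
  refine ⟨y, hy1, hyY.trans (by rw [hY]; exact hmono _ _ (by linarith)), by linarith, ?_⟩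
  have hexp : ∀ a : ℝ, 0 ≤ a → a ≤ 1 / 2 → x ^ (a * (ν / L)) ≤ 2 := by
    intro a ha ha1
    have : x ^ (a * (ν / L)) = Real.exp (a * ν) := by
      rw [Real.rpow_def_of_pos hx0, ← hL]
      congr 1; field_simp
    rw [this]
    refine exp_le_two ?_
    have := mul_le_mul ha1 hν1 hν0.le (by norm_num)
    linarith
  have f1 : (x ^ c) ^ (-(1 - ν / L)) ≤ 2 * x ^ (-c) := by
    rw [← Real.rpow_mul hx0.le]
    have : c * (-(1 - ν / L)) = -c + c * (ν / L) := by ring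
    rw [this, Real.rpow_add hx0, mul_comm]
    exact mul_le_mul_of_nonneg_right (hexp c hc0.le (by linarith)) (by positivity)
  have f2 : (y:ℝ) ^ (-(1 - ν / L)) ≤ 4 * x ^ (-(3 * c / 4)) := by
    refine (rpow_neg_le (by linarith) (by linarith) hy0 hY0 hYy).trans ?_
    rw [hY, ← Real.rpow_mul hx0.le]
    have : 3 * c / 4 * (-(1 - ν / L)) = -(3 * c / 4) + 3 * c / 4 * (ν / L) := by ring
    rw [this, Real.rpow_add hx0]
    have h1 := hexp (3 * c / 4) (by positivity) (by linarith)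
    have h2 := mul_le_mul_of_nonneg_left h1 (show 0 ≤ 2 * x ^ (-(3 * c / 4)) by positivity)
    linarith
  have f3 : (y:ℝ) ^ (-1 : ℝ) ≤ 2 * x ^ (-(3 * c / 4)) := by
    refine (rpow_neg_le one_pos le_rfl hy0 hY0 hYy).trans ?_
    rw [hY, ← Real.rpow_mul hx0.le]
    have : 3 * c / 4 * (-1) = -(3 * c / 4) := by ring
    rw [this]
  have f4 : (x ^ c) ^ (1 - (1 - ν / L)) ≤ 2 := by
    rw [← Real.rpow_mul hx0.le]
    have : c * (1 - (1 - ν / L)) = c * (ν / L) := by ring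
    rw [this]
    exact hexp c hc0.le (by linarith)
  have f5 : (1:ℝ) / (1 - (1 - ν / L)) = L / ν := by
    have : 1 - (1 - ν / L) = ν / L := by ring
    rw [this, one_div, inv_div]
  have f5' : (x ^ c) ^ (1 - (1 - ν / L)) / (1 - (1 - ν / L)) =
      (x ^ c) ^ (1 - (1 - ν / L)) * (L / ν) := by
    rw [← f5, mul_one_div]
  have f6 : x ^ c / y ≤ 2 * x ^ (c / 4) := by
    rw [div_le_iff₀ hy0]
    have h1 : x ^ c = x ^ (c / 4) * Y := by
      rw [hY, ← Real.rpow_add hx0]; congr 1; ring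
    rw [h1]
    have := mul_le_mul_of_nonneg_left hYy (show 0 ≤ x ^ (c / 4) by positivity)
    linarith
  -- the four terms
  have hLν : 0 < L / ν := by positivity
  have hLνE : L / ν * E ≤ η / 200 := by
    have : L / ν * E = (L * E) / ν := by ring
    rw [this, div_le_iff₀ hν0]
    linarith
  have hk0 : (0:ℝ) ≤ k := Nat.cast_nonneg _
  have p1 : (y:ℝ) * x ^ (-c) ≤ E := by
    calc (y:ℝ) * x ^ (-c) ≤ Y * x ^ (-c) := mul_le_mul_of_nonneg_right hyY (by positivity)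
      _ = x ^ (3 * c / 4 + -c) := by rw [hY, ← Real.rpow_add hx0]
      _ ≤ E := by rw [hE]; exact hmono _ _ (by linarith)
  have p2 : (k:ℝ) * x ^ (-(3 * c / 4)) ≤ E := by
    calc (k:ℝ) * x ^ (-(3 * c / 4)) ≤ x ^ ϑ * x ^ (-(3 * c / 4)) :=
          mul_le_mul_of_nonneg_right hk (by positivity)
      _ = x ^ (ϑ + -(3 * c / 4)) := by rw [← Real.rpow_add hx0]
      _ ≤ E := by rw [hE]; exact hmono _ _ (by linarith)
  have p3 : (k:ℝ) * x ^ (-(3 * c / 4)) * x ^ (c / 4) ≤ E := by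
    calc (k:ℝ) * x ^ (-(3 * c / 4)) * x ^ (c / 4) ≤ x ^ ϑ * x ^ (-(3 * c / 4)) * x ^ (c / 4) :=
          mul_le_mul_of_nonneg_right (mul_le_mul_of_nonneg_right hk (by positivity)) (by positivity)
      _ = x ^ (ϑ + -(3 * c / 4) + c / 4) := by rw [← Real.rpow_add hx0, ← Real.rpow_add hx0]
      _ ≤ E := by rw [hE]; exact hmono _ _ (by linarith)
  have q1 : 4 * y * (x ^ c) ^ (-(1 - ν / L)) ≤ 8 * E := by
    have := mul_le_mul_of_nonneg_left f1 (show 0 ≤ 4 * (y:ℝ) by positivity)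
    linarith
  have q2 : (2 + 1 / (1 - (1 - ν / L))) * (k * (y:ℝ) ^ (-(1 - ν / L))) ≤ (2 + L / ν) * (4 * E) := by
    rw [f5]
    refine mul_le_mul_of_nonneg_left ?_ (by positivity)
    have := mul_le_mul_of_nonneg_left f2 hk0
    linarith
  have q3 : (x ^ c) ^ (1 - (1 - ν / L)) / (1 - (1 - ν / L)) * (k * (y:ℝ) ^ (-1 : ℝ)) ≤
      (2 * (L / ν)) * (2 * E) := by
    rw [f5']
    refine mul_le_mul (mul_le_mul_of_nonneg_right f4 hLν.le) ?_ (by positivity) (by positivity)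
    have := mul_le_mul_of_nonneg_left f3 hk0
    linarith
  have q4 : 2 * k * (y:ℝ) ^ (-(1 - ν / L)) * (x ^ c / y) ≤ 16 * E := by
    calc 2 * k * (y:ℝ) ^ (-(1 - ν / L)) * (x ^ c / y)
        ≤ 2 * k * (4 * x ^ (-(3 * c / 4))) * (2 * x ^ (c / 4)) := by
          refine mul_le_mul (mul_le_mul_of_nonneg_left f2 (by positivity)) f6 (by positivity)
            (by positivity)
      _ = 16 * (k * x ^ (-(3 * c / 4)) * x ^ (c / 4)) := by ring
      _ ≤ 16 * E := by linarith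
  linarith

/-- the formula at the power `x ^ c` -/
lemma formula_pow {c ϑ ν η : ℝ} (hc0 : 0 < c) (hc1 : c ≤ 1 / 3) (hϑ : ϑ ≤ c / 16) (hν0 : 0 < ν)
    (hν1 : ν ≤ 1) (hη : 0 < η) : ∃ x₀ : ℝ, 1 < x₀ ∧ ∀ x : ℝ, x₀ ≤ x → ∀ (k : ℕ) [NeZero k]
      (χ : DirichletCharacter ℤ k), χ ≠ 1 → (k : ℝ) ≤ x ^ ϑ →
        |Sr χ (1 - ν / Real.log x) ⌊x ^ c⌋₊ - zr (1 - ν / Real.log x) * Lr χ (1 - ν / Real.log x) -
          Real.exp (c * ν) * (Lr χ 1 * (Real.log x / ν))| ≤ η := by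
  obtain ⟨x₀, hx₀1, hx₀⟩ := err_small hc0 hc1 hϑ hν0 hν1 hη
  refine ⟨x₀, hx₀1, ?_⟩
  intro x hx k _ χ hχ hk
  obtain ⟨y, hy1, hyx, hL, herr⟩ := hx₀ x hx k hk
  have hx1 : 1 < x := by linarith
  have hx0 : 0 < x := by linarith
  have hL0 : 0 < Real.log x := Real.log_pos hx1
  have hνL : 0 < ν / Real.log x := by positivity
  have hνL1 : ν / Real.log x ≤ 1 / 2 := by rw [div_le_iff₀ hL0]; linarith
  have h1 := Sr_formula hχ (σ := 1 - ν / Real.log x) (by linarith) (by linarith) hy1 hyx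
  have h2 : (x ^ c) ^ (1 - (1 - ν / Real.log x)) = Real.exp (c * ν) := by
    rw [← Real.rpow_mul hx0.le, Real.rpow_def_of_pos hx0]
    congr 1
    field_simp
    ring
  have h3 : (1:ℝ) - (1 - ν / Real.log x) = ν / Real.log x := by ring
  have h4 : Real.exp (c * ν) * (Lr χ 1 * (Real.log x / ν)) =
      (x ^ c) ^ (1 - (1 - ν / Real.log x)) / (1 - (1 - ν / Real.log x)) * Lr χ 1 := by
    rw [h2, h3]
    field_simp
  rw [h4]
  exact h1.trans herr

end Pool.Agent.T9h52.BT.Zr
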