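import Pool.Agent.T9h52.BT.Zr5

/-!
# Rarity of primes with `χ(p) = 1` forces a real zero: conclusion
-/

set_option autoImplicit false

namespace Pool.Agent.T9h52.BT.Zr

open Finset ArithmeticFunction Filter
open Pool.Agent.T9h52.BT.Inv (chr_vals one_add_nonneg large_x)
open Pool.Agent.T9h52.BT.Ex (toC toC_apply toC_ne_one)
open scoped ArithmeticFunction

/-- the numerical contradiction -/
lemma final_num {ν S1 S2 z0 Λ1 c : ℝ} (hν0 : 0 < ν) (hν1 : ν ≤ 1) (hS1 : 1 ≤ S1) (hz : z0 ≤ 0)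
    (h1 : |S1 - z0 - Real.exp (1 / 30 * ν) * Λ1| ≤ ν / 100)
    (h2 : |S2 - z0 - Real.exp (1 / 3 * ν) * Λ1| ≤ ν / 100)
    (hc : c ≤ ν / 10) (hc0 : 0 ≤ c) (h3 : S2 - S1 ≤ c * S2) (h12 : S1 ≤ S2) : False := by
  rw [abs_le] at h1 h2
  have e1 : Real.exp (1 / 30 * ν) ≤ 2 := exp_le_two (by linarith)
  have e2 : Real.exp (1 / 3 * ν) ≤ 2 := exp_le_two (by linarith)
  have e0 : 1 ≤ Real.exp (1 / 30 * ν) := Real.one_le_exp (by positivity)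
  have e3 : 3 / 10 * ν ≤ Real.exp (1 / 3 * ν) - Real.exp (1 / 30 * ν) := by
    have h4 : Real.exp (1 / 3 * ν) = Real.exp (1 / 30 * ν) * Real.exp (3 / 10 * ν) := by
      rw [← Real.exp_add]; congr 1; ring
    have h5 := Real.add_one_le_exp (3 / 10 * ν)
    rw [h4]
    nlinarith
  have e4 : Real.exp (1 / 3 * ν) ≤ 3 / 2 := by
    have h5 := Real.add_one_le_exp (-(1 / 3 * ν))
    rw [Real.exp_neg] at h5
    have h6 := Real.exp_pos (1 / 3 * ν)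
    have h7 : (2 / 3 : ℝ) ≤ (Real.exp (1 / 3 * ν))⁻¹ := by linarith
    rw [le_inv_comm₀ (by norm_num) h6] at h7
    norm_num at h7 ⊢
    linarith
  have hΛ : 2 / 5 ≤ Λ1 := by
    by_contra hcon
    push Not at hcon
    have : Real.exp (1 / 30 * ν) * Λ1 < 9 / 10 := by
      rcases le_or_gt Λ1 0 with h | h
      · have := mul_nonpos_of_nonneg_of_nonpos (by linarith : 0 ≤ Real.exp (1 / 30 * ν)) h
        linarith
      · nlinarith
    linarith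
  have h4 : c * S2 ≤ ν / 10 * S2 := mul_le_mul_of_nonneg_right hc (by linarith)
  have h5 : S2 ≤ 3 / 2 * Λ1 + ν / 100 := by
    have := mul_le_mul_of_nonneg_right e4 (by linarith : 0 ≤ Λ1)
    linarith
  have h6 : ν / 10 * S2 ≤ ν / 10 * (3 / 2 * Λ1 + ν / 100) :=
    mul_le_mul_of_nonneg_left h5 (by positivity)
  have h7 : 3 / 10 * ν * Λ1 ≤ (Real.exp (1 / 3 * ν) - Real.exp (1 / 30 * ν)) * Λ1 :=
    mul_le_mul_of_nonneg_right e3 (by linarith)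
  nlinarith

theorem zero_of_rare (ν : ℝ) (hν0 : 0 < ν) (hν1 : ν ≤ 1) : ∃ x₀ : ℝ, 1 < x₀ ∧ ∀ x : ℝ, x₀ ≤ x →
    ∀ (k : ℕ) [NeZero k] (χ : DirichletCharacter ℤ k), χ ≠ 1 → (k : ℝ) ≤ x ^ (ν / 4000) →
      ∑ p ∈ (Icc 1 ⌊x ^ (1 / 3 : ℝ)⌋₊).filter (fun p : ℕ => p.Prime ∧ x ^ (ν / 4000) < p),
          (1 + ((χ (p : ZMod k) : ℤ) : ℝ)) * (Real.log p / p) ≤ ν / 4000 * Real.log x →
      ∃ β : ℝ, 1 - ν / Real.log x ≤ β ∧ β < 1 ∧ (toC χ).LFunction (β : ℂ) = 0 := by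
  obtain ⟨C, hC0, hC⟩ := T_bound
  obtain ⟨x₁, hx₁1, h1⟩ := formula_pow (c := 1 / 30) (ϑ := ν / 4000) (ν := ν) (η := ν / 100)
    (by norm_num) (by norm_num) (by linarith) hν0 hν1 (by positivity)
  obtain ⟨x₂, hx₂1, h2⟩ := formula_pow (c := 1 / 3) (ϑ := ν / 4000) (ν := ν) (η := ν / 100)
    (by norm_num) (by norm_num) (by linarith) hν0 hν1 (by positivity)
  obtain ⟨x₃, hx₃1, h3⟩ := large_x 1 (10 * C * 120 / ν + 10) 1 one_pos one_pos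
  refine ⟨max x₁ (max x₂ x₃), lt_of_lt_of_le hx₁1 (le_max_left _ _), ?_⟩
  intro x hx k _ χ hχ hk hrare
  have hxx₁ : x₁ ≤ x := (le_max_left _ _).trans hx
  have hxx₂ : x₂ ≤ x := ((le_max_left _ _).trans (le_max_right _ _)).trans hx
  have hxx₃ : x₃ ≤ x := ((le_max_right _ _).trans (le_max_right _ _)).trans hx
  have hx1 : 1 < x := by linarith
  have hx0 : 0 < x := by linarith
  have g1 := h1 x hxx₁ k χ hχ hk
  have g2 := h2 x hxx₂ k χ hχ hk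
  have hLC := (h3 x hxx₃).2.1
  obtain ⟨L, hL⟩ : ∃ L, L = Real.log x := ⟨_, rfl⟩
  rw [← hL] at g1 g2 hLC hrare ⊢
  have hCν : 0 ≤ 10 * C * 120 / ν := by positivity
  have hL10 : 10 ≤ L := by linarith
  have hL0 : 0 < L := by linarith
  have hνL : 0 < ν / L := by positivity
  have hνL1 : ν / L ≤ 1 / 2 := by rw [div_le_iff₀ hL0]; linarith
  by_contra hcon
  push Not at hcon
  have hLpos : 0 < Lr χ (1 - ν / L) := by
    refine Pool.Agent.H307R2.L_pos (toC_sq χ) (toC_ne_one hχ) (by linarith) (by linarith) ?_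
    intro β hβ hβ1
    exact hcon β hβ hβ1
  have hz : zr (1 - ν / L) < 0 := (Pool.Agent.H307R2.zeta_neg (by linarith) (by linarith)).1
  have hzL : zr (1 - ν / L) * Lr χ (1 - ν / L) ≤ 0 :=
    mul_nonpos_of_nonpos_of_nonneg hz.le hLpos.le
  have hmono : ∀ a b : ℝ, a ≤ b → x ^ a ≤ x ^ b := fun a b h =>
    Real.rpow_le_rpow_of_exponent_le hx1.le h
  have hone : ∀ a : ℝ, 0 ≤ a → 1 ≤ x ^ a := fun a h => Real.one_le_rpow hx1.le h
  have hfl1 : 1 ≤ ⌊x ^ (1 / 30 : ℝ)⌋₊ := (Nat.one_le_floor_iff _).2 (hone _ (by norm_num))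
  have hfl2 : 1 ≤ ⌊x ^ (1 / 3 : ℝ)⌋₊ := (Nat.one_le_floor_iff _).2 (hone _ (by norm_num))
  have hfl12 : ⌊x ^ (1 / 30 : ℝ)⌋₊ ≤ ⌊x ^ (1 / 3 : ℝ)⌋₊ :=
    Nat.floor_le_floor (hmono _ _ (by norm_num))
  -- the weighted sum
  have hT := hC k χ (ν / 4000 * L) (x ^ (ν / 4000)) ⌊x ^ (1 / 3 : ℝ)⌋₊ (hone _ (by positivity))
    hfl2 (by positivity) hrare
  have hlogz : Real.log (x ^ (ν / 4000)) = ν / 4000 * L := by rw [Real.log_rpow hx0, hL]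
  rw [hlogz] at hT
  have hT2 : ∑ d ∈ Ioc 0 ⌊x ^ (1 / 3 : ℝ)⌋₊, (1 + ((χ (d : ZMod k) : ℤ) : ℝ)) *
      (d:ℝ) ^ (-(1 - ν / L)) * Λ d ≤ 2 * (ν / 4000 * L + 2 * (ν / 4000 * L) + C) := by
    have h4 : ∀ d ∈ Ioc 0 ⌊x ^ (1 / 3 : ℝ)⌋₊, (1 + ((χ (d : ZMod k) : ℤ) : ℝ)) *
        (d:ℝ) ^ (-(1 - ν / L)) * Λ d ≤ 2 * ((1 + ((χ (d : ZMod k) : ℤ) : ℝ)) * (Λ d / d)) := by
      intro d hd
      rw [mem_Ioc] at hd
      have hd0 : (0:ℝ) < d := by exact_mod_cast hd.1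
      have hd1 : (1:ℝ) ≤ d := by exact_mod_cast hd.1
      have hdx : (d:ℝ) ≤ x ^ (1 / 3 : ℝ) := (Nat.le_floor_iff (by positivity)).1 hd.2
      have h5 : (d:ℝ) ^ (-(1 - ν / L)) ≤ 2 / d := by
        have e1 : (d:ℝ) ^ (-(1 - ν / L)) = (d:ℝ) ^ (ν / L) / d := by
          rw [eq_div_iff hd0.ne', ← Real.rpow_add_one hd0.ne']
          congr 1; ring
        rw [e1]
        refine div_le_div_of_nonneg_right ?_ hd0.le
        calc (d:ℝ) ^ (ν / L) ≤ (x ^ (1 / 3 : ℝ)) ^ (ν / L) :=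
              Real.rpow_le_rpow hd0.le hdx hνL.le
          _ = Real.exp (1 / 3 * ν) := by
              rw [← Real.rpow_mul hx0.le, Real.rpow_def_of_pos hx0, ← hL]
              congr 1
              field_simp
          _ ≤ 2 := exp_le_two (by linarith)
      have h6 : 0 ≤ (1 + ((χ (d : ZMod k) : ℤ) : ℝ)) := one_add_nonneg _ _
      have h7 : 0 ≤ Λ d := vonMangoldt_nonneg
      calc (1 + ((χ (d : ZMod k) : ℤ) : ℝ)) * (d:ℝ) ^ (-(1 - ν / L)) * Λ d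
          ≤ (1 + ((χ (d : ZMod k) : ℤ) : ℝ)) * (2 / d) * Λ d :=
            mul_le_mul_of_nonneg_right (mul_le_mul_of_nonneg_left h5 h6) h7
        _ = 2 * ((1 + ((χ (d : ZMod k) : ℤ) : ℝ)) * (Λ d / d)) := by ring
    refine (sum_le_sum h4).trans ?_
    rw [← mul_sum]
    linarith
  have hgrow := growth χ (1 - ν / L) hfl12 (u := 1 / 30 * L) (by
    intro n hn
    have h5 : x ^ (1 / 30 : ℝ) < n := (Nat.floor_lt (by positivity)).1 hn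
    have h6 := Real.log_le_log (by positivity) h5.le
    rw [Real.log_rpow hx0, ← hL] at h6
    exact h6) hT2
  obtain ⟨S1, hS1⟩ : ∃ S, S = Sr χ (1 - ν / L) ⌊x ^ (1 / 30 : ℝ)⌋₊ := ⟨_, rfl⟩
  obtain ⟨S2, hS2⟩ : ∃ S, S = Sr χ (1 - ν / L) ⌊x ^ (1 / 3 : ℝ)⌋₊ := ⟨_, rfl⟩
  have hS1one : 1 ≤ S1 := by rw [hS1]; exact one_le_Sr χ _ hfl1
  have hS12 : S1 ≤ S2 := by rw [hS1, hS2]; exact Sr_mono χ _ hfl12
  rw [← hS1, ← hS2] at hgrow
  rw [← hS1] at g1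
  rw [← hS2] at g2
  refine final_num (c := 60 * (3 * (ν / 4000) + C / L)) hν0 hν1 hS1one hzL g1 g2 ?_ (by positivity)
    ?_ hS12
  · have h5 : C / L ≤ ν / 1200 := by
      rw [div_le_iff₀ hL0]
      have h6 : 10 * C * 120 / ν ≤ L := by linarith
      rw [div_le_iff₀ hν0] at h6
      linarith
    linarith
  · have h6 : L * (S2 - S1) ≤ L * (60 * (3 * (ν / 4000) + C / L) * S2) := by
      have h7 : L * (60 * (3 * (ν / 4000) + C / L) * S2) =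
          60 * (3 * (ν / 4000) * L + C) * S2 := by field_simp
      rw [h7]
      linarith
    exact le_of_mul_le_mul_left h6 hL0

end Pool.Agent.T9h52.BT.Zr
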